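import Pool.Agent.Lib_helper75.CF.Good

/-!
# 100 percent of the integers of a cubic field, part 1: definitions and the Pell relation
-/

set_option autoImplicit false

section

namespace Pool.Agent.CUB

open Polynomial Pool.Agent.CF

/-! ### vectors with three coordinates over a commutative ring -/

section
variable {A : Type*} [CommRing A]

/-- the bracket: determinant of the last two coordinates -/
def br (a c : Fin 3 → A) : A := a 1 * c 2 - a 2 * c 1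

/-- the determinant -/
def d3 (a c e : Fin 3 → A) : A := a 0 * br c e - c 0 * br a e + e 0 * br a c

variable (a a1 c c1 : Fin 3 → A)

def et0 : A := d3 c1 a a1
def et1 : A := d3 c a a1
def xi0 : A := d3 c c1 a1
def xi1 : A := d3 c c1 a
def th : A := br a c1 - br a1 c

/-- the discriminant of the Pell conic -/
def DD : A := th a a1 c c1 ^ 2 - 4 * br a a1 * br c c1

def G1 : A := -th a a1 c c1 * et1 a a1 c - 2 * br a a1 * xi1 a c c1
def G2 : A := (br a c1 + br a1 c) * et0 a a1 c1 - 2 * br a1 c1 * et1 a a1 c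
def H1 : A := -th a a1 c c1 * xi1 a c c1 - 2 * br c c1 * et1 a a1 c
def H2 : A := -(br a c1 + br a1 c) * xi0 a1 c c1 + 2 * br a1 c1 * xi1 a c c1

variable (x x' : A)

/-- the four coefficients `e` -/
def ee : Fin 4 → A :=
  ![et0 a a1 c1 - x * et1 a a1 c, -(xi0 a1 c c1 - x' * xi1 a c c1),
    et0 a a1 c1 - x' * et1 a a1 c, -(xi0 a1 c c1 - x * xi1 a c c1)]

/-- the four coefficients `f` -/
def ff : Fin 4 → A :=
  ![x * G1 a a1 c c1 + G2 a a1 c c1, x' * H1 a a1 c c1 + H2 a a1 c c1,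
    x' * G1 a a1 c c1 + G2 a a1 c c1, x * H1 a a1 c c1 + H2 a a1 c c1]

/-- the linear form of the relation -/
def LL (X : Fin 4 → A) (i : Fin 3) : A :=
  (x * X 1 - x' * X 3) * a i - (X 1 - X 3) * a1 i + (x' * X 0 - x * X 2) * c i
    - (X 0 - X 2) * c1 i

end

/-! ### points of boxes in the plane -/

/-- determinant of two vectors -/
def dt (p q : ℤ × ℤ) : ℤ := p.1 * q.2 - p.2 * q.1

/-- the point `z + s p + t q` -/
def pt (z p q : ℤ × ℤ) (s t : ℤ) : ℤ × ℤ := (z.1 + s * p.1 + t * q.1, z.2 + s * p.2 + t * q.2)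

open Classical in
/-- the number of `0 ≤ s, t < L` with `z + s p + t q ∈ S` -/
noncomputable def cnt (S : Set (ℤ × ℤ)) (z p q : ℤ × ℤ) (L : ℕ) : ℕ :=
  ((Finset.range L ×ˢ Finset.range L).filter
    (fun w : ℕ × ℕ => pt z p q (w.1 : ℤ) (w.2 : ℤ) ∈ S)).card

/-- the box density of `S` is at most `β`, uniformly -/
def UB (S : Set (ℤ × ℤ)) (β : ℝ) : Prop :=
  ∀ p q : ℤ × ℤ, dt p q ≠ 0 → ∀ K ε : ℝ, 0 < ε → ∃ L₀ : ℕ, ∀ L : ℕ, L₀ ≤ L → ∀ z : ℤ × ℤ,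
    |(z.1 : ℝ)| ≤ K * L → |(z.2 : ℝ)| ≤ K * L → (cnt S z p q L : ℝ) ≤ (β + ε) * (L : ℝ) ^ 2

open Classical in
/-- `S` has density zero -/
def DZ (S : Set (ℤ × ℤ)) : Prop :=
  ∀ ε : ℝ, 0 < ε → ∃ H₀ : ℕ, ∀ H : ℕ, H₀ ≤ H →
    (((Finset.Icc (-(H : ℤ)) H ×ˢ Finset.Icc (-(H : ℤ)) H).filter (fun z => z ∈ S)).card : ℝ) ≤
      ε * (H : ℝ) ^ 2

/-- the box in three dimensions -/
noncomputable def box3 (l : ℕ) : Finset (ℤ × ℤ × ℤ) :=
  Finset.Ico 0 (l : ℤ) ×ˢ (Finset.Ico 0 (l : ℤ) ×ˢ Finset.Ico 0 (l : ℤ))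

open Classical in
/-- number of points of the box with a property -/
noncomputable def dens (l : ℕ) (P : ℤ × ℤ × ℤ → Prop) : ℕ := ((box3 l).filter P).card

/-! ### the sets of elements with (almost) constant sign -/

/-- only `o(log N)` of the `n ≤ N` satisfy `P` -/
def Few (P : ℕ → Prop) : Prop :=
  ∀ δ : ℝ, 0 < δ → ∃ N₀ : ℕ, ∀ N : ℕ, N₀ ≤ N →
    (({n : ℕ | 1 ≤ n ∧ n ≤ N ∧ P n}.ncard : ℝ)) ≤ δ * Real.log N

/-- each sign is taken by `λ(f(n))` for at least `δ log N` of the integers `1 ≤ n ≤ N`, for some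
`δ > 0` and arbitrarily large `N` -/
def BothSignsLog (f : ℤ[X]) : Prop :=
  ∀ s : ℤ, s = 1 ∨ s = -1 → ∃ δ : ℝ, 0 < δ ∧ ∀ N₀ : ℕ, ∃ N : ℕ, N₀ ≤ N ∧
    δ * Real.log N ≤ ({n : ℕ | 1 ≤ n ∧ n ≤ N ∧ liouville (f.eval (n : ℤ)) = s}.ncard : ℝ)

section
variable {R : Type*} [CommRing R] (b : Module.Basis (Fin 3) ℤ R)

/-- coordinates as a vector -/
noncomputable def rv (x : R) : Fin 3 → ℤ := fun i => b.repr x i

/-- the class of an element modulo `ℤ` -/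
noncomputable def cls (x : R) : ℤ × ℤ := (b.repr x 1, b.repr x 2)

/-- the classes `z` with `λ(N(n + z)) = s` for almost all `n` (`o(log N)` exceptions) -/
def SS (s : ℤ) : Set (ℤ × ℤ) :=
  {z | Few (fun n : ℕ => liouville (Algebra.norm ℤ ((n : R) + el b z.1 z.2)) ≠ s)}

/-- the pair is good: the minimal polynomial is a cubic which takes both signs -/
def GoodL (q : ℤ × ℤ) : Prop :=
  (minpoly ℤ (el b q.1 q.2)).natDegree = 3 ∧ BothSignsLog (minpoly ℤ (el b q.1 q.2))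

end

/-! ### the two families -/

/-- the affine family of classes -/
def vl (T Y J n : ℤ) (u : ℤ × ℤ) : ℤ × ℤ := (T * u.1 - Y * n, T * u.2 - J * u.1)

/-- its linear part in the coordinates `(n, s, t)`, `u = s p + t q` -/
def fam (p q : ℤ × ℤ) (T Y J : ℤ) : (ℤ × ℤ × ℤ) →+ (ℤ × ℤ) where
  toFun w := vl T Y J w.1 (pt 0 p q w.2.1 w.2.2)
  map_zero' := by simp [vl, pt]
  map_add' v w := by
    ext
    · simp [vl, pt]; ring
    · simp [vl, pt]; ring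

/-- the generator of the kernel of `fam p q (D t) (N Y') (N D I')`, `e = dt p q / N = ±1` -/
def kap (p q : ℤ × ℤ) (N D t Y' I' e : ℤ) : ℤ × ℤ × ℤ :=
  (D * t ^ 2, e * Y' * (t * q.2 - N * I' * q.1), e * Y' * (N * I' * p.1 - t * p.2))

/-- the discriminant of the Pell conic in coordinates, divided by `N ^ 2` -/
def Dq (I : ℤ) (n : ℤ) (u : ℤ × ℤ) (m : ℤ) (w : ℤ × ℤ) : ℤ :=
  (u.2 * m - n * w.2) ^ 2 - 4 * I * (u.1 * w.2 - u.2 * w.1) * (n * w.1 - u.1 * m)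

section
variable {R : Type*} [CommRing R] (b : Module.Basis (Fin 3) ℤ R)

/-- the element with parameters `(n, u)` -/
noncomputable def elc (A₀ A' r P n : ℤ) (u : ℤ × ℤ) : R :=
  ((n * P - (A₀ - r) * u.1 - A' * u.2 : ℤ) : R) + el b u.1 u.2

/-- the structure constants of a basis `1, g, h`: `g² = A₀ g + I h + E₀`, `g h = A' g + r h + E'`
with `I` dividing `r² - A₀ r - E₀` and `r A' + E'` -/
structure SC (A₀ E₀ A' r E' I : ℤ) : Prop where
  h1 : b 1 * b 1 = (A₀ : R) * b 1 + (I : R) * b 2 + (E₀ : R)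
  h2 : b 1 * b 2 = (A' : R) * b 1 + (r : R) * b 2 + (E' : R)
  h3 : I ∣ r ^ 2 - A₀ * r - E₀
  h4 : I ∣ r * A' + E'

end

/-- near-maximal configuration: the box `z + s p + t q`, `0 ≤ s, t < L`, and the parts where the
second coordinate is divisible by `p₁`, by `m₂` -/
structure NMx (S : Set (ℤ × ℤ)) (β ε K : ℝ) (p q : ℤ × ℤ) (p₁ m₂ : ℕ) (L : ℕ) (z : ℤ × ℤ) :
    Prop where
  hz1 : |(dt z q : ℝ)| ≤ K * L
  hz2 : |(dt p z : ℝ)| ≤ K * L
  n0 : (β - ε) * (L : ℝ) ^ 2 ≤ cnt S z p q L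
  n1 : (β - ε) * ((L : ℝ) ^ 2 / p₁) ≤ cnt (S ∩ {y | (p₁ : ℤ) ∣ y.2}) z p q L
  n2 : (β - ε) * ((L : ℝ) ^ 2 / m₂) ≤ cnt (S ∩ {y | (m₂ : ℤ) ∣ y.2}) z p q L

end Pool.Agent.CUB

end

section

namespace Pool.Agent.CUB

open Polynomial Pool.Agent.CF

/-- the box density of all members of the family is at most `β`, uniformly -/
def UBF (F : Set (Set (ℤ × ℤ))) (β : ℝ) : Prop :=
  ∀ p q : ℤ × ℤ, dt p q ≠ 0 → ∀ K ε : ℝ, 0 < ε → ∃ L₀ : ℕ, ∀ L : ℕ, L₀ ≤ L → ∀ S ∈ F,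
    ∀ z : ℤ × ℤ, |(z.1 : ℝ)| ≤ K * L → |(z.2 : ℝ)| ≤ K * L →
      (cnt S z p q L : ℝ) ≤ (β + ε) * (L : ℝ) ^ 2

open Classical in
/-- the members of the family have density zero, uniformly -/
def DZF (F : Set (Set (ℤ × ℤ))) : Prop :=
  ∀ ε : ℝ, 0 < ε → ∃ H₀ : ℕ, ∀ H : ℕ, H₀ ≤ H → ∀ S ∈ F,
    (((Finset.Icc (-(H : ℤ)) H ×ˢ Finset.Icc (-(H : ℤ)) H).filter (fun z => z ∈ S)).card : ℝ) ≤
      ε * (H : ℝ) ^ 2

section
variable {R : Type*} [CommRing R] (b : Module.Basis (Fin 3) ℤ R)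

/-- the classes `z` with `λ(N(n + z)) = s` for all but fewer than `δ log N` of the `n ≤ N` -/
def SN (s : ℤ) (N : ℕ) (δ : ℝ) : Set (ℤ × ℤ) :=
  {z | ({n : ℕ | 1 ≤ n ∧ n ≤ N ∧
    liouville (Algebra.norm ℤ ((n : R) + el b z.1 z.2)) ≠ s}.ncard : ℝ) < δ * Real.log N}

/-- four classes which cannot all have (almost) constant sign -/
def Forb (s : ℤ) (z₁ z₂ z₃ z₄ : ℤ × ℤ) : Prop :=
  ∃ δ : ℝ, 0 < δ ∧ ∃ N₀ : ℕ, ∀ N : ℕ, N₀ ≤ N →
    ¬ (z₁ ∈ SN b s N δ ∧ z₂ ∈ SN b s N δ ∧ z₃ ∈ SN b s N δ ∧ z₄ ∈ SN b s N δ)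

/-- the sets without forbidden quadruples -/
def Fr (s : ℤ) : Set (Set (ℤ × ℤ)) :=
  {S | ∀ z₁ ∈ S, ∀ z₂ ∈ S, ∀ z₃ ∈ S, ∀ z₄ ∈ S, ¬ Forb b s z₁ z₂ z₃ z₄}

end

end Pool.Agent.CUB

end

section

namespace Pool.Agent.CUB

open Polynomial Pool.Agent.CF

/-- the box density of the members of the families is at most `β`, in the limit -/
def UBG (F : ℕ → Set (Set (ℤ × ℤ))) (β : ℝ) : Prop :=
  ∀ p q : ℤ × ℤ, dt p q ≠ 0 → ∀ K ε : ℝ, 0 < ε → ∃ L₀ : ℕ, ∀ L : ℕ, L₀ ≤ L → ∀ S ∈ F L₀,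
    ∀ z : ℤ × ℤ, |(z.1 : ℝ)| ≤ K * L → |(z.2 : ℝ)| ≤ K * L →
      (cnt S z p q L : ℝ) ≤ (β + ε) * (L : ℝ) ^ 2

open Classical in
/-- the members of the families have density zero, in the limit -/
def DZG (F : ℕ → Set (Set (ℤ × ℤ))) : Prop :=
  ∀ ε : ℝ, 0 < ε → ∃ H₀ : ℕ, ∀ H : ℕ, H₀ ≤ H → ∀ S ∈ F H₀,
    (((Finset.Icc (-(H : ℤ)) H ×ˢ Finset.Icc (-(H : ℤ)) H).filter (fun z => z ∈ S)).card : ℝ) ≤
      ε * (H : ℝ) ^ 2

end Pool.Agent.CUB

end

section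

namespace Pool.Agent.CUB

open Polynomial Pool.Agent.CF

/-- the classes `z` with `λ(N(n + z)) = s` for all `n` with `N ≤ n ≤ N exp T` -/
def SW {R : Type*} [CommRing R] (b : Module.Basis (Fin 3) ℤ R) (s : ℤ) (N : ℕ) (T : ℝ) :
    Set (ℤ × ℤ) :=
  {z | ∀ n : ℕ, N ≤ n → (n : ℝ) ≤ N * Real.exp T →
    liouville (Algebra.norm ℤ ((n : R) + el b z.1 z.2)) = s}

end Pool.Agent.CUB

end

section

namespace Pool.Agent.CUB

open Pool.Agent.CF

section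
variable {A : Type*} [CommRing A] (a a1 c c1 : Fin 3 → A) (x x' : A)

theorem plk : br a a1 * br c c1 - br a c * br a1 c1 + br a c1 * br a1 c = 0 := by
  unfold br; ring

/-- the Cramer relation -/
theorem pe_e (i : Fin 3) : LL a a1 c c1 x x' (ee a a1 c c1 x x') i = 0 := by
  fin_cases i <;> simp [LL, ee, et0, et1, xi0, xi1, d3, br] <;> ring

/-- common value -/
def WW : A := et0 a a1 c1 * xi1 a c c1 - et1 a a1 c * xi0 a1 c c1

theorem pe_f0 : LL a a1 c c1 x x' (ff a a1 c c1 x x') 0 = 2 * (x - x') * WW a a1 c c1 := by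
  simp only [LL, ff, Matrix.cons_val_zero, Matrix.cons_val_one, Matrix.cons_val, WW, G1, G2, H1, H2,
    th, et0, et1, xi0, xi1, d3]
  have e2 : br c1 a = - br a c1 := by unfold br; ring
  have e3 : br c1 a1 = - br a1 c1 := by unfold br; ring
  have e4 : br c a = - br a c := by unfold br; ring
  have e5 : br c a1 = - br a1 c := by unfold br; ring
  simp only [e2, e3, e4, e5]
  generalize br a a1 = u1
  generalize br a c = u2
  generalize br a c1 = u3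
  generalize br a1 c = u4
  generalize br a1 c1 = u5
  generalize br c c1 = u6
  ring

theorem pe_f1 (i : Fin 3) (hi : i ≠ 0) : LL a a1 c c1 x x' (ff a a1 c c1 x x') i = 0 := by
  simp only [LL, ff, Matrix.cons_val_zero, Matrix.cons_val_one, Matrix.cons_val, G1, G2, H1, H2,
    th, et0, et1, xi0, xi1, d3]
  have e2 : br c1 a = - br a c1 := by unfold br; ring
  have e3 : br c1 a1 = - br a1 c1 := by unfold br; ring
  have e4 : br c a = - br a c := by unfold br; ring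
  have e5 : br c a1 = - br a1 c := by unfold br; ring
  simp only [e2, e3, e4, e5]
  obtain rfl | rfl : i = 1 ∨ i = 2 := by
    fin_cases i
    · exact absurd rfl hi
    · exact Or.inl rfl
    · exact Or.inr rfl
  · unfold br
    ring
  · unfold br
    ring

theorem pe_GH : G1 a a1 c c1 * H2 a a1 c c1 - G2 a a1 c c1 * H1 a a1 c c1 =
    DD a a1 c c1 * WW a a1 c c1 := by
  have h := plk a a1 c c1
  simp only [WW, DD, G1, G2, H1, H2, th, et0, et1, xi0, xi1, d3]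
  have e2 : br c1 a = - br a c1 := by unfold br; ring
  have e3 : br c1 a1 = - br a1 c1 := by unfold br; ring
  have e4 : br c a = - br a c := by unfold br; ring
  have e5 : br c a1 = - br a1 c := by unfold br; ring
  simp only [e2, e3, e4, e5]
  generalize br a a1 = u1 at *
  generalize br a c = u2 at *
  generalize br a c1 = u3 at *
  generalize br a1 c = u4 at *
  generalize br a1 c1 = u5 at *
  generalize br c c1 = u6 at *
  linear_combination ((4)*u1*u2*(c1 0)^2 + (-2)*u1*u3*(c 0)*(c1 0) + (-2)*u1*u4*(c 0)*(c1 0) + (4)*u1*u6*(a 0)*(c1 0) + (-4)*u1*u6*(a1 0)*(c 0) + (-4)*u2*u3*(a1 0)*(c1 0) + (4)*u2*u4*(a1 0)*(c1 0) + (4)*u2*u6*(a1 0)^2 + (2)*u3^2*(a1 0)*(c 0) + (2)*u3*u4*(a 0)*(c1 0) + (-2)*u3*u4*(a1 0)*(c 0) + (-2)*u3*u6*(a 0)*(a1 0) + (-2)*u4^2*(a 0)*(c1 0) + (-2)*u4*u6*(a 0)*(a1 0)) * h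

theorem pe_EG : et0 a a1 c1 * H1 a a1 c c1 + et1 a a1 c * H2 a a1 c c1 +
    xi0 a1 c c1 * G1 a a1 c c1 + xi1 a c c1 * G2 a a1 c c1 = 0 := by
  have h := plk a a1 c c1
  simp only [G1, G2, H1, H2, th, et0, et1, xi0, xi1, d3]
  have e2 : br c1 a = - br a c1 := by unfold br; ring
  have e3 : br c1 a1 = - br a1 c1 := by unfold br; ring
  have e4 : br c a = - br a c := by unfold br; ring
  have e5 : br c a1 = - br a1 c := by unfold br; ring
  simp only [e2, e3, e4, e5]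
  generalize br a a1 = u1 at *
  generalize br a c = u2 at *
  generalize br a c1 = u3 at *
  generalize br a1 c = u4 at *
  generalize br a1 c1 = u5 at *
  generalize br c c1 = u6 at *
  linear_combination ((-2)*u1*(c 0)*(c1 0) + (2)*u3*(a1 0)*(c 0) + (-2)*u4*(a 0)*(c1 0) + (-2)*u6*(a 0)*(a1 0)) * h

/-- The relation in the ring. -/
theorem pe_rel {X y : A} (hP : X ^ 2 - DD a a1 c c1 * y ^ 2 = 1) (i : Fin 3) :
    LL a a1 c c1 x x' (fun j => 2 * y * (X * ee a a1 c c1 x x' j + y * ff a a1 c c1 x x' j)) i =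
    if i = 0 then
      (fun j => 2 * y * (X * ee a a1 c c1 x x' j + y * ff a a1 c c1 x x' j)) 2 *
      (fun j => 2 * y * (X * ee a a1 c c1 x x' j + y * ff a a1 c c1 x x' j)) 3 -
      (fun j => 2 * y * (X * ee a a1 c c1 x x' j + y * ff a a1 c c1 x x' j)) 0 *
      (fun j => 2 * y * (X * ee a a1 c c1 x x' j + y * ff a a1 c c1 x x' j)) 1
    else 0 := by
  have h1 := pe_e a a1 c c1 x x' i
  have hlin : LL a a1 c c1 x x'
      (fun j => 2 * y * (X * ee a a1 c c1 x x' j + y * ff a a1 c c1 x x' j)) i =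
      2 * y * X * LL a a1 c c1 x x' (ee a a1 c c1 x x') i +
      2 * y ^ 2 * LL a a1 c c1 x x' (ff a a1 c c1 x x') i := by
    unfold LL
    ring
  rw [hlin, h1]
  split_ifs with hi
  · subst hi
    rw [pe_f0]
    have h2 := pe_GH a a1 c c1
    have h3 := pe_EG a a1 c c1
    simp only [ee, ff, Matrix.cons_val_zero, Matrix.cons_val_one, Matrix.cons_val]
    have hW : WW a a1 c c1 = et0 a a1 c1 * xi1 a c c1 - et1 a a1 c * xi0 a1 c c1 := rfl
    generalize WW a a1 c c1 = W at *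
    generalize G1 a a1 c c1 = g1 at *
    generalize G2 a a1 c c1 = g2 at *
    generalize H1 a a1 c c1 = k1 at *
    generalize H2 a a1 c c1 = k2 at *
    generalize et0 a a1 c1 = m0 at *
    generalize et1 a a1 c = m1 at *
    generalize xi0 a1 c c1 = n0 at *
    generalize xi1 a c c1 = n1 at *
    generalize DD a a1 c c1 = D at *
    linear_combination (4 * y ^ 2 * (x - x')) * (-W * hP + X ^ 2 * hW - X * y * h3 + y ^ 2 * h2)
  · rw [pe_f1 _ _ _ _ _ _ _ hi]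
    ring

end

section
variable {R : Type*} [CommRing R] (b : Module.Basis (Fin 3) ℤ R)

theorem rv_zero_iff (hb : b 0 = 1) (x : R) (m : ℤ) (h0 : rv b x 0 = m) (h1 : rv b x 1 = 0)
    (h2 : rv b x 2 = 0) : x = (m : R) := by
  have h := decomp hb x
  unfold rv at h0 h1 h2
  rw [h0, h1, h2] at h
  rw [h]
  push_cast
  ring

/-- **The Pell relation.** -/
theorem pell_rel (hb : b 0 = 1) (v a c : R) (x x' X y : ℤ)
    (hP : X ^ 2 - DD (rv b a) (rv b (v * a)) (rv b c) (rv b (v * c)) * y ^ 2 = 1) :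
    let Xi : Fin 4 → ℤ := fun j => 2 * y *
      (X * ee (rv b a) (rv b (v * a)) (rv b c) (rv b (v * c)) x x' j +
        y * ff (rv b a) (rv b (v * a)) (rv b c) (rv b (v * c)) x x' j)
    (((x : R) - v) * a + (Xi 0 : R)) * (((x' : R) - v) * c + (Xi 1 : R)) =
      (((x' : R) - v) * a + (Xi 2 : R)) * (((x : R) - v) * c + (Xi 3 : R)) := by
  intro Xi
  have h := pe_rel (rv b a) (rv b (v * a)) (rv b c) (rv b (v * c)) x x' hP
  have key : ((x * Xi 1 - x' * Xi 3 : ℤ) : R) * a - ((Xi 1 - Xi 3 : ℤ) : R) * (v * a) +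
      ((x' * Xi 0 - x * Xi 2 : ℤ) : R) * c - ((Xi 0 - Xi 2 : ℤ) : R) * (v * c) =
      ((Xi 2 * Xi 3 - Xi 0 * Xi 1 : ℤ) : R) := by
    apply rv_zero_iff b hb
    all_goals
      simp only [rv, ← zsmul_eq_mul, map_add, map_sub, map_zsmul, Finsupp.coe_add, Finsupp.coe_sub,
        Finsupp.coe_smul, Pi.add_apply, Pi.sub_apply, Pi.smul_apply, smul_eq_mul]
    · have := h 0
      simp only [LL, if_true] at this
      exact this
    · have := h 1
      simp only [LL] at this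
      exact this
    · have := h 2
      simp only [LL] at this
      exact this
  push_cast at key
  linear_combination key

end

end Pool.Agent.CUB

end

section

namespace Pool.Agent.CUB

theorem pb_sq {D x y : ℤ} (hsq : ¬ IsSquare D) (hy : y ≠ 0) : x ^ 2 - D * y ^ 2 ≠ 0 := by
  intro h
  apply hsq
  have hk : x ^ 2 = D * y ^ 2 := by linarith
  have h1 : y ^ 2 ∣ x ^ 2 := ⟨D, by rw [hk]; ring⟩
  rw [Int.pow_dvd_pow_iff two_ne_zero] at h1
  obtain ⟨l, rfl⟩ := h1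
  refine ⟨l, ?_⟩
  have h2 : y ^ 2 ≠ 0 := pow_ne_zero 2 hy
  apply mul_right_cancel₀ h2
  linear_combination -hk

theorem pb_pair {d : ℕ} (hsq : ¬ IsSquare (d : ℤ)) {M : ℕ} (hM : 2 * √(d : ℝ) + 1 ≤ M)
    (n : ℕ) (hn : 0 < n) :
    ∃ x y : ℤ, 0 < y ∧ y ≤ n ∧ |(x : ℝ) - y * √(d : ℝ)| < 1 / n ∧
      1 / ((M : ℝ) * n) ≤ |(x : ℝ) - y * √(d : ℝ)| ∧
      |x| ≤ (M : ℤ) * n ∧ |x ^ 2 - d * y ^ 2| < (M : ℤ) := by
  obtain ⟨x, y, hy0, hyn, hxy⟩ := Real.exists_int_int_abs_mul_sub_le (√(d : ℝ)) hn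
  have hn' : (1 : ℝ) ≤ n := by exact_mod_cast hn
  have hs0 : 0 ≤ √(d : ℝ) := Real.sqrt_nonneg _
  have hss : √(d : ℝ) * √(d : ℝ) = d := Real.mul_self_sqrt (by positivity)
  have hy0' : (0 : ℝ) < y := by exact_mod_cast hy0
  have hyn' : (y : ℝ) ≤ n := by exact_mod_cast hyn
  rw [abs_sub_comm] at hxy
  have hM0 : (0 : ℝ) < M := by linarith
  have ht : |(x : ℝ) - y * √(d : ℝ)| < 1 / n := by
    refine hxy.trans_lt ?_
    apply one_div_lt_one_div_of_lt (by linarith)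
    linarith
  have ht1 : |(x : ℝ) - y * √(d : ℝ)| ≤ 1 := by
    refine ht.le.trans ?_
    rw [div_le_one (by linarith)]
    exact hn'
  have hys : (y : ℝ) * √(d : ℝ) ≤ n * √(d : ℝ) := mul_le_mul_of_nonneg_right hyn' hs0
  have hys0 : 0 ≤ (y : ℝ) * √(d : ℝ) := mul_nonneg hy0'.le hs0
  have hMn : (n : ℝ) * (2 * √(d : ℝ) + 1) ≤ M * n := by
    rw [mul_comm]
    exact mul_le_mul_of_nonneg_right hM (by linarith)
  have hsb : |(x : ℝ) + y * √(d : ℝ)| ≤ M * n := by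
    have e : (x : ℝ) + y * √(d : ℝ) = (x - y * √(d : ℝ)) + 2 * (y * √(d : ℝ)) := by ring
    rw [e]
    refine (abs_add_le _ _).trans ?_
    rw [abs_of_nonneg (by positivity : (0 : ℝ) ≤ 2 * (y * √(d : ℝ)))]
    nlinarith
  have hxb : |(x : ℝ)| ≤ M * n := by
    have e : (x : ℝ) = (x - y * √(d : ℝ)) + y * √(d : ℝ) := by ring
    rw [e]
    refine (abs_add_le _ _).trans ?_
    rw [abs_of_nonneg hys0]
    nlinarith
  have hN0 : x ^ 2 - (d : ℤ) * y ^ 2 ≠ 0 := pb_sq hsq hy0.ne'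
  have hN1 : (1 : ℝ) ≤ |((x ^ 2 - d * y ^ 2 : ℤ) : ℝ)| := by
    have : 1 ≤ |x ^ 2 - (d : ℤ) * y ^ 2| := Int.one_le_abs hN0
    exact_mod_cast this
  have hNe : ((x ^ 2 - d * y ^ 2 : ℤ) : ℝ) = (x - y * √(d : ℝ)) * (x + y * √(d : ℝ)) := by
    push_cast
    linear_combination ((y : ℝ) ^ 2) * hss
  rw [hNe, abs_mul] at hN1
  have hMn0 : (0 : ℝ) < M * n := by positivity
  refine ⟨x, y, hy0, hyn, ht, ?_, ?_, ?_⟩
  · rw [div_le_iff₀ hMn0]
    refine hN1.trans ?_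
    exact mul_le_mul_of_nonneg_left hsb (abs_nonneg _)
  · exact_mod_cast hxb
  · have h1 : |((x ^ 2 - d * y ^ 2 : ℤ) : ℝ)| < M := by
      rw [hNe, abs_mul]
      calc |(x : ℝ) - y * √(d : ℝ)| * |(x : ℝ) + y * √(d : ℝ)|
          ≤ |(x : ℝ) - y * √(d : ℝ)| * (M * n) :=
            mul_le_mul_of_nonneg_left hsb (abs_nonneg _)
        _ < 1 / n * (M * n) := mul_lt_mul_of_pos_right ht hMn0
        _ = M := by field_simp
    exact_mod_cast h1

/-- a solution of the Pell equation, explicitly bounded -/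
theorem pb_bound {d : ℕ} (hsq : ¬ IsSquare (d : ℤ)) {M : ℕ} (hM : 2 * √(d : ℝ) + 1 ≤ M) :
    ∃ X y : ℤ, X ^ 2 - d * y ^ 2 = 1 ∧ y ≠ 0 ∧ |X| ≤ 2 * (M : ℤ) ^ (6 * M ^ 3 + 2) := by
  have hs0 : 0 ≤ √(d : ℝ) := Real.sqrt_nonneg _
  have hM1 : 1 ≤ M := by
    have : (1 : ℝ) ≤ M := by linarith
    exact_mod_cast this
  have hM1z : (1 : ℤ) ≤ M := by exact_mod_cast hM1
  have hdM : (d : ℤ) ≤ (M : ℤ) ^ 2 := by
    have h1 : √(d : ℝ) ≤ M := by linarith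
    have h2 : (d : ℝ) ≤ (M : ℝ) ^ 2 := (Real.sqrt_le_left (by positivity)).1 h1
    exact_mod_cast h2
  have h := fun j : ℕ => pb_pair hsq hM (M ^ j) (by positivity)
  choose x y hy0 hyn h1 h2 h3 h4 using h
  -- the pairs are distinct
  have hlt : ∀ i j : ℕ, i < j → ¬ (x i = x j ∧ y i = y j) := by
    rintro i j hij ⟨e1, e2⟩
    have a1 := h1 j
    have a2 := h2 i
    rw [← e1, ← e2] at a1
    have a3 := a2.trans_lt a1
    push_cast at a3
    have a4 : (1 : ℝ) / M ^ j ≤ 1 / (M * M ^ i) := by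
      apply one_div_le_one_div_of_le
      · have : (0 : ℝ) < M := by exact_mod_cast hM1
        positivity
      · rw [← pow_succ']
        apply pow_le_pow_right₀
        · exact_mod_cast hM1
        · omega
    linarith
  -- pigeonhole
  set N : ℕ → ℤ := fun j => x j ^ 2 - d * y j ^ 2 with hN
  have hN0 : ∀ j, N j ≠ 0 := fun j => pb_sq hsq (hy0 j).ne'
  have hcard : (Finset.Icc (-(M : ℤ)) M ×ˢ (Finset.Ico (0 : ℤ) M ×ˢ Finset.Ico (0 : ℤ) M)).card <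
      (Finset.range ((2 * M + 1) * (M * M) + 1)).card := by
    rw [Finset.card_product, Finset.card_product, Int.card_Icc, Int.card_Ico, Finset.card_range]
    have e1 : ((M : ℤ) + 1 - -(M : ℤ)).toNat = 2 * M + 1 := by omega
    have e2 : ((M : ℤ) - 0).toNat = M := by omega
    rw [e1, e2]
    exact Nat.lt_succ_self _
  obtain ⟨i, hi, j, hj, hij, heq⟩ := Finset.exists_ne_map_eq_of_card_lt_of_maps_to hcard
    (f := fun j => (N j, x j % N j, y j % N j)) (by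
      intro j _
      have b1 := h4 j
      have b0 := hN0 j
      rw [Finset.coe_product, Finset.coe_product, Set.mem_prod, Set.mem_prod]
      simp only [Finset.coe_Icc, Finset.coe_Ico, Set.mem_Icc, Set.mem_Ico]
      have b2 := (abs_lt.1 b1)
      refine ⟨⟨b2.1.le, b2.2.le⟩, ⟨Int.emod_nonneg _ b0, ?_⟩, Int.emod_nonneg _ b0, ?_⟩
      · exact (Int.emod_lt_abs _ b0).trans b1
      · exact (Int.emod_lt_abs _ b0).trans b1)
  rw [Finset.mem_range] at hi hj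
  simp only [Prod.mk.injEq] at heq
  obtain ⟨q1, q2, q3⟩ := heq
  have hne : ¬ (x i = x j ∧ y i = y j) := by
    rcases lt_or_gt_of_ne hij with h | h
    · exact hlt i j h
    · rintro ⟨e1, e2⟩
      exact hlt j i h ⟨e1.symm, e2.symm⟩
  have hJ : (2 * M + 1) * (M * M) ≤ 3 * M ^ 3 := by
    have : 2 * M + 1 ≤ 3 * M := by omega
    calc (2 * M + 1) * (M * M) ≤ (3 * M) * (M * M) := Nat.mul_le_mul_right _ this
      _ = 3 * M ^ 3 := by ring
  have hi' : i ≤ 3 * M ^ 3 := by omega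
  have hj' : j ≤ 3 * M ^ 3 := by omega
  have hxi := h3 i
  have hxj := h3 j
  have hyi := hyn i
  have hyj := hyn j
  have hyi0 := hy0 i
  have hyj0 := hy0 j
  have hNi : N i = x i ^ 2 - d * y i ^ 2 := rfl
  have hNj : N j = x j ^ 2 - d * y j ^ 2 := rfl
  have hNN := hN0 i
  rw [← q1] at q2 q3
  have d1 : N i ∣ x j - x i := Int.ModEq.dvd q2
  have d2 : N i ∣ y j - y i := Int.ModEq.dvd q3
  clear_value N
  obtain ⟨u, hu⟩ := d1
  obtain ⟨v, hv⟩ := d2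
  have hxj' : x j = x i + N i * u := by linarith
  have hyj' : y j = y i + N i * v := by linarith
  have hX : x i * x j - d * y i * y j = N i * (1 + x i * u - d * y i * v) := by
    rw [hxj', hyj']
    linear_combination -hNi
  have hY : x i * y j - y i * x j = N i * (x i * v - y i * u) := by
    rw [hxj', hyj']
    ring
  refine ⟨1 + x i * u - d * y i * v, x i * v - y i * u, ?_, ?_, ?_⟩
  · have hNN2 : N i ^ 2 ≠ 0 := pow_ne_zero 2 hNN
    apply mul_left_cancel₀ hNN2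
    have e1 : (x i * x j - d * y i * y j) ^ 2 - d * (x i * y j - y i * x j) ^ 2 = N i * N j := by
      rw [hNi, hNj]
      ring
    rw [hX, hY, ← q1] at e1
    linear_combination e1
  · intro h0
    rw [h0, mul_zero] at hY
    apply hne
    -- `x i y j = y i x j` and equal norms
    have e1 : (y j) ^ 2 * N i = (y i) ^ 2 * N i := by
      nth_rewrite 2 [q1]
      rw [hNi, hNj]
      linear_combination (x i * y j + y i * x j) * hY
    have e2 : (y j) ^ 2 = (y i) ^ 2 := mul_right_cancel₀ hNN e1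
    have e3 : y j = y i := by
      have := abs_eq_abs.2 (sq_eq_sq_iff_eq_or_eq_neg.1 e2)
      rwa [abs_of_pos hyj0, abs_of_pos hyi0] at this
    refine ⟨?_, e3.symm⟩
    rw [e3] at hY
    apply mul_right_cancel₀ hyi0.ne'
    linarith
  · have c1 : |1 + x i * u - d * y i * v| ≤ |x i * x j - d * y i * y j| := by
      rw [hX, abs_mul]
      have : 1 ≤ |N i| := Int.one_le_abs hNN
      nlinarith [abs_nonneg (1 + x i * u - d * y i * v)]
    refine c1.trans ((abs_sub _ _).trans ?_)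
    push_cast at hxi hxj hyi hyj
    have hMp : ∀ n : ℕ, (0 : ℤ) < (M : ℤ) ^ n := fun n => by positivity
    have c2 : |x i * x j| ≤ (M : ℤ) ^ (6 * M ^ 3 + 2) := by
      rw [abs_mul]
      calc |x i| * |x j| ≤ ((M : ℤ) * M ^ i) * (M * M ^ j) :=
            mul_le_mul hxi hxj (abs_nonneg _) (by positivity)
        _ = (M : ℤ) ^ (i + j + 2) := by ring
        _ ≤ (M : ℤ) ^ (6 * M ^ 3 + 2) := pow_le_pow_right₀ hM1z (by omega)
    have c3 : |(d : ℤ) * y i * y j| ≤ (M : ℤ) ^ (6 * M ^ 3 + 2) := by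
      rw [abs_mul, abs_mul, abs_of_pos hyi0, abs_of_pos hyj0, Nat.abs_cast]
      calc (d : ℤ) * y i * y j ≤ (M : ℤ) ^ 2 * M ^ i * M ^ j := by
            apply mul_le_mul (mul_le_mul hdM hyi hyi0.le (by positivity)) hyj hyj0.le (by positivity)
        _ = (M : ℤ) ^ (i + j + 2) := by ring
        _ ≤ (M : ℤ) ^ (6 * M ^ 3 + 2) := pow_le_pow_right₀ hM1z (by omega)
    linarith

theorem pb_num {d k : ℕ} (hk : 1 ≤ k) (hd : k ^ 2 + 1 ≤ d) :
    2 + (6 * (2 * k + 3) ^ 3 + 2) * (2 * k + 3) ≤ 1000 * d ^ 2 := by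
  have h1 : (k ^ 2 + 1) ^ 2 ≤ d ^ 2 := Nat.pow_le_pow_left hd 2
  refine le_trans ?_ (Nat.mul_le_mul_left 1000 h1)
  obtain ⟨j, rfl⟩ : ∃ j, k = j + 1 := ⟨k - 1, by omega⟩
  have e : 1000 * ((j + 1) ^ 2 + 1) ^ 2 =
      2 + (6 * (2 * (j + 1) + 3) ^ 3 + 2) * (2 * (j + 1) + 3) +
        (904 * j ^ 4 + 3040 * j ^ 3 + 4400 * j ^ 2 + 1996 * j + 238) := by ring
  rw [e]
  exact Nat.le_add_right _ _

/-- an explicitly bounded positive solution of the Pell equation -/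
theorem pb_pell {d : ℕ} (hd : 0 < d) (hsq : ¬ IsSquare (d : ℤ)) :
    ∃ X y : ℤ, X ^ 2 - d * y ^ 2 = 1 ∧ 0 < X ∧ 0 < y ∧
      ((2 * X : ℤ) : ℝ) ≤ Real.exp (1000 * (d : ℝ) ^ 2) := by
  set k := Nat.sqrt d with hk
  have hk1 : 1 ≤ k := by
    rw [hk]
    exact Nat.sqrt_pos.2 hd
  have hkd : k ^ 2 ≤ d := Nat.sqrt_le' d
  have hdk : d < (k + 1) ^ 2 := Nat.lt_succ_sqrt' d
  have hkd1 : k ^ 2 + 1 ≤ d := by
    rcases Nat.lt_or_ge (k ^ 2) d with h | h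
    · exact h
    · exfalso
      apply hsq
      refine ⟨k, ?_⟩
      have : d = k ^ 2 := le_antisymm h hkd
      rw [this]
      push_cast
      ring
  have hM : 2 * √(d : ℝ) + 1 ≤ ((2 * k + 3 : ℕ) : ℝ) := by
    have h1 : √(d : ℝ) < k + 1 := by
      rw [Real.sqrt_lt' (by positivity)]
      exact_mod_cast hdk
    push_cast
    linarith
  have hnum := pb_num hk1 hkd1
  generalize 2 * k + 3 = M at hM hnum
  obtain ⟨X, y, h1, h2, h3⟩ := pb_bound hsq hM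
  generalize 6 * M ^ 3 + 2 = n at hnum h3
  refine ⟨|X|, |y|, by rw [sq_abs, sq_abs]; exact h1, ?_, abs_pos.2 h2, ?_⟩
  · rw [abs_pos]
    rintro rfl
    have h4 : 0 ≤ (d : ℤ) * y ^ 2 := by positivity
    linarith
  · have h4 : ((2 * |X| : ℤ) : ℝ) ≤ 4 * (M : ℝ) ^ n := by
      have : (2 * |X| : ℤ) ≤ 4 * (M : ℤ) ^ n := by linarith
      exact_mod_cast this
    refine h4.trans ?_
    have e4 : (4 : ℝ) ≤ Real.exp 2 := by
      have e1 := Real.add_one_le_exp (1 : ℝ)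
      have e2 : Real.exp 2 = Real.exp 1 * Real.exp 1 := by rw [← Real.exp_add]; norm_num
      rw [e2]
      nlinarith
    have eM : (M : ℝ) ≤ Real.exp (M : ℝ) := by
      have := Real.add_one_le_exp (M : ℝ)
      linarith
    have eP : (M : ℝ) ^ n ≤ Real.exp ((n : ℝ) * (M : ℝ)) := by
      rw [Real.exp_nat_mul]
      exact pow_le_pow_left₀ (by positivity) eM _
    calc 4 * (M : ℝ) ^ n
        ≤ Real.exp 2 * Real.exp ((n : ℝ) * (M : ℝ)) :=
          mul_le_mul e4 eP (by positivity) (by positivity)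
      _ = Real.exp (2 + (n : ℝ) * (M : ℝ)) := by
          rw [Real.exp_add]
      _ ≤ Real.exp (1000 * (d : ℝ) ^ 2) := by
          apply Real.exp_le_exp.2
          exact_mod_cast hnum

/-- the recursion -/
def pb_seq (D X₀ b : ℤ) : ℕ → ℤ × ℤ
  | 0 => (X₀, b)
  | (j + 1) => ((pb_seq D X₀ b j).1 * X₀ + D * (pb_seq D X₀ b j).2 * b,
      (pb_seq D X₀ b j).1 * b + (pb_seq D X₀ b j).2 * X₀)

/-- (PB2) solutions of the Pell equation with `m ∣ y`, with an explicit bound -/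
theorem pb2 {D : ℤ} (hD : 0 < D) (hsq : ¬ IsSquare D) (m : ℕ) (hm : 0 < m) :
    ∃ X y : ℕ → ℤ, (∀ j, X j ^ 2 - D * y j ^ 2 = 1) ∧ (∀ j, (m : ℤ) ∣ y j) ∧ (∀ j, 0 < y j) ∧
      (∀ j, 0 < X j) ∧ StrictMono y ∧ ∃ C : ℤ, 2 ≤ C ∧
        (C : ℝ) ≤ Real.exp (1000 * ((D : ℝ) * (m : ℝ) ^ 2) ^ 2) ∧ y 0 ≤ C ∧
        ∀ j, y (j + 1) ≤ C * y j := by
  have hm' : (0 : ℤ) < m := by exact_mod_cast hm
  lift D to ℕ using hD.le
  have hD' : 0 < D := by exact_mod_cast hD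
  have hsq' : ¬ IsSquare ((D * m ^ 2 : ℕ) : ℤ) := by
    rintro ⟨l, hl⟩
    push_cast at hl
    exact pb_sq (x := l) (y := m) hsq hm'.ne' (by linear_combination -hl)
  obtain ⟨X₀, y₀, hP0, hX0, hy0, hbd⟩ := pb_pell (d := D * m ^ 2) (by positivity) hsq'
  have hP : X₀ ^ 2 - D * ((m : ℤ) * y₀) ^ 2 = 1 := by
    push_cast at hP0
    linear_combination hP0
  have hb0 : 0 < (m : ℤ) * y₀ := mul_pos hm' hy0
  have hmb : (m : ℤ) ∣ (m : ℤ) * y₀ := Dvd.intro _ rfl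
  generalize (m : ℤ) * y₀ = b at *
  have hDz : (1 : ℤ) ≤ D := by exact_mod_cast hD'
  have hpos : ∀ j, 0 < (pb_seq D X₀ b j).1 ∧ 0 < (pb_seq D X₀ b j).2 := by
    intro j
    induction j with
    | zero => exact ⟨hX0, hb0⟩
    | succ j ih =>
      obtain ⟨h1, h2⟩ := ih
      refine ⟨?_, ?_⟩
      · simp only [pb_seq]
        positivity
      · simp only [pb_seq]
        positivity
  have hpell : ∀ j, (pb_seq D X₀ b j).1 ^ 2 - D * (pb_seq D X₀ b j).2 ^ 2 = 1 := by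
    intro j
    induction j with
    | zero => exact hP
    | succ j ih =>
      simp only [pb_seq] at ih ⊢
      linear_combination (X₀ ^ 2 - D * b ^ 2) * ih + hP
  have hyX : ∀ j, (pb_seq D X₀ b j).2 ≤ (pb_seq D X₀ b j).1 := by
    intro j
    obtain ⟨h1, h2⟩ := hpos j
    have h3 := hpell j
    by_contra hcon
    push Not at hcon
    nlinarith [mul_pos h1 h1, mul_pos h2 h2]
  have hbX : b ≤ X₀ := hyX 0
  have hbY : ∀ j, b ≤ (pb_seq D X₀ b j).2 := by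
    intro j
    induction j with
    | zero => exact le_refl _
    | succ j ih =>
      obtain ⟨h1, h2⟩ := hpos j
      simp only [pb_seq]
      nlinarith [mul_pos h1 hb0]
  have hrec : ∀ j, (pb_seq D X₀ b j).1 * b + (pb_seq D X₀ b j).2 * X₀ ≤
      2 * X₀ * (pb_seq D X₀ b j).2 := by
    intro j
    obtain ⟨h1, h2⟩ := hpos j
    have h3 := hpell j
    have h6 := hbY j
    have h4 : (pb_seq D X₀ b j).1 * b ≤ X₀ * (pb_seq D X₀ b j).2 := by
      have h5 : ((pb_seq D X₀ b j).1 * b) ^ 2 ≤ (X₀ * (pb_seq D X₀ b j).2) ^ 2 := by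
        have h7 : b ^ 2 ≤ (pb_seq D X₀ b j).2 ^ 2 := pow_le_pow_left₀ hb0.le h6 2
        have e2 : (X₀ * (pb_seq D X₀ b j).2) ^ 2 - ((pb_seq D X₀ b j).1 * b) ^ 2 =
            (pb_seq D X₀ b j).2 ^ 2 - b ^ 2 := by
          linear_combination ((pb_seq D X₀ b j).2 ^ 2) * hP - (b ^ 2) * h3
        linarith
      exact abs_le_of_sq_le_sq' h5 (by positivity) |>.2
    linarith
  refine ⟨fun j => (pb_seq D X₀ b j).1, fun j => (pb_seq D X₀ b j).2, hpell, ?_,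
    fun j => (hpos j).2, fun j => (hpos j).1, ?_, 2 * X₀, by linarith, ?_, ?_, ?_⟩
  · intro j
    induction j with
    | zero => exact hmb
    | succ j ih =>
      simp only [pb_seq] at ih ⊢
      exact dvd_add (Dvd.dvd.mul_left hmb _) (Dvd.dvd.mul_right ih _)
  · apply strictMono_nat_of_lt_succ
    intro j
    obtain ⟨h1, h2⟩ := hpos j
    simp only [pb_seq]
    nlinarith [mul_pos h1 hb0]
  · refine hbd.trans (le_of_eq ?_)
    push_cast
    rfl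
  · show b ≤ 2 * X₀
    linarith
  · intro j
    simp only [pb_seq]
    exact hrec j

end Pool.Agent.CUB

end

section

namespace Pool.Agent.CUB

open Polynomial Pool.Agent.CF

theorem pe5_mul {x y X Y : ℤ} (hx : |x| ≤ X) (hy : |y| ≤ Y) : |x * y| ≤ X * Y := by
  rw [abs_mul]
  exact mul_le_mul hx hy (abs_nonneg _) ((abs_nonneg _).trans hx)

theorem pe5_add {x y X Y : ℤ} (hx : |x| ≤ X) (hy : |y| ≤ Y) : |x + y| ≤ X + Y :=
  (abs_add_le _ _).trans (add_le_add hx hy)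

theorem pe5_sub {x y X Y : ℤ} (hx : |x| ≤ X) (hy : |y| ≤ Y) : |x - y| ≤ X + Y :=
  (abs_sub _ _).trans (add_le_add hx hy)

theorem pe5_neg {x X : ℤ} (hx : |x| ≤ X) : |-x| ≤ X := by rwa [abs_neg]

theorem pe5_br {B : ℤ} {a c : Fin 3 → ℤ} (ha : ∀ i, |a i| ≤ B) (hc : ∀ i, |c i| ≤ B) :
    |br a c| ≤ 2 * B ^ 2 := by
  unfold br
  have h := pe5_sub (pe5_mul (ha 1) (hc 2)) (pe5_mul (ha 2) (hc 1))
  refine h.trans (le_of_eq ?_)
  ring

theorem pe5_d3 {B : ℤ} {a c e : Fin 3 → ℤ} (ha : ∀ i, |a i| ≤ B) (hc : ∀ i, |c i| ≤ B)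
    (he : ∀ i, |e i| ≤ B) : |d3 a c e| ≤ 6 * B ^ 3 := by
  unfold d3
  have h := pe5_add (pe5_sub (pe5_mul (ha 0) (pe5_br hc he)) (pe5_mul (hc 0) (pe5_br ha he)))
    (pe5_mul (he 0) (pe5_br ha hc))
  refine h.trans (le_of_eq ?_)
  ring

section
variable {B : ℤ} (hB : 1 ≤ B) {a a1 c c1 : Fin 3 → ℤ} (b1 : ∀ i, |a i| ≤ B)
  (b2 : ∀ i, |a1 i| ≤ B) (b3 : ∀ i, |c i| ≤ B) (b4 : ∀ i, |c1 i| ≤ B)
include b1 b2 b3 b4

theorem pe5_th : |th a a1 c c1| ≤ 4 * B ^ 2 := by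
  unfold th
  exact (pe5_sub (pe5_br b1 b4) (pe5_br b2 b3)).trans (le_of_eq (by ring))

theorem pe5_DD : DD a a1 c c1 ≤ 32 * B ^ 4 := by
  unfold DD
  have h1 := pe5_mul (pe5_th b1 b2 b3 b4) (pe5_th b1 b2 b3 b4)
  have h2 := pe5_mul (pe5_br b1 b2) (pe5_br b3 b4)
  have h3 := le_abs_self (th a a1 c c1 * th a a1 c c1)
  have h4 := neg_abs_le (br a a1 * br c c1)
  nlinarith

theorem pe5_G1 : |G1 a a1 c c1| ≤ 48 * B ^ 5 := by
  unfold G1 et1 xi1
  have h := pe5_sub (pe5_mul (pe5_neg (pe5_th b1 b2 b3 b4)) (pe5_d3 b3 b1 b2))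
    (pe5_mul (pe5_mul (le_refl |(2 : ℤ)|) (pe5_br b1 b2)) (pe5_d3 b3 b4 b1))
  refine h.trans (le_of_eq ?_)
  norm_num
  ring

theorem pe5_G2 : |G2 a a1 c c1| ≤ 48 * B ^ 5 := by
  unfold G2 et0 et1
  have h := pe5_sub (pe5_mul (pe5_add (pe5_br b1 b4) (pe5_br b2 b3)) (pe5_d3 b4 b1 b2))
    (pe5_mul (pe5_mul (le_refl |(2 : ℤ)|) (pe5_br b2 b4)) (pe5_d3 b3 b1 b2))
  refine h.trans (le_of_eq ?_)
  norm_num
  ring

theorem pe5_H1 : |H1 a a1 c c1| ≤ 48 * B ^ 5 := by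
  unfold H1 et1 xi1
  have h := pe5_sub (pe5_mul (pe5_neg (pe5_th b1 b2 b3 b4)) (pe5_d3 b3 b4 b1))
    (pe5_mul (pe5_mul (le_refl |(2 : ℤ)|) (pe5_br b3 b4)) (pe5_d3 b3 b1 b2))
  refine h.trans (le_of_eq ?_)
  norm_num
  ring

theorem pe5_H2 : |H2 a a1 c c1| ≤ 48 * B ^ 5 := by
  unfold H2 xi0 xi1
  have h := pe5_add (pe5_mul (pe5_neg (pe5_add (pe5_br b1 b4) (pe5_br b2 b3))) (pe5_d3 b3 b4 b2))
    (pe5_mul (pe5_mul (le_refl |(2 : ℤ)|) (pe5_br b2 b4)) (pe5_d3 b3 b4 b1))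
  refine h.trans (le_of_eq ?_)
  norm_num
  ring

include hB

theorem pe5_ee {x x' : ℤ} (hx : |x| ≤ B) (hx' : |x'| ≤ B) (i : Fin 4) :
    |ee a a1 c c1 x x' i| ≤ 12 * B ^ 4 := by
  have hm : 6 * B ^ 3 + B * (6 * B ^ 3) ≤ 12 * B ^ 4 := by
    have h1 : 0 ≤ B ^ 3 * (B - 1) := mul_nonneg (by positivity) (by linarith)
    nlinarith
  have k0 := pe5_d3 b4 b1 b2
  have k1 := pe5_d3 b3 b1 b2
  have k2 := pe5_d3 b3 b4 b2
  have k3 := pe5_d3 b3 b4 b1
  unfold ee et0 et1 xi0 xi1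
  fin_cases i
  · exact (pe5_sub k0 (pe5_mul hx k1)).trans hm
  · exact (pe5_neg (pe5_sub k2 (pe5_mul hx' k3))).trans hm
  · exact (pe5_sub k0 (pe5_mul hx' k1)).trans hm
  · exact (pe5_neg (pe5_sub k2 (pe5_mul hx k3))).trans hm

theorem pe5_ff {x x' : ℤ} (hx : |x| ≤ B) (hx' : |x'| ≤ B) (i : Fin 4) :
    |ff a a1 c c1 x x' i| ≤ 96 * B ^ 6 := by
  have hm : B * (48 * B ^ 5) + 48 * B ^ 5 ≤ 96 * B ^ 6 := by
    have h1 : 0 ≤ B ^ 5 * (B - 1) := mul_nonneg (by positivity) (by linarith)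
    nlinarith
  have k0 := pe5_G1 b1 b2 b3 b4
  have k1 := pe5_G2 b1 b2 b3 b4
  have k2 := pe5_H1 b1 b2 b3 b4
  have k3 := pe5_H2 b1 b2 b3 b4
  unfold ff
  fin_cases i
  · exact (pe5_add (pe5_mul hx k0) k1).trans hm
  · exact (pe5_add (pe5_mul hx' k2) k3).trans hm
  · exact (pe5_add (pe5_mul hx' k0) k1).trans hm
  · exact (pe5_add (pe5_mul hx k2) k3).trans hm

end

theorem pe6_num {B₀ B : ℕ} (hB₀ : 2 ≤ B₀) (hB : B₀ ≤ B) {D : ℤ} {m : ℕ} {C : ℤ} (hD : 0 < D)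
    (hD2 : D ≤ 32 * (B : ℤ) ^ 4) (hm : m ≤ B₀ * B₀) (hC : 2 ≤ C)
    (hCe : (C : ℝ) ≤ Real.exp (1000 * ((D : ℝ) * (m : ℝ) ^ 2) ^ 2)) {N : ℕ} (hN : 1 ≤ N) :
    2 * (m : ℝ) * (D + 1) * (108 * (B : ℝ) ^ 6) * ((C : ℝ) ^ 2 * (N + ((B : ℝ) ^ 2 + B))) +
      ((B : ℝ) ^ 2 + B) ≤ N * Real.exp ((B₀ : ℝ) ^ 100 * (B : ℝ) ^ 9) := by
  have hB₀r : (2 : ℝ) ≤ B₀ := by exact_mod_cast hB₀
  have hBB : (B₀ : ℝ) ≤ B := by exact_mod_cast hB
  have hBr : (2 : ℝ) ≤ B := hB₀r.trans hBB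
  have hCr : (2 : ℝ) ≤ C := by exact_mod_cast hC
  have hDr : (0 : ℝ) < D := by exact_mod_cast hD
  have hNr : (1 : ℝ) ≤ N := by exact_mod_cast hN
  have hD2r : (D : ℝ) ≤ 32 * (B : ℝ) ^ 4 := by exact_mod_cast hD2
  have hmr : (m : ℝ) ≤ (B₀ : ℝ) * B₀ := by exact_mod_cast hm
  have hp : ∀ k : ℕ, (2 : ℝ) ^ k ≤ (B : ℝ) ^ k := fun k => pow_le_pow_left₀ (by norm_num) hBr k
  have hp₀ : ∀ k : ℕ, (2 : ℝ) ^ k ≤ (B₀ : ℝ) ^ k := fun k => pow_le_pow_left₀ (by norm_num) hB₀r k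
  have hp1 : ∀ k : ℕ, (1 : ℝ) ≤ (B : ℝ) ^ k := fun k => one_le_pow₀ (by linarith)
  obtain ⟨Y, hY⟩ : ∃ Y : ℝ, Y = (B : ℝ) ^ 8 * (B₀ : ℝ) ^ 8 := ⟨_, rfl⟩
  have hY0 : 0 < Y := by rw [hY]; positivity
  -- the bound for `C ^ 2`
  have h1 : (D : ℝ) * (m : ℝ) ^ 2 ≤ 32 * (B : ℝ) ^ 4 * (B₀ : ℝ) ^ 4 := by
    have h2 : (m : ℝ) ^ 2 ≤ ((B₀ : ℝ) * B₀) ^ 2 := pow_le_pow_left₀ (by positivity) hmr 2
    calc (D : ℝ) * (m : ℝ) ^ 2 ≤ 32 * (B : ℝ) ^ 4 * ((B₀ : ℝ) * B₀) ^ 2 :=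
          mul_le_mul hD2r h2 (by positivity) (by positivity)
      _ = 32 * (B : ℝ) ^ 4 * (B₀ : ℝ) ^ 4 := by ring
  have h2 : ((D : ℝ) * (m : ℝ) ^ 2) ^ 2 ≤ 1024 * Y := by
    calc ((D : ℝ) * (m : ℝ) ^ 2) ^ 2 ≤ (32 * (B : ℝ) ^ 4 * (B₀ : ℝ) ^ 4) ^ 2 :=
          pow_le_pow_left₀ (by positivity) h1 2
      _ = 1024 * Y := by rw [hY]; ring
  have h3 : (C : ℝ) ^ 2 ≤ Real.exp (2048000 * Y) := by
    have h4 : (C : ℝ) ≤ Real.exp (1024000 * Y) :=
      hCe.trans (Real.exp_le_exp.mpr (by linarith))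
    calc (C : ℝ) ^ 2 ≤ (Real.exp (1024000 * Y)) ^ 2 := pow_le_pow_left₀ (by linarith) h4 2
      _ = Real.exp (2048000 * Y) := by
          rw [← Real.exp_nat_mul]
          congr 1
          push_cast
          ring
  -- the polynomial factor
  have hZ : (B : ℝ) ^ 2 + B ≤ 2 * (B : ℝ) ^ 2 := by nlinarith
  have hm2 : (m : ℝ) ≤ (B : ℝ) ^ 2 := by
    refine hmr.trans ?_
    rw [sq]
    exact mul_le_mul hBB hBB (by positivity) (by positivity)
  have hD3 : (D : ℝ) + 1 ≤ 33 * (B : ℝ) ^ 4 := by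
    have := hp1 4
    linarith
  have hC1 : (1 : ℝ) ≤ (C : ℝ) ^ 2 := one_le_pow₀ (by linarith)
  have hNZ : (N : ℝ) + ((B : ℝ) ^ 2 + B) ≤ N * (3 * (B : ℝ) ^ 2) := by
    have h5 := hp1 2
    have h6 : (B : ℝ) ^ 2 ≤ N * (B : ℝ) ^ 2 := le_mul_of_one_le_left (by positivity) hNr
    have h7 : (N : ℝ) ≤ N * (B : ℝ) ^ 2 := le_mul_of_one_le_right (by positivity) h5
    linarith
  have e1 : 2 * (m : ℝ) * (D + 1) * (108 * (B : ℝ) ^ 6) ≤ 7128 * (B : ℝ) ^ 12 := by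
    calc 2 * (m : ℝ) * (D + 1) * (108 * (B : ℝ) ^ 6)
        ≤ 2 * (B : ℝ) ^ 2 * (33 * (B : ℝ) ^ 4) * (108 * (B : ℝ) ^ 6) := by
          apply mul_le_mul_of_nonneg_right _ (by positivity)
          exact mul_le_mul (by linarith) hD3 (by positivity) (by positivity)
      _ = 7128 * (B : ℝ) ^ 12 := by ring
  have e2 : (C : ℝ) ^ 2 * (N + ((B : ℝ) ^ 2 + B)) ≤ (C : ℝ) ^ 2 * (N * (3 * (B : ℝ) ^ 2)) :=
    mul_le_mul_of_nonneg_left hNZ (by positivity)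
  have e3 : 2 * (m : ℝ) * (D + 1) * (108 * (B : ℝ) ^ 6) * ((C : ℝ) ^ 2 * (N + ((B : ℝ) ^ 2 + B))) ≤
      7128 * (B : ℝ) ^ 12 * ((C : ℝ) ^ 2 * (N * (3 * (B : ℝ) ^ 2))) :=
    mul_le_mul e1 e2 (by positivity) (by positivity)
  have e4 : (B : ℝ) ^ 2 + B ≤ 2 * (B : ℝ) ^ 14 * ((C : ℝ) ^ 2 * N) := by
    have h8 : (1 : ℝ) ≤ (C : ℝ) ^ 2 * N := by
      calc (1 : ℝ) = 1 * 1 := by norm_num
        _ ≤ (C : ℝ) ^ 2 * N := mul_le_mul hC1 hNr (by norm_num) (by positivity)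
    have h9 : (B : ℝ) ^ 2 ≤ (B : ℝ) ^ 14 := pow_le_pow_right₀ (by linarith) (by norm_num)
    have h10 : 2 * (B : ℝ) ^ 14 ≤ 2 * (B : ℝ) ^ 14 * ((C : ℝ) ^ 2 * N) :=
      le_mul_of_one_le_right (by positivity) h8
    linarith
  have e5 : (21386 : ℝ) ≤ (B : ℝ) ^ 15 := by have := hp 15; norm_num at this; linarith
  have e6 : (B : ℝ) ^ 29 ≤ Real.exp (29 * B) := by
    have h11 : (B : ℝ) ≤ Real.exp B := by
      have := Real.add_one_le_exp (B : ℝ)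
      linarith
    calc (B : ℝ) ^ 29 ≤ (Real.exp B) ^ 29 := pow_le_pow_left₀ (by positivity) h11 29
      _ = Real.exp (29 * B) := by
          rw [← Real.exp_nat_mul]
          norm_num
  calc _ ≤ 7128 * (B : ℝ) ^ 12 * ((C : ℝ) ^ 2 * (N * (3 * (B : ℝ) ^ 2))) +
        2 * (B : ℝ) ^ 14 * ((C : ℝ) ^ 2 * N) := add_le_add e3 e4
    _ = N * ((21386 * (B : ℝ) ^ 14) * (C : ℝ) ^ 2) := by ring
    _ ≤ N * (((B : ℝ) ^ 15 * (B : ℝ) ^ 14) * (C : ℝ) ^ 2) := by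
        apply mul_le_mul_of_nonneg_left _ (by positivity)
        apply mul_le_mul_of_nonneg_right _ (by positivity)
        exact mul_le_mul_of_nonneg_right e5 (by positivity)
    _ = N * ((B : ℝ) ^ 29 * (C : ℝ) ^ 2) := by ring
    _ ≤ N * (Real.exp (29 * B) * Real.exp (2048000 * Y)) := by
        apply mul_le_mul_of_nonneg_left _ (by positivity)
        exact mul_le_mul e6 h3 (by positivity) (by positivity)
    _ = N * Real.exp (29 * B + 2048000 * Y) := by rw [← Real.exp_add]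
    _ ≤ N * Real.exp ((B₀ : ℝ) ^ 100 * (B : ℝ) ^ 9) := by
        apply mul_le_mul_of_nonneg_left _ (by positivity)
        apply Real.exp_le_exp.mpr
        have f1 : (B : ℝ) ≤ Y := by
          rw [hY]
          calc (B : ℝ) = (B : ℝ) ^ 1 * 1 := by ring
            _ ≤ (B : ℝ) ^ 8 * (B₀ : ℝ) ^ 8 :=
              mul_le_mul (pow_le_pow_right₀ (by linarith) (by norm_num))
                (one_le_pow₀ (by linarith)) (by norm_num) (by positivity)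
        have f2 : (B₀ : ℝ) ^ 100 * (B : ℝ) ^ 9 = (B₀ : ℝ) ^ 92 * B * Y := by rw [hY]; ring
        have f3 : (2048029 : ℝ) ≤ (B₀ : ℝ) ^ 92 * B := by
          have f4 := hp₀ 92
          have f5 : (2 : ℝ) ^ 92 * 1 ≤ (B₀ : ℝ) ^ 92 * B :=
            mul_le_mul f4 (by linarith) (by norm_num) (by positivity)
          norm_num at f5
          linarith
        rw [f2]
        have f6 := mul_le_mul_of_nonneg_right f3 hY0.le
        linarith

section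
variable {R : Type*} [CommRing R] {b : Module.Basis (Fin 3) ℤ R}

/-- the sign at one shift -/
theorem pe6_class (hb : b 0 = 1) {s : ℤ} (z : R) {u Z : ℤ} {N : ℕ} {T : ℝ}
    (hZ : |b.repr z 0| ≤ Z) (h1 : (N : ℤ) + Z ≤ u) (h2 : ((u + Z : ℤ) : ℝ) ≤ N * Real.exp T)
    (hS : cls b z ∈ SW b s N T) : liouville (Algebra.norm ℤ (z + (u : R))) = s := by
  obtain ⟨z0, hz0⟩ : ∃ z0 : ℤ, z0 = b.repr z 0 := ⟨_, rfl⟩
  rw [← hz0] at hZ
  have hdec : z = (z0 : R) + el b (cls b z).1 (cls b z).2 := by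
    have h := decomp hb z
    rw [hz0]
    unfold cls el
    linear_combination h
  have hz := abs_le.mp hZ
  have hN0 : (0 : ℤ) ≤ N := by positivity
  obtain ⟨n, hn⟩ : ∃ n : ℕ, (n : ℤ) = u + z0 :=
    ⟨(u + z0).toNat, Int.toNat_of_nonneg (by linarith [hz.1])⟩
  have h3 : N ≤ n := by
    have : (N : ℤ) ≤ n := by rw [hn]; linarith [hz.1]
    exact_mod_cast this
  have h4 : (n : ℝ) ≤ N * Real.exp T := by
    refine le_trans ?_ h2
    have : (n : ℤ) ≤ u + Z := by rw [hn]; linarith [hz.2]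
    exact_mod_cast this
  have h5 := hS n h3 h4
  have h6 : z + (u : R) = (n : R) + el b (cls b z).1 (cls b z).2 := by
    have h7 : ((n : ℕ) : R) = ((n : ℤ) : R) := by push_cast; rfl
    rw [h7, hn]
    nth_rewrite 1 [hdec]
    push_cast
    ring
  rw [h6]
  exact h5

/-- (PE6) the consequence of the Pell relation, window version -/
theorem pe6 (hb : b 0 = 1) {s : ℤ} (hs : s = 1 ∨ s = -1) {v a c V W : R} {x x' : ℤ} {m₁ m₂ : ℕ}
    (hm₁ : 0 < m₁) (hm₂ : 0 < m₂) (hV : ((x' : R) - v) * c = (m₁ : R) * V)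
    (hW : ((x : R) - v) * c = (m₂ : R) * W)
    (hD : 0 < DD (rv b a) (rv b (v * a)) (rv b c) (rv b (v * c)))
    (hsq : ¬ IsSquare (DD (rv b a) (rv b (v * a)) (rv b c) (rv b (v * c))))
    (hf : ∀ j, 0 < ff (rv b a) (rv b (v * a)) (rv b c) (rv b (v * c)) x x' j)
    (he : (∀ j, 0 ≤ ee (rv b a) (rv b (v * a)) (rv b c) (rv b (v * c)) x x' j) ∨
      (∀ j, ee (rv b a) (rv b (v * a)) (rv b c) (rv b (v * c)) x x' j ≤ 0))
    (hm : liouville (m₁ : ℤ) ≠ liouville (m₂ : ℤ)) {B₀ B : ℕ} (hB₀ : 2 ≤ B₀) (hB : B₀ ≤ B)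
    (b1 : ∀ i, |rv b a i| ≤ B) (b2 : ∀ i, |rv b (v * a) i| ≤ B) (b3 : ∀ i, |rv b c i| ≤ B)
    (b4 : ∀ i, |rv b (v * c) i| ≤ B) (b5' : |x| ≤ B₀) (b6' : |x'| ≤ B₀) (b7 : m₁ ≤ B₀)
    (b8 : m₂ ≤ B₀) {N : ℕ} (hN : 1 ≤ N) :
    ¬ (cls b (((x : R) - v) * a) ∈ SW b s N ((B₀ : ℝ) ^ 100 * (B : ℝ) ^ 9) ∧
      cls b (((x' : R) - v) * a) ∈ SW b s N ((B₀ : ℝ) ^ 100 * (B : ℝ) ^ 9) ∧
      cls b V ∈ SW b s N ((B₀ : ℝ) ^ 100 * (B : ℝ) ^ 9) ∧
      cls b W ∈ SW b s N ((B₀ : ℝ) ^ 100 * (B : ℝ) ^ 9)) := by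
  have hBz₀ : (B₀ : ℤ) ≤ B := by exact_mod_cast hB
  have b5 : |x| ≤ B := b5'.trans hBz₀
  have b6 : |x'| ≤ B := b6'.trans hBz₀
  obtain ⟨Xs, ys, hpell, hdvd, hy0, hX0, hmono, C, hC2, hCe, hyC, hyr⟩ :=
    pb2 hD hsq (m₁ * m₂) (Nat.mul_pos hm₁ hm₂)
  have hrel := pell_rel b hb v a c x x'
  obtain ⟨D, hDdef⟩ : ∃ D : ℤ, D = DD (rv b a) (rv b (v * a)) (rv b c) (rv b (v * c)) := ⟨_, rfl⟩
  obtain ⟨e, hedef⟩ : ∃ e : Fin 4 → ℤ, e = ee (rv b a) (rv b (v * a)) (rv b c) (rv b (v * c)) x x' :=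
    ⟨_, rfl⟩
  obtain ⟨f, hfdef⟩ : ∃ f : Fin 4 → ℤ, f = ff (rv b a) (rv b (v * a)) (rv b c) (rv b (v * c)) x x' :=
    ⟨_, rfl⟩
  rw [← hDdef] at hpell hrel hD hCe
  rw [← hedef] at he hrel
  rw [← hfdef] at hf hrel
  obtain ⟨σ, hσ1, hσ⟩ : ∃ σ : ℤ, σ * σ = 1 ∧ ∀ j, 0 ≤ σ * e j := by
    rcases he with h | h
    · exact ⟨1, by norm_num, fun j => by rw [one_mul]; exact h j⟩
    · exact ⟨-1, by norm_num, fun j => by have := h j; linarith⟩
  -- `t j = y j / (m₁ m₂)`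
  obtain ⟨t, ht⟩ : ∃ t : ℕ → ℤ, ∀ j, ys j = (m₁ : ℤ) * m₂ * t j := by
    have h1 : ∀ j, ∃ w : ℤ, ys j = (m₁ : ℤ) * m₂ * w := by
      intro j
      obtain ⟨w, hw⟩ := hdvd j
      exact ⟨w, by rw [hw]; push_cast; ring⟩
    choose t ht using h1
    exact ⟨t, ht⟩
  have hM1 : (1 : ℤ) ≤ m₁ := by exact_mod_cast hm₁
  have hM2 : (1 : ℤ) ≤ m₂ := by exact_mod_cast hm₂
  have hM : (0 : ℤ) < (m₁ : ℤ) * m₂ := by positivity
  have ht0 : ∀ j, 0 < t j := by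
    intro j
    have h1 := hy0 j
    rw [ht j] at h1
    exact pos_of_mul_pos_right h1 hM.le
  have htr : ∀ j, t (j + 1) ≤ C * t j := by
    intro j
    have h1 := hyr j
    rw [ht j, ht (j + 1)] at h1
    have h2 : (m₁ : ℤ) * m₂ * t (j + 1) ≤ (m₁ : ℤ) * m₂ * (C * t j) := by linarith
    exact le_of_mul_le_mul_left h2 hM
  have hty : ∀ j, t j ≤ ys j := by
    intro j
    rw [ht j]
    exact le_mul_of_one_le_left (ht0 j).le (by nlinarith)
  obtain ⟨g, hg⟩ : ∃ g : Fin 4 → ℕ → ℤ, ∀ i j, g i j = Xs j * (σ * e i) + ys j * f i :=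
    ⟨fun i j => Xs j * (σ * e i) + ys j * f i, fun _ _ => rfl⟩
  obtain ⟨Bf, hBf⟩ : ∃ Bf : Fin 4 → ℤ, ∀ i, Bf i = σ * e i + f i :=
    ⟨fun i => σ * e i + f i, fun _ => rfl⟩
  have hXy : ∀ j, Xs j ≤ (D + 1) * ys j := by
    intro j
    have h1 := hpell j
    have h2 : (1 : ℤ) ≤ ys j := hy0 j
    have h3 : (Xs j) ^ 2 ≤ ((D + 1) * ys j) ^ 2 := by
      have h4 : (1 : ℤ) ≤ ys j ^ 2 := one_le_pow₀ h2
      have h5 : (D + 1) * ys j ^ 2 ≤ (D + 1) * ((D + 1) * ys j ^ 2) := by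
        apply mul_le_mul_of_nonneg_left _ (by linarith)
        exact le_mul_of_one_le_left (by positivity) (by linarith)
      calc (Xs j) ^ 2 = 1 + D * ys j ^ 2 := by linarith
        _ ≤ (D + 1) * ys j ^ 2 := by linarith
        _ ≤ (D + 1) * ((D + 1) * ys j ^ 2) := h5
        _ = ((D + 1) * ys j) ^ 2 := by ring
    have h6 : 0 ≤ (D + 1) * ys j := mul_nonneg (by linarith) (hy0 j).le
    exact (abs_le_of_sq_le_sq' h3 h6).2
  have hglo : ∀ i j, ys j ≤ g i j := by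
    intro i j
    rw [hg]
    have h1 : 0 ≤ Xs j * (σ * e i) := mul_nonneg (hX0 j).le (hσ i)
    have h2 : ys j * 1 ≤ ys j * f i := mul_le_mul_of_nonneg_left (hf i) (hy0 j).le
    linarith
  have hghi : ∀ i j, g i j ≤ (D + 1) * Bf i * ys j := by
    intro i j
    rw [hg, hBf]
    have h1 : Xs j * (σ * e i) ≤ (D + 1) * ys j * (σ * e i) :=
      mul_le_mul_of_nonneg_right (hXy j) (hσ i)
    have h2 : ys j * f i ≤ (D + 1) * (ys j * f i) :=
      le_mul_of_one_le_left (mul_nonneg (hy0 j).le (hf i).le) (by linarith)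
    calc Xs j * (σ * e i) + ys j * f i ≤ (D + 1) * ys j * (σ * e i) + (D + 1) * (ys j * f i) :=
          add_le_add h1 h2
      _ = (D + 1) * (σ * e i + f i) * ys j := by ring
  rintro ⟨s1, s2, s3, s4⟩
  have hBz : (1 : ℤ) ≤ B := by exact_mod_cast (by omega : 1 ≤ B)
  have hBi : ∀ i, Bf i ≤ 108 * (B : ℤ) ^ 6 := by
    intro i
    have h1 := pe5_ee hBz b1 b2 b3 b4 b5 b6 i
    have h2 := pe5_ff hBz b1 b2 b3 b4 b5 b6 i
    rw [← hedef] at h1
    rw [← hfdef] at h2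
    have h3 : |σ * e i| ≤ |e i| := by
      rw [abs_mul]
      have h4 : |σ| * |σ| = 1 := by rw [abs_mul_abs_self, hσ1]
      have h5 : |σ| ≤ 1 := by nlinarith [abs_nonneg σ]
      exact mul_le_of_le_one_left (abs_nonneg _) h5
    have h4 := le_abs_self (σ * e i)
    have h5 := le_abs_self (f i)
    rw [hBf]
    have h6 : (B : ℤ) ^ 4 ≤ (B : ℤ) ^ 6 := pow_le_pow_right₀ hBz (by norm_num)
    linarith
  -- the choice of `j`
  obtain ⟨Z, hZdef⟩ : ∃ Z : ℤ, Z = (B : ℤ) ^ 2 + B := ⟨_, rfl⟩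
  have hZ0 : 0 ≤ Z := by rw [hZdef]; positivity
  have hN1 : (1 : ℤ) ≤ N := by exact_mod_cast hN
  obtain ⟨w, hw⟩ : ∃ w : ℕ → ℤ, ∀ j, w j = t j * ys j := ⟨fun j => t j * ys j, fun _ => rfl⟩
  have hw0 : ∀ j, 0 < w j := fun j => by rw [hw]; exact mul_pos (ht0 j) (hy0 j)
  have hC0 : (0 : ℤ) ≤ C := by linarith
  have hwr : ∀ j, w (j + 1) ≤ C ^ 2 * w j := by
    intro j
    rw [hw, hw]
    calc t (j + 1) * ys (j + 1) ≤ (C * t j) * (C * ys j) :=
          mul_le_mul (htr j) (hyr j) (hy0 _).le (mul_nonneg hC0 (ht0 j).le)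
      _ = C ^ 2 * (t j * ys j) := by ring
  have hw00 : w 0 ≤ C ^ 2 := by
    rw [hw]
    calc t 0 * ys 0 ≤ C * C :=
          mul_le_mul ((hty 0).trans hyC) hyC (hy0 0).le hC0
      _ = C ^ 2 := by ring
  have hgrow : ∀ j : ℕ, (j : ℤ) < w j := by
    intro j
    have h1 : (j : ℤ) < ys j := by
      induction j with
      | zero => simpa using hy0 0
      | succ j ih =>
        have h2 := hmono (Nat.lt_succ_self j)
        push_cast
        linarith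
    have h3 : ys j ≤ w j := by
      rw [hw]
      exact le_mul_of_one_le_left (hy0 j).le (ht0 j)
    linarith
  have hex : ∃ j : ℕ, (N : ℤ) + Z ≤ w j := by
    obtain ⟨j, hj⟩ : ∃ j : ℕ, (N : ℤ) + Z ≤ j := ⟨((N : ℤ) + Z).toNat, Int.self_le_toNat _⟩
    exact ⟨j, hj.trans (hgrow j).le⟩
  obtain ⟨j, hj1, hj2⟩ : ∃ j : ℕ, (N : ℤ) + Z ≤ w j ∧ w j ≤ C ^ 2 * (N + Z) := by
    classical
    refine ⟨Nat.find hex, Nat.find_spec hex, ?_⟩
    rcases Nat.eq_zero_or_pos (Nat.find hex) with h0 | h0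
    · rw [h0]
      refine hw00.trans ?_
      exact le_mul_of_one_le_right (by positivity) (by linarith)
    · obtain ⟨k, hk⟩ : ∃ k, Nat.find hex = k + 1 := ⟨Nat.find hex - 1, by omega⟩
      have h1 := Nat.find_min hex (m := k) (by omega)
      push Not at h1
      rw [hk]
      refine (hwr k).trans ?_
      exact mul_le_mul_of_nonneg_left h1.le (by positivity)
  -- the four shifts lie in the window
  have hwin : ∀ (κ : ℤ) (i : Fin 4), 1 ≤ κ → κ ≤ m₁ * m₂ →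
      (N : ℤ) + Z ≤ 2 * (κ * t j) * g i j ∧
      ((2 * (κ * t j) * g i j + Z : ℤ) : ℝ) ≤
        N * Real.exp ((B₀ : ℝ) ^ 100 * (B : ℝ) ^ 9) := by
    intro κ i hκ1 hκ2
    have h1 : w j ≤ (κ * t j) * g i j := by
      rw [hw]
      exact mul_le_mul (le_mul_of_one_le_left (ht0 j).le hκ1) (hglo i j) (hy0 j).le
        (mul_nonneg (by linarith) (ht0 j).le)
    have hgp : 0 ≤ g i j := (hy0 j).le.trans (hglo i j)
    have h2 : (κ * t j) * g i j ≤ ((m₁ : ℤ) * m₂) * ((D + 1) * (108 * (B : ℤ) ^ 6)) * w j := by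
      calc (κ * t j) * g i j ≤ (((m₁ : ℤ) * m₂) * t j) * ((D + 1) * Bf i * ys j) :=
            mul_le_mul (mul_le_mul_of_nonneg_right hκ2 (ht0 j).le) (hghi i j) hgp
              (mul_nonneg hM.le (ht0 j).le)
        _ = ((m₁ : ℤ) * m₂) * ((D + 1) * Bf i) * w j := by rw [hw]; ring
        _ ≤ ((m₁ : ℤ) * m₂) * ((D + 1) * (108 * (B : ℤ) ^ 6)) * w j := by
            apply mul_le_mul_of_nonneg_right _ (hw0 j).le
            apply mul_le_mul_of_nonneg_left _ hM.le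
            exact mul_le_mul_of_nonneg_left (hBi i) (by linarith)
    constructor
    · have h3 := (hw0 j).le
      linarith
    · have h3 : (κ * t j) * g i j ≤ ((m₁ : ℤ) * m₂) * ((D + 1) * (108 * (B : ℤ) ^ 6)) *
          (C ^ 2 * (N + Z)) :=
        h2.trans (mul_le_mul_of_nonneg_left hj2 (by positivity))
      have h4 : 2 * (κ * t j) * g i j + Z ≤ 2 * ((m₁ * m₂ : ℕ) : ℤ) * (D + 1) *
          (108 * (B : ℤ) ^ 6) * (C ^ 2 * (N + Z)) + Z := by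
        push_cast
        linarith
      have h5 := pe6_num hB₀ hB (m := m₁ * m₂) (D := D) hD (hDdef ▸ pe5_DD b1 b2 b3 b4)
        (Nat.mul_le_mul b7 b8) hC2 hCe hN
      refine le_trans ?_ h5
      have h6 : (((2 * ((m₁ * m₂ : ℕ) : ℤ) * (D + 1) *
          (108 * (B : ℤ) ^ 6) * (C ^ 2 * (N + Z)) + Z : ℤ)) : ℝ) =
          2 * ((m₁ * m₂ : ℕ) : ℝ) * (D + 1) * (108 * (B : ℝ) ^ 6) *
            ((C : ℝ) ^ 2 * (N + ((B : ℝ) ^ 2 + B))) + ((B : ℝ) ^ 2 + B) := by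
        rw [hZdef]
        push_cast
        ring
      rw [← h6]
      exact_mod_cast h4
  have hrz : ∀ (y : ℤ) (a : R), |y| ≤ B → |rv b a 0| ≤ B → |rv b (v * a) 0| ≤ B →
      |b.repr (((y : R) - v) * a) 0| ≤ Z := by
    intro y a h1 h2 h3
    have h4 : ((y : R) - v) * a = y • a - v * a := by
      rw [zsmul_eq_mul]; ring
    rw [h4, map_sub, map_zsmul, Finsupp.sub_apply, Finsupp.smul_apply, smul_eq_mul]
    have h5 := pe5_sub (pe5_mul h1 h2) h3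
    refine le_trans h5 (le_of_eq ?_)
    rw [hZdef]
    ring
  have hrm : ∀ (m : ℕ) (V : R), 0 < m → |b.repr V 0| ≤ |b.repr ((m : R) * V) 0| := by
    intro m V hm
    have h4 : (m : R) * V = (m : ℤ) • V := by
      rw [zsmul_eq_mul]; push_cast; ring
    rw [h4, map_zsmul, Finsupp.smul_apply, smul_eq_mul, abs_mul]
    have h5 : (1 : ℤ) ≤ |(m : ℤ)| := by
      rw [abs_of_nonneg (by positivity)]
      exact_mod_cast hm
    exact le_mul_of_one_le_left (abs_nonneg _) h5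
  have hκ0 : (1 : ℤ) ≤ (m₁ : ℤ) * m₂ := hM
  have hκ1 : (m₂ : ℤ) ≤ m₁ * m₂ := le_mul_of_one_le_left (by linarith) hM1
  have hκ3 : (m₁ : ℤ) ≤ m₁ * m₂ := le_mul_of_one_le_right (by linarith) hM2
  obtain ⟨q01, q02⟩ := hwin ((m₁ : ℤ) * m₂) 0 hκ0 le_rfl
  obtain ⟨q21, q22⟩ := hwin ((m₁ : ℤ) * m₂) 2 hκ0 le_rfl
  obtain ⟨q11, q12⟩ := hwin (m₂ : ℤ) 1 hM2 hκ1
  obtain ⟨q31, q32⟩ := hwin (m₁ : ℤ) 3 hM1 hκ3
  have l1 := pe6_class hb (((x : R) - v) * a) (hrz x a b5 (b1 0) (b2 0)) q01 q02 s1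
  have l2 := pe6_class hb (((x' : R) - v) * a) (hrz x' a b6 (b1 0) (b2 0)) q21 q22 s2
  have l3 := pe6_class hb V ((hrm m₁ V hm₁).trans (hV ▸ hrz x' c b6 (b3 0) (b4 0))) q11 q12 s3
  have l4 := pe6_class hb W ((hrm m₂ W hm₂).trans (hW ▸ hrz x c b5 (b3 0) (b4 0))) q31 q32 s4
  have hP : (σ * Xs j) ^ 2 - D * ys j ^ 2 = 1 := by
    have h1 := hpell j
    have h2 : (σ * Xs j) ^ 2 = (σ * σ) * Xs j ^ 2 := by ring
    rw [h2, hσ1, one_mul]
    exact h1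
  have key := hrel (σ * Xs j) (ys j) hP
  simp only at key
  have q0 : 2 * ys j * (σ * Xs j * e 0 + ys j * f 0) = 2 * ((m₁ : ℤ) * m₂ * t j) * g 0 j := by
    rw [hg, ht j]; ring
  have q2 : 2 * ys j * (σ * Xs j * e 2 + ys j * f 2) = 2 * ((m₁ : ℤ) * m₂ * t j) * g 2 j := by
    rw [hg, ht j]; ring
  have q1 : 2 * ys j * (σ * Xs j * e 1 + ys j * f 1) =
      (m₁ : ℤ) * (2 * ((m₂ : ℤ) * t j) * g 1 j) := by
    rw [hg, ht j]; ring
  have q3 : 2 * ys j * (σ * Xs j * e 3 + ys j * f 3) =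
      (m₂ : ℤ) * (2 * ((m₁ : ℤ) * t j) * g 3 j) := by
    rw [hg, ht j]; ring
  rw [q0, q1, q2, q3] at key
  generalize 2 * ((m₁ : ℤ) * m₂ * t j) * g 0 j = u0 at *
  generalize 2 * ((m₁ : ℤ) * m₂ * t j) * g 2 j = u2 at *
  generalize 2 * ((m₂ : ℤ) * t j) * g 1 j = u1 at *
  generalize 2 * ((m₁ : ℤ) * t j) * g 3 j = u3 at *
  have e1 : ((x' : R) - v) * c + (((m₁ : ℤ) * u1 : ℤ) : R) = algebraMap ℤ R (m₁ : ℤ) * (V + (u1 : R)) := by
    rw [hV]
    simp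
    ring
  have e3 : ((x : R) - v) * c + (((m₂ : ℤ) * u3 : ℤ) : R) = algebraMap ℤ R (m₂ : ℤ) * (W + (u3 : R)) := by
    rw [hW]
    simp
    ring
  rw [e1, e3] at key
  have hn := congrArg (fun r : R => liouville (Algebra.norm ℤ r)) key
  simp only [map_mul, Algebra.norm_algebraMap_of_basis b, Fintype.card_fin, liou_mul, l1, l2, l3, l4]
    at hn
  rw [liou_cube (by exact_mod_cast hm₁.ne'), liou_cube (by exact_mod_cast hm₂.ne')] at hn
  apply hm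
  rcases hs with rfl | rfl
  · simpa using hn
  · simpa using hn

end

end Pool.Agent.CUB

end

section

namespace Pool.Agent.CUB

open Polynomial Pool.Agent.CF

section
variable {R : Type*} [CommRing R] {b : Module.Basis (Fin 3) ℤ R}

/-- (STR) the structure constants -/
theorem str (hb : b 0 = 1) : ∃ A₀ E₀ A' r E' : ℤ, SC b A₀ E₀ A' r E' (Phi b 1 0) := by
  have hI : b.repr (b 1 * b 1) 2 = Phi b 1 0 := by
    unfold Phi kq kp
    ring
  have h1 := decomp hb (b 1 * b 1)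
  have h2 := decomp hb (b 1 * b 2)
  have h3 := decomp hb (b 2 * b 2)
  rw [hI] at h1
  obtain ⟨E, hE⟩ : ∃ E : ℤ, E = b.repr (b 1 * b 1) 0 := ⟨_, rfl⟩
  obtain ⟨A, hA⟩ : ∃ A : ℤ, A = b.repr (b 1 * b 1) 1 := ⟨_, rfl⟩
  obtain ⟨E', hE'⟩ : ∃ E : ℤ, E = b.repr (b 1 * b 2) 0 := ⟨_, rfl⟩
  obtain ⟨A', hA'⟩ : ∃ A : ℤ, A = b.repr (b 1 * b 2) 1 := ⟨_, rfl⟩
  obtain ⟨r, hr⟩ : ∃ r : ℤ, r = b.repr (b 1 * b 2) 2 := ⟨_, rfl⟩
  obtain ⟨E'', hE''⟩ : ∃ E : ℤ, E = b.repr (b 2 * b 2) 0 := ⟨_, rfl⟩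
  obtain ⟨B', hB'⟩ : ∃ A : ℤ, A = b.repr (b 2 * b 2) 1 := ⟨_, rfl⟩
  obtain ⟨C', hC'⟩ : ∃ r : ℤ, r = b.repr (b 2 * b 2) 2 := ⟨_, rfl⟩
  obtain ⟨I, hII⟩ : ∃ I : ℤ, I = Phi b 1 0 := ⟨_, rfl⟩
  rw [← hE, ← hA, ← hII] at h1
  rw [← hE', ← hA', ← hr] at h2
  rw [← hE'', ← hB', ← hC'] at h3
  rw [← hII]
  have k1 : b 1 * (b 1 * b 2) = ((A' * E + r * E' : ℤ) : R) +
      ((A' * A + r * A' + E' : ℤ) : R) * b 1 + ((A' * I + r ^ 2 : ℤ) : R) * b 2 := by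
    push_cast
    linear_combination (b 1 : R) * h2 + (A' : R) * h1 + (r : R) * h2
  have k2 : b 1 * (b 1 * b 2) = ((A * E' + I * E'' : ℤ) : R) +
      ((A * A' + I * B' : ℤ) : R) * b 1 + ((A * r + I * C' + E : ℤ) : R) * b 2 := by
    push_cast
    linear_combination (b 2 : R) * h1 + (A : R) * h2 + (I : R) * h3
  have k3 := congrArg (fun v => b.repr v 1) (k1.symm.trans k2)
  have k4 := congrArg (fun v => b.repr v 2) (k1.symm.trans k2)
  rw [repr_lin1 hb, repr_lin1 hb] at k3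
  rw [repr_lin2 hb, repr_lin2 hb] at k4
  refine ⟨A, E, A', r, E', ?_, ?_, ⟨C' - A', ?_⟩, ⟨B', ?_⟩⟩
  · linear_combination h1
  · linear_combination h2
  · linear_combination k4
  · linear_combination k3

/-- (STR) the quotient of `(x - N g) c` -/
theorem alg (hb : b 0 = 1) {A₀ E₀ A' r E' I : ℤ} (h : SC b A₀ E₀ A' r E' I)
    {P D P' I' N t x : ℤ} (hP : P = D * P') (hI : I = D * I') (hx : x = N * r + D * t)
    (n : ℤ) (u : ℤ × ℤ) :
    ∃ V : R, ((x : R) - (N : R) * b 1) * elc b A₀ A' r P n u = (D : R) * V ∧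
      cls b V = vl t (N * P') (N * I') n u := by
  obtain ⟨k, hk⟩ := h.h3
  obtain ⟨l, hl⟩ := h.h4
  have hk' := congrArg (fun z : ℤ => (z : R)) hk
  have hl' := congrArg (fun z : ℤ => (z : R)) hl
  have hP' := congrArg (fun z : ℤ => (z : R)) hP
  have hI' := congrArg (fun z : ℤ => (z : R)) hI
  have hx' := congrArg (fun z : ℤ => (z : R)) hx
  push_cast at hk' hl' hP' hI' hx'
  refine ⟨((t * (n * P - (A₀ - r) * u.1 - A' * u.2) +
      N * (r * n * P' + I' * k * u.1 - I' * l * u.2) : ℤ) : R) +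
      ((t * u.1 - N * P' * n : ℤ) : R) * b 1 + ((t * u.2 - N * I' * u.1 : ℤ) : R) * b 2, ?_, ?_⟩
  · have h1 := h.h1
    have h2 := h.h2
    unfold elc el
    push_cast
    rw [hx']
    linear_combination (-(N : R) * u.1) * h1 - (N : R) * u.2 * h2 +
      ((N : R) * u.1) * hk' - (N : R) * u.2 * hl' +
      ((N : R) * r * n - (N : R) * n * b 1) * hP' +
      ((N : R) * k * u.1 - (N : R) * l * u.2 - (N : R) * u.1 * b 2) * hI'
  · unfold cls vl
    rw [repr_lin1 hb, repr_lin2 hb]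

/-- (STR) coordinates -/
theorem rv_elc (hb : b 0 = 1) (A₀ A' r P n : ℤ) (u : ℤ × ℤ) :
    rv b (elc b A₀ A' r P n u) = ![n * P - (A₀ - r) * u.1 - A' * u.2, u.1, u.2] := by
  have h : elc b A₀ A' r P n u = ((n * P - (A₀ - r) * u.1 - A' * u.2 : ℤ) : R) +
      (u.1 : R) * b 1 + (u.2 : R) * b 2 := by
    unfold elc el
    ring
  ext i
  unfold rv
  rw [h, repr_lin hb]
  rfl

theorem rv_mul_elc (hb : b 0 = 1) {A₀ E₀ A' r E' I : ℤ} (h : SC b A₀ E₀ A' r E' I)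
    (N P n : ℤ) (u : ℤ × ℤ) :
    rv b ((N : R) * b 1 * elc b A₀ A' r P n u) =
      ![N * (E₀ * u.1 + E' * u.2), N * (n * P + r * u.1), N * (I * u.1 + r * u.2)] := by
  have h1 := h.h1
  have h2 := h.h2
  have h3 : (N : R) * b 1 * elc b A₀ A' r P n u = ((N * (E₀ * u.1 + E' * u.2) : ℤ) : R) +
      ((N * (n * P + r * u.1) : ℤ) : R) * b 1 + ((N * (I * u.1 + r * u.2) : ℤ) : R) * b 2 := by
    unfold elc el
    push_cast
    linear_combination ((N : R) * u.1) * h1 + ((N : R) * u.2) * h2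
  ext i
  unfold rv
  rw [h3, repr_lin hb]
  rfl

theorem rv_v (hb : b 0 = 1) (N : ℤ) : rv b ((N : R) * b 1) = ![0, N, 0] := by
  have h3 : (N : R) * b 1 = ((0 : ℤ) : R) + (N : R) * b 1 + ((0 : ℤ) : R) * b 2 := by
    push_cast
    ring
  ext i
  unfold rv
  rw [h3, repr_lin hb]
  rfl

/-- (STR) the discriminant -/
theorem DD_elc (hb : b 0 = 1) {A₀ E₀ A' r E' I : ℤ} (h : SC b A₀ E₀ A' r E' I)
    (N P n m : ℤ) (u w : ℤ × ℤ) :
    DD (rv b (elc b A₀ A' r 1 n u)) (rv b ((N : R) * b 1 * elc b A₀ A' r 1 n u))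
      (rv b (elc b A₀ A' r P m w)) (rv b ((N : R) * b 1 * elc b A₀ A' r P m w)) =
      N ^ 2 * Dq I n u (m * P) w := by
  rw [rv_elc hb, rv_elc hb, rv_mul_elc hb h, rv_mul_elc hb h]
  unfold DD th br Dq
  simp
  ring

/-- (STR) the quantity of the positivity condition -/
theorem br_elc (hb : b 0 = 1) {A₀ E₀ A' r E' I : ℤ} (h : SC b A₀ E₀ A' r E' I)
    (N n : ℤ) (u : ℤ × ℤ) :
    br (rv b (elc b A₀ A' r 1 n u)) (rv b ((N : R) * b 1 * elc b A₀ A' r 1 n u)) *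
      br (rv b (elc b A₀ A' r 1 n u)) (rv b ((N : R) * b 1)) =
      N ^ 2 * (n * u.2 ^ 2 - I * u.1 ^ 2 * u.2) := by
  rw [rv_elc hb, rv_mul_elc hb h, rv_v hb]
  unfold br
  simp
  ring

end

end Pool.Agent.CUB

end

section

namespace Pool.Agent.CUB

open Polynomial Pool.Agent.CF

section
variable {R : Type*} [CommRing R] [IsDomain R] {b : Module.Basis (Fin 3) ℤ R}

omit [IsDomain R] in
theorem gb_hom (g x y : ℤ) : Phi b (g * x) (g * y) = g ^ 3 * Phi b x y := by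
  unfold Phi
  ring

/-- (GB) the index form does not vanish -/
theorem phi_ne0 (hb : b 0 = 1) {q : ℤ × ℤ} (hq : q ≠ 0) : Phi b q.1 q.2 ≠ 0 := by
  have hg0 : (Int.gcd q.1 q.2 : ℤ) ≠ 0 := by
    intro h
    have h1 : Int.gcd q.1 q.2 = 0 := by exact_mod_cast h
    rw [Int.gcd_eq_zero_iff] at h1
    exact hq (Prod.ext h1.1 h1.2)
  have hgpos : 0 < Int.gcd q.1 q.2 := by
    rcases Nat.eq_zero_or_pos (Int.gcd q.1 q.2) with h | h
    · exact absurd (by exact_mod_cast h) hg0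
    · exact h
  obtain ⟨g, x, y, hgp, hco, hx, hy⟩ := Int.exists_gcd_one' hgpos
  obtain ⟨u, v, huv⟩ := Int.isCoprime_iff_gcd_eq_one.mpr hco
  have hd : x * u - y * (-v) = 1 := by linear_combination huv
  have hP := Phi_ne hb hd
  have hgz : (g : ℤ) ≠ 0 := by exact_mod_cast hgp.ne'
  rw [hx, hy, mul_comm x, mul_comm y, gb_hom]
  exact mul_ne_zero (pow_ne_zero 3 hgz) hP

theorem gb_minpoly (hb : b 0 = 1) {q : ℤ × ℤ} (hq : q ≠ 0) :
    minpoly ℤ (el b q.1 q.2) = (Algebra.leftMulMatrix b (el b q.1 q.2)).charpoly := by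
  obtain ⟨α, hα⟩ : ∃ α : R, α = el b q.1 q.2 := ⟨_, rfl⟩
  rw [← hα]
  have hmon : (Algebra.leftMulMatrix b α).charpoly.Monic := Matrix.charpoly_monic _
  have hint : IsIntegral ℤ α := ⟨_, hmon, aeval_charpoly_leftMul α⟩
  have : Module.IsTorsionFree ℤ R := b.isTorsionFree
  have hdvd := minpoly.isIntegrallyClosed_dvd hint (aeval_charpoly_leftMul (b := b) α)
  have hdeg : (Algebra.leftMulMatrix b α).charpoly.natDegree = 3 := by
    rw [Matrix.charpoly_natDegree_eq_dim]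
    simp
  symm
  refine Polynomial.eq_of_monic_of_dvd_of_natDegree_le (minpoly.monic hint) hmon hdvd ?_
  rw [hdeg]
  by_contra hlt
  push Not at hlt
  obtain ⟨P, hP⟩ : ∃ P : ℤ[X], P = minpoly ℤ α * X ^ (2 - (minpoly ℤ α).natDegree) := ⟨_, rfl⟩
  have hPm : P.Monic := by
    rw [hP]
    exact (minpoly.monic hint).mul (monic_X_pow _)
  have hPd : P.natDegree = 2 := by
    rw [hP, (minpoly.monic hint).natDegree_mul (monic_X_pow _), natDegree_X_pow]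
    omega
  have hP0 : aeval α P = 0 := by
    rw [hP, map_mul, minpoly.aeval, zero_mul]
  rw [Polynomial.aeval_eq_sum_range, hPd, Finset.sum_range_succ, Finset.sum_range_succ,
    Finset.sum_range_succ, Finset.sum_range_zero] at hP0
  have hc : P.coeff 2 = 1 := by
    have := hPm.coeff_natDegree
    rwa [hPd] at this
  rw [hc] at hP0
  have h2 : α ^ 2 = ((-(P.coeff 1) : ℤ) : R) * α + ((-(P.coeff 0) : ℤ) : R) := by
    simp only [zsmul_eq_mul, pow_zero, pow_one] at hP0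
    push_cast at hP0 ⊢
    linear_combination hP0
  rw [hα] at h2
  exact phi_ne0 hb hq (el_quad hb h2)

/-- (GB) an element which is not good has (almost) constant sign -/
theorem gb (hb : b 0 = 1) {q : ℤ × ℤ} (hq : q ≠ 0) (hg : ¬ GoodL b q) :
    -q ∈ SS b 1 ∨ -q ∈ SS b (-1) := by
  have hmp := gb_minpoly hb hq
  have hdeg : (minpoly ℤ (el b q.1 q.2)).natDegree = 3 := by
    rw [hmp, Matrix.charpoly_natDegree_eq_dim]
    simp
  have hnb : ¬ BothSignsLog (minpoly ℤ (el b q.1 q.2)) := fun h => hg ⟨hdeg, h⟩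
  unfold BothSignsLog at hnb
  push Not at hnb
  obtain ⟨s, hs, hδ⟩ := hnb
  have key : -q ∈ SS b (-s) := by
    unfold SS Few
    rw [Set.mem_ofPred_eq]
    intro δ hδ0
    obtain ⟨N₀, hN⟩ := hδ δ hδ0
    refine ⟨N₀, fun N hNN => ?_⟩
    refine le_of_eq_of_le ?_ (hN N hNN).le
    have hset : {n : ℕ | 1 ≤ n ∧ n ≤ N ∧
        liouville (Algebra.norm ℤ ((n : R) + el b (-q).1 (-q).2)) ≠ -s} =
        {n : ℕ | 1 ≤ n ∧ n ≤ N ∧ liouville ((minpoly ℤ (el b q.1 q.2)).eval (n : ℤ)) = s} := by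
      ext n
      simp only [Set.mem_ofPred_eq]
      refine and_congr_right fun _ => and_congr_right fun _ => ?_
      have h1 : ((n : ℕ) : R) + el b (-q).1 (-q).2 = (((n : ℕ) : ℤ) : R) - el b q.1 q.2 := by
        rw [Prod.fst_neg, Prod.snd_neg, el_neg]
        push_cast
        ring
      rw [h1, hmp, charpoly_eval]
      have hne : Algebra.norm ℤ ((((n : ℕ) : ℤ) : R) - el b q.1 q.2) ≠ 0 := by
        intro h0
        rw [Algebra.norm_eq_zero_iff_of_basis b] at h0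
        have hxy := el_eq_int hb (sub_eq_zero.mp h0).symm
        exact hq (Prod.ext hxy.1 hxy.2)
      rcases liou_ne hne with h | h <;> rcases hs with h' | h' <;> rw [h, h'] <;> norm_num
    rw [hset]
  rcases hs with h | h
  · right
    rw [h] at key
    exact key
  · left
    rw [h, neg_neg] at key
    exact key

end

end Pool.Agent.CUB

end

section

namespace Pool.Agent.CUB

open Polynomial Pool.Agent.CF

theorem ker_fam (p q : ℤ × ℤ) (T Y J : ℤ) (w : ℤ × ℤ × ℤ) :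
    fam p q T Y J w = (T * (w.2.1 * p.1 + w.2.2 * q.1) - Y * w.1,
      T * (w.2.1 * p.2 + w.2.2 * q.2) - J * (w.2.1 * p.1 + w.2.2 * q.1)) := by
  simp [fam, vl, pt]

theorem ker_u1 {p q : ℤ × ℤ} {N e : ℤ} (hN : dt p q = e * N) (he : e * e = 1) (t Y' I' : ℤ) :
    e * Y' * (t * q.2 - N * I' * q.1) * p.1 + e * Y' * (N * I' * p.1 - t * p.2) * q.1 =
      Y' * t * N := by
  unfold dt at hN
  linear_combination (e * Y' * t) * hN + (Y' * t * N) * he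

theorem ker_u2 {p q : ℤ × ℤ} {N e : ℤ} (hN : dt p q = e * N) (he : e * e = 1) (t Y' I' : ℤ) :
    e * Y' * (t * q.2 - N * I' * q.1) * p.2 + e * Y' * (N * I' * p.1 - t * p.2) * q.2 =
      Y' * N ^ 2 * I' := by
  unfold dt at hN
  linear_combination (e * Y' * N * I') * hN + (Y' * N ^ 2 * I') * he

/-- (KER) the kernel vector -/
theorem ker1 {p q : ℤ × ℤ} {N e : ℤ} (hN : dt p q = e * N) (he : e * e = 1) (D t Y' I' : ℤ) :
    fam p q (D * t) (N * Y') (N * (D * I')) (kap p q N D t Y' I' e) = 0 := by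
  rw [ker_fam]
  simp only [kap]
  rw [ker_u1 hN he, ker_u2 hN he]
  ext
  · simp only [Prod.fst_zero]; ring
  · simp only [Prod.snd_zero]; ring

/-- (KER) it generates the kernel -/
theorem ker2 {p q : ℤ × ℤ} {N e : ℤ} (hN : dt p q = e * N) (he : e * e = 1) (hN0 : N ≠ 0)
    {D t Y' I' : ℤ} (hD : D ≠ 0) (ht : t ≠ 0) (h1 : IsCoprime t (N * I'))
    (h2 : IsCoprime (D * t) (N * Y')) {w : ℤ × ℤ × ℤ}
    (hw : fam p q (D * t) (N * Y') (N * (D * I')) w = 0) :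
    ∃ k : ℤ, w = k • kap p q N D t Y' I' e := by
  obtain ⟨n, s, r⟩ := w
  rw [ker_fam] at hw
  have hw1 := congrArg Prod.fst hw
  have hw2 := congrArg Prod.snd hw
  simp only [Prod.fst_zero, Prod.snd_zero] at hw1 hw2
  have hdt : p.1 * q.2 - p.2 * q.1 = e * N := hN
  generalize hu1 : s * p.1 + r * q.1 = u1 at hw1 hw2
  generalize hu2 : s * p.2 + r * q.2 = u2 at hw1 hw2
  -- `t u2 = N I' u1`
  have e1 : t * u2 = N * I' * u1 := by
    apply mul_left_cancel₀ hD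
    linear_combination hw2
  have e2 : t ∣ u1 := by
    apply h1.dvd_of_dvd_mul_left
    exact ⟨u2, e1.symm⟩
  obtain ⟨w', rfl⟩ := e2
  have e3 : u2 = N * I' * w' := by
    apply mul_left_cancel₀ ht
    linear_combination e1
  -- `D t | n`
  have e4 : D * t ∣ n := by
    apply h2.dvd_of_dvd_mul_left
    exact ⟨t * w', by linear_combination -hw1⟩
  obtain ⟨n', rfl⟩ := e4
  have hDt : D * t ≠ 0 := mul_ne_zero hD ht
  have e5 : t * w' = N * Y' * n' := by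
    apply mul_left_cancel₀ hDt
    linear_combination hw1
  have h3 : IsCoprime t (N * Y') := (IsCoprime.mul_left_iff.mp h2).2
  have e6 : t ∣ n' := by
    apply h3.dvd_of_dvd_mul_left
    exact ⟨w', e5.symm⟩
  obtain ⟨k, rfl⟩ := e6
  have e7 : w' = N * Y' * k := by
    apply mul_left_cancel₀ ht
    linear_combination e5
  subst e7
  subst e3
  refine ⟨k, ?_⟩
  have hs : s = k * (e * Y' * (t * q.2 - N * I' * q.1)) := by
    apply mul_left_cancel₀ hN0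
    linear_combination (e * q.2) * hu1 - (e * q.1) * hu2 - (e * s) * hdt - (N * s) * he
  have hr : r = k * (e * Y' * (N * I' * p.1 - t * p.2)) := by
    apply mul_left_cancel₀ hN0
    linear_combination (e * p.1) * hu2 - (e * p.2) * hu1 - (e * r) * hdt - (N * r) * he
  ext
  · simp only [kap, Prod.smul_fst, smul_eq_mul]
    ring
  · simpa only [kap, Prod.smul_fst, Prod.smul_snd, smul_eq_mul] using hs
  · simpa only [kap, Prod.smul_fst, Prod.smul_snd, smul_eq_mul] using hr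

/-- (KER) the value of the first map, `a`-family -/
theorem ker3a {p q : ℤ × ℤ} {N e : ℤ} (hN : dt p q = e * N) (he : e * e = 1)
    {D₀ t₀ D t I I' : ℤ} (hI : I = D * I') :
    fam p q (D₀ * t₀) (N * 1) (N * I) (kap p q N D t 1 I' e) =
      (D₀ * t₀ - D * t) • ((N * t, N ^ 2 * I') : ℤ × ℤ) := by
  subst hI
  rw [ker_fam]
  simp only [kap]
  rw [ker_u1 hN he, ker_u2 hN he]
  ext
  · simp only [Prod.smul_fst, smul_eq_mul]; ring
  · simp only [Prod.smul_snd, smul_eq_mul]; ring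

/-- (KER) the value of the first map, `c`-family -/
theorem ker3c {p q : ℤ × ℤ} {N e : ℤ} (hN : dt p q = e * N) (he : e * e = 1)
    {P I D₀ t₀ P₀' I₀' D t P' I' : ℤ} (hP₀ : P = D₀ * P₀') (hI₀ : I = D₀ * I₀')
    (hP : P = D * P') (hI : I = D * I') :
    (D₀ * D) • fam p q t₀ (N * P₀') (N * I₀') (kap p q N 1 t P' I' e) =
      (P * (D₀ * t₀ - D * t)) • ((N * t, N ^ 2 * I') : ℤ × ℤ) := by
  rw [ker_fam]
  simp only [kap]
  rw [ker_u1 hN he, ker_u2 hN he]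
  ext
  · simp only [Prod.smul_fst, smul_eq_mul]
    linear_combination (-(D₀ * t₀ * t * N)) * hP + (N * t ^ 2 * D) * hP₀
  · simp only [Prod.smul_snd, smul_eq_mul]
    linear_combination (-(D₀ * t₀ * N ^ 2 * I')) * hP + (N ^ 2 * t * P) * (hI₀ - hI) + (N ^ 2 * t * D₀ * I₀') * hP

end Pool.Agent.CUB

end
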