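import Pool.Agent.Lib_helper43.CU.F1

/-!
# part 2: the Bessel inequality and near-maximal boxes
-/

set_option autoImplicit false

section

namespace Pool.Agent.CUB

open Polynomial Pool.Agent.CF

/-- the mean over the cube -/
noncomputable def Ev (l : ℕ) (G : ℤ × ℤ × ℤ → ℝ) : ℝ := (∑ w ∈ box3 l, G w) / (l : ℝ) ^ 3

/-- A shift by one. -/
theorem bsh_one (l : ℕ) (f : ℤ → ℝ) :
    ∑ x ∈ Finset.Ico 0 (l : ℤ), f (x + 1) = ∑ x ∈ Finset.Ico 0 (l : ℤ), f x + f l - f 0 := by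
  induction l with
  | zero => simp
  | succ l ih =>
    have h : Finset.Ico (0 : ℤ) ((l + 1 : ℕ) : ℤ) = insert (l : ℤ) (Finset.Ico 0 (l : ℤ)) := by
      ext x
      rw [Finset.mem_insert, Finset.mem_Ico, Finset.mem_Ico]
      push_cast
      omega
    have hn : (l : ℤ) ∉ Finset.Ico 0 (l : ℤ) := by
      rw [Finset.mem_Ico]
      omega
    rw [h, Finset.sum_insert hn, Finset.sum_insert hn, ih]
    push_cast
    ring

/-- The sum over a translated interval, natural shifts. -/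
theorem bsh_nat (l : ℕ) (f : ℤ → ℝ) (hf : ∀ x, |f x| ≤ 1) (s : ℕ) :
    |∑ x ∈ Finset.Ico 0 (l : ℤ), f (x + s) - ∑ x ∈ Finset.Ico 0 (l : ℤ), f x| ≤ 2 * s := by
  induction s with
  | zero => simp
  | succ s ih =>
    have h : ∑ x ∈ Finset.Ico 0 (l : ℤ), f (x + 1 + s) =
        ∑ x ∈ Finset.Ico 0 (l : ℤ), f (x + s) + f ((l : ℤ) + s) - f ((0 : ℤ) + s) :=
      bsh_one l (fun x => f (x + s))
    have e : ∀ x : ℤ, x + ((s + 1 : ℕ) : ℤ) = x + 1 + s := fun x => by push_cast; ring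
    simp only [e]
    rw [h]
    have a := abs_le.1 ih
    have b := abs_le.1 (hf ((l : ℤ) + s))
    have c := abs_le.1 (hf ((0 : ℤ) + s))
    push_cast
    rw [abs_le]
    constructor <;> linarith [a.1, a.2, b.1, b.2, c.1, c.2]

/-- The sum over a translated interval. -/
theorem bsh_int (l : ℕ) (f : ℤ → ℝ) (hf : ∀ x, |f x| ≤ 1) (s : ℤ) :
    |∑ x ∈ Finset.Ico 0 (l : ℤ), f (x + s) - ∑ x ∈ Finset.Ico 0 (l : ℤ), f x| ≤ 2 * |(s : ℝ)| := by
  obtain ⟨n, rfl | rfl⟩ := Int.eq_nat_or_neg s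
  · have h := bsh_nat l f hf n
    have e : |((n : ℤ) : ℝ)| = n := by
      rw [Int.cast_natCast, Nat.abs_cast]
    rw [e]
    exact h
  · have h := bsh_nat l (fun x => f (x + -(n : ℤ))) (fun x => hf _) n
    simp only [add_assoc] at h
    have e : ∀ x : ℤ, x + ((n : ℤ) + -(n : ℤ)) = x := fun x => by ring
    simp only [e] at h
    rw [abs_sub_comm] at h
    have e' : |((-(n : ℤ) : ℤ) : ℝ)| = n := by
      rw [Int.cast_neg, abs_neg, Int.cast_natCast, Nat.abs_cast]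
    rw [e']
    exact h

/-- The sum over the cube as an iterated sum. -/
theorem bsh_iter (l : ℕ) (G : ℤ × ℤ × ℤ → ℝ) : ∑ w ∈ box3 l, G w =
    ∑ x ∈ Finset.Ico 0 (l : ℤ), ∑ y ∈ Finset.Ico 0 (l : ℤ), ∑ z ∈ Finset.Ico 0 (l : ℤ),
      G (x, y, z) := by
  unfold box3
  rw [Finset.sum_product]
  refine Finset.sum_congr rfl fun x _ => ?_
  rw [Finset.sum_product]

/-- The number of points of the interval. -/
theorem bsh_card (l : ℕ) : ((Finset.Ico 0 (l : ℤ)).card : ℝ) = l := by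
  rw [Int.card_Ico]
  simp

/-- (BSH) the mean over a translated cube -/
theorem bsh (l : ℕ) (hl : 0 < l) (G : ℤ × ℤ × ℤ → ℝ) (hG : ∀ w, |G w| ≤ 1) (v : ℤ × ℤ × ℤ)
    {m : ℝ} (h1 : |(v.1 : ℝ)| ≤ m) (h2 : |(v.2.1 : ℝ)| ≤ m) (h3 : |(v.2.2 : ℝ)| ≤ m) :
    |Ev l (fun w => G (w + v)) - Ev l G| ≤ 6 * m / l := by
  obtain ⟨a, b, c⟩ := v
  simp only at h1 h2 h3
  have hl0 : (0 : ℝ) < l := Nat.cast_pos.2 hl
  set I := Finset.Ico 0 (l : ℤ) with hI
  -- one coordinate at a time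
  have k3 : |∑ x ∈ I, ∑ y ∈ I, ∑ z ∈ I, G (x + a, y + b, z + c) -
      ∑ x ∈ I, ∑ y ∈ I, ∑ z ∈ I, G (x + a, y + b, z)| ≤ 2 * m * l ^ 2 := by
    rw [← Finset.sum_sub_distrib]
    refine (Finset.abs_sum_le_sum_abs _ _).trans ?_
    have : ∀ x ∈ I, |∑ y ∈ I, ∑ z ∈ I, G (x + a, y + b, z + c) -
        ∑ y ∈ I, ∑ z ∈ I, G (x + a, y + b, z)| ≤ 2 * m * l := by
      intro x _
      rw [← Finset.sum_sub_distrib]
      refine (Finset.abs_sum_le_sum_abs _ _).trans ?_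
      have h : ∀ y ∈ I, |∑ z ∈ I, G (x + a, y + b, z + c) - ∑ z ∈ I, G (x + a, y + b, z)| ≤
          2 * m := fun y _ =>
        (bsh_int l (fun z => G (x + a, y + b, z)) (fun z => hG _) c).trans (by linarith)
      refine (Finset.sum_le_sum h).trans ?_
      rw [Finset.sum_const, nsmul_eq_mul, bsh_card]
      linarith
    refine (Finset.sum_le_sum this).trans ?_
    rw [Finset.sum_const, nsmul_eq_mul, bsh_card]
    nlinarith
  have k2 : |∑ x ∈ I, ∑ y ∈ I, ∑ z ∈ I, G (x + a, y + b, z) -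
      ∑ x ∈ I, ∑ y ∈ I, ∑ z ∈ I, G (x + a, y, z)| ≤ 2 * m * l ^ 2 := by
    rw [← Finset.sum_sub_distrib]
    refine (Finset.abs_sum_le_sum_abs _ _).trans ?_
    have : ∀ x ∈ I, |∑ y ∈ I, ∑ z ∈ I, G (x + a, y + b, z) -
        ∑ y ∈ I, ∑ z ∈ I, G (x + a, y, z)| ≤ 2 * m * l := by
      intro x _
      rw [Finset.sum_comm, Finset.sum_comm (f := fun y z => G (x + a, y, z)),
        ← Finset.sum_sub_distrib]
      refine (Finset.abs_sum_le_sum_abs _ _).trans ?_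
      have h : ∀ z ∈ I, |∑ y ∈ I, G (x + a, y + b, z) - ∑ y ∈ I, G (x + a, y, z)| ≤
          2 * m := fun z _ =>
        (bsh_int l (fun y => G (x + a, y, z)) (fun y => hG _) b).trans (by linarith)
      refine (Finset.sum_le_sum h).trans ?_
      rw [Finset.sum_const, nsmul_eq_mul, bsh_card]
      linarith
    refine (Finset.sum_le_sum this).trans ?_
    rw [Finset.sum_const, nsmul_eq_mul, bsh_card]
    nlinarith
  have k1 : |∑ x ∈ I, ∑ y ∈ I, ∑ z ∈ I, G (x + a, y, z) -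
      ∑ x ∈ I, ∑ y ∈ I, ∑ z ∈ I, G (x, y, z)| ≤ 2 * m * l ^ 2 := by
    rw [Finset.sum_comm, Finset.sum_comm (f := fun x y => ∑ z ∈ I, G (x, y, z)),
      ← Finset.sum_sub_distrib]
    refine (Finset.abs_sum_le_sum_abs _ _).trans ?_
    have : ∀ y ∈ I, |∑ x ∈ I, ∑ z ∈ I, G (x + a, y, z) -
        ∑ x ∈ I, ∑ z ∈ I, G (x, y, z)| ≤ 2 * m * l := by
      intro y _
      rw [Finset.sum_comm, Finset.sum_comm (f := fun x z => G (x, y, z)),
        ← Finset.sum_sub_distrib]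
      refine (Finset.abs_sum_le_sum_abs _ _).trans ?_
      have h : ∀ z ∈ I, |∑ x ∈ I, G (x + a, y, z) - ∑ x ∈ I, G (x, y, z)| ≤
          2 * m := fun z _ =>
        (bsh_int l (fun x => G (x, y, z)) (fun y => hG _) a).trans (by linarith)
      refine (Finset.sum_le_sum h).trans ?_
      rw [Finset.sum_const, nsmul_eq_mul, bsh_card]
      linarith
    refine (Finset.sum_le_sum this).trans ?_
    rw [Finset.sum_const, nsmul_eq_mul, bsh_card]
    nlinarith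
  have e0 : Ev l (fun w => G (w + (a, b, c))) - Ev l G =
      (∑ x ∈ I, ∑ y ∈ I, ∑ z ∈ I, G (x + a, y + b, z + c) -
        ∑ x ∈ I, ∑ y ∈ I, ∑ z ∈ I, G (x, y, z)) / (l : ℝ) ^ 3 := by
    unfold Ev
    rw [bsh_iter, bsh_iter, ← sub_div]
    rfl
  rw [e0, abs_div, abs_of_pos (pow_pos hl0 3), div_le_div_iff₀ (pow_pos hl0 3) hl0]
  have k0 : |∑ x ∈ I, ∑ y ∈ I, ∑ z ∈ I, G (x + a, y + b, z + c) -
        ∑ x ∈ I, ∑ y ∈ I, ∑ z ∈ I, G (x, y, z)| ≤ 6 * m * l ^ 2 := by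
    have a1 := abs_le.1 k1
    have a2 := abs_le.1 k2
    have a3 := abs_le.1 k3
    rw [abs_le]
    constructor <;> linarith [a1.1, a1.2, a2.1, a2.2, a3.1, a3.2]
  calc _ ≤ 6 * m * l ^ 2 * l := mul_le_mul_of_nonneg_right k0 hl0.le
    _ = 6 * m * (l : ℝ) ^ 3 := by ring

end Pool.Agent.CUB

end

section

namespace Pool.Agent.CUB

open Polynomial Pool.Agent.CF

/-! ### averages over `0 ≤ x < n` -/

/-- average over `0 ≤ x < n` -/
noncomputable def bes3_av (n : ℕ) (f : ℕ → ℝ) : ℝ := (∑ x ∈ Finset.range n, f x) / n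

theorem bes3_av_const {n : ℕ} (hn : 0 < n) (c : ℝ) : bes3_av n (fun _ => c) = c := by
  have : (n : ℝ) ≠ 0 := by exact_mod_cast hn.ne'
  unfold bes3_av
  rw [Finset.sum_const, Finset.card_range, nsmul_eq_mul]
  field_simp

theorem bes3_av_mono {n : ℕ} {f g : ℕ → ℝ} (h : ∀ x, x < n → f x ≤ g x) :
    bes3_av n f ≤ bes3_av n g := by
  unfold bes3_av
  exact div_le_div_of_nonneg_right
    (Finset.sum_le_sum fun x hx => h x (Finset.mem_range.1 hx)) (Nat.cast_nonneg n)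

theorem bes3_av_sub (n : ℕ) (f g : ℕ → ℝ) :
    bes3_av n (fun x => f x - g x) = bes3_av n f - bes3_av n g := by
  unfold bes3_av
  rw [Finset.sum_sub_distrib, sub_div]

theorem bes3_av_close {n : ℕ} (hn : 0 < n) {f g : ℕ → ℝ} {e : ℝ}
    (h : ∀ x, x < n → |f x - g x| ≤ e) : |bes3_av n f - bes3_av n g| ≤ e := by
  rw [← bes3_av_sub, abs_le]
  constructor
  · calc -e = bes3_av n (fun _ => -e) := (bes3_av_const hn _).symm
      _ ≤ _ := bes3_av_mono fun x hx => (abs_le.1 (h x hx)).1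
  · calc _ ≤ bes3_av n (fun _ => e) := bes3_av_mono fun x hx => (abs_le.1 (h x hx)).2
      _ = e := bes3_av_const hn _

theorem bes3_av_abs {n : ℕ} (hn : 0 < n) {f : ℕ → ℝ} (h : ∀ x, |f x| ≤ 1) :
    |bes3_av n f| ≤ 1 := by
  have h1 := bes3_av_close (n := n) hn (f := f) (g := fun _ => 0) (e := 1)
    (fun x _ => by rw [sub_zero]; exact h x)
  rwa [bes3_av_const hn, sub_zero] at h1

theorem bes3_av_mul_left (n : ℕ) (c : ℝ) (f : ℕ → ℝ) :
    bes3_av n (fun x => c * f x) = c * bes3_av n f := by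
  unfold bes3_av
  rw [← Finset.mul_sum, mul_div_assoc]

theorem bes3_av_mul_right (n : ℕ) (c : ℝ) (f : ℕ → ℝ) :
    bes3_av n (fun x => f x * c) = bes3_av n f * c := by
  unfold bes3_av
  rw [← Finset.sum_mul]
  ring

theorem bes3_av_comm (n : ℕ) (F : ℕ → ℕ → ℝ) :
    bes3_av n (fun x => bes3_av n (fun y => F x y)) =
      bes3_av n (fun y => bes3_av n (fun x => F x y)) := by
  unfold bes3_av
  rw [← Finset.sum_div, ← Finset.sum_div, Finset.sum_comm]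

theorem bes3_av_mul (n : ℕ) (f g : ℕ → ℝ) :
    bes3_av n f * bes3_av n g = bes3_av n (fun x => bes3_av n (fun y => f x * g y)) := by
  have h1 : (fun x => bes3_av n (fun y => f x * g y)) = fun x => f x * bes3_av n g :=
    funext fun x => bes3_av_mul_left n (f x) g
  rw [h1, bes3_av_mul_right]

theorem bes3_av_sq {n : ℕ} (hn : 0 < n) (f : ℕ → ℝ) :
    bes3_av n f ^ 2 ≤ bes3_av n (fun x => f x ^ 2) := by
  have hn' : (0 : ℝ) < n := by exact_mod_cast hn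
  unfold bes3_av
  have h1 : (∑ x ∈ Finset.range n, f x) ^ 2 ≤ n * ∑ x ∈ Finset.range n, f x ^ 2 := by
    have h := sq_sum_le_card_mul_sum_sq (s := Finset.range n) (f := f)
    rwa [Finset.card_range] at h
  rw [div_pow, div_le_div_iff₀ (by positivity) hn']
  nlinarith

/-! ### the mean over the cube -/

theorem bes3_Ev_av (l n : ℕ) (F : ℕ → ℤ × ℤ × ℤ → ℝ) :
    Ev l (fun w => bes3_av n (fun x => F x w)) = bes3_av n (fun x => Ev l (F x)) := by
  unfold Ev bes3_av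
  rw [← Finset.sum_div, ← Finset.sum_div, Finset.sum_comm]
  ring

theorem bes3_Ev_mono {l : ℕ} {F G : ℤ × ℤ × ℤ → ℝ} (h : ∀ w ∈ box3 l, F w ≤ G w) :
    Ev l F ≤ Ev l G := by
  unfold Ev
  exact div_le_div_of_nonneg_right (Finset.sum_le_sum h) (by positivity)

theorem bes3_Ev_add (l : ℕ) (F G : ℤ × ℤ × ℤ → ℝ) :
    Ev l (fun w => F w + G w) = Ev l F + Ev l G := by
  unfold Ev
  rw [Finset.sum_add_distrib, add_div]

theorem bes3_Ev_sub (l : ℕ) (F G : ℤ × ℤ × ℤ → ℝ) :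
    Ev l (fun w => F w - G w) = Ev l F - Ev l G := by
  unfold Ev
  rw [Finset.sum_sub_distrib, sub_div]

theorem bes3_Ev_mul (l : ℕ) (c : ℝ) (F : ℤ × ℤ × ℤ → ℝ) :
    Ev l (fun w => c * F w) = c * Ev l F := by
  unfold Ev
  rw [← Finset.mul_sum, mul_div_assoc]

theorem bes3_Ev_sum (l : ℕ) (B : Finset ℕ) (F : ℕ → ℤ × ℤ × ℤ → ℝ) :
    Ev l (fun w => ∑ j ∈ B, F j w) = ∑ j ∈ B, Ev l (F j) := by
  unfold Ev
  rw [Finset.sum_comm, Finset.sum_div]

theorem bes3_card (l : ℕ) : ((box3 l).card : ℝ) = (l : ℝ) ^ 3 := by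
  unfold box3
  rw [Finset.card_product, Finset.card_product, Int.card_Ico]
  push_cast
  rw [sub_zero, Int.toNat_natCast]
  ring

theorem bes3_Ev_const {l : ℕ} (hl : 0 < l) (c : ℝ) : Ev l (fun _ => c) = c := by
  have h : (l : ℝ) ^ 3 ≠ 0 := by
    have : (l : ℝ) ≠ 0 := by exact_mod_cast hl.ne'
    positivity
  unfold Ev
  rw [Finset.sum_const, nsmul_eq_mul, bes3_card]
  field_simp

theorem bes3_Ev_cs (l : ℕ) (F G : ℤ × ℤ × ℤ → ℝ) :
    Ev l (fun w => F w * G w) ^ 2 ≤ Ev l (fun w => F w ^ 2) * Ev l (fun w => G w ^ 2) := by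
  unfold Ev
  rw [div_pow, div_mul_div_comm, ← pow_two]
  exact div_le_div_of_nonneg_right (Finset.sum_mul_sq_le_sq_mul_sq _ _ _) (by positivity)

theorem bes3_Ev_nonneg {l : ℕ} {F : ℤ × ℤ × ℤ → ℝ} (h : ∀ w, 0 ≤ F w) : 0 ≤ Ev l F := by
  unfold Ev
  exact div_nonneg (Finset.sum_nonneg fun w _ => h w) (by positivity)

/-! ### the core -/

/-- one-dimensional average in the direction `κ` -/
noncomputable def bes3_S (n : ℕ) (κ : ℤ × ℤ × ℤ) (G : ℤ × ℤ × ℤ → ℝ) (w : ℤ × ℤ × ℤ) : ℝ :=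
  bes3_av n (fun x => G (w + (x : ℤ) • κ))

/-- the symmetric average -/
noncomputable def bes3_T (n : ℕ) (κ : ℤ × ℤ × ℤ) (G : ℤ × ℤ × ℤ → ℝ) (w : ℤ × ℤ × ℤ) : ℝ :=
  bes3_av n (fun x => bes3_av n (fun y => G (w + ((y : ℤ) - (x : ℤ)) • κ)))

/-- the average in two directions -/
noncomputable def bes3_R (n : ℕ) (κ κ' : ℤ × ℤ × ℤ) (G : ℤ × ℤ × ℤ → ℝ) (w : ℤ × ℤ × ℤ) : ℝ :=
  bes3_av n (fun x => bes3_av n (fun y => G (w + (x : ℤ) • κ + (y : ℤ) • κ')))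

/-- a shift by `v` changes the mean by at most `e` -/
def bes3_Sh (l : ℕ) (e : ℝ) (v : ℤ × ℤ × ℤ) : Prop :=
  ∀ F : ℤ × ℤ × ℤ → ℝ, (∀ w, |F w| ≤ 1) → |Ev l (fun w => F (w + v)) - Ev l F| ≤ e

theorem bes3_abs_mul {a b : ℝ} (ha : |a| ≤ 1) (hb : |b| ≤ 1) : |a * b| ≤ 1 := by
  rw [abs_mul]
  exact mul_le_one₀ ha (abs_nonneg _) hb

/-- step (a) -/
theorem bes3_a {l n : ℕ} (hn : 0 < n) {e : ℝ} {κ : ℤ × ℤ × ℤ} {G H : ℤ × ℤ × ℤ → ℝ}
    (hl : 0 < l) (hG : ∀ w, |G w| ≤ 1) (hH : ∀ w, |H w| ≤ 1)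
    (hinv : ∀ (w : ℤ × ℤ × ℤ) (x : ℤ), H (w + x • κ) = H w)
    (hsh : ∀ x : ℕ, x < n → bes3_Sh l e ((x : ℤ) • κ)) {c : ℝ} (hc : e ≤ c)
    (h : Ev l (fun w => G w * H w) ≤ -c) :
    (c - e) ^ 2 ≤ Ev l (fun w => bes3_S n κ G w ^ 2) := by
  have h1 : Ev l (fun w => bes3_S n κ G w * H w) =
      bes3_av n (fun x => Ev l (fun w => (G (w + (x : ℤ) • κ) * H (w + (x : ℤ) • κ)))) := by
    rw [← bes3_Ev_av]
    congr 1
    funext w
    unfold bes3_S
    rw [← bes3_av_mul_right]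
    congr 1
    funext x
    rw [hinv]
  have h2 : |Ev l (fun w => bes3_S n κ G w * H w) - Ev l (fun w => G w * H w)| ≤ e := by
    rw [h1, ← bes3_av_const hn (Ev l (fun w => G w * H w))]
    refine bes3_av_close hn fun x hx => ?_
    exact hsh x hx (fun w => G w * H w) (fun w => bes3_abs_mul (hG w) (hH w))
  have h3 : Ev l (fun w => bes3_S n κ G w * H w) ≤ -(c - e) := by
    have := (abs_le.1 h2).2
    linarith
  have h4 := bes3_Ev_cs l (bes3_S n κ G) H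
  have h5 : Ev l (fun w => H w ^ 2) ≤ 1 := by
    rw [← bes3_Ev_const hl 1]
    refine bes3_Ev_mono fun w _ => ?_
    rw [← sq_abs]
    exact pow_le_one₀ (abs_nonneg _) (hH w)
  have h6 : 0 ≤ Ev l (fun w => bes3_S n κ G w ^ 2) := bes3_Ev_nonneg fun w => sq_nonneg _
  have h7 : (c - e) ^ 2 ≤ Ev l (fun w => bes3_S n κ G w * H w) ^ 2 := by nlinarith
  calc (c - e) ^ 2 ≤ Ev l (fun w => bes3_S n κ G w * H w) ^ 2 := h7
    _ ≤ Ev l (fun w => bes3_S n κ G w ^ 2) * Ev l (fun w => H w ^ 2) := h4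
    _ ≤ Ev l (fun w => bes3_S n κ G w ^ 2) * 1 := mul_le_mul_of_nonneg_left h5 h6
    _ = _ := mul_one _

/-- step (b) -/
theorem bes3_b {l n : ℕ} (hn : 0 < n) {e : ℝ} {κ : ℤ × ℤ × ℤ} {G : ℤ × ℤ × ℤ → ℝ}
    (hG : ∀ w, |G w| ≤ 1) (hsh : ∀ x : ℕ, x < n → bes3_Sh l e ((x : ℤ) • κ)) :
    |Ev l (fun w => bes3_S n κ G w ^ 2) - Ev l (fun w => G w * bes3_T n κ G w)| ≤ e := by
  have h1 : Ev l (fun w => bes3_S n κ G w ^ 2) = bes3_av n (fun x => bes3_av n (fun y =>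
      Ev l (fun w => G (w + (x : ℤ) • κ) * G (w + (x : ℤ) • κ + ((y : ℤ) - (x : ℤ)) • κ)))) := by
    have e1 : (fun w => bes3_S n κ G w ^ 2) = fun w => bes3_av n (fun x => bes3_av n (fun y =>
        G (w + (x : ℤ) • κ) * G (w + (x : ℤ) • κ + ((y : ℤ) - (x : ℤ)) • κ))) := by
      funext w
      rw [sq]
      unfold bes3_S
      rw [bes3_av_mul]
      congr 1
      funext x
      congr 1
      funext y
      congr 2
      rw [add_assoc, ← add_smul, add_sub_cancel]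
    rw [e1, bes3_Ev_av]
    congr 1
    funext x
    rw [bes3_Ev_av]
  have h2 : Ev l (fun w => G w * bes3_T n κ G w) = bes3_av n (fun x => bes3_av n (fun y =>
      Ev l (fun w => G w * G (w + ((y : ℤ) - (x : ℤ)) • κ)))) := by
    have e1 : (fun w => G w * bes3_T n κ G w) = fun w => bes3_av n (fun x => bes3_av n (fun y =>
        G w * G (w + ((y : ℤ) - (x : ℤ)) • κ))) := by
      funext w
      unfold bes3_T
      rw [← bes3_av_mul_left]
      congr 1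
      funext x
      rw [← bes3_av_mul_left]
    rw [e1, bes3_Ev_av]
    congr 1
    funext x
    rw [bes3_Ev_av]
  rw [h1, h2]
  refine bes3_av_close hn fun x hx => bes3_av_close hn fun y hy => ?_
  exact hsh x hx (fun w => G w * G (w + ((y : ℤ) - (x : ℤ)) • κ))
    (fun w => bes3_abs_mul (hG _) (hG _))

/-- step (d), the diagonal -/
theorem bes3_d1 {l n : ℕ} (hn : 0 < n) {e : ℝ} {κ : ℤ × ℤ × ℤ} {G : ℤ × ℤ × ℤ → ℝ}
    (hG : ∀ w, |G w| ≤ 1) (hsh : ∀ x : ℕ, x < n → bes3_Sh l e (-((x : ℤ) • κ))) :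
    Ev l (fun w => bes3_T n κ G w ^ 2) ≤ Ev l (fun w => bes3_S n κ G w ^ 2) + e := by
  have hS : ∀ w, |bes3_S n κ G w| ≤ 1 := fun w => bes3_av_abs hn fun x => hG _
  have h1 : ∀ w, bes3_T n κ G w = bes3_av n (fun x => bes3_S n κ G (w + -((x : ℤ) • κ))) := by
    intro w
    unfold bes3_T bes3_S
    congr 1
    funext x
    congr 1
    funext y
    congr 1
    rw [sub_smul]
    abel
  have h2 : Ev l (fun w => bes3_T n κ G w ^ 2) ≤
      bes3_av n (fun x => Ev l (fun w => bes3_S n κ G (w + -((x : ℤ) • κ)) ^ 2)) := by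
    rw [← bes3_Ev_av]
    refine bes3_Ev_mono fun w _ => ?_
    rw [h1]
    exact bes3_av_sq hn _
  refine h2.trans ?_
  have h3 : |bes3_av n (fun x => Ev l (fun w => bes3_S n κ G (w + -((x : ℤ) • κ)) ^ 2)) -
      Ev l (fun w => bes3_S n κ G w ^ 2)| ≤ e := by
    rw [← bes3_av_const hn (Ev l (fun w => bes3_S n κ G w ^ 2))]
    refine bes3_av_close hn fun x hx => ?_
    refine hsh x hx (fun w => bes3_S n κ G w ^ 2) (fun w => ?_)
    rw [abs_pow]
    exact pow_le_one₀ (abs_nonneg _) (hS w)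
  have := (abs_le.1 h3).2
  linarith

/-- step (d), off the diagonal -/
theorem bes3_d2 {l n : ℕ} (hn : 0 < n) {e : ℝ} {κ κ' : ℤ × ℤ × ℤ} {G : ℤ × ℤ × ℤ → ℝ}
    (hG : ∀ w, |G w| ≤ 1)
    (hsh : ∀ x y : ℕ, x < n → y < n → bes3_Sh l e ((x : ℤ) • κ + (y : ℤ) • κ')) :
    Ev l (fun w => bes3_T n κ G w * bes3_T n κ' G w) ≤
      Ev l (fun w => bes3_R n κ κ' G w ^ 2) + e := by
  -- `x, y` for `κ`; `x', y'` for `κ'`
  have h1 : Ev l (fun w => bes3_T n κ G w * bes3_T n κ' G w) =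
      bes3_av n (fun x => bes3_av n (fun x' => bes3_av n (fun y => bes3_av n (fun y' =>
        Ev l (fun w => G (w + ((y : ℤ) - (x : ℤ)) • κ) *
          G (w + ((y' : ℤ) - (x' : ℤ)) • κ')))))) := by
    have e1 : (fun w => bes3_T n κ G w * bes3_T n κ' G w) = fun w =>
        bes3_av n (fun x => bes3_av n (fun x' => bes3_av n (fun y => bes3_av n (fun y' =>
          G (w + ((y : ℤ) - (x : ℤ)) • κ) * G (w + ((y' : ℤ) - (x' : ℤ)) • κ'))))) := by
      funext w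
      unfold bes3_T
      rw [bes3_av_mul]
      congr 1
      funext x
      congr 1
      funext x'
      rw [bes3_av_mul]
    rw [e1, bes3_Ev_av]
    congr 1
    funext x
    rw [bes3_Ev_av]
    congr 1
    funext x'
    rw [bes3_Ev_av]
    congr 1
    funext y
    rw [bes3_Ev_av]
  have h2 : Ev l (fun w => bes3_R n κ κ' G w ^ 2) =
      bes3_av n (fun x => bes3_av n (fun x' => bes3_av n (fun y => bes3_av n (fun y' =>
        Ev l (fun w => G (w + (y : ℤ) • κ + (x' : ℤ) • κ') *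
          G (w + (x : ℤ) • κ + (y' : ℤ) • κ')))))) := by
    have e1 : (fun w => bes3_R n κ κ' G w ^ 2) = fun w =>
        bes3_av n (fun x => bes3_av n (fun x' => bes3_av n (fun y => bes3_av n (fun y' =>
          G (w + (y : ℤ) • κ + (x' : ℤ) • κ') * G (w + (x : ℤ) • κ + (y' : ℤ) • κ'))))) := by
      funext w
      have e2 : bes3_R n κ κ' G w ^ 2 = bes3_av n (fun y => bes3_av n (fun x =>
          bes3_av n (fun x' => bes3_av n (fun y' =>
          G (w + (y : ℤ) • κ + (x' : ℤ) • κ') * G (w + (x : ℤ) • κ + (y' : ℤ) • κ'))))) := by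
        rw [sq]
        unfold bes3_R
        rw [bes3_av_mul]
        congr 1
        funext y
        congr 1
        funext x
        rw [bes3_av_mul]
      rw [e2, bes3_av_comm]
      congr 1
      funext x
      rw [bes3_av_comm]
    rw [e1, bes3_Ev_av]
    congr 1
    funext x
    rw [bes3_Ev_av]
    congr 1
    funext x'
    rw [bes3_Ev_av]
    congr 1
    funext y
    rw [bes3_Ev_av]
  have h3 : |Ev l (fun w => bes3_R n κ κ' G w ^ 2) -
      Ev l (fun w => bes3_T n κ G w * bes3_T n κ' G w)| ≤ e := by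
    rw [h1, h2]
    refine bes3_av_close hn fun x hx => bes3_av_close hn fun x' hx' => bes3_av_close hn fun y hy =>
      bes3_av_close hn fun y' hy' => ?_
    have h4 := hsh x x' hx hx' (fun w => G (w + ((y : ℤ) - (x : ℤ)) • κ) *
      G (w + ((y' : ℤ) - (x' : ℤ)) • κ')) (fun w => bes3_abs_mul (hG _) (hG _))
    have e5 : (fun w => G (w + (y : ℤ) • κ + (x' : ℤ) • κ') *
        G (w + (x : ℤ) • κ + (y' : ℤ) • κ')) =
        fun w => (fun w => G (w + ((y : ℤ) - (x : ℤ)) • κ) *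
          G (w + ((y' : ℤ) - (x' : ℤ)) • κ')) (w + ((x : ℤ) • κ + (x' : ℤ) • κ')) := by
      funext w
      simp only
      congr 2
      · rw [sub_smul]
        abel
      · rw [sub_smul]
        abel
    rw [e5]
    exact h4
  have := (abs_le.1 h3).1
  linarith

/-- the mean of the square of the two-dimensional average is small -/
theorem bes3_r {l n : ℕ} (hn : 0 < n) (hl : 0 < l) {e ε η : ℝ} {κ κ' : ℤ × ℤ × ℤ}
    {G : ℤ × ℤ × ℤ → ℝ} (hG : ∀ w, |G w| ≤ 1)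
    (hsh : ∀ x y : ℕ, x < n → y < n → bes3_Sh l e ((x : ℤ) • κ + (y : ℤ) • κ'))
    (hε : 0 ≤ ε) (hR : ∀ w ∈ box3 l, bes3_R n κ κ' G w ≤ ε) (hE : -η ≤ Ev l G) :
    Ev l (fun w => bes3_R n κ κ' G w ^ 2) ≤ 2 * ε + η + e := by
  have hRa : ∀ w, |bes3_R n κ κ' G w| ≤ 1 := fun w => bes3_av_abs hn fun x =>
    bes3_av_abs hn fun y => hG _
  have h1 : Ev l (fun w => bes3_R n κ κ' G w ^ 2) ≤
      Ev l (fun w => 2 * ε - bes3_R n κ κ' G w) := by
    refine bes3_Ev_mono fun w hw => ?_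
    have h2 := hR w hw
    have h3 := (abs_le.1 (hRa w)).1
    have h4 := (abs_le.1 (hRa w)).2
    rcases le_or_gt 0 (bes3_R n κ κ' G w) with h5 | h5
    · nlinarith
    · nlinarith
  have h2 : Ev l (fun w => 2 * ε - bes3_R n κ κ' G w) = 2 * ε - Ev l (bes3_R n κ κ' G) := by
    rw [bes3_Ev_sub, bes3_Ev_const hl]
  have h3 : |Ev l (bes3_R n κ κ' G) - Ev l G| ≤ e := by
    have e1 : Ev l (bes3_R n κ κ' G) = bes3_av n (fun x => bes3_av n (fun y =>
        Ev l (fun w => G (w + ((x : ℤ) • κ + (y : ℤ) • κ'))))) := by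
      have e2 : bes3_R n κ κ' G = fun w => bes3_av n (fun x => bes3_av n (fun y =>
          G (w + ((x : ℤ) • κ + (y : ℤ) • κ')))) := by
        funext w
        unfold bes3_R
        congr 1
        funext x
        congr 1
        funext y
        rw [add_assoc]
      rw [e2, bes3_Ev_av]
      congr 1
      funext x
      rw [bes3_Ev_av]
    have e3 : Ev l G = bes3_av n (fun _ => bes3_av n (fun _ => Ev l G)) := by
      rw [bes3_av_const hn, bes3_av_const hn]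
    rw [e1, e3]
    exact bes3_av_close hn fun x hx => bes3_av_close hn fun y hy => hsh x y hx hy G hG
  have h4 := (abs_le.1 h3).1
  linarith

/-- the core inequality -/
theorem bes3_core {l n : ℕ} (hn : 0 < n) (hl : 0 < l) {e ε η c : ℝ} (B : Finset ℕ)
    (κ : ℕ → ℤ × ℤ × ℤ) {G : ℤ × ℤ × ℤ → ℝ} {H : ℕ → ℤ × ℤ × ℤ → ℝ} (hG : ∀ w, |G w| ≤ 1)
    (hH : ∀ j w, |H j w| ≤ 1)
    (hinv : ∀ j ∈ B, ∀ (w : ℤ × ℤ × ℤ) (x : ℤ), H j (w + x • κ j) = H j w)
    (he : 0 ≤ e) (hε : 0 ≤ ε) (hη : 0 ≤ η) (hce : e ≤ c)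
    (hs1 : ∀ j ∈ B, ∀ x : ℕ, x < n → bes3_Sh l e ((x : ℤ) • κ j))
    (hs2 : ∀ j ∈ B, ∀ x : ℕ, x < n → bes3_Sh l e (-((x : ℤ) • κ j)))
    (hs3 : ∀ i ∈ B, ∀ j ∈ B, i ≠ j → ∀ x y : ℕ, x < n → y < n →
      bes3_Sh l e ((x : ℤ) • κ i + (y : ℤ) • κ j))
    (hR : ∀ i ∈ B, ∀ j ∈ B, i ≠ j → ∀ w ∈ box3 l, bes3_R n (κ i) (κ j) G w ≤ ε)
    (hE : -η ≤ Ev l G) (hbad : ∀ j ∈ B, Ev l (fun w => G w * H j w) ≤ -c)
    (h1 : (B.card : ℝ) * e ≤ 1 / 4)
    (h2 : (B.card : ℝ) * e + (B.card : ℝ) ^ 2 * (2 * ε + η + 2 * e) ≤ 1) :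
    (B.card : ℝ) * (c - e) ^ 2 < 3 := by
  by_contra hcon
  push Not at hcon
  set A : ℝ := ∑ j ∈ B, Ev l (fun w => bes3_S n (κ j) G w ^ 2) with hA
  have hA3 : 3 ≤ A := by
    refine hcon.trans ?_
    rw [← nsmul_eq_mul]
    exact Finset.card_nsmul_le_sum _ _ _ fun j hj =>
      bes3_a hn hl hG (hH j) (hinv j hj) (hs1 j hj) hce (hbad j hj)
  -- the linear form
  have hlin : A ≤ Ev l (fun w => G w * ∑ j ∈ B, bes3_T n (κ j) G w) + B.card * e := by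
    have e1 : Ev l (fun w => G w * ∑ j ∈ B, bes3_T n (κ j) G w) =
        ∑ j ∈ B, Ev l (fun w => G w * bes3_T n (κ j) G w) := by
      rw [← bes3_Ev_sum]
      congr 1
      funext w
      rw [Finset.mul_sum]
    have e2 : (B.card : ℝ) * e = ∑ j ∈ B, e := by rw [Finset.sum_const, nsmul_eq_mul]
    rw [e1, e2, hA, ← Finset.sum_add_distrib]
    refine Finset.sum_le_sum fun j hj => ?_
    have := (abs_le.1 (bes3_b hn hG (hs1 j hj))).2
    linarith
  -- the quadratic form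
  have hquad : Ev l (fun w => (∑ j ∈ B, bes3_T n (κ j) G w) ^ 2) ≤ A + 1 := by
    have e1 : Ev l (fun w => (∑ j ∈ B, bes3_T n (κ j) G w) ^ 2) =
        ∑ i ∈ B, ∑ j ∈ B, Ev l (fun w => bes3_T n (κ i) G w * bes3_T n (κ j) G w) := by
      have e2 : (fun w => (∑ j ∈ B, bes3_T n (κ j) G w) ^ 2) =
          fun w => ∑ i ∈ B, ∑ j ∈ B, bes3_T n (κ i) G w * bes3_T n (κ j) G w := by
        funext w
        rw [sq, Finset.sum_mul_sum]
      rw [e2, bes3_Ev_sum]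
      refine Finset.sum_congr rfl fun i _ => ?_
      rw [bes3_Ev_sum]
    rw [e1]
    have h3 : ∀ i ∈ B, ∑ j ∈ B, Ev l (fun w => bes3_T n (κ i) G w * bes3_T n (κ j) G w) ≤
        Ev l (fun w => bes3_S n (κ i) G w ^ 2) + e + B.card * (2 * ε + η + 2 * e) := by
      intro i hi
      rw [← Finset.add_sum_erase B _ hi]
      refine add_le_add ?_ ?_
      · have h4 := bes3_d1 (l := l) hn hG (hs2 i hi)
        have e3 : (fun w => bes3_T n (κ i) G w * bes3_T n (κ i) G w) =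
            fun w => bes3_T n (κ i) G w ^ 2 := by
          funext w
          rw [sq]
        rw [e3]
        exact h4
      · have h5 : ∀ j ∈ B.erase i, Ev l (fun w => bes3_T n (κ i) G w * bes3_T n (κ j) G w) ≤
            2 * ε + η + 2 * e := by
          intro j hj
          obtain ⟨hji, hjB⟩ := Finset.mem_erase.1 hj
          have h6 := bes3_d2 (l := l) hn hG (hs3 i hi j hjB (Ne.symm hji))
          have h7 := bes3_r hn hl hG (hs3 i hi j hjB (Ne.symm hji)) hε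
            (hR i hi j hjB (Ne.symm hji)) hE
          linarith
        refine (Finset.sum_le_card_nsmul _ _ _ h5).trans ?_
        rw [nsmul_eq_mul]
        refine mul_le_mul_of_nonneg_right ?_ (by positivity)
        exact_mod_cast Finset.card_erase_le
    refine (Finset.sum_le_sum h3).trans ?_
    rw [Finset.sum_add_distrib, Finset.sum_add_distrib, Finset.sum_const, Finset.sum_const,
      nsmul_eq_mul, nsmul_eq_mul, ← hA]
    nlinarith
  have hcs := bes3_Ev_cs l G (fun w => ∑ j ∈ B, bes3_T n (κ j) G w)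
  have hG2 : Ev l (fun w => G w ^ 2) ≤ 1 := by
    rw [← bes3_Ev_const hl 1]
    refine bes3_Ev_mono fun w _ => ?_
    rw [← sq_abs]
    exact pow_le_one₀ (abs_nonneg _) (hG w)
  have hq0 : 0 ≤ Ev l (fun w => (∑ j ∈ B, bes3_T n (κ j) G w) ^ 2) :=
    bes3_Ev_nonneg fun w => sq_nonneg _
  have h5 : Ev l (fun w => G w * ∑ j ∈ B, bes3_T n (κ j) G w) ^ 2 ≤ A + 1 := by
    refine hcs.trans ?_
    calc _ ≤ 1 * Ev l (fun w => (∑ j ∈ B, bes3_T n (κ j) G w) ^ 2) :=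
          mul_le_mul_of_nonneg_right hG2 hq0
      _ ≤ A + 1 := by rw [one_mul]; exact hquad
  nlinarith

theorem bes3_pt (z p q : ℤ × ℤ) (s t : ℤ) : pt z p q s t = z + s • p + t • q := by
  ext <;> simp [pt]

open Classical in
theorem bes3_cnt (S : Set (ℤ × ℤ)) (z p q : ℤ × ℤ) (n : ℕ) :
    (cnt S z p q n : ℝ) = ∑ x ∈ Finset.range n, ∑ y ∈ Finset.range n,
      (if z + (x : ℤ) • p + (y : ℤ) • q ∈ S then (1 : ℝ) else 0) := by
  unfold cnt
  rw [Finset.natCast_card_filter, Finset.sum_product]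
  refine Finset.sum_congr rfl fun x _ => Finset.sum_congr rfl fun y _ => ?_
  simp only [bes3_pt]

open Classical in
theorem bes3_R_eq {n : ℕ} (hn : 0 < n) (S : Set (ℤ × ℤ)) (β : ℝ) (A : ℤ × ℤ)
    (M : (ℤ × ℤ × ℤ) →+ (ℤ × ℤ)) (κ κ' w : ℤ × ℤ × ℤ) :
    bes3_R n κ κ' (fun w => (if A + M w ∈ S then (1 : ℝ) else 0) - β) w =
      cnt S (A + M w) (M κ) (M κ') n / (n : ℝ) ^ 2 - β := by
  have h1 : (fun x : ℕ => bes3_av n (fun y : ℕ =>
      (if A + M (w + (x : ℤ) • κ + (y : ℤ) • κ') ∈ S then (1 : ℝ) else 0) - β)) =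
      fun x : ℕ => (∑ y ∈ Finset.range n,
        (if A + M w + (x : ℤ) • M κ + (y : ℤ) • M κ' ∈ S then (1 : ℝ) else 0)) / n - β := by
    funext x
    rw [bes3_av_sub, bes3_av_const hn]
    unfold bes3_av
    congr 2
    refine Finset.sum_congr rfl fun y _ => ?_
    have e : A + M (w + (x : ℤ) • κ + (y : ℤ) • κ') =
        A + M w + (x : ℤ) • M κ + (y : ℤ) • M κ' := by
      rw [map_add, map_add, map_zsmul, map_zsmul, ← add_assoc, ← add_assoc]
    show (if A + M (w + (x : ℤ) • κ + (y : ℤ) • κ') ∈ S then (1 : ℝ) else 0) = _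
    rw [e]
  unfold bes3_R
  rw [h1, bes3_av_sub, bes3_av_const hn, bes3_cnt]
  unfold bes3_av
  rw [← Finset.sum_div, div_div, sq]

open Classical in
theorem bes3_dens (l : ℕ) (P : ℤ × ℤ × ℤ → Prop) :
    (dens l P : ℝ) = ∑ w ∈ box3 l, (if P w then (1 : ℝ) else 0) := by
  unfold dens
  rw [Finset.natCast_card_filter]

/-- size of the values of a linear map on the cube -/
theorem bes3_lin (M : (ℤ × ℤ × ℤ) →+ (ℤ × ℤ)) : ∃ C : ℝ, 0 ≤ C ∧ ∀ l : ℕ, ∀ w ∈ box3 l,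
    |((M w).1 : ℝ)| ≤ C * l ∧ |((M w).2 : ℝ)| ≤ C * l := by
  refine ⟨|((M (1, 0, 0)).1 : ℝ)| + |((M (0, 1, 0)).1 : ℝ)| + |((M (0, 0, 1)).1 : ℝ)| +
    (|((M (1, 0, 0)).2 : ℝ)| + |((M (0, 1, 0)).2 : ℝ)| + |((M (0, 0, 1)).2 : ℝ)|),
    by positivity, fun l w hw => ?_⟩
  unfold box3 at hw
  simp only [Finset.mem_product, Finset.mem_Ico] at hw
  obtain ⟨⟨a1, a2⟩, ⟨b1, b2⟩, ⟨c1, c2⟩⟩ := hw
  have hw' : w = w.1 • ((1, 0, 0) : ℤ × ℤ × ℤ) + w.2.1 • ((0, 1, 0) : ℤ × ℤ × ℤ) +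
      w.2.2 • ((0, 0, 1) : ℤ × ℤ × ℤ) := by
    ext <;> simp
  have hM : M w = w.1 • M (1, 0, 0) + w.2.1 • M (0, 1, 0) + w.2.2 • M (0, 0, 1) := by
    conv_lhs => rw [hw']
    rw [map_add, map_add, map_zsmul, map_zsmul, map_zsmul]
  have hb : ∀ a : ℤ, 0 ≤ a → a < l → |(a : ℝ)| ≤ l := by
    intro a h1 h2
    rw [abs_of_nonneg (by exact_mod_cast h1)]
    exact_mod_cast h2.le
  have d1 := hb _ a1 a2
  have d2 := hb _ b1 b2
  have d3 := hb _ c1 c2
  have hl : (0 : ℝ) ≤ l := Nat.cast_nonneg l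
  have key : ∀ x y z : ℤ, |((w.1 * x + w.2.1 * y + w.2.2 * z : ℤ) : ℝ)| ≤
      (|(x : ℝ)| + |(y : ℝ)| + |(z : ℝ)|) * l := by
    intro x y z
    push_cast
    calc |(w.1 : ℝ) * x + w.2.1 * y + w.2.2 * z| ≤ |(w.1 : ℝ) * x| + |(w.2.1 : ℝ) * y| +
          |(w.2.2 : ℝ) * z| := by
          refine (abs_add_le _ _).trans (add_le_add_left (abs_add_le _ _) _)
      _ = |(w.1 : ℝ)| * |(x : ℝ)| + |(w.2.1 : ℝ)| * |(y : ℝ)| + |(w.2.2 : ℝ)| * |(z : ℝ)| := by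
          rw [abs_mul, abs_mul, abs_mul]
      _ ≤ l * |(x : ℝ)| + l * |(y : ℝ)| + l * |(z : ℝ)| := by gcongr
      _ = _ := by ring
  rw [hM]
  constructor
  · have h1 := key (M (1, 0, 0)).1 (M (0, 1, 0)).1 (M (0, 0, 1)).1
    have h2 : (w.1 • M (1, 0, 0) + w.2.1 • M (0, 1, 0) + w.2.2 • M (0, 0, 1)).1 =
        w.1 * (M (1, 0, 0)).1 + w.2.1 * (M (0, 1, 0)).1 + w.2.2 * (M (0, 0, 1)).1 := by
      simp
    rw [h2]
    refine h1.trans (mul_le_mul_of_nonneg_right ?_ hl)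
    have : 0 ≤ |((M (1, 0, 0)).2 : ℝ)| + |((M (0, 1, 0)).2 : ℝ)| + |((M (0, 0, 1)).2 : ℝ)| := by
      positivity
    linarith
  · have h1 := key (M (1, 0, 0)).2 (M (0, 1, 0)).2 (M (0, 0, 1)).2
    have h2 : (w.1 • M (1, 0, 0) + w.2.1 • M (0, 1, 0) + w.2.2 • M (0, 0, 1)).2 =
        w.1 * (M (1, 0, 0)).2 + w.2.1 * (M (0, 1, 0)).2 + w.2.2 * (M (0, 0, 1)).2 := by
      simp
    rw [h2]
    refine h1.trans (mul_le_mul_of_nonneg_right ?_ hl)
    have : 0 ≤ |((M (1, 0, 0)).1 : ℝ)| + |((M (0, 1, 0)).1 : ℝ)| + |((M (0, 0, 1)).1 : ℝ)| := by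
      positivity
    linarith

/-- (BES3) Bessel's inequality for the kernels of linear maps, for decreasing families -/
theorem bes3 (β : ℝ) (hβ : 0 < β) (hβ1 : β ≤ 1) : ∃ k : ℕ, 0 < k ∧ ∃ η : ℝ, 0 < η ∧
    ∀ F : ℕ → Set (Set (ℤ × ℤ)), Antitone F → UBG F β →
      ∀ (M : ℕ → (ℤ × ℤ × ℤ) →+ (ℤ × ℤ)) (κ : ℕ → ℤ × ℤ × ℤ),
      (∀ j, 1 ≤ j → j ≤ k → M j (κ j) = 0) →
      (∀ i j, 1 ≤ i → i < j → j ≤ k → dt (M 0 (κ i)) (M 0 (κ j)) ≠ 0) →
      ∀ K : ℝ, ∃ l₀ : ℕ, ∀ l : ℕ, l₀ ≤ l → ∀ S ∈ F l₀, ∀ A : ℕ → ℤ × ℤ,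
        |((A 0).1 : ℝ)| ≤ K * l → |((A 0).2 : ℝ)| ≤ K * l →
        (∀ j, j ≤ k → (β - η) * (l : ℝ) ^ 3 ≤ dens l (fun w => A j + M j w ∈ S)) →
        2 * {j : ℕ | 1 ≤ j ∧ j ≤ k ∧
          (dens l (fun w => A 0 + M 0 w ∈ S ∧ A j + M j w ∈ S) : ℝ) <
            β ^ 2 / 2 * (l : ℝ) ^ 3}.ncard < k := by
  classical
  have hβ4 : 0 < β ^ 4 := by positivity
  set k : ℕ := ⌈200 / β ^ 4⌉₊ with hk
  have hkr : 200 / β ^ 4 ≤ (k : ℝ) := Nat.le_ceil _
  have hk0 : 0 < k := Nat.ceil_pos.2 (by positivity)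
  have hk1 : (1 : ℝ) ≤ k := by exact_mod_cast hk0
  set τ : ℝ := min (β ^ 2 / 20) (1 / (16 * (k : ℝ) ^ 2)) with hτ
  have hτ0 : 0 < τ := lt_min (by positivity) (by positivity)
  have hτ1 : τ ≤ β ^ 2 / 20 := min_le_left _ _
  have hτ2 : τ ≤ 1 / (16 * (k : ℝ) ^ 2) := min_le_right _ _
  have hτk : (k : ℝ) ^ 2 * τ ≤ 1 / 16 := by
    calc (k : ℝ) ^ 2 * τ ≤ (k : ℝ) ^ 2 * (1 / (16 * (k : ℝ) ^ 2)) :=
          mul_le_mul_of_nonneg_left hτ2 (by positivity)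
      _ = 1 / 16 := by field_simp
  refine ⟨k, hk0, τ, hτ0, ?_⟩
  intro F hFa hS M κ hκ hdt K
  -- the constants
  set κm : ℝ := ∑ j ∈ Finset.Icc 1 k, (|((κ j).1 : ℝ)| + |((κ j).2.1 : ℝ)| + |((κ j).2.2 : ℝ)|)
    with hκm
  have hκm0 : 0 ≤ κm := Finset.sum_nonneg fun j _ => by positivity
  have hκle : ∀ j, 1 ≤ j → j ≤ k → |((κ j).1 : ℝ)| ≤ κm ∧ |((κ j).2.1 : ℝ)| ≤ κm ∧
      |((κ j).2.2 : ℝ)| ≤ κm := by
    intro j h1 h2
    have h3 := Finset.single_le_sum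
      (f := fun j => |((κ j).1 : ℝ)| + |((κ j).2.1 : ℝ)| + |((κ j).2.2 : ℝ)|)
      (fun j _ => by positivity) (Finset.mem_Icc.2 ⟨h1, h2⟩)
    rw [← hκm] at h3
    have p1 := abs_nonneg ((κ j).1 : ℝ)
    have p2 := abs_nonneg ((κ j).2.1 : ℝ)
    have p3 := abs_nonneg ((κ j).2.2 : ℝ)
    exact ⟨by linarith, by linarith, by linarith⟩
  set δ : ℝ := τ / (12 * κm + 1) with hδ
  have hδ0 : 0 < δ := div_pos hτ0 (by linarith)
  have hδ1 : 12 * κm * δ ≤ τ := by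
    have h1 : (12 * κm + 1) * δ = τ := by
      rw [hδ]
      field_simp
    nlinarith
  obtain ⟨CM, hCM0, hCM⟩ := bes3_lin (M 0)
  have hub : ∀ i j : ℕ, ∃ L₀ : ℕ, 1 ≤ i → i ≤ k → 1 ≤ j → j ≤ k → i ≠ j →
      ∀ L : ℕ, L₀ ≤ L → ∀ S ∈ F L₀, ∀ z : ℤ × ℤ,
        |(z.1 : ℝ)| ≤ (|K| + CM) * (2 / δ) * L → |(z.2 : ℝ)| ≤ (|K| + CM) * (2 / δ) * L →
        (cnt S z (M 0 (κ i)) (M 0 (κ j)) L : ℝ) ≤ (β + τ) * (L : ℝ) ^ 2 := by
    intro i j
    by_cases hij : 1 ≤ i ∧ i ≤ k ∧ 1 ≤ j ∧ j ≤ k ∧ i ≠ j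
    · obtain ⟨i1, i2, j1, j2, hne⟩ := hij
      have hd : dt (M 0 (κ i)) (M 0 (κ j)) ≠ 0 := by
        rcases lt_or_gt_of_ne hne with h | h
        · exact hdt i j i1 h j2
        · have h1 := hdt j i j1 h i2
          intro h2
          apply h1
          unfold dt at h2 ⊢
          linarith
      obtain ⟨L₀, hL₀⟩ := hS _ _ hd ((|K| + CM) * (2 / δ)) τ hτ0
      exact ⟨L₀, fun _ _ _ _ _ => hL₀⟩
    · exact ⟨0, fun i1 i2 j1 j2 hne => absurd ⟨i1, i2, j1, j2, hne⟩ hij⟩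
  choose L₀ hL₀ using hub
  set Lm : ℕ := (Finset.range (k + 1) ×ˢ Finset.range (k + 1)).sup (fun ij => L₀ ij.1 ij.2)
    with hLm
  have hLle : ∀ i j, i ≤ k → j ≤ k → L₀ i j ≤ Lm := by
    intro i j hi hj
    exact Finset.le_sup (f := fun ij : ℕ × ℕ => L₀ ij.1 ij.2)
      (Finset.mem_product.2 ⟨Finset.mem_range.2 (by omega), Finset.mem_range.2 (by omega)⟩ :
        (i, j) ∈ Finset.range (k + 1) ×ˢ Finset.range (k + 1))
  refine ⟨max ⌈((Lm : ℝ) + 2) / δ⌉₊ Lm, ?_⟩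
  intro l hl S hSF A hA1 hA2 hdens
  have hlr : ((Lm : ℝ) + 2) / δ ≤ l :=
    (Nat.le_ceil _).trans (by exact_mod_cast (le_max_left _ _).trans hl)
  have hSm : S ∈ F Lm := hFa (le_max_right _ _) hSF
  have hδl : (Lm : ℝ) + 2 ≤ δ * l := by
    rw [div_le_iff₀ hδ0] at hlr
    linarith
  have hl0r : (0 : ℝ) < l := by
    have : (0 : ℝ) < ((Lm : ℝ) + 2) / δ := by positivity
    linarith
  have hl0 : 0 < l := by exact_mod_cast hl0r
  set n : ℕ := ⌊δ * l⌋₊ with hn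
  have hn1 : (n : ℝ) ≤ δ * l := Nat.floor_le (by positivity)
  have hn2 : δ * l < n + 1 := Nat.lt_floor_add_one _
  have hLn : Lm ≤ n := by
    have : (Lm : ℝ) ≤ n := by linarith
    exact_mod_cast this
  have hn0 : 0 < n := by
    have : (0 : ℝ) < n := by linarith [(Nat.cast_nonneg Lm : (0 : ℝ) ≤ Lm)]
    exact_mod_cast this
  have hLm0 : (0 : ℝ) ≤ Lm := Nat.cast_nonneg Lm
  have hn3 : δ * l / 2 ≤ n := by linarith
  have hl3 : (0 : ℝ) < (l : ℝ) ^ 3 := by positivity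
  -- shifts
  have hshift : ∀ v : ℤ × ℤ × ℤ, |(v.1 : ℝ)| ≤ 2 * n * κm → |(v.2.1 : ℝ)| ≤ 2 * n * κm →
      |(v.2.2 : ℝ)| ≤ 2 * n * κm → bes3_Sh l τ v := by
    intro v h1 h2 h3 F hF
    refine (bsh l hl0 F hF v h1 h2 h3).trans ?_
    rw [div_le_iff₀ hl0r]
    calc 6 * (2 * n * κm) = 12 * κm * n := by ring
      _ ≤ 12 * κm * (δ * l) := mul_le_mul_of_nonneg_left hn1 (by positivity)
      _ = (12 * κm * δ) * l := by ring
      _ ≤ τ * l := mul_le_mul_of_nonneg_right hδ1 hl0r.le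
  have hcoord : ∀ (a b : ℤ) (x y : ℤ), |(a : ℝ)| ≤ n → |(b : ℝ)| ≤ n → |(x : ℝ)| ≤ κm →
      |(y : ℝ)| ≤ κm → |((a * x + b * y : ℤ) : ℝ)| ≤ 2 * n * κm := by
    intro a b x y h1 h2 h3 h4
    push_cast
    calc |(a : ℝ) * x + b * y| ≤ |(a : ℝ) * x| + |(b : ℝ) * y| := abs_add_le _ _
      _ = |(a : ℝ)| * |(x : ℝ)| + |(b : ℝ)| * |(y : ℝ)| := by rw [abs_mul, abs_mul]
      _ ≤ n * κm + n * κm := by gcongr
      _ = 2 * n * κm := by ring
  have hshab : ∀ (a b : ℤ) (i j : ℕ), |(a : ℝ)| ≤ n → |(b : ℝ)| ≤ n → 1 ≤ i → i ≤ k → 1 ≤ j →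
      j ≤ k → bes3_Sh l τ (a • κ i + b • κ j) := by
    intro a b i j ha hb i1 i2 j1 j2
    obtain ⟨p1, p2, p3⟩ := hκle i i1 i2
    obtain ⟨q1, q2, q3⟩ := hκle j j1 j2
    refine hshift _ ?_ ?_ ?_
    · have : (a • κ i + b • κ j).1 = a * (κ i).1 + b * (κ j).1 := by simp
      rw [this]
      exact hcoord _ _ _ _ ha hb p1 q1
    · have : (a • κ i + b • κ j).2.1 = a * (κ i).2.1 + b * (κ j).2.1 := by simp
      rw [this]
      exact hcoord _ _ _ _ ha hb p2 q2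
    · have : (a • κ i + b • κ j).2.2 = a * (κ i).2.2 + b * (κ j).2.2 := by simp
      rw [this]
      exact hcoord _ _ _ _ ha hb p3 q3
  have hnat : ∀ x : ℕ, x < n → |(((x : ℤ)) : ℝ)| ≤ n := by
    intro x hx
    rw [Int.cast_natCast, abs_of_nonneg (Nat.cast_nonneg x)]
    exact_mod_cast hx.le
  -- the functions
  set f : ℕ → ℤ × ℤ × ℤ → ℝ := fun j w => if A j + M j w ∈ S then (1 : ℝ) else 0 with hf
  have hf01 : ∀ j w, f j w = 0 ∨ f j w = 1 := by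
    intro j w
    simp only [hf]
    split_ifs
    · right; rfl
    · left; rfl
  have hfβ : ∀ j w, |f j w - β| ≤ 1 := by
    intro j w
    rcases hf01 j w with h | h
    · rw [h, zero_sub, abs_neg, abs_of_pos hβ]
      exact hβ1
    · rw [h, abs_of_nonneg (by linarith)]
      linarith
  have hEf : ∀ j, j ≤ k → β - τ ≤ Ev l (f j) := by
    intro j hj
    have h1 := hdens j hj
    rw [bes3_dens] at h1
    unfold Ev
    rw [le_div_iff₀ hl3]
    exact h1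
  set B : Finset ℕ := (Finset.Icc 1 k).filter (fun j =>
    (dens l (fun w => A 0 + M 0 w ∈ S ∧ A j + M j w ∈ S) : ℝ) < β ^ 2 / 2 * (l : ℝ) ^ 3) with hB
  have hBset : {j : ℕ | 1 ≤ j ∧ j ≤ k ∧
      (dens l (fun w => A 0 + M 0 w ∈ S ∧ A j + M j w ∈ S) : ℝ) < β ^ 2 / 2 * (l : ℝ) ^ 3} =
      (B : Set ℕ) := by
    ext j
    simp only [hB, Set.mem_ofPred_eq, Finset.coe_filter, Finset.mem_Icc]
    tauto
  rw [hBset, Set.ncard_coe_finset]
  by_contra hcon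
  push Not at hcon
  have hBk : B.card ≤ k := by
    refine (Finset.card_filter_le _ _).trans ?_
    rw [Nat.card_Icc]
    omega
  have hBkr : (B.card : ℝ) ≤ k := by exact_mod_cast hBk
  have hBmem : ∀ j ∈ B, 1 ≤ j ∧ j ≤ k ∧
      (dens l (fun w => A 0 + M 0 w ∈ S ∧ A j + M j w ∈ S) : ℝ) < β ^ 2 / 2 * (l : ℝ) ^ 3 := by
    intro j hj
    have := Finset.mem_filter.1 hj
    exact ⟨(Finset.mem_Icc.1 this.1).1, (Finset.mem_Icc.1 this.1).2, this.2⟩
  have hB0 : (0 : ℝ) ≤ B.card := Nat.cast_nonneg _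
  have hcore := bes3_core (l := l) (n := n) hn0 hl0 (e := τ) (ε := τ) (η := τ) (c := β ^ 2 / 4) B κ
    (G := fun w => f 0 w - β) (H := fun j w => f j w - β) (hfβ 0) hfβ
    (by
      intro j hj w x
      obtain ⟨j1, j2, -⟩ := hBmem j hj
      simp only [hf]
      rw [map_add, map_zsmul, hκ j j1 j2, smul_zero, add_zero])
    hτ0.le hτ0.le hτ0.le (by nlinarith)
    (by
      intro j hj x hx
      obtain ⟨j1, j2, -⟩ := hBmem j hj
      have h1 := hshab (x : ℤ) 0 j j (hnat x hx) (by simp) j1 j2 j1 j2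
      rwa [zero_smul, add_zero] at h1)
    (by
      intro j hj x hx
      obtain ⟨j1, j2, -⟩ := hBmem j hj
      have h1 := hshab (-(x : ℤ)) 0 j j (by
        rw [Int.cast_neg, abs_neg]; exact hnat x hx) (by simp) j1 j2 j1 j2
      rwa [zero_smul, add_zero, neg_smul] at h1)
    (by
      intro i hi j hj hij x y hx hy
      obtain ⟨i1, i2, -⟩ := hBmem i hi
      obtain ⟨j1, j2, -⟩ := hBmem j hj
      exact hshab (x : ℤ) (y : ℤ) i j (hnat x hx) (hnat y hy) i1 i2 j1 j2)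
    (by
      intro i hi j hj hij w hw
      obtain ⟨i1, i2, -⟩ := hBmem i hi
      obtain ⟨j1, j2, -⟩ := hBmem j hj
      simp only [hf]
      rw [bes3_R_eq hn0]
      obtain ⟨m1, m2⟩ := hCM l w hw
      have hKl : ∀ a b : ℤ, |(a : ℝ)| ≤ K * l → |(b : ℝ)| ≤ CM * l →
          |((a + b : ℤ) : ℝ)| ≤ (|K| + CM) * (2 / δ) * n := by
        intro a b h1 h2
        push_cast
        calc |(a : ℝ) + b| ≤ |(a : ℝ)| + |(b : ℝ)| := abs_add_le _ _
          _ ≤ K * l + CM * l := add_le_add h1 h2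
          _ ≤ |K| * l + CM * l := by
              have := mul_le_mul_of_nonneg_right (le_abs_self K) hl0r.le
              linarith
          _ = (|K| + CM) * (2 / δ) * (δ * l / 2) := by
              field_simp
          _ ≤ (|K| + CM) * (2 / δ) * n :=
              mul_le_mul_of_nonneg_left hn3 (by positivity)
      have h1 := hL₀ i j i1 i2 j1 j2 hij n ((hLle i j i2 j2).trans hLn) S (hFa (hLle i j i2 j2) hSm)
        (A 0 + M 0 w)
        (hKl _ _ hA1 m1) (hKl _ _ hA2 m2)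
      have hnr : (0 : ℝ) < (n : ℝ) ^ 2 := by
        have : (0 : ℝ) < n := by exact_mod_cast hn0
        positivity
      rw [sub_le_iff_le_add, div_le_iff₀ hnr]
      linarith)
    (by
      rw [bes3_Ev_sub, bes3_Ev_const hl0]
      have := hEf 0 (Nat.zero_le k)
      linarith)
    (by
      intro j hj
      obtain ⟨j1, j2, j3⟩ := hBmem j hj
      have e1 : (fun w => (f 0 w - β) * (f j w - β)) =
          fun w => (f 0 w * f j w - (β * f 0 w + β * f j w)) + β ^ 2 := by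
        funext w
        ring
      have e2 : Ev l (fun w => f 0 w * f j w) < β ^ 2 / 2 := by
        unfold Ev
        rw [div_lt_iff₀ hl3]
        refine lt_of_eq_of_lt ?_ j3
        rw [bes3_dens]
        refine Finset.sum_congr rfl fun w _ => ?_
        simp only [hf]
        by_cases h1 : A 0 + M 0 w ∈ S
        · by_cases h2 : A j + M j w ∈ S
          · rw [if_pos h1, if_pos h2, if_pos ⟨h1, h2⟩, one_mul]
          · rw [if_pos h1, if_neg h2, mul_zero,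
              if_neg (fun h : A 0 + M 0 w ∈ S ∧ A j + M j w ∈ S => h2 h.2)]
        · rw [if_neg h1, zero_mul,
            if_neg (fun h : A 0 + M 0 w ∈ S ∧ A j + M j w ∈ S => h1 h.1)]
      rw [e1, bes3_Ev_add, bes3_Ev_sub, bes3_Ev_add, bes3_Ev_mul, bes3_Ev_mul, bes3_Ev_const hl0]
      have h1 := hEf 0 (Nat.zero_le k)
      have h2 := hEf j j2
      nlinarith)
    (by
      calc (B.card : ℝ) * τ ≤ k * τ := mul_le_mul_of_nonneg_right hBkr hτ0.le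
        _ ≤ (k : ℝ) ^ 2 * τ := by
            refine mul_le_mul_of_nonneg_right ?_ hτ0.le
            nlinarith
        _ ≤ 1 / 4 := by linarith)
    (by
      have h1 : (B.card : ℝ) ^ 2 ≤ (k : ℝ) ^ 2 := by nlinarith
      have h2 : (B.card : ℝ) ≤ (k : ℝ) ^ 2 := by nlinarith
      calc (B.card : ℝ) * τ + (B.card : ℝ) ^ 2 * (2 * τ + τ + 2 * τ)
          ≤ (k : ℝ) ^ 2 * τ + (k : ℝ) ^ 2 * (2 * τ + τ + 2 * τ) := by gcongr
        _ = 6 * ((k : ℝ) ^ 2 * τ) := by ring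
        _ ≤ 1 := by linarith)
  have h5 : (k : ℝ) ≤ 2 * B.card := by exact_mod_cast hcon
  have h6 : β ^ 2 / 5 ≤ β ^ 2 / 4 - τ := by linarith
  have h7 : β ^ 4 / 25 ≤ (β ^ 2 / 4 - τ) ^ 2 := by
    have h8 : 0 ≤ β ^ 2 / 5 := by positivity
    have h9 := pow_le_pow_left₀ h8 h6 2
    calc β ^ 4 / 25 = (β ^ 2 / 5) ^ 2 := by ring
      _ ≤ _ := h9
  have h8 : 100 / β ^ 4 ≤ B.card := by
    have : 200 / β ^ 4 = 2 * (100 / β ^ 4) := by ring
    linarith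
  have h9 : (4 : ℝ) ≤ B.card * (β ^ 2 / 4 - τ) ^ 2 := by
    calc (4 : ℝ) = 100 / β ^ 4 * (β ^ 4 / 25) := by field_simp; norm_num
      _ ≤ B.card * (β ^ 2 / 4 - τ) ^ 2 := mul_le_mul h8 h7 (by positivity) (by positivity)
  linarith

end Pool.Agent.CUB

end

section

namespace Pool.Agent.CUB


theorem de3_cnt_le (S : Set (ℤ × ℤ)) (z p q : ℤ × ℤ) (L : ℕ) :
    (cnt S z p q L : ℝ) ≤ (L : ℝ) ^ 2 := by
  classical
  have h : cnt S z p q L ≤ L * L := by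
    unfold cnt
    refine (Finset.card_filter_le _ _).trans ?_
    rw [Finset.card_product, Finset.card_range]
  have h' : (cnt S z p q L : ℝ) ≤ ((L * L : ℕ) : ℝ) := by exact_mod_cast h
  rw [sq]
  push_cast at h'
  exact h'

/-- the centred box -/
theorem de3_box (S : Set (ℤ × ℤ)) (H : ℕ) :
    cnt S (-(H : ℤ), -(H : ℤ)) (1, 0) (0, 1) (2 * H + 1) =
      (by classical exact ((Finset.Icc (-(H : ℤ)) H ×ˢ Finset.Icc (-(H : ℤ)) H).filter
        (fun z => z ∈ S)).card) := by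
  classical
  unfold cnt
  refine Finset.card_bij (fun w _ => pt (-(H : ℤ), -(H : ℤ)) (1, 0) (0, 1) (w.1 : ℤ) (w.2 : ℤ))
    ?_ ?_ ?_
  · intro w hw
    rw [Finset.mem_filter, Finset.mem_product, Finset.mem_range, Finset.mem_range] at hw
    rw [Finset.mem_filter, Finset.mem_product, Finset.mem_Icc, Finset.mem_Icc]
    refine ⟨?_, hw.2⟩
    simp only [pt]
    omega
  · intro w _ w' _ h
    simp only [pt, Prod.mk.injEq] at h
    ext
    · omega
    · omega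
  · intro z hz
    rw [Finset.mem_filter, Finset.mem_product, Finset.mem_Icc, Finset.mem_Icc] at hz
    have e1 : pt (-(H : ℤ), -(H : ℤ)) (1, 0) (0, 1) (((z.1 + H).toNat : ℕ) : ℤ)
        (((z.2 + H).toNat : ℕ) : ℤ) = z := by
      ext
      · simp only [pt]
        omega
      · simp only [pt]
        omega
    refine ⟨((z.1 + H).toNat, (z.2 + H).toNat), ?_, e1⟩
    rw [Finset.mem_filter, Finset.mem_product, Finset.mem_range, Finset.mem_range]
    refine ⟨by simp only; omega, ?_⟩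
    simp only
    rw [e1]
    exact hz.2

theorem de3_one (F : ℕ → Set (Set (ℤ × ℤ))) : UBG F 1 := by
  intro p q _ K ε hε
  refine ⟨0, fun L _ S _ z _ _ => (de3_cnt_le S z p q L).trans ?_⟩
  have : (0 : ℝ) ≤ (L : ℝ) ^ 2 := by positivity
  nlinarith

theorem de3_zero {F : ℕ → Set (Set (ℤ × ℤ))} (h : UBG F 0) : DZG F := by
  intro ε hε
  have hm : 0 < min ε 1 := lt_min hε one_pos
  have hm1 : min ε 1 ≤ 1 := min_le_right _ _
  have hm2 : min ε 1 ≤ ε := min_le_left _ _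
  obtain ⟨L₀, h1⟩ := h (1, 0) (0, 1) (by simp [dt]) 1 (min ε 1 / 9) (by positivity)
  refine ⟨L₀, fun H hH S hS => ?_⟩
  have hz : |((-(H : ℤ) : ℤ) : ℝ)| ≤ 1 * ((2 * H + 1 : ℕ) : ℝ) := by
    push_cast
    rw [abs_neg, Nat.abs_cast]
    have : (0 : ℝ) ≤ H := Nat.cast_nonneg H
    linarith
  have h2 := h1 (2 * H + 1) (by omega) S hS (-(H : ℤ), -(H : ℤ)) hz hz
  rcases Nat.eq_zero_or_pos H with h0 | h0
  · subst h0
    have h3 : (cnt S (-((0 : ℕ) : ℤ), -((0 : ℕ) : ℤ)) (1, 0) (0, 1) (2 * 0 + 1) : ℝ) < 1 := by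
      refine h2.trans_lt ?_
      push_cast
      linarith
    have h4 : cnt S (-((0 : ℕ) : ℤ), -((0 : ℕ) : ℤ)) (1, 0) (0, 1) (2 * 0 + 1) = 0 := by
      have : cnt S (-((0 : ℕ) : ℤ), -((0 : ℕ) : ℤ)) (1, 0) (0, 1) (2 * 0 + 1) < 1 := by
        exact_mod_cast h3
      omega
    rw [de3_box] at h4
    have h5 : ((0 : ℕ) : ℝ) ≤ ε * (((0 : ℕ) : ℝ)) ^ 2 := by simp
    refine le_trans (le_of_eq ?_) h5
    rw [← h4]
    congr
  · rw [de3_box] at h2
    refine (le_of_eq ?_).trans (h2.trans ?_)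
    · congr
    · have hH1 : (1 : ℝ) ≤ H := by
        exact_mod_cast h0
      push_cast
      have h3 : (2 * (H : ℝ) + 1) ^ 2 ≤ 9 * (H : ℝ) ^ 2 := by nlinarith
      calc (0 + min ε 1 / 9) * (2 * (H : ℝ) + 1) ^ 2 ≤ (0 + min ε 1 / 9) * (9 * (H : ℝ) ^ 2) :=
            mul_le_mul_of_nonneg_left h3 (by positivity)
        _ = min ε 1 * (H : ℝ) ^ 2 := by ring
        _ ≤ ε * (H : ℝ) ^ 2 := mul_le_mul_of_nonneg_right hm2 (by positivity)

/-- (DE3) the upper box density and near-maximal boxes, for sequences of families -/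
theorem de3 {F : ℕ → Set (Set (ℤ × ℤ))} (hF : ¬ DZG F) : ∃ β : ℝ, 0 < β ∧ β ≤ 1 ∧ UBG F β ∧
    ∀ ε : ℝ, 0 < ε → ∃ p q : ℤ × ℤ, dt p q ≠ 0 ∧ ∃ K : ℝ, 0 < K ∧ ∀ M : ℕ, ∃ L : ℕ, M ≤ L ∧
      ∃ S ∈ F M, ∃ z : ℤ × ℤ, |(dt z q : ℝ)| ≤ K * L ∧ |(dt p z : ℝ)| ≤ K * L ∧
        (β - ε) * (L : ℝ) ^ 2 ≤ cnt S z p q L := by
  set B : Set ℝ := {x | 0 ≤ x ∧ UBG F x} with hB
  have hB1 : (1 : ℝ) ∈ B := ⟨zero_le_one, de3_one F⟩
  have hBb : BddBelow B := ⟨0, fun x hx => hx.1⟩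
  set β : ℝ := sInf B with hβ
  have hβ0 : 0 ≤ β := le_csInf ⟨1, hB1⟩ fun x hx => hx.1
  have hU : UBG F β := by
    intro p q hpq K ε hε
    obtain ⟨x, hx, hxβ⟩ := exists_lt_of_csInf_lt ⟨1, hB1⟩
      (show sInf B < β + ε / 2 by rw [← hβ]; linarith)
    obtain ⟨L₀, h1⟩ := hx.2 p q hpq K (ε / 2) (by positivity)
    refine ⟨L₀, fun L hL S hS z hz1 hz2 => (h1 L hL S hS z hz1 hz2).trans ?_⟩
    exact mul_le_mul_of_nonneg_right (by linarith) (by positivity)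
  have hne : ∀ M : ℕ, (F M).Nonempty := by
    intro M
    by_contra hcon
    rw [Set.not_nonempty_iff_eq_empty] at hcon
    refine hF fun ε _ => ⟨M, fun H _ S hS => ?_⟩
    rw [hcon] at hS
    exact absurd hS (Set.notMem_empty S)
  have hpos : 0 < β := by
    rcases hβ0.lt_or_eq with h | h
    · exact h
    · exfalso
      rw [← h] at hU
      exact hF (de3_zero hU)
  refine ⟨β, hpos, csInf_le hBb hB1, hU, fun ε hε => ?_⟩
  by_cases hle : β - ε ≤ 0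
  · refine ⟨(1, 0), (0, 1), by simp [dt], 1, one_pos,
      fun M => ⟨M, le_rfl, (hne M).some, (hne M).some_mem, (0, 0), ?_, ?_, ?_⟩⟩
    · simp [dt]
    · simp [dt]
    · exact (mul_nonpos_of_nonpos_of_nonneg hle (by positivity)).trans (Nat.cast_nonneg _)
  · push Not at hle
    have hn : ¬ UBG F (β - ε) := by
      intro h
      have := csInf_le hBb (show β - ε ∈ B from ⟨hle.le, h⟩)
      rw [← hβ] at this
      linarith
    unfold UBG at hn
    push Not at hn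
    obtain ⟨p, q, hpq, K, ε', hε', hn⟩ := hn
    refine ⟨p, q, hpq, |K| * (|(p.1 : ℝ)| + |(p.2 : ℝ)| + |(q.1 : ℝ)| + |(q.2 : ℝ)|) + 1,
      by positivity, fun M => ?_⟩
    obtain ⟨L, hL, S, hS, z, hz1, hz2, hc⟩ := hn M
    have hL0 : (0 : ℝ) ≤ L := Nat.cast_nonneg L
    have hz1' : |(z.1 : ℝ)| ≤ |K| * L := hz1.trans (mul_le_mul_of_nonneg_right (le_abs_self K) hL0)
    have hz2' : |(z.2 : ℝ)| ≤ |K| * L := hz2.trans (mul_le_mul_of_nonneg_right (le_abs_self K) hL0)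
    have hp1 := abs_nonneg (p.1 : ℝ)
    have hp2 := abs_nonneg (p.2 : ℝ)
    have hq1 := abs_nonneg (q.1 : ℝ)
    have hq2 := abs_nonneg (q.2 : ℝ)
    have hKL : 0 ≤ |K| * L := mul_nonneg (abs_nonneg K) hL0
    refine ⟨L, hL, S, hS, z, ?_, ?_, ?_⟩
    · have e1 : (dt z q : ℝ) = z.1 * q.2 - z.2 * q.1 := by
        unfold dt
        push_cast
        ring
      rw [e1]
      refine (abs_sub _ _).trans ?_
      rw [abs_mul, abs_mul]
      have a1 := mul_le_mul_of_nonneg_right hz1' hq2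
      have a2 := mul_le_mul_of_nonneg_right hz2' hq1
      nlinarith [mul_nonneg hKL hp1, mul_nonneg hKL hp2]
    · have e1 : (dt p z : ℝ) = p.1 * z.2 - p.2 * z.1 := by
        unfold dt
        push_cast
        ring
      rw [e1]
      refine (abs_sub _ _).trans ?_
      rw [abs_mul, abs_mul]
      have a1 := mul_le_mul_of_nonneg_left hz2' hp1
      have a2 := mul_le_mul_of_nonneg_left hz1' hp2
      nlinarith [mul_nonneg hKL hq1, mul_nonneg hKL hq2]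
    · refine le_trans ?_ hc.le
      exact mul_le_mul_of_nonneg_right (by linarith) (by positivity)

end Pool.Agent.CUB

end

section

namespace Pool.Agent.CUB

open Polynomial Pool.Agent.CF

theorem tr_aux_cop {p q : ℕ} (hp : p.Prime) (hq : q.Prime) (h : p ≠ q) :
    IsCoprime (p : ℤ) (q : ℤ) := by
  rw [Nat.isCoprime_iff_coprime]
  exact (Nat.coprime_primes hp hq).mpr h

theorem tr_aux_crt {a b c : ℤ} (hab : IsCoprime a b) (hac : IsCoprime a c) (hbc : IsCoprime b c)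
    (x y z : ℤ) : ∃ w : ℤ, a ∣ w - x ∧ b ∣ w - y ∧ c ∣ w - z := by
  obtain ⟨u₁, v₁, h₁⟩ := hab.mul_right hac
  obtain ⟨u₂, v₂, h₂⟩ := hab.symm.mul_right hbc
  obtain ⟨u₃, v₃, h₃⟩ := hac.symm.mul_right hbc.symm
  refine ⟨v₁ * (b * c) * x + v₂ * (a * c) * y + v₃ * (a * b) * z, ⟨-u₁ * x + v₂ * c * y + v₃ * b * z, ?_⟩,
    ⟨v₁ * c * x - u₂ * y + v₃ * a * z, ?_⟩, ⟨v₁ * b * x + v₂ * a * y - u₃ * z, ?_⟩⟩
  · linear_combination x * h₁
  · linear_combination y * h₂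
  · linear_combination z * h₃

/-- completion to a coprime pair -/
theorem tr_aux_copr {P a b : ℤ} (ha : a ≠ 0)
    (h : ∀ q : ℕ, q.Prime → (q : ℤ) ∣ P → (q : ℤ) ∣ a → (q : ℤ) ∣ b → False) :
    ∃ t : ℤ, IsCoprime a (b + P * t) := by
  classical
  set Q : Finset ℕ := a.natAbs.primeFactors.filter (fun q => ¬ ((q : ℤ) ∣ P) ∧ ¬ ((q : ℤ) ∣ b)) with hQ
  refine ⟨((∏ q ∈ Q, q : ℕ) : ℤ), ?_⟩
  rw [Int.isCoprime_iff_gcd_eq_one]
  by_contra hne
  obtain ⟨q, hq, hqd⟩ := Nat.exists_prime_and_dvd hne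
  have hqa : (q : ℤ) ∣ a := dvd_trans (Int.natCast_dvd_natCast.mpr hqd) (Int.gcd_dvd_left ..)
  have hqb : (q : ℤ) ∣ b + P * ((∏ q ∈ Q, q : ℕ) : ℤ) :=
    dvd_trans (Int.natCast_dvd_natCast.mpr hqd) (Int.gcd_dvd_right ..)
  have hqp : Prime (q : ℤ) := Nat.prime_iff_prime_int.mp hq
  by_cases hP : (q : ℤ) ∣ P
  · exact h q hq hP hqa ((dvd_add_left (hP.mul_right _)).mp hqb)
  · by_cases hb : (q : ℤ) ∣ b
    · have h1 : (q : ℤ) ∣ P * ((∏ q ∈ Q, q : ℕ) : ℤ) := (dvd_add_right hb).mp hqb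
      rcases hqp.dvd_or_dvd h1 with h2 | h2
      · exact hP h2
      · rw [Int.natCast_dvd_natCast, hq.prime.dvd_finsetProd_iff] at h2
        obtain ⟨r, hr, hqr⟩ := h2
        rw [hQ, Finset.mem_filter, Nat.mem_primeFactors] at hr
        have : q = r := (Nat.prime_dvd_prime_iff_eq hq hr.1.1).mp hqr
        rw [← this] at hr
        exact hr.2.2 hb
    · have h1 : q ∈ Q := by
        rw [hQ, Finset.mem_filter, Nat.mem_primeFactors]
        exact ⟨⟨hq, Int.natCast_dvd.mp hqa, by simpa using ha⟩, hP, hb⟩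
      have h2 : (q : ℤ) ∣ ((∏ q ∈ Q, q : ℕ) : ℤ) :=
        Int.natCast_dvd_natCast.mpr (Finset.dvd_prod_of_mem _ h1)
      exact hb ((dvd_add_left (h2.mul_left _)).mp hqb)

/-- (TR) a unimodular matrix with prescribed first column modulo three primes -/
theorem tr1 {p₁ p₂ p₃ : ℕ} (h₁ : p₁.Prime) (h₂ : p₂.Prime) (h₃ : p₃.Prime) (h12 : p₁ ≠ p₂)
    (h13 : p₁ ≠ p₃) (h23 : p₂ ≠ p₃) {g₁ g₂ g₃ : ℤ × ℤ}
    (k₁ : ¬ ((p₁ : ℤ) ∣ g₁.1 ∧ (p₁ : ℤ) ∣ g₁.2)) (k₂ : ¬ ((p₂ : ℤ) ∣ g₂.1 ∧ (p₂ : ℤ) ∣ g₂.2))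
    (k₃ : ¬ ((p₃ : ℤ) ∣ g₃.1 ∧ (p₃ : ℤ) ∣ g₃.2)) : ∃ G H : ℤ × ℤ, dt G H = 1 ∧
      ((p₁ : ℤ) ∣ G.1 - g₁.1 ∧ (p₁ : ℤ) ∣ G.2 - g₁.2) ∧
      ((p₂ : ℤ) ∣ G.1 - g₂.1 ∧ (p₂ : ℤ) ∣ G.2 - g₂.2) ∧
      ((p₃ : ℤ) ∣ G.1 - g₃.1 ∧ (p₃ : ℤ) ∣ G.2 - g₃.2) := by
  have c12 := tr_aux_cop h₁ h₂ h12
  have c13 := tr_aux_cop h₁ h₃ h13
  have c23 := tr_aux_cop h₂ h₃ h23
  obtain ⟨a₀, ha1, ha2, ha3⟩ := tr_aux_crt c12 c13 c23 g₁.1 g₂.1 g₃.1
  obtain ⟨b, hb1, hb2, hb3⟩ := tr_aux_crt c12 c13 c23 g₁.2 g₂.2 g₃.2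
  set P : ℤ := (p₁ : ℤ) * p₂ * p₃ with hP
  have hP0 : P ≠ 0 := by
    have e1 : (p₁ : ℤ) ≠ 0 := by exact_mod_cast h₁.ne_zero
    have e2 : (p₂ : ℤ) ≠ 0 := by exact_mod_cast h₂.ne_zero
    have e3 : (p₃ : ℤ) ≠ 0 := by exact_mod_cast h₃.ne_zero
    exact mul_ne_zero (mul_ne_zero e1 e2) e3
  have hd1 : (p₁ : ℤ) ∣ P := ⟨p₂ * p₃, by rw [hP]; ring⟩
  have hd2 : (p₂ : ℤ) ∣ P := ⟨p₁ * p₃, by rw [hP]; ring⟩
  have hd3 : (p₃ : ℤ) ∣ P := ⟨p₁ * p₂, by rw [hP]; ring⟩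
  obtain ⟨a, ha0, haP⟩ : ∃ a : ℤ, a ≠ 0 ∧ P ∣ a - a₀ := by
    by_cases h : a₀ = 0
    · exact ⟨P, hP0, by rw [h, sub_zero]⟩
    · exact ⟨a₀, h, by simp⟩
  have hA1 : (p₁ : ℤ) ∣ a - g₁.1 := by
    have := dvd_add (hd1.trans haP) ha1
    simpa using this
  have hA2 : (p₂ : ℤ) ∣ a - g₂.1 := by
    have := dvd_add (hd2.trans haP) ha2
    simpa using this
  have hA3 : (p₃ : ℤ) ∣ a - g₃.1 := by
    have := dvd_add (hd3.trans haP) ha3
    simpa using this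
  have key : ∀ q : ℕ, q.Prime → (q : ℤ) ∣ P → (q : ℤ) ∣ a → (q : ℤ) ∣ b → False := by
    intro q hq hqP hqa hqb
    have hqp : Prime (q : ℤ) := Nat.prime_iff_prime_int.mp hq
    rw [hP] at hqP
    rcases hqp.dvd_or_dvd hqP with h | h
    · rcases hqp.dvd_or_dvd h with h | h
      · have e : q = p₁ := (Nat.prime_dvd_prime_iff_eq hq h₁).mp (Int.natCast_dvd_natCast.mp h)
        subst e
        exact k₁ ⟨by simpa using dvd_sub hqa hA1, by simpa using dvd_sub hqb hb1⟩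
      · have e : q = p₂ := (Nat.prime_dvd_prime_iff_eq hq h₂).mp (Int.natCast_dvd_natCast.mp h)
        subst e
        exact k₂ ⟨by simpa using dvd_sub hqa hA2, by simpa using dvd_sub hqb hb2⟩
    · have e : q = p₃ := (Nat.prime_dvd_prime_iff_eq hq h₃).mp (Int.natCast_dvd_natCast.mp h)
      subst e
      exact k₃ ⟨by simpa using dvd_sub hqa hA3, by simpa using dvd_sub hqb hb3⟩
  obtain ⟨t, u, v, huv⟩ := tr_aux_copr ha0 key
  refine ⟨(a, b + P * t), (-v, u), ?_, ⟨hA1, ?_⟩, ⟨hA2, ?_⟩, ⟨hA3, ?_⟩⟩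
  · unfold dt
    simp only
    linear_combination huv
  · have := dvd_add hb1 (hd1.mul_right t)
    have e : b - g₁.2 + P * t = b + P * t - g₁.2 := by ring
    rw [e] at this
    exact this
  · have := dvd_add hb2 (hd2.mul_right t)
    have e : b - g₂.2 + P * t = b + P * t - g₂.2 := by ring
    rw [e] at this
    exact this
  · have := dvd_add hb3 (hd3.mul_right t)
    have e : b - g₃.2 + P * t = b + P * t - g₃.2 := by ring
    rw [e] at this
    exact this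

/-- coordinates with respect to `G, H` -/
def tc (G H y : ℤ × ℤ) : ℤ × ℤ := (dt y H, dt G y)

/-- the inverse map -/
def tci (G H y : ℤ × ℤ) : ℤ × ℤ := (y.1 * G.1 + y.2 * H.1, y.1 * G.2 + y.2 * H.2)

theorem tci_tc {G H : ℤ × ℤ} (h : dt G H = 1) (y : ℤ × ℤ) : tci G H (tc G H y) = y := by
  unfold dt at h
  unfold tci tc dt
  ext
  · simp only
    linear_combination y.1 * h
  · simp only
    linear_combination y.2 * h

theorem tc_tci {G H : ℤ × ℤ} (h : dt G H = 1) (y : ℤ × ℤ) : tc G H (tci G H y) = y := by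
  unfold dt at h
  unfold tci tc dt
  ext
  · simp only
    linear_combination y.1 * h
  · simp only
    linear_combination y.2 * h

theorem dt_tc {G H : ℤ × ℤ} (h : dt G H = 1) (x y : ℤ × ℤ) :
    dt (tc G H x) (tc G H y) = dt x y := by
  unfold dt at h
  unfold tc dt
  simp only
  linear_combination (x.1 * y.2 - x.2 * y.1) * h

/-- (TR) change of basis -/
theorem tr2 {R : Type*} [CommRing R] {b : Module.Basis (Fin 3) ℤ R} (hb : b 0 = 1)
    {G H : ℤ × ℤ} (h : dt G H = 1) : ∃ b' : Module.Basis (Fin 3) ℤ R, b' 0 = 1 ∧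
      Phi b' 1 0 = Phi b G.1 G.2 ∧ (∀ y : ℤ × ℤ, el b' y.1 y.2 = el b (tci G H y).1 (tci G H y).2) ∧
      ∀ s : ℤ, SS b' s = {y | tci G H y ∈ SS b s} := by
  have hr : ∀ (c x y : ℤ), (c : R) + el b x y = (c : R) + (x : R) * b 1 + (y : R) * b 2 := by
    intro c x y
    unfold el
    ring
  let e : R ≃ₗ[ℤ] (Fin 3 → ℤ) :=
    { toFun := fun β => ![b.repr β 0, dt (b.repr β 1, b.repr β 2) H, dt G (b.repr β 1, b.repr β 2)]
      map_add' := by
        intro x y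
        ext i
        fin_cases i
        · simp
        · simp [dt]; ring
        · simp [dt]; ring
      map_smul' := by
        intro c x
        ext i
        fin_cases i
        · simp [-zsmul_eq_mul]
        · simp [dt, -zsmul_eq_mul]; ring
        · simp [dt, -zsmul_eq_mul]; ring
      invFun := fun v => ((v 0 : ℤ) : R) + el b (tci G H (v 1, v 2)).1 (tci G H (v 1, v 2)).2
      left_inv := by
        intro β
        have h1 := tci_tc h (b.repr β 1, b.repr β 2)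
        unfold tc at h1
        simp only [Matrix.cons_val_zero, Matrix.cons_val_one, Matrix.cons_val]
        rw [h1, hr]
        exact (decomp hb β).symm
      right_inv := by
        intro v
        have h1 := tc_tci h (v 1, v 2)
        unfold tc at h1
        simp only
        rw [hr, repr_lin0 hb, repr_lin1 hb, repr_lin2 hb]
        have h2 := congrArg Prod.fst h1
        have h3 := congrArg Prod.snd h1
        simp only at h2 h3
        ext i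
        fin_cases i
        · simp
        · simpa using h2
        · simpa using h3 }
  have he : ∀ v : Fin 3 → ℤ, e.symm v = ((v 0 : ℤ) : R) + el b (tci G H (v 1, v 2)).1 (tci G H (v 1, v 2)).2 :=
    fun v => rfl
  have he' : ∀ β : R, e β = ![b.repr β 0, dt (b.repr β 1, b.repr β 2) H, dt G (b.repr β 1, b.repr β 2)] :=
    fun v => rfl
  set b' : Module.Basis (Fin 3) ℤ R := Module.Basis.ofEquivFun e with hb'
  have hb0 : b' 0 = 1 := by
    rw [hb', Module.Basis.coe_ofEquivFun]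
    show e.symm (Pi.single 0 1) = 1
    rw [he]
    simp [tci, el]
  have hb1 : b' 1 = el b G.1 G.2 := by
    rw [hb', Module.Basis.coe_ofEquivFun]
    show e.symm (Pi.single 1 1) = el b G.1 G.2
    rw [he]
    simp [tci]
  have hb2 : b' 2 = el b H.1 H.2 := by
    rw [hb', Module.Basis.coe_ofEquivFun]
    show e.symm (Pi.single 2 1) = el b H.1 H.2
    rw [he]
    simp [tci]
  have hel : ∀ y : ℤ × ℤ, el b' y.1 y.2 = el b (tci G H y).1 (tci G H y).2 := by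
    intro y
    unfold el tci
    rw [hb1, hb2]
    unfold el
    push_cast
    ring
  refine ⟨b', hb0, ?_, hel, ?_⟩
  · rw [Phi_eq, Phi_eq]
    have h1 : el b' 1 0 = el b G.1 G.2 := by
      have := hel (1, 0)
      simpa [tci] using this
    have h2 : ∀ β : R, b'.repr β 2 = G.1 * b.repr β 2 - G.2 * b.repr β 1 := by
      intro β
      have h3 : b'.repr β = Finsupp.equivFunOnFinite.symm (e β) := by
        rw [hb']
        ext i
        rw [Module.Basis.ofEquivFun_repr_apply]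
        rfl
      rw [h3, he']
      simp [dt]
    rw [h1, h2]
    ring
  · intro s
    ext y
    unfold SS
    simp only [Set.mem_ofPred_eq]
    rw [hel y]

theorem tr_aux_pt (G H z p q : ℤ × ℤ) (s t : ℤ) :
    tci G H (pt z p q s t) = pt (tci G H z) (tci G H p) (tci G H q) s t := by
  unfold tci pt
  ext
  · simp only
    ring
  · simp only
    ring

theorem tr_aux_dt {G H : ℤ × ℤ} (h : dt G H = 1) (p q : ℤ × ℤ) :
    dt (tci G H p) (tci G H q) = dt p q := by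
  unfold dt at h
  unfold tci dt
  simp only
  linear_combination (p.1 * q.2 - p.2 * q.1) * h

theorem tr_aux_cnt (S : Set (ℤ × ℤ)) (G H z p q : ℤ × ℤ) (L : ℕ) :
    cnt {y | tci G H y ∈ S} z p q L = cnt S (tci G H z) (tci G H p) (tci G H q) L := by
  classical
  unfold cnt
  congr 1
  apply Finset.filter_congr
  intro w _
  rw [Set.mem_ofPred_eq, tr_aux_pt]

/-- (TR) the upper bound is invariant -/
theorem tr3 {S : Set (ℤ × ℤ)} {β : ℝ} {G H : ℤ × ℤ} (h : dt G H = 1) (hS : UB S β) :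
    UB {y | tci G H y ∈ S} β := by
  intro p q hpq K ε hε
  set W : ℝ := |(G.1 : ℝ)| + |(H.1 : ℝ)| + |(G.2 : ℝ)| + |(H.2 : ℝ)| with hW
  obtain ⟨L₀, hL₀⟩ := hS (tci G H p) (tci G H q) (by rw [tr_aux_dt h]; exact hpq) (K * W) ε hε
  refine ⟨L₀, fun L hL z hz1 hz2 => ?_⟩
  rw [tr_aux_cnt]
  have hKL : 0 ≤ K * L := (abs_nonneg _).trans hz1
  apply hL₀ L hL
  · have e : (((tci G H z).1 : ℤ) : ℝ) = (z.1 : ℝ) * G.1 + z.2 * H.1 := by
      unfold tci
      push_cast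
      ring
    rw [e]
    calc |(z.1 : ℝ) * G.1 + z.2 * H.1| ≤ |(z.1 : ℝ)| * |(G.1 : ℝ)| + |(z.2 : ℝ)| * |(H.1 : ℝ)| := by
          refine (abs_add_le _ _).trans ?_
          rw [abs_mul, abs_mul]
      _ ≤ (K * L) * |(G.1 : ℝ)| + (K * L) * |(H.1 : ℝ)| :=
          add_le_add (mul_le_mul_of_nonneg_right hz1 (abs_nonneg _))
            (mul_le_mul_of_nonneg_right hz2 (abs_nonneg _))
      _ ≤ (K * L) * W := by
          rw [hW]
          nlinarith [mul_nonneg hKL (abs_nonneg (G.2 : ℝ)), mul_nonneg hKL (abs_nonneg (H.2 : ℝ))]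
      _ = K * W * L := by ring
  · have e : (((tci G H z).2 : ℤ) : ℝ) = (z.1 : ℝ) * G.2 + z.2 * H.2 := by
      unfold tci
      push_cast
      ring
    rw [e]
    calc |(z.1 : ℝ) * G.2 + z.2 * H.2| ≤ |(z.1 : ℝ)| * |(G.2 : ℝ)| + |(z.2 : ℝ)| * |(H.2 : ℝ)| := by
          refine (abs_add_le _ _).trans ?_
          rw [abs_mul, abs_mul]
      _ ≤ (K * L) * |(G.2 : ℝ)| + (K * L) * |(H.2 : ℝ)| :=
          add_le_add (mul_le_mul_of_nonneg_right hz1 (abs_nonneg _))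
            (mul_le_mul_of_nonneg_right hz2 (abs_nonneg _))
      _ ≤ (K * L) * W := by
          rw [hW]
          nlinarith [mul_nonneg hKL (abs_nonneg (G.1 : ℝ)), mul_nonneg hKL (abs_nonneg (H.1 : ℝ))]
      _ = K * W * L := by ring

/-- (TR) the counting function is invariant -/
theorem tr4 {S : Set (ℤ × ℤ)} {G H : ℤ × ℤ} (h : dt G H = 1) (z p q : ℤ × ℤ) (L : ℕ) :
    cnt {y | tci G H y ∈ S} (tc G H z) (tc G H p) (tc G H q) L = cnt S z p q L := by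
  rw [tr_aux_cnt, tci_tc h, tci_tc h, tci_tc h]

end Pool.Agent.CUB

end

section

namespace Pool.Agent.CUB

/-- the sets of classes of height `≤ H` with constant sign in the window from `N` to
`N exp (H ^ 10)`, `M ≤ H` -/
def Fm {R : Type*} [CommRing R] (b : Module.Basis (Fin 3) ℤ R) (s : ℤ) (M : ℕ) :
    Set (Set (ℤ × ℤ)) :=
  {S | ∃ H N : ℕ, M ≤ H ∧ 1 ≤ H ∧ 1 ≤ N ∧
    ∀ z ∈ S, z ∈ SW b s N ((H : ℝ) ^ 10) ∧ |z.1| ≤ (H : ℤ) ∧ |z.2| ≤ (H : ℤ)}

theorem Fm_anti {R : Type*} [CommRing R] (b : Module.Basis (Fin 3) ℤ R) (s : ℤ) :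
    Antitone (Fm b s) := by
  rintro M M' hM S ⟨H, N, h1, h2, h3, h4⟩
  exact ⟨H, N, hM.trans h1, h2, h3, h4⟩

/-- the families in new coordinates -/
def tG (G H : ℤ × ℤ) (F : ℕ → Set (Set (ℤ × ℤ))) (M : ℕ) : Set (Set (ℤ × ℤ)) :=
  {S' | ∃ S ∈ F M, S' = {y | tci G H y ∈ S}}

theorem tG_anti {F : ℕ → Set (Set (ℤ × ℤ))} (hF : Antitone F) (G H : ℤ × ℤ) :
    Antitone (tG G H F) := by
  rintro M M' hM S' ⟨S, hS, hS'⟩
  exact ⟨S, hF hM hS, hS'⟩

/-- the upper bound is invariant -/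
theorem tr3G {F : ℕ → Set (Set (ℤ × ℤ))} {β : ℝ} {G H : ℤ × ℤ} (h : dt G H = 1)
    (hF : UBG F β) : UBG (tG G H F) β := by
  intro p q hpq K ε hε
  obtain ⟨W, hW⟩ : ∃ W : ℝ, W = |(G.1 : ℝ)| + |(H.1 : ℝ)| + |(G.2 : ℝ)| + |(H.2 : ℝ)| := ⟨_, rfl⟩
  obtain ⟨L₀, hL₀⟩ := hF (tci G H p) (tci G H q) (by rw [tr_aux_dt h]; exact hpq) (K * W) ε hε
  refine ⟨L₀, fun L hL S' hS' z hz1 hz2 => ?_⟩
  obtain ⟨S, hS, rfl⟩ := hS'
  rw [tr_aux_cnt]
  have hKL : 0 ≤ K * L := (abs_nonneg _).trans hz1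
  apply hL₀ L hL S hS
  · have e : (((tci G H z).1 : ℤ) : ℝ) = (z.1 : ℝ) * G.1 + z.2 * H.1 := by
      unfold tci
      push_cast
      ring
    rw [e]
    calc |(z.1 : ℝ) * G.1 + z.2 * H.1| ≤ |(z.1 : ℝ)| * |(G.1 : ℝ)| + |(z.2 : ℝ)| * |(H.1 : ℝ)| := by
          refine (abs_add_le _ _).trans ?_
          rw [abs_mul, abs_mul]
      _ ≤ (K * L) * |(G.1 : ℝ)| + (K * L) * |(H.1 : ℝ)| :=
          add_le_add (mul_le_mul_of_nonneg_right hz1 (abs_nonneg _))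
            (mul_le_mul_of_nonneg_right hz2 (abs_nonneg _))
      _ ≤ (K * L) * W := by
          rw [hW]
          nlinarith [mul_nonneg hKL (abs_nonneg (G.2 : ℝ)), mul_nonneg hKL (abs_nonneg (H.2 : ℝ))]
      _ = K * W * L := by ring
  · have e : (((tci G H z).2 : ℤ) : ℝ) = (z.1 : ℝ) * G.2 + z.2 * H.2 := by
      unfold tci
      push_cast
      ring
    rw [e]
    calc |(z.1 : ℝ) * G.2 + z.2 * H.2| ≤ |(z.1 : ℝ)| * |(G.2 : ℝ)| + |(z.2 : ℝ)| * |(H.2 : ℝ)| := by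
          refine (abs_add_le _ _).trans ?_
          rw [abs_mul, abs_mul]
      _ ≤ (K * L) * |(G.2 : ℝ)| + (K * L) * |(H.2 : ℝ)| :=
          add_le_add (mul_le_mul_of_nonneg_right hz1 (abs_nonneg _))
            (mul_le_mul_of_nonneg_right hz2 (abs_nonneg _))
      _ ≤ (K * L) * W := by
          rw [hW]
          nlinarith [mul_nonneg hKL (abs_nonneg (G.1 : ℝ)), mul_nonneg hKL (abs_nonneg (H.1 : ℝ))]
      _ = K * W * L := by ring

/-- the families of sets with constant sign in new coordinates -/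
theorem tr_Fm {R : Type*} [CommRing R] {b b' : Module.Basis (Fin 3) ℤ R} {G H : ℤ × ℤ}
    (hGH : dt G H = 1)
    (hel : ∀ y : ℤ × ℤ, CF.el b' y.1 y.2 = CF.el b (tci G H y).1 (tci G H y).2) {s : ℤ}
    {κ : ℝ} (hκ : κ = |(G.1 : ℝ)| + |(H.1 : ℝ)| + |(G.2 : ℝ)| + |(H.2 : ℝ)|) :
    ∀ M : ℕ, ∀ S' ∈ tG G H (Fm b s) M, ∃ T NN : ℕ, M ≤ T ∧ 1 ≤ T ∧
      1 ≤ NN ∧ ∀ y ∈ S', y ∈ SW b' s NN ((T : ℝ) ^ 10) ∧
        |(y.1 : ℝ)| ≤ κ * T ∧ |(y.2 : ℝ)| ≤ κ * T := by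
  rintro M S' ⟨S, ⟨T, NN, h1, h2, h3, h4⟩, rfl⟩
  refine ⟨T, NN, h1, h2, h3, fun y hy => ?_⟩
  obtain ⟨k1, k2, k3⟩ := h4 _ hy
  refine ⟨?_, ?_⟩
  · have : y ∈ SW b' s NN ((T : ℝ) ^ 10) ↔ tci G H y ∈ SW b s NN ((T : ℝ) ^ 10) := by
      unfold SW
      simp only [Set.mem_ofPred_eq, hel]
    exact this.mpr k1
  · obtain ⟨z, hz⟩ : ∃ z : ℤ × ℤ, z = tci G H y := ⟨_, rfl⟩
    have hy' : y = tc G H z := by rw [hz, tc_tci hGH]
    rw [← hz] at k2 k3
    have z1 : |(z.1 : ℝ)| ≤ T := by exact_mod_cast k2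
    have z2 : |(z.2 : ℝ)| ≤ T := by exact_mod_cast k3
    have hT : (0 : ℝ) ≤ T := by positivity
    have e1 : (y.1 : ℝ) = z.1 * H.2 - z.2 * H.1 := by
      rw [hy']
      unfold tc dt
      push_cast
      ring
    have e2 : (y.2 : ℝ) = G.1 * z.2 - G.2 * z.1 := by
      rw [hy']
      unfold tc dt
      push_cast
      ring
    have a1 := mul_le_mul_of_nonneg_right z1 (abs_nonneg (H.2 : ℝ))
    have a2 := mul_le_mul_of_nonneg_right z2 (abs_nonneg (H.1 : ℝ))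
    have a3 := mul_le_mul_of_nonneg_left z2 (abs_nonneg (G.1 : ℝ))
    have a4 := mul_le_mul_of_nonneg_left z1 (abs_nonneg (G.2 : ℝ))
    have c1 := mul_nonneg hT (abs_nonneg (G.1 : ℝ))
    have c2 := mul_nonneg hT (abs_nonneg (G.2 : ℝ))
    have c3 := mul_nonneg hT (abs_nonneg (H.1 : ℝ))
    have c4 := mul_nonneg hT (abs_nonneg (H.2 : ℝ))
    rw [e1, e2, hκ]
    constructor
    · refine (abs_sub _ _).trans ?_
      rw [abs_mul, abs_mul]
      linarith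
    · refine (abs_sub _ _).trans ?_
      rw [abs_mul, abs_mul]
      linarith

end Pool.Agent.CUB

end

section

namespace Pool.Agent.CUB

open Polynomial Pool.Agent.CF

theorem sml_card (T : Finset ℤ) (a b : ℤ) (hb : b ≠ 0) (R : ℝ) (hR : 0 < R)
    (h : ∀ t ∈ T, |((a + t * b : ℤ) : ℝ)| < R) : (T.card : ℝ) ≤ 2 * R + 1 := by
  rcases T.eq_empty_or_nonempty with hT | hT
  · rw [hT, Finset.card_empty, Nat.cast_zero]
    linarith
  · set t1 := T.min' hT with ht1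
    set t2 := T.max' hT with ht2
    have h1 := abs_lt.1 (h t1 (T.min'_mem hT))
    have h2 := abs_lt.1 (h t2 (T.max'_mem hT))
    have h12 : t1 ≤ t2 := T.min'_le _ (T.max'_mem hT)
    have hsub : T ⊆ Finset.Icc t1 t2 := by
      intro t ht
      rw [Finset.mem_Icc]
      exact ⟨T.min'_le _ ht, T.le_max' _ ht⟩
    have hcard := Finset.card_le_card hsub
    rw [Int.card_Icc] at hcard
    have h3 : (T.card : ℤ) ≤ t2 + 1 - t1 := by omega
    have h4 : (T.card : ℝ) ≤ (t2 : ℝ) + 1 - t1 := by exact_mod_cast h3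
    have h5 : ((t2 - t1 : ℤ) : ℝ) < 2 * R := by
      have h6 : (t2 - t1 : ℤ) ≤ |(t2 - t1) * b| := by
        rw [abs_mul, abs_of_nonneg (by omega : (0 : ℤ) ≤ t2 - t1)]
        have h7 : 1 ≤ |b| := Int.one_le_abs hb
        nlinarith
      have h8 : ((t2 - t1 : ℤ) : ℝ) ≤ |(((t2 - t1) * b : ℤ) : ℝ)| := by exact_mod_cast h6
      refine h8.trans_lt ?_
      rw [abs_lt]
      push_cast at h1 h2 ⊢
      constructor <;> nlinarith
    push_cast at h5
    linarith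

theorem sml_dens (l : ℕ) (P : ℤ × ℤ × ℤ → Prop) [DecidablePred P] :
    dens l P = ∑ n ∈ Finset.Ico 0 (l : ℤ), ∑ s ∈ Finset.Ico 0 (l : ℤ),
      ((Finset.Ico 0 (l : ℤ)).filter (fun t => P (n, s, t))).card := by
  unfold dens box3
  rw [Finset.card_filter, Finset.sum_product]
  refine Finset.sum_congr rfl fun n _ => ?_
  rw [Finset.sum_product]
  refine Finset.sum_congr rfl fun s _ => ?_
  rw [Finset.card_filter]
  refine Finset.sum_congr rfl fun t _ => ?_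
  by_cases h : P (n, s, t)
  · rw [if_pos h, if_pos h]
  · rw [if_neg h, if_neg h]

theorem sml_dens' (l : ℕ) (P : ℤ × ℤ × ℤ → Prop) [DecidablePred P] :
    dens l P = ∑ n ∈ Finset.Ico 0 (l : ℤ), ∑ t ∈ Finset.Ico 0 (l : ℤ),
      ((Finset.Ico 0 (l : ℤ)).filter (fun s => P (n, s, t))).card := by
  rw [sml_dens]
  refine Finset.sum_congr rfl fun n _ => ?_
  simp only [Finset.card_filter]
  rw [Finset.sum_comm]

/-- (SML) few points with a small second coordinate -/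
theorem sml (p q : ℤ × ℤ) (hd : dt p q ≠ 0) {c : ℝ} (hc : 0 < c) : ∃ l₀ : ℕ, ∀ l : ℕ, l₀ ≤ l →
    ∀ u₀ : ℤ × ℤ, (dens l (fun w => |((u₀ + pt 0 p q w.2.1 w.2.2).2 : ℝ)| < c * l) : ℝ) ≤
      3 * c * (l : ℝ) ^ 3 := by
  classical
  obtain ⟨l₀, hl₀⟩ := exists_nat_gt (1 / c)
  refine ⟨l₀ + 1, ?_⟩
  intro l hl u₀
  have hl1 : (l₀ : ℝ) + 1 ≤ l := by exact_mod_cast hl
  have hlc : 1 ≤ c * l := by
    rw [div_lt_iff₀ hc] at hl₀
    nlinarith
  have hl0 : (0 : ℝ) ≤ l := by positivity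
  have hcl : 0 < c * l := by linarith
  have hbound : ∀ f : ℤ → ℤ → ℕ, (∀ x y, (f x y : ℝ) ≤ 2 * (c * l) + 1) →
      ((∑ x ∈ Finset.Ico 0 (l : ℤ), ∑ y ∈ Finset.Ico 0 (l : ℤ), f x y : ℕ) : ℝ) ≤
        3 * c * (l : ℝ) ^ 3 := by
    intro f hf
    push_cast
    calc ∑ x ∈ Finset.Ico 0 (l : ℤ), ∑ y ∈ Finset.Ico 0 (l : ℤ), (f x y : ℝ)
        ≤ ∑ x ∈ Finset.Ico 0 (l : ℤ), ∑ y ∈ Finset.Ico 0 (l : ℤ), (2 * (c * l) + 1) :=
          Finset.sum_le_sum fun x _ => Finset.sum_le_sum fun y _ => hf x y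
      _ = (l : ℝ) * (l * (2 * (c * l) + 1)) := by
          rw [Finset.sum_const, Finset.sum_const, Int.card_Ico, sub_zero, Int.toNat_natCast,
            nsmul_eq_mul, nsmul_eq_mul]
      _ ≤ 3 * c * (l : ℝ) ^ 3 := by
          have h1 : (l : ℝ) * (l * (2 * (c * l) + 1)) ≤ l * (l * (3 * (c * l))) := by
            refine mul_le_mul_of_nonneg_left (mul_le_mul_of_nonneg_left ?_ hl0) hl0
            linarith
          refine h1.trans (le_of_eq ?_)
          ring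
  have hpq : q.2 ≠ 0 ∨ p.2 ≠ 0 := by
    by_contra hcon
    push Not at hcon
    apply hd
    unfold dt
    rw [hcon.1, hcon.2]
    ring
  rcases hpq with hq | hp
  · rw [sml_dens]
    apply hbound
    intro n s
    apply sml_card _ (u₀.2 + s * p.2) q.2 hq _ hcl
    intro t ht
    rw [Finset.mem_filter] at ht
    have h1 := ht.2
    simp only [pt, Prod.snd_add, Prod.snd_zero] at h1
    have h2 : u₀.2 + s * p.2 + t * q.2 = u₀.2 + (0 + s * p.2 + t * q.2) := by ring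
    rw [h2]
    exact h1
  · rw [sml_dens']
    apply hbound
    intro n t
    apply sml_card _ (u₀.2 + t * q.2) p.2 hp _ hcl
    intro s hs
    rw [Finset.mem_filter] at hs
    have h1 := hs.2
    simp only [pt, Prod.snd_add, Prod.snd_zero] at h1
    have h2 : u₀.2 + t * q.2 + s * p.2 = u₀.2 + (0 + s * p.2 + t * q.2) := by ring
    rw [h2]
    exact h1

end Pool.Agent.CUB

end

section

namespace Pool.Agent.CUB

open Polynomial Pool.Agent.CF

/-- (TK) second moment for almost independent sets -/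
theorem tk {ι : Type*} [DecidableEq ι] (T : Finset ι) (P : Finset ℕ) (hP : ∀ π ∈ P, 1 ≤ π)
    (T' : ℕ → Finset ι) (hT' : ∀ π ∈ P, T' π ⊆ T) {E : ℝ} (hE0 : 0 ≤ E)
    (h1 : ∀ π ∈ P, |((T' π).card : ℝ) - T.card / π| ≤ E)
    (h2 : ∀ π ∈ P, ∀ ρ ∈ P, π ≠ ρ → |((T' π ∩ T' ρ).card : ℝ) - T.card / (π * ρ)| ≤ E)
    (A : Finset ι) (hA : A ⊆ T) {μ ε : ℝ} (hε : 0 < ε) (hμ : μ * T.card ≤ A.card)
    (B : Finset ℕ) (hB : B ⊆ P)
    (hbad : ∀ π ∈ B, ((A ∩ T' π).card : ℝ) < (μ - ε) * (T.card / π))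
    (hE : 3 * E * (P.card : ℝ) ^ 2 ≤ T.card) :
    ∑ π ∈ B, (1 / π : ℝ) ≤ 1 / ε ^ 2 + 1 := by
  classical
  set n : ℝ := (T.card : ℝ) with hn
  set σ : ℝ := ∑ π ∈ B, (1 / π : ℝ) with hσ
  have hn0 : 0 ≤ n := by positivity
  rcases hn0.lt_or_eq with hnpos | hn0'
  swap
  · -- empty case
    have hBe : B = ∅ := by
      rw [Finset.eq_empty_iff_forall_notMem]
      intro π hπ
      have h := hbad π hπ
      rw [← hn0'] at h
      have h' : (0 : ℝ) ≤ ((A ∩ T' π).card : ℝ) := by positivity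
      simp only [zero_div, mul_zero] at h
      linarith
    rw [hσ, hBe]
    simp only [Finset.sum_empty]
    positivity
  have hσ0 : 0 ≤ σ := Finset.sum_nonneg fun π _ => by positivity
  -- the indicator
  let ind : ℕ → ι → ℝ := fun π w => (if w ∈ T' π then 1 else 0) - 1 / π
  let f : ι → ℝ := fun w => ∑ π ∈ B, ind π w
  have hsub : ∀ (U : Finset ι) (π : ℕ),
      ∑ w ∈ U, (if w ∈ T' π then (1 : ℝ) else 0) = ((U ∩ T' π).card : ℝ) := by
    intro U π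
    rw [Finset.sum_ite_mem, Finset.sum_const, nsmul_eq_mul, mul_one]
  have hAf : ∑ w ∈ A, f w ≤ -(ε * n * σ) := by
    have e1 : ∑ w ∈ A, f w = ∑ π ∈ B, (((A ∩ T' π).card : ℝ) - A.card * (1 / π)) := by
      simp only [f, ind]
      rw [Finset.sum_comm]
      refine Finset.sum_congr rfl fun π _ => ?_
      rw [Finset.sum_sub_distrib, hsub, Finset.sum_const, nsmul_eq_mul]
    rw [e1, hσ, Finset.mul_sum, ← Finset.sum_neg_distrib]
    refine Finset.sum_le_sum fun π hπ => ?_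
    have h := (hbad π hπ).le
    have hπ0 : (0 : ℝ) ≤ 1 / (π : ℝ) := by positivity
    have h3 : μ * n * (1 / π) ≤ A.card * (1 / π) := mul_le_mul_of_nonneg_right hμ hπ0
    have h4 : (μ - ε) * (n / π) = μ * n * (1 / π) - ε * n * (1 / π) := by ring
    rw [h4] at h
    linarith
  have hcs : (∑ w ∈ A, f w) ^ 2 ≤ n * ∑ w ∈ T, f w ^ 2 := by
    have h := Finset.sum_mul_sq_le_sq_mul_sq A (fun _ => (1 : ℝ)) f
    simp only [one_mul, one_pow, Finset.sum_const, nsmul_eq_mul, mul_one] at h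
    refine h.trans ?_
    have h3 : (A.card : ℝ) ≤ n := by
      rw [hn]
      exact_mod_cast Finset.card_le_card hA
    have h4 : ∑ w ∈ A, f w ^ 2 ≤ ∑ w ∈ T, f w ^ 2 :=
      Finset.sum_le_sum_of_subset_of_nonneg hA fun w _ _ => sq_nonneg _
    exact mul_le_mul h3 h4 (Finset.sum_nonneg fun w _ => sq_nonneg _) hn0
  have hpair : ∀ π ∈ B, ∀ ρ ∈ B,
      ∑ w ∈ T, ind π w * ind ρ w ≤ (if π = ρ then n * (1 / π) else 0) + 3 * E := by
    intro π hπ ρ hρ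
    have hπ1 : (1 : ℝ) ≤ π := by exact_mod_cast hP π (hB hπ)
    have hρ1 : (1 : ℝ) ≤ ρ := by exact_mod_cast hP ρ (hB hρ)
    have hπi : (1 : ℝ) / π ≤ 1 := by rw [div_le_one (by linarith)]; exact hπ1
    have hρi : (1 : ℝ) / ρ ≤ 1 := by rw [div_le_one (by linarith)]; exact hρ1
    have hπi0 : (0 : ℝ) ≤ 1 / π := by positivity
    have hρi0 : (0 : ℝ) ≤ 1 / ρ := by positivity
    have hTπ : T ∩ T' π = T' π := Finset.inter_eq_right.2 (hT' π (hB hπ))
    have hTρ : T ∩ T' ρ = T' ρ := Finset.inter_eq_right.2 (hT' ρ (hB hρ))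
    have e1 : ∑ w ∈ T, ind π w * ind ρ w = ((T' π ∩ T' ρ).card : ℝ) - (1 / ρ) * (T' π).card
        - (1 / π) * (T' ρ).card + n * ((1 / π) * (1 / ρ)) := by
      have e2 : ∀ w ∈ T, ind π w * ind ρ w = (if w ∈ T' π ∩ T' ρ then (1 : ℝ) else 0)
          - (1 / ρ) * (if w ∈ T' π then (1 : ℝ) else 0)
          - (1 / π) * (if w ∈ T' ρ then (1 : ℝ) else 0) + (1 / π) * (1 / ρ) := by
        intro w _
        simp only [ind, Finset.mem_inter]
        by_cases ha : w ∈ T' π <;> by_cases hb : w ∈ T' ρ <;> simp [ha, hb] <;> ring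
      rw [Finset.sum_congr rfl e2, Finset.sum_add_distrib, Finset.sum_sub_distrib,
        Finset.sum_sub_distrib, ← Finset.mul_sum, ← Finset.mul_sum, hsub, hsub, hTπ, hTρ,
        Finset.sum_ite_mem, Finset.sum_const, Finset.sum_const, nsmul_eq_mul, nsmul_eq_mul,
        mul_one, ← hn]
      have hTpr : T ∩ (T' π ∩ T' ρ) = T' π ∩ T' ρ :=
        Finset.inter_eq_right.2 (Finset.inter_subset_left.trans (hT' π (hB hπ)))
      rw [hTpr]
    rw [e1]
    have hp1 := abs_le.1 (h1 π (hB hπ))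
    have hr1 := abs_le.1 (h1 ρ (hB hρ))
    have hdπ : n / (π : ℝ) = n * (1 / π) := by ring
    have hdρ : n / (ρ : ℝ) = n * (1 / ρ) := by ring
    rw [hdπ] at hp1
    rw [hdρ] at hr1
    by_cases hpr : π = ρ
    · subst hpr
      rw [if_pos rfl, Finset.inter_self]
      -- `(n/π + e)(1 - 2/π) + n/π²`
      set a : ℝ := 1 / (π : ℝ) with ha
      set t : ℝ := ((T' π).card : ℝ) with ht
      have h5 : t - a * t - a * t + n * (a * a) = n * a - n * a * a + (t - n * a) * (1 - 2 * a) := by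
        ring
      rw [h5]
      have h6 : (t - n * a) * (1 - 2 * a) ≤ E := by
        have h7 : |(t - n * a) * (1 - 2 * a)| ≤ E * 1 := by
          rw [abs_mul]
          refine mul_le_mul (abs_le.2 ⟨by linarith [hp1.1], by linarith [hp1.2]⟩) ?_ (abs_nonneg _) hE0
          rw [abs_le]
          constructor <;> linarith
        have := le_abs_self ((t - n * a) * (1 - 2 * a))
        linarith
      have h8 : 0 ≤ n * a * a := by positivity
      linarith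
    · rw [if_neg hpr]
      have h3 := (abs_le.1 (h2 π (hB hπ) ρ (hB hρ) hpr)).2
      have hd : n / ((π : ℝ) * ρ) = n * ((1 / π) * (1 / ρ)) := by
        field_simp
      rw [hd] at h3
      have h4 : -((1 / (ρ : ℝ)) * (T' π).card) ≤ -(n * ((1 / π) * (1 / ρ))) + E := by
        have h5 : (1 / (ρ : ℝ)) * (n * (1 / π) - E) ≤ (1 / (ρ : ℝ)) * (T' π).card :=
          mul_le_mul_of_nonneg_left (by linarith [hp1.1]) hρi0
        have h6 : (1 / (ρ : ℝ)) * E ≤ E := by nlinarith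
        nlinarith
      have h4' : -((1 / (π : ℝ)) * (T' ρ).card) ≤ -(n * ((1 / π) * (1 / ρ))) + E := by
        have h5 : (1 / (π : ℝ)) * (n * (1 / ρ) - E) ≤ (1 / (π : ℝ)) * (T' ρ).card :=
          mul_le_mul_of_nonneg_left (by linarith [hr1.1]) hπi0
        have h6 : (1 / (π : ℝ)) * E ≤ E := by nlinarith
        nlinarith
      linarith
  have hvar : ∑ w ∈ T, f w ^ 2 ≤ n * σ + n := by
    have e1 : ∑ w ∈ T, f w ^ 2 = ∑ π ∈ B, ∑ ρ ∈ B, ∑ w ∈ T, ind π w * ind ρ w := by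
      have e2 : ∀ w ∈ T, f w ^ 2 = ∑ π ∈ B, ∑ ρ ∈ B, ind π w * ind ρ w := by
        intro w _
        simp only [f]
        rw [sq, Finset.sum_mul_sum]
      rw [Finset.sum_congr rfl e2, Finset.sum_comm]
      refine Finset.sum_congr rfl fun π _ => ?_
      rw [Finset.sum_comm]
    rw [e1]
    have h3 : ∑ π ∈ B, ∑ ρ ∈ B, ∑ w ∈ T, ind π w * ind ρ w ≤
        ∑ π ∈ B, ∑ ρ ∈ B, ((if π = ρ then n * (1 / π) else 0) + 3 * E) :=
      Finset.sum_le_sum fun π hπ => Finset.sum_le_sum fun ρ hρ => hpair π hπ ρ hρ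
    refine h3.trans ?_
    have e3 : ∑ π ∈ B, ∑ ρ ∈ B, ((if π = ρ then n * (1 / (π : ℝ)) else 0) + 3 * E) =
        n * σ + 3 * E * (B.card : ℝ) ^ 2 := by
      have e4 : ∀ π ∈ B, ∑ ρ ∈ B, ((if π = ρ then n * (1 / (π : ℝ)) else 0) + 3 * E) =
          n * (1 / (π : ℝ)) + B.card * (3 * E) := by
        intro π hπ
        rw [Finset.sum_add_distrib, Finset.sum_ite_eq, if_pos hπ, Finset.sum_const, nsmul_eq_mul]
      rw [Finset.sum_congr rfl e4, Finset.sum_add_distrib, ← Finset.mul_sum, Finset.sum_const,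
        nsmul_eq_mul, hσ]
      ring
    rw [e3]
    have h4 : (B.card : ℝ) ≤ P.card := by exact_mod_cast Finset.card_le_card hB
    have h5 : 3 * E * (B.card : ℝ) ^ 2 ≤ 3 * E * (P.card : ℝ) ^ 2 :=
      mul_le_mul_of_nonneg_left (pow_le_pow_left₀ (by positivity) h4 2) (by positivity)
    linarith
  have hfin : (ε * n * σ) ^ 2 ≤ n * (n * σ + n) := by
    have h5 : 0 ≤ ε * n * σ := by positivity
    have h6 : (ε * n * σ) ^ 2 ≤ (∑ w ∈ A, f w) ^ 2 := by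
      rw [← neg_sq (∑ w ∈ A, f w)]
      exact pow_le_pow_left₀ h5 (by linarith) 2
    exact h6.trans (hcs.trans (mul_le_mul_of_nonneg_left hvar hn0))
  have hfin2 : ε ^ 2 * σ ^ 2 ≤ σ + 1 := by
    have h7 : n ^ 2 * (ε ^ 2 * σ ^ 2) ≤ n ^ 2 * (σ + 1) := by nlinarith [hfin]
    exact le_of_mul_le_mul_left h7 (by positivity)
  by_contra hcon
  push Not at hcon
  have h8 : 1 + ε ^ 2 < ε ^ 2 * σ := by
    have h9 : ε ^ 2 * (1 / ε ^ 2 + 1) < ε ^ 2 * σ := by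
      exact mul_lt_mul_of_pos_left hcon (by positivity)
    have h10 : ε ^ 2 * (1 / ε ^ 2 + 1) = 1 + ε ^ 2 := by field_simp
    linarith
  have h11 : 1 < σ := by
    have : 0 < 1 / ε ^ 2 := by positivity
    linarith
  have hε2 : 0 < ε ^ 2 := by positivity
  nlinarith

end Pool.Agent.CUB

end

section

namespace Pool.Agent.CUB

open Polynomial Pool.Agent.CF

open Classical in
/-- many elements (in the sense of the sum of `1 / p`) in all short multiplicative windows -/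
def Win (Q : Set ℕ) : Prop :=
  ∀ η : ℝ, 0 < η → ∃ c : ℝ, 0 < c ∧ ∃ X₀ : ℝ, 1 < X₀ ∧ ∀ X : ℝ, X₀ ≤ X →
    c / Real.log X ≤ ∑ p ∈ (Finset.Ioc ⌊X⌋₊ ⌊(1 + η) * X⌋₊).filter (fun p => p ∈ Q), (1 / p : ℝ)

theorem sel_tel (g : ℕ → ℝ) (a : ℕ → ℕ) (ha : Monotone a) (n : ℕ) :
    ∑ k ∈ Finset.range n, ∑ p ∈ Finset.Ioc (a k) (a (k + 1)), g p =
      ∑ p ∈ Finset.Ioc (a 0) (a n), g p := by
  induction n with
  | zero => simp
  | succ n ih =>
    rw [Finset.sum_range_succ, ih,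
      Finset.sum_Ioc_consecutive g (ha (Nat.zero_le n)) (ha (Nat.le_succ n))]

/-- divergence of the sums of `c / log (ρ X q ^ k)` -/
theorem sel_div {c X q ρ : ℝ} (hc : 0 < c) (hX : 1 < X) (hq : 1 < q) (hρ : 1 ≤ ρ) (M : ℝ) :
    ∃ n₀ : ℕ, ∀ n, n₀ ≤ n → M < ∑ k ∈ Finset.range n, c / Real.log (ρ * (X * q ^ k)) := by
  have hlX : 0 < Real.log X := Real.log_pos hX
  have hlq : 0 < Real.log q := Real.log_pos hq
  have hlρ : 0 ≤ Real.log ρ := Real.log_nonneg hρ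
  set D : ℝ := Real.log ρ + Real.log X + Real.log q with hD
  have hDpos : 0 < D := by linarith
  have ht := (Real.tendsto_sum_range_one_div_nat_succ_atTop).const_mul_atTop (div_pos hc hDpos)
  have hev := ht.eventually_gt_atTop M
  obtain ⟨n₀, hn₀⟩ := Filter.eventually_atTop.1 hev
  refine ⟨n₀, fun n hn => (hn₀ n hn).trans_le ?_⟩
  rw [Finset.mul_sum]
  refine Finset.sum_le_sum fun k _ => ?_
  have hqk : (0 : ℝ) < q ^ k := by positivity
  have hlog : Real.log (ρ * (X * q ^ k)) = Real.log ρ + (Real.log X + k * Real.log q) := by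
    rw [Real.log_mul (by linarith) (by positivity), Real.log_mul (by linarith) (by positivity),
      Real.log_pow]
  rw [hlog, div_mul_div_comm, mul_one]
  have hk0 : (0 : ℝ) ≤ k := by positivity
  refine div_le_div_of_nonneg_left hc.le ?_ ?_
  · have : 0 ≤ (k : ℝ) * Real.log q := by positivity
    linarith
  · have h1 : D * ((k : ℝ) + 1) = D + k * (Real.log ρ + Real.log X) + k * Real.log q := by
      rw [hD]; ring
    rw [h1, hD]
    have : 0 ≤ (k : ℝ) * (Real.log ρ + Real.log X) := by positivity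
    linarith

open Classical in
/-- (SEL) three primes `p₁ ≈ p₂ p₃` outside of small exceptional sets -/
theorem sel {Q : Set ℕ} (hW : Win Q) {η : ℝ} (hη : 0 < η) (C : ℝ) (P₀ : ℕ) :
    ∃ P : Finset ℕ, (∀ p ∈ P, p ∈ Q ∧ P₀ < p) ∧ ∀ (B₁ : Finset ℕ) (B₂ : ℕ → Finset ℕ),
      ∑ p ∈ P ∩ B₁, (1 / p : ℝ) ≤ C →
      (∀ ρ ∈ P \ B₁, ∑ p ∈ P.erase ρ ∩ B₂ ρ, (1 / p : ℝ) ≤ C) →
      ∃ p₁ ∈ P, ∃ p₂ ∈ P, ∃ p₃ ∈ P, p₁ ≠ p₂ ∧ p₁ ≠ p₃ ∧ p₂ ≠ p₃ ∧ p₁ ∉ B₁ ∧ p₃ ∉ B₁ ∧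
        p₂ ∉ B₂ p₃ ∧ |(p₁ : ℝ) - p₂ * p₃| ≤ η * p₁ := by
  set η' : ℝ := min η 1 with hη'
  have hη'0 : 0 < η' := lt_min hη one_pos
  have hη'1 : η' ≤ 1 := min_le_right _ _
  have hη'η : η' ≤ η := min_le_left _ _
  obtain ⟨c, hc, X₀, hX0, hX⟩ := hW η' hη'0
  set q : ℝ := 1 + η' with hq
  have hq1 : 1 < q := by linarith
  set X₁ : ℝ := max X₀ (P₀ + 2) with hX1
  have hX1X0 : X₀ ≤ X₁ := le_max_left _ _
  have hX1P : (P₀ : ℝ) + 2 ≤ X₁ := le_max_right _ _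
  have hP0 : (0 : ℝ) ≤ P₀ := by positivity
  have hX12 : 2 ≤ X₁ := by linarith
  let Y : ℕ → ℝ := fun k => X₁ * q ^ k
  have hY0 : Y 0 = X₁ := by simp [Y]
  have hYs : ∀ k, Y (k + 1) = q * Y k := fun k => by simp only [Y]; ring
  have hYX : ∀ k, X₁ ≤ Y k := fun k => by
    have : 1 ≤ q ^ k := one_le_pow₀ hq1.le
    simp only [Y]
    nlinarith
  have hYmono : Monotone Y := by
    refine monotone_nat_of_le_succ fun k => ?_
    rw [hYs]
    nlinarith [hYX k]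
  -- windows
  have hwin : ∀ (ρ : ℝ), 1 ≤ ρ → ∀ k, c / Real.log (ρ * Y k) ≤
      ∑ p ∈ (Finset.Ioc ⌊ρ * Y k⌋₊ ⌊ρ * Y (k + 1)⌋₊).filter (fun p => p ∈ Q), (1 / p : ℝ) := by
    intro ρ hρ k
    have h1 : X₀ ≤ ρ * Y k := by nlinarith [hYX k]
    have h2 := hX (ρ * Y k) h1
    have h3 : (1 + η') * (ρ * Y k) = ρ * Y (k + 1) := by rw [hYs, hq]; ring
    rw [h3] at h2
    exact h2
  -- the first family
  obtain ⟨na, hna⟩ := sel_div hc (show 1 < X₁ by linarith) hq1 le_rfl C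
  have hna' := hna na le_rfl
  set Pa : Finset ℕ := (Finset.Ioc ⌊Y 0⌋₊ ⌊Y na⌋₊).filter (fun p => p ∈ Q) with hPa
  have hfl : ∀ ρ : ℝ, 0 ≤ ρ → Monotone (fun k => ⌊ρ * Y k⌋₊) := fun ρ hρ =>
    monotone_nat_of_le_succ fun k => Nat.floor_le_floor (mul_le_mul_of_nonneg_left
      (hYmono (Nat.le_succ k)) hρ)
  have hsumPa : C < ∑ p ∈ Pa, (1 / p : ℝ) := by
    refine hna'.trans_le ?_
    have h1 := sel_tel (fun p => if p ∈ Q then (1 / p : ℝ) else 0) (fun k => ⌊(1 : ℝ) * Y k⌋₊)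
      (hfl 1 zero_le_one) na
    simp only [one_mul] at h1
    rw [hPa, Finset.sum_filter, ← h1]
    refine Finset.sum_le_sum fun k _ => ?_
    have h2 := hwin 1 le_rfl k
    simp only [one_mul] at h2
    rw [Finset.sum_filter] at h2
    simpa only [one_mul, Y] using h2
  -- the length
  have hlen : ∀ ρ : ℕ, ∃ n₀ : ℕ, 1 ≤ ρ → ∀ n, n₀ ≤ n →
      2 * C + 1 < ∑ k ∈ Finset.range n, c / Real.log ((ρ : ℝ) * Y k) := by
    intro ρ
    by_cases hρ : 1 ≤ ρ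
    · obtain ⟨n₀, h⟩ := sel_div hc (show 1 < X₁ by linarith) hq1
        (show (1 : ℝ) ≤ (ρ : ℝ) by exact_mod_cast hρ) (2 * C + 1)
      exact ⟨n₀, fun _ => h⟩
    · exact ⟨0, fun h => absurd h hρ⟩
  choose len hlen using hlen
  set n : ℕ := Pa.sup len with hn
  have hYn1 : 1 ≤ Y n := by linarith [hYX n]
  have hYna1 : 1 ≤ Y na := by linarith [hYX na]
  set P : Finset ℕ := (Finset.Ioc ⌊Y 0⌋₊ ⌊Y na * Y n⌋₊).filter (fun p => p ∈ Q) with hP
  have hPaP : Pa ⊆ P := by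
    refine Finset.filter_subset_filter _ (Finset.Ioc_subset_Ioc_right (Nat.floor_le_floor ?_))
    nlinarith
  have hmemP : ∀ {p : ℕ}, p ∈ P → p ∈ Q ∧ P₀ < p := by
    intro p hp
    rw [hP, Finset.mem_filter, Finset.mem_Ioc] at hp
    refine ⟨hp.2, ?_⟩
    have h1 : Y 0 < p := (Nat.floor_lt (by linarith [hYX 0])).1 hp.1.1
    have h2 : (P₀ : ℝ) < p := by linarith
    exact_mod_cast h2
  refine ⟨P, fun p hp => hmemP hp, fun B₁ B₂ hB1 hB2 => ?_⟩
  -- the prime `p₃`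
  obtain ⟨ρ, hρPa, hρB⟩ : ∃ ρ ∈ Pa, ρ ∉ B₁ := by
    by_contra hcon
    push Not at hcon
    have h1 : ∑ p ∈ Pa, (1 / p : ℝ) ≤ ∑ p ∈ P ∩ B₁, (1 / p : ℝ) :=
      Finset.sum_le_sum_of_subset_of_nonneg
        (fun p hp => Finset.mem_inter.2 ⟨hPaP hp, hcon p hp⟩) fun p _ _ => by positivity
    linarith
  have hρP : ρ ∈ P := hPaP hρPa
  have hρmem := hρPa
  rw [hPa, Finset.mem_filter, Finset.mem_Ioc] at hρmem
  have hρX : X₁ < ρ := by
    have := (Nat.floor_lt (by linarith [hYX 0])).1 hρmem.1.1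
    rwa [hY0] at this
  have hρ2 : (2 : ℝ) < ρ := by linarith
  have hρ1 : (1 : ℝ) ≤ ρ := by linarith
  have hρna : (ρ : ℝ) ≤ Y na := (Nat.le_floor_iff (by linarith)).1 hρmem.1.2
  have hρ1' : 1 ≤ ρ := by exact_mod_cast hρ1
  by_contra hcon
  push Not at hcon
  -- windows inside `P`
  have hin1 : ∀ p : ℕ, p ∈ Finset.Ioc ⌊Y 0⌋₊ ⌊Y n⌋₊ → p ∈ Q → p ∈ P := by
    intro p hp hpQ
    rw [Finset.mem_Ioc] at hp
    rw [hP, Finset.mem_filter, Finset.mem_Ioc]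
    refine ⟨⟨hp.1, hp.2.trans (Nat.floor_le_floor ?_)⟩, hpQ⟩
    nlinarith
  have hin2 : ∀ p : ℕ, p ∈ Finset.Ioc ⌊(ρ : ℝ) * Y 0⌋₊ ⌊(ρ : ℝ) * Y n⌋₊ → p ∈ Q → p ∈ P := by
    intro p hp hpQ
    rw [Finset.mem_Ioc] at hp
    rw [hP, Finset.mem_filter, Finset.mem_Ioc]
    refine ⟨⟨lt_of_le_of_lt (Nat.floor_le_floor ?_) hp.1,
      hp.2.trans (Nat.floor_le_floor ?_)⟩, hpQ⟩
    · nlinarith [hYX 0]
    · exact mul_le_mul_of_nonneg_right hρna (by linarith)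
  let g₂ : ℕ → ℝ := fun p => if p ∈ Q ∧ (p ∈ B₂ ρ ∨ p = ρ) then (1 / p : ℝ) else 0
  let g₁ : ℕ → ℝ := fun p => if p ∈ Q ∧ p ∈ B₁ then (1 / p : ℝ) else 0
  have hg2 : ∀ p, 0 ≤ g₂ p := fun p => by
    simp only [g₂]; split_ifs <;> positivity
  have hg1 : ∀ p, 0 ≤ g₁ p := fun p => by
    simp only [g₁]; split_ifs <;> positivity
  have hstep : ∀ k ∈ Finset.range n, c / Real.log ((ρ : ℝ) * Y k) ≤
      ∑ p ∈ Finset.Ioc ⌊(1 : ℝ) * Y k⌋₊ ⌊(1 : ℝ) * Y (k + 1)⌋₊, g₂ p +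
      ∑ p ∈ Finset.Ioc ⌊(ρ : ℝ) * Y k⌋₊ ⌊(ρ : ℝ) * Y (k + 1)⌋₊, g₁ p := by
    intro k hk
    rw [Finset.mem_range] at hk
    have hs2 : 0 ≤ ∑ p ∈ Finset.Ioc ⌊(1 : ℝ) * Y k⌋₊ ⌊(1 : ℝ) * Y (k + 1)⌋₊, g₂ p :=
      Finset.sum_nonneg fun p _ => hg2 p
    have hs1 : 0 ≤ ∑ p ∈ Finset.Ioc ⌊(ρ : ℝ) * Y k⌋₊ ⌊(ρ : ℝ) * Y (k + 1)⌋₊, g₁ p :=
      Finset.sum_nonneg fun p _ => hg1 p
    have hYk : 0 < Y k := by linarith [hYX k]
    by_cases hall : ∀ p ∈ Finset.Ioc ⌊(1 : ℝ) * Y k⌋₊ ⌊(1 : ℝ) * Y (k + 1)⌋₊, p ∈ Q →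
        p ∈ B₂ ρ ∨ p = ρ
    · have h1 := hwin 1 le_rfl k
      rw [Finset.sum_filter] at h1
      have h2 : ∑ p ∈ Finset.Ioc ⌊(1 : ℝ) * Y k⌋₊ ⌊(1 : ℝ) * Y (k + 1)⌋₊,
          (if p ∈ Q then (1 / p : ℝ) else 0) =
          ∑ p ∈ Finset.Ioc ⌊(1 : ℝ) * Y k⌋₊ ⌊(1 : ℝ) * Y (k + 1)⌋₊, g₂ p := by
        refine Finset.sum_congr rfl fun p hp => ?_
        simp only [g₂]
        by_cases hpQ : p ∈ Q
        · simp [hpQ, hall p hp hpQ]
        · simp [hpQ]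
      rw [h2] at h1
      have h3 : c / Real.log ((ρ : ℝ) * Y k) ≤ c / Real.log (1 * Y k) := by
        refine div_le_div_of_nonneg_left hc.le ?_ ?_
        · rw [one_mul]
          exact Real.log_pos (by linarith [hYX k])
        · exact Real.log_le_log (by linarith) (mul_le_mul_of_nonneg_right hρ1 hYk.le)
      linarith
    · push Not at hall
      obtain ⟨p₂, hp₂w, hp₂Q, hp₂B, hp₂ρ⟩ := hall
      have h1 := hwin ρ hρ1 k
      rw [Finset.sum_filter] at h1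
      have h2 : ∑ p ∈ Finset.Ioc ⌊(ρ : ℝ) * Y k⌋₊ ⌊(ρ : ℝ) * Y (k + 1)⌋₊,
          (if p ∈ Q then (1 / p : ℝ) else 0) =
          ∑ p ∈ Finset.Ioc ⌊(ρ : ℝ) * Y k⌋₊ ⌊(ρ : ℝ) * Y (k + 1)⌋₊, g₁ p := by
        refine Finset.sum_congr rfl fun p hp => ?_
        simp only [g₁]
        by_cases hpQ : p ∈ Q
        · have hpB : p ∈ B₁ := by
            by_contra hpB
            rw [one_mul, one_mul, Finset.mem_Ioc] at hp₂w
            have hp' := hp
            rw [Finset.mem_Ioc] at hp'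
            have a1 : Y k < p₂ := (Nat.floor_lt hYk.le).1 hp₂w.1
            have a2 : (p₂ : ℝ) ≤ Y (k + 1) :=
              (Nat.le_floor_iff (by linarith [hYX (k + 1)])).1 hp₂w.2
            have a3 : (ρ : ℝ) * Y k < p := (Nat.floor_lt (by positivity)).1 hp'.1
            have hYk1 : 0 ≤ Y (k + 1) := by linarith [hYX (k + 1)]
            have a4 : (p : ℝ) ≤ ρ * Y (k + 1) :=
              (Nat.le_floor_iff (by positivity)).1 hp'.2
            rw [hYs] at a2 a4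
            have hp₂P : p₂ ∈ P := by
              refine hin1 p₂ ?_ hp₂Q
              rw [Finset.mem_Ioc]
              exact ⟨lt_of_le_of_lt (Nat.floor_le_floor (hYmono (Nat.zero_le k))) hp₂w.1,
                hp₂w.2.trans (Nat.floor_le_floor (hYmono hk))⟩
            have hpP : p ∈ P := by
              refine hin2 p ?_ hpQ
              rw [Finset.mem_Ioc]
              exact ⟨lt_of_le_of_lt ((hfl ρ (by linarith)) (Nat.zero_le k)) hp'.1,
                hp'.2.trans ((hfl ρ (by linarith)) hk)⟩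
            have hne12 : p ≠ p₂ := by
              intro h
              have h' : (p : ℝ) = p₂ := by exact_mod_cast h
              nlinarith
            have hne13 : p ≠ ρ := by
              intro h
              have h' : (p : ℝ) = ρ := by exact_mod_cast h
              nlinarith [hYX k]
            have hbad := hcon p hpP p₂ hp₂P ρ hρP hne12 hne13 hp₂ρ hpB hρB hp₂B
            refine absurd hbad (not_lt.2 ?_)
            have b1 : Y k * ρ < p₂ * ρ := mul_lt_mul_of_pos_right a1 (by linarith)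
            have b2 : (p₂ : ℝ) * ρ ≤ q * Y k * ρ := mul_le_mul_of_nonneg_right a2 (by linarith)
            have b3 : η' * (ρ * Y k) ≤ η' * p := mul_le_mul_of_nonneg_left a3.le hη'0.le
            have b4 : η' * (p : ℝ) ≤ η * p := mul_le_mul_of_nonneg_right hη'η (by positivity)
            rw [abs_le, hq] at *
            constructor <;> nlinarith
          simp [hpQ, hpB]
        · simp [hpQ]
      rw [h2] at h1
      linarith
  have hsum := Finset.sum_le_sum hstep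
  rw [Finset.sum_add_distrib, sel_tel g₂ (fun k => ⌊(1 : ℝ) * Y k⌋₊) (hfl 1 zero_le_one) n,
    sel_tel g₁ (fun k => ⌊(ρ : ℝ) * Y k⌋₊) (hfl ρ (by linarith)) n] at hsum
  have hlow := hlen ρ hρ1' n (Finset.le_sup (f := len) hρPa)
  have hup1 : ∑ p ∈ Finset.Ioc ⌊(ρ : ℝ) * Y 0⌋₊ ⌊(ρ : ℝ) * Y n⌋₊, g₁ p ≤ C := by
    refine le_trans ?_ hB1
    simp only [g₁]
    rw [← Finset.sum_filter]
    refine Finset.sum_le_sum_of_subset_of_nonneg ?_ fun p _ _ => by positivity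
    intro p hp
    rw [Finset.mem_filter] at hp
    exact Finset.mem_inter.2 ⟨hin2 p hp.1 hp.2.1, hp.2.2⟩
  have hup2 : ∑ p ∈ Finset.Ioc ⌊(1 : ℝ) * Y 0⌋₊ ⌊(1 : ℝ) * Y n⌋₊, g₂ p ≤ C + 1 := by
    have h1 : ∑ p ∈ Finset.Ioc ⌊(1 : ℝ) * Y 0⌋₊ ⌊(1 : ℝ) * Y n⌋₊, g₂ p ≤
        ∑ p ∈ insert ρ (P.erase ρ ∩ B₂ ρ), (1 / p : ℝ) := by
      simp only [g₂]
      rw [← Finset.sum_filter]
      refine Finset.sum_le_sum_of_subset_of_nonneg ?_ fun p _ _ => by positivity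
      intro p hp
      rw [Finset.mem_filter, one_mul, one_mul] at hp
      by_cases hpr : p = ρ
      · rw [hpr]; exact Finset.mem_insert_self _ _
      · refine Finset.mem_insert_of_mem (Finset.mem_inter.2 ⟨Finset.mem_erase.2
          ⟨hpr, hin1 p hp.1 hp.2.1⟩, ?_⟩)
        rcases hp.2.2 with h | h
        · exact h
        · exact absurd h hpr
    have h2 : ρ ∉ P.erase ρ ∩ B₂ ρ := fun h => by
      have := (Finset.mem_inter.1 h).1
      exact absurd rfl (Finset.ne_of_mem_erase this)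
    rw [Finset.sum_insert h2] at h1
    have h3 := hB2 ρ (Finset.mem_sdiff.2 ⟨hρP, hρB⟩)
    have h4 : (1 : ℝ) / ρ ≤ 1 := by
      rw [div_le_one (by linarith)]; exact hρ1
    linarith
  linarith

end Pool.Agent.CUB

end
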