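import Pool.Agent.Lib_helper43.CU.F1

/-!
# part 3: the two families
-/

set_option autoImplicit false

section

namespace Pool.Agent.CUB

open Polynomial Pool.Agent.CF

/-- number of solutions of the congruence in a full block -/
theorem lat_block (α β γ : ℤ) (m : ℕ) (hm : 0 < m)
    (hg : ∀ π : ℕ, π.Prime → π ∣ m → ¬ ((π : ℤ) ∣ α ∧ (π : ℤ) ∣ β)) :
    ((Finset.range m ×ˢ Finset.range m).filter
      (fun w : ℕ × ℕ => (m : ℤ) ∣ γ + w.1 * α + w.2 * β)).card = m := by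
  classical
  have : NeZero m := ⟨hm.ne'⟩
  -- the homomorphism
  let φ : (ZMod m × ZMod m) →+ ZMod m :=
    { toFun := fun w => w.1 * (α : ZMod m) + w.2 * (β : ZMod m)
      map_zero' := by simp
      map_add' := by intro x y; simp; ring }
  have hgcd : Int.gcd (Int.gcd α β : ℤ) m = 1 := by
    by_contra hne
    obtain ⟨π, hπ, hd⟩ := Nat.exists_prime_and_dvd hne
    have h1 : (π : ℤ) ∣ (Int.gcd α β : ℤ) := by
      exact (Int.natCast_dvd_natCast.mpr hd).trans (Int.gcd_dvd_left _ _)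
    have h2 : (π : ℤ) ∣ (m : ℤ) :=
      (Int.natCast_dvd_natCast.mpr hd).trans (Int.gcd_dvd_right _ _)
    exact hg π hπ (Int.natCast_dvd_natCast.mp h2)
      ⟨h1.trans (Int.gcd_dvd_left _ _), h1.trans (Int.gcd_dvd_right _ _)⟩
  have hbez : ∃ u v : ZMod m, u * (α : ZMod m) + v * (β : ZMod m) = 1 := by
    have e1 := Int.gcd_eq_gcd_ab α β
    have e2 := Int.gcd_eq_gcd_ab (Int.gcd α β : ℤ) m
    rw [hgcd] at e2
    generalize (Int.gcd α β : ℤ).gcdA m = u0 at e2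
    generalize (Int.gcd α β : ℤ).gcdB m = w0 at e2
    rw [e1] at e2
    have e3 := congrArg (fun z : ℤ => (z : ZMod m)) e2
    simp only [Int.cast_add, Int.cast_mul, Int.cast_natCast, ZMod.natCast_self, zero_mul,
      add_zero] at e3
    refine ⟨(α.gcdA β : ZMod m) * (u0 : ZMod m), (α.gcdB β : ZMod m) * (u0 : ZMod m), ?_⟩
    push_cast at e3
    rw [e3]
    ring
  have hsurj : ∀ c : ZMod m, c ∈ Set.range φ := by
    intro c
    obtain ⟨u, v, huv⟩ := hbez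
    refine ⟨(c * u, c * v), ?_⟩
    show c * u * (α : ZMod m) + c * v * (β : ZMod m) = c
    rw [mul_assoc, mul_assoc, ← mul_add, huv, mul_one]
  -- all fibres have the same cardinality
  have hfib : ∀ c : ZMod m, (Finset.univ.filter (fun w => φ w = c)).card =
      (Finset.univ.filter (fun w => φ w = -(γ : ZMod m))).card := by
    intro c
    exact AddMonoidHom.card_fiber_eq_of_mem_range φ (hsurj c) (hsurj _)
  have hsum : ∑ c : ZMod m, (Finset.univ.filter (fun w => φ w = c)).card = m * m := by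
    rw [← Finset.card_eq_sum_card_fiberwise (s := (Finset.univ : Finset (ZMod m × ZMod m)))
      (t := Finset.univ) (f := φ) (fun x _ => Finset.mem_coe.mpr (Finset.mem_univ _))]
    simp [ZMod.card]
  have hcard : (Finset.univ.filter (fun w => φ w = -(γ : ZMod m))).card = m := by
    rw [Finset.sum_congr rfl (fun c _ => hfib c)] at hsum
    simp only [Finset.sum_const, Finset.card_univ, ZMod.card, smul_eq_mul] at hsum
    exact Nat.eq_of_mul_eq_mul_left hm hsum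
  refine Eq.trans ?_ hcard
  refine Finset.card_bij' (fun w _ => ((w.1 : ZMod m), (w.2 : ZMod m)))
    (fun w _ => (w.1.val, w.2.val)) ?_ ?_ ?_ ?_
  · intro w hw
    simp only [Finset.mem_filter, Finset.mem_product, Finset.mem_range, Finset.mem_univ,
      true_and] at hw ⊢
    have h := (ZMod.intCast_zmod_eq_zero_iff_dvd _ m).mpr hw.2
    push_cast at h
    show (w.1 : ZMod m) * (α : ZMod m) + (w.2 : ZMod m) * (β : ZMod m) = -(γ : ZMod m)
    linear_combination h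
  · intro w hw
    simp only [Finset.mem_filter, Finset.mem_product, Finset.mem_range, Finset.mem_univ,
      true_and] at hw ⊢
    refine ⟨⟨ZMod.val_lt _, ZMod.val_lt _⟩, ?_⟩
    have h : w.1 * (α : ZMod m) + w.2 * (β : ZMod m) = -(γ : ZMod m) := hw
    apply (ZMod.intCast_zmod_eq_zero_iff_dvd _ _).mp
    push_cast
    rw [ZMod.natCast_zmod_val, ZMod.natCast_zmod_val]
    linear_combination h
  · intro w hw
    simp only [Finset.mem_filter, Finset.mem_product, Finset.mem_range] at hw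
    ext
    · exact ZMod.val_cast_of_lt hw.1.1
    · exact ZMod.val_cast_of_lt hw.1.2
  · intro w _
    ext
    · simp
    · simp

theorem lat_periodic_sum (m k : ℕ) (f : ℕ → ℕ) (hf : ∀ t, f (t + m) = f t) :
    ∑ t ∈ Finset.range (k * m), f t = k * ∑ t ∈ Finset.range m, f t := by
  induction k with
  | zero => simp
  | succ k ih =>
    rw [Nat.succ_mul, Finset.sum_range_add, ih, Nat.succ_mul]
    congr 1
    apply Finset.sum_congr rfl
    intro t _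
    clear ih
    induction k with
    | zero => simp
    | succ k ih2 =>
      rw [← ih2, Nat.succ_mul]
      have : k * m + m + t = (k * m + t) + m := by ring
      rw [this, hf]

/-- number of solutions of the congruence in a square whose side is a multiple of `m` -/
theorem lat_mult (α β γ : ℤ) (m : ℕ) (hm : 0 < m)
    (hg : ∀ π : ℕ, π.Prime → π ∣ m → ¬ ((π : ℤ) ∣ α ∧ (π : ℤ) ∣ β)) (k : ℕ) :
    ((Finset.range (k * m) ×ˢ Finset.range (k * m)).filter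
      (fun w : ℕ × ℕ => (m : ℤ) ∣ γ + w.1 * α + w.2 * β)).card = k ^ 2 * m := by
  have hgen : ∀ L : ℕ, ((Finset.range L ×ˢ Finset.range L).filter
      (fun w : ℕ × ℕ => (m : ℤ) ∣ γ + w.1 * α + w.2 * β)).card =
      ∑ s ∈ Finset.range L, ∑ t ∈ Finset.range L,
        if (m : ℤ) ∣ γ + (s : ℤ) * α + (t : ℤ) * β then 1 else 0 := by
    intro L
    rw [Finset.card_filter, Finset.sum_product]
  rw [hgen]
  have hper : ∀ s : ℕ, ∑ t ∈ Finset.range (k * m),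
      (if (m : ℤ) ∣ γ + (s : ℤ) * α + (t : ℤ) * β then 1 else 0) =
      k * ∑ t ∈ Finset.range m,
        (if (m : ℤ) ∣ γ + (s : ℤ) * α + (t : ℤ) * β then 1 else 0) := by
    intro s
    apply lat_periodic_sum m k
    intro t
    have : (m : ℤ) ∣ γ + (s : ℤ) * α + ((t + m : ℕ) : ℤ) * β ↔
        (m : ℤ) ∣ γ + (s : ℤ) * α + (t : ℤ) * β := by
      have e : γ + (s : ℤ) * α + ((t + m : ℕ) : ℤ) * β =
          (γ + (s : ℤ) * α + (t : ℤ) * β) + (m : ℤ) * β := by push_cast; ring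
      rw [e]
      exact (Int.dvd_add_left (dvd_mul_right _ _))
    simp only [this]
  rw [Finset.sum_congr rfl (fun s _ => hper s), ← Finset.mul_sum,
    lat_periodic_sum m k (fun s => ∑ t ∈ Finset.range m,
      (if (m : ℤ) ∣ γ + (s : ℤ) * α + (t : ℤ) * β then 1 else 0)), ← hgen m,
    lat_block α β γ m hm hg]
  · ring
  · intro s
    apply Finset.sum_congr rfl
    intro t _
    have : (m : ℤ) ∣ γ + ((s + m : ℕ) : ℤ) * α + (t : ℤ) * β ↔
        (m : ℤ) ∣ γ + (s : ℤ) * α + (t : ℤ) * β := by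
      have e : γ + ((s + m : ℕ) : ℤ) * α + (t : ℤ) * β =
          (γ + (s : ℤ) * α + (t : ℤ) * β) + (m : ℤ) * α := by push_cast; ring
      rw [e]
      exact (Int.dvd_add_left (dvd_mul_right _ _))
    simp only [this]

/-- (LAT) counting a linear congruence in a square -/
theorem lat (α β γ : ℤ) (m : ℕ) (hm : 0 < m)
    (hg : ∀ π : ℕ, π.Prime → π ∣ m → ¬ ((π : ℤ) ∣ α ∧ (π : ℤ) ∣ β)) (L : ℕ) :
    |((((Finset.range L ×ˢ Finset.range L).filter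
      (fun w : ℕ × ℕ => (m : ℤ) ∣ γ + w.1 * α + w.2 * β)).card : ℝ) - (L : ℝ) ^ 2 / m)| ≤
      2 * L + m := by
  have hmR : (0 : ℝ) < m := by exact_mod_cast hm
  set q := L / m with hq
  have h1 : q * m ≤ L := Nat.div_mul_le_self L m
  have h2 : L ≤ (q + 1) * m := by
    have h := Nat.div_add_mod L m
    have h' := Nat.mod_lt L hm
    rw [← hq] at h
    nlinarith
  have hmono : ∀ A B : ℕ, A ≤ B → ((Finset.range A ×ˢ Finset.range A).filter
      (fun w : ℕ × ℕ => (m : ℤ) ∣ γ + w.1 * α + w.2 * β)).card ≤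
      ((Finset.range B ×ˢ Finset.range B).filter
      (fun w : ℕ × ℕ => (m : ℤ) ∣ γ + w.1 * α + w.2 * β)).card := by
    intro A B hAB
    apply Finset.card_le_card
    intro w hw
    simp only [Finset.mem_filter, Finset.mem_product, Finset.mem_range] at hw ⊢
    exact ⟨⟨by omega, by omega⟩, hw.2⟩
  have c1 := hmono _ _ h1
  have c2 := hmono _ _ h2
  rw [lat_mult α β γ m hm hg] at c1 c2
  set N := ((Finset.range L ×ˢ Finset.range L).filter
      (fun w : ℕ × ℕ => (m : ℤ) ∣ γ + w.1 * α + w.2 * β)).card with hN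
  have c1' : (q : ℝ) ^ 2 * m ≤ N := by exact_mod_cast c1
  have c2' : (N : ℝ) ≤ ((q : ℝ) + 1) ^ 2 * m := by exact_mod_cast c2
  have h1' : (q : ℝ) * m ≤ L := by exact_mod_cast h1
  have h2' : (L : ℝ) ≤ ((q : ℝ) + 1) * m := by exact_mod_cast h2
  have hq0 : (0 : ℝ) ≤ q := Nat.cast_nonneg _
  have d1 : (q : ℝ) ^ 2 * m ≤ (L : ℝ) ^ 2 / m := by
    rw [le_div_iff₀ hmR]
    have : ((q : ℝ) * m) ^ 2 ≤ (L : ℝ) ^ 2 := by
      apply pow_le_pow_left₀ (by positivity) h1'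
    nlinarith
  have d2 : (L : ℝ) ^ 2 / m ≤ ((q : ℝ) + 1) ^ 2 * m := by
    rw [div_le_iff₀ hmR]
    have : (L : ℝ) ^ 2 ≤ (((q : ℝ) + 1) * m) ^ 2 := by
      apply pow_le_pow_left₀ (by positivity) h2'
    nlinarith
  have e : ((q : ℝ) + 1) ^ 2 * m - (q : ℝ) ^ 2 * m = 2 * (q * m) + m := by ring
  rw [abs_le]
  constructor
  · linarith
  · linarith

/-- (LAT) the points of a box on a line modulo `m` -/
theorem lat_cnt {p q g : ℤ × ℤ} (m : ℕ) (hm : 0 < m)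
    (hg : ∀ π : ℕ, π.Prime → π ∣ m → ¬ (π : ℤ) ∣ dt p q ∧ ¬ ((π : ℤ) ∣ g.1 ∧ (π : ℤ) ∣ g.2))
    (z : ℤ × ℤ) (L : ℕ) :
    |((cnt {y | (m : ℤ) ∣ dt y g} z p q L : ℝ) - (L : ℝ) ^ 2 / m)| ≤ 2 * L + m := by
  have h := lat (dt p g) (dt q g) (dt z g) m hm (by
    intro π hπ hd ⟨ha, hb⟩
    obtain ⟨hpq, hgg⟩ := hg π hπ hd
    have hpr : Prime (π : ℤ) := Nat.prime_iff_prime_int.mp hπ
    apply hgg
    constructor
    · have : (π : ℤ) ∣ dt p q * g.1 := by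
        have e : dt p q * g.1 = q.1 * dt p g - p.1 * dt q g := by unfold dt; ring
        rw [e]
        exact dvd_sub (Dvd.dvd.mul_left ha _) (Dvd.dvd.mul_left hb _)
      exact (hpr.dvd_or_dvd this).resolve_left hpq
    · have : (π : ℤ) ∣ dt p q * g.2 := by
        have e : dt p q * g.2 = q.2 * dt p g - p.2 * dt q g := by unfold dt; ring
        rw [e]
        exact dvd_sub (Dvd.dvd.mul_left ha _) (Dvd.dvd.mul_left hb _)
      exact (hpr.dvd_or_dvd this).resolve_left hpq) L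
  have e : cnt {y | (m : ℤ) ∣ dt y g} z p q L = ((Finset.range L ×ˢ Finset.range L).filter
      (fun w : ℕ × ℕ => (m : ℤ) ∣ dt z g + w.1 * dt p g + w.2 * dt q g)).card := by
    unfold cnt
    congr 1
    ext w
    simp only [Finset.mem_filter, Set.mem_ofPred_eq]
    have : dt (pt z p q w.1 w.2) g = dt z g + w.1 * dt p g + w.2 * dt q g := by
      unfold dt pt
      ring
    rw [this]
  rw [e]
  exact h

/-- (LAT) the special case `g = (1, 0)` -/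
theorem lat_snd {p q : ℤ × ℤ} (m : ℕ) (hm : 0 < m)
    (hg : ∀ π : ℕ, π.Prime → π ∣ m → ¬ (π : ℤ) ∣ dt p q) (z : ℤ × ℤ) (L : ℕ) :
    (cnt {y | (m : ℤ) ∣ y.2} z p q L : ℝ) ≤ (L : ℝ) ^ 2 / m + 2 * L + m := by
  have h := lat_cnt (p := p) (q := q) (g := (1, 0)) m hm (by
    intro π hπ hd
    refine ⟨hg π hπ hd, ?_⟩
    rintro ⟨h1, -⟩
    have : (π : ℤ) ∣ 1 := h1
    have hpr : Prime (π : ℤ) := Nat.prime_iff_prime_int.mp hπ
    exact hpr.not_isUnit (isUnit_of_dvd_one this)) z L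
  have e : {y : ℤ × ℤ | (m : ℤ) ∣ dt y (1, 0)} = {y | (m : ℤ) ∣ y.2} := by
    ext y
    simp only [Set.mem_ofPred_eq, dt]
    rw [mul_zero, mul_one, zero_sub, dvd_neg]
  rw [e] at h
  have := (abs_le.mp h).2
  linarith

end Pool.Agent.CUB

end

section

namespace Pool.Agent.CUB

open Polynomial Pool.Agent.CF

/-! ### auxiliary facts -/

theorem mean_mem {l : ℕ} {w : ℤ × ℤ × ℤ} : w ∈ box3 l ↔ (0 ≤ w.1 ∧ w.1 < l) ∧
    (0 ≤ w.2.1 ∧ w.2.1 < l) ∧ (0 ≤ w.2.2 ∧ w.2.2 < l) := by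
  unfold box3
  rw [Finset.mem_product, Finset.mem_product, Finset.mem_Ico, Finset.mem_Ico, Finset.mem_Ico]

theorem mean_card (l : ℕ) : (box3 l).card = l ^ 3 := by
  unfold box3
  rw [Finset.card_product, Finset.card_product, Int.card_Ico]
  simp only [sub_zero, Int.toNat_natCast]
  ring

theorem mean_solve {p q v : ℤ × ℤ} (hd : dt p q ≠ 0) (h1 : dt p q ∣ dt v q)
    (h2 : dt p q ∣ dt p v) : ∃ s t : ℤ, dt v q = s * dt p q ∧ dt p v = t * dt p q ∧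
      v = (s * p.1 + t * q.1, s * p.2 + t * q.2) := by
  obtain ⟨s, hs⟩ := h1
  obtain ⟨t, ht⟩ := h2
  refine ⟨s, t, by rw [hs, mul_comm], by rw [ht, mul_comm], ?_⟩
  unfold dt at *
  ext
  · apply mul_left_cancel₀ hd
    simp only
    linear_combination p.1 * hs + q.1 * ht
  · apply mul_left_cancel₀ hd
    simp only
    linear_combination p.2 * hs + q.2 * ht

/-- fibres -/
theorem mean_fib {l : ℕ} {κ : ℤ × ℤ × ℤ} (hκ : 0 < κ.1) (A : Finset (ℤ × ℤ × ℤ))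
    (hA : A ⊆ box3 l) (hk : ∀ w ∈ A, ∀ w' ∈ A, ∃ k : ℤ, w - w' = k • κ) :
    (A.card : ℝ) ≤ (l : ℝ) / κ.1 + 1 := by
  have h1 : A.card ≤ (Finset.Ico 0 ((l : ℤ) / κ.1 + 1)).card := by
    apply Finset.card_le_card_of_injOn (fun w => w.1 / κ.1)
    · intro w hw
      obtain ⟨⟨h2, h3⟩, -⟩ := mean_mem.1 (hA hw)
      rw [Finset.mem_coe, Finset.mem_Ico]
      refine ⟨Int.ediv_nonneg h2 hκ.le, ?_⟩
      have h4 : w.1 / κ.1 ≤ (l : ℤ) / κ.1 := Int.ediv_le_ediv hκ h3.le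
      show w.1 / κ.1 < _
      omega
    · intro w hw w' hw' h2
      obtain ⟨k, hk'⟩ := hk w hw w' hw'
      have h3 : w.1 = w'.1 + k * κ.1 := by
        have h4 := congrArg Prod.fst hk'
        simp only [Prod.fst_sub, Prod.smul_fst, smul_eq_mul] at h4
        linarith
      simp only at h2
      rw [h3, Int.add_mul_ediv_right _ _ hκ.ne'] at h2
      have h4 : k = 0 := by omega
      rw [h4, zero_smul, sub_eq_zero] at hk'
      exact hk'
  rw [Int.card_Ico, sub_zero] at h1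
  have h2 : (0 : ℤ) ≤ (l : ℤ) / κ.1 := Int.ediv_nonneg (by positivity) hκ.le
  have h3 : ((((l : ℤ) / κ.1 + 1).toNat : ℕ) : ℤ) = (l : ℤ) / κ.1 + 1 :=
    Int.toNat_of_nonneg (by omega)
  have h4 : (A.card : ℤ) ≤ (l : ℤ) / κ.1 + 1 := by
    rw [← h3]
    exact_mod_cast h1
  have h5 : (((l : ℤ) / κ.1 : ℤ) : ℝ) ≤ (l : ℝ) / κ.1 := by
    rw [le_div_iff₀ (by exact_mod_cast hκ)]
    have h6 := Int.ediv_mul_le (l : ℤ) hκ.ne'
    exact_mod_cast h6
  have h6 : (A.card : ℝ) ≤ (((l : ℤ) / κ.1 : ℤ) : ℝ) + 1 := by exact_mod_cast h4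
  linarith

open Classical in
/-- the points near the boundary of an interval -/
noncomputable def meanE (l : ℕ) (δ : ℝ) : Finset ℤ :=
  (Finset.Ico 0 (l : ℤ)).filter (fun a => (a : ℝ) ≤ δ * (l + 1) ∨ (1 - δ) * l ≤ (a : ℝ))

theorem meanE_card {l : ℕ} {δ : ℝ} (hδ : 0 < δ) (hδ1 : δ ≤ 1 / 4) :
    ((meanE l δ).card : ℝ) ≤ 2 * δ * l + 2 := by
  have h1 : meanE l δ ⊆ Finset.Icc 0 ⌊δ * (l + 1)⌋ ∪ Finset.Ico ⌈(1 - δ) * l⌉ (l : ℤ) := by
    intro a ha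
    unfold meanE at ha
    rw [Finset.mem_filter, Finset.mem_Ico] at ha
    obtain ⟨⟨h2, h3⟩, h4⟩ := ha
    rw [Finset.mem_union, Finset.mem_Icc, Finset.mem_Ico]
    rcases h4 with h4 | h4
    · exact Or.inl ⟨h2, Int.le_floor.2 h4⟩
    · exact Or.inr ⟨Int.ceil_le.2 h4, h3⟩
  have h2 : (meanE l δ).card ≤ (Finset.Icc 0 ⌊δ * (l + 1)⌋).card +
      (Finset.Ico ⌈(1 - δ) * l⌉ (l : ℤ)).card :=
    (Finset.card_le_card h1).trans (Finset.card_union_le _ _)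
  rw [Int.card_Icc, Int.card_Ico] at h2
  have hl0 : (0 : ℝ) ≤ l := Nat.cast_nonneg l
  have h3 : (((⌊δ * ((l : ℝ) + 1)⌋ + 1 - 0).toNat : ℕ) : ℝ) ≤ δ * (l + 1) + 1 := by
    have h4 : (0 : ℤ) ≤ ⌊δ * ((l : ℝ) + 1)⌋ := Int.floor_nonneg.2 (by positivity)
    have h5 : (((⌊δ * ((l : ℝ) + 1)⌋ + 1 - 0).toNat : ℕ) : ℤ) = ⌊δ * ((l : ℝ) + 1)⌋ + 1 := by
      rw [Int.toNat_of_nonneg (by omega)]
      ring
    have h6 : (((⌊δ * ((l : ℝ) + 1)⌋ + 1 - 0).toNat : ℕ) : ℝ) =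
        ((⌊δ * ((l : ℝ) + 1)⌋ : ℤ) : ℝ) + 1 := by exact_mod_cast h5
    rw [h6]
    linarith [Int.floor_le (δ * ((l : ℝ) + 1))]
  have h4 : ((((l : ℤ) - ⌈(1 - δ) * (l : ℝ)⌉).toNat : ℕ) : ℝ) ≤ δ * l := by
    have h5 : ⌈(1 - δ) * (l : ℝ)⌉ ≤ (l : ℤ) := by
      apply Int.ceil_le.2
      push_cast
      have h6 := mul_nonneg hδ.le hl0
      linarith
    have h6 : ((((l : ℤ) - ⌈(1 - δ) * (l : ℝ)⌉).toNat : ℕ) : ℤ) = (l : ℤ) - ⌈(1 - δ) * (l : ℝ)⌉ :=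
      Int.toNat_of_nonneg (by omega)
    have h7 : ((((l : ℤ) - ⌈(1 - δ) * (l : ℝ)⌉).toNat : ℕ) : ℝ) =
        (l : ℝ) - ((⌈(1 - δ) * (l : ℝ)⌉ : ℤ) : ℝ) := by exact_mod_cast h6
    rw [h7]
    have h8 := Int.le_ceil ((1 - δ) * (l : ℝ))
    linarith
  have h5 : ((meanE l δ).card : ℝ) ≤ (((⌊δ * ((l : ℝ) + 1)⌋ + 1 - 0).toNat : ℕ) : ℝ) +
      ((((l : ℤ) - ⌈(1 - δ) * (l : ℝ)⌉).toNat : ℕ) : ℝ) := by exact_mod_cast h2
  linarith

/-- coordinates outside `[0, L)` come from points near the boundary -/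
theorem mean_edge {l L : ℕ} {θ δ : ℝ} (hθ : 1 ≤ θ) (hδ : 0 < δ) (hδ1 : δ ≤ 1 / 4)
    (hL1 : θ * l ≤ L) (hL2 : (L : ℝ) < θ * (l + 1)) {d s a : ℤ} (hd : d ≠ 0)
    (ha : 0 ≤ a ∧ a < l) (h : |((s * d : ℤ) : ℝ) - θ * a * d| ≤ δ * L)
    (hs : ¬ (0 ≤ s ∧ s < L)) : a ∈ meanE l δ := by
  have hd1 : (1 : ℝ) ≤ |(d : ℝ)| := by
    have h1 : (1 : ℤ) ≤ |d| := Int.one_le_abs hd
    exact_mod_cast h1
  have h1 : |(s : ℝ) - θ * a| ≤ δ * L := by
    have h2 : ((s * d : ℤ) : ℝ) - θ * a * d = ((s : ℝ) - θ * a) * d := by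
      push_cast
      ring
    rw [h2, abs_mul] at h
    nlinarith [abs_nonneg ((s : ℝ) - θ * a)]
  rw [abs_le] at h1
  unfold meanE
  rw [Finset.mem_filter, Finset.mem_Ico]
  refine ⟨ha, ?_⟩
  have hθ0 : 0 < θ := by linarith
  by_cases h2 : s < 0
  · left
    have h3 : (s : ℝ) ≤ 0 := by exact_mod_cast h2.le
    have h4 : θ * (a : ℝ) ≤ θ * (δ * (l + 1)) := by nlinarith
    exact le_of_mul_le_mul_left h4 hθ0
  · right
    have h3 : (L : ℤ) ≤ s := by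
      by_contra h4
      exact hs ⟨by omega, by omega⟩
    have h4 : (L : ℝ) ≤ s := by exact_mod_cast h3
    have h5 : θ * ((1 - δ) * l) ≤ θ * (a : ℝ) := by nlinarith
    exact le_of_mul_le_mul_left h5 hθ0

open Classical in
/-- the points counted by `cnt` -/
noncomputable def meanT (S : Set (ℤ × ℤ)) (z p q : ℤ × ℤ) (L : ℕ) : Finset (ℕ × ℕ) :=
  (Finset.range L ×ˢ Finset.range L).filter
    (fun w : ℕ × ℕ => pt z p q (w.1 : ℤ) (w.2 : ℤ) ∈ S)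

theorem meanT_card (S : Set (ℤ × ℤ)) (z p q : ℤ × ℤ) (L : ℕ) :
    (meanT S z p q L).card = cnt S z p q L := rfl

theorem mem_meanT {S : Set (ℤ × ℤ)} {z p q : ℤ × ℤ} {L : ℕ} {v : ℕ × ℕ} :
    v ∈ meanT S z p q L ↔ v ∈ Finset.range L ×ˢ Finset.range L ∧
      pt z p q (v.1 : ℤ) (v.2 : ℤ) ∈ S := by
  classical
  unfold meanT
  rw [Finset.mem_filter]

/-- the constant -/
noncomputable def meanC (D : ℕ) (θ : ℝ) : ℝ := 8 + 4 + 4 * θ ^ 2 + (4 * θ + D) * (2 * D + 1)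

theorem mean_num {D l : ℕ} {L : ℝ} {θ δ μ κ : ℝ} (hD : 1 ≤ D) (hl : 1 ≤ l) (hθ : 1 ≤ θ)
    (hδ : 0 < δ) (hδ1 : δ ≤ 1 / 4) (hL0 : 0 ≤ L) (hL2 : L ≤ θ * (l + 1)) (hμ : 0 ≤ μ) (hμ1 : μ ≤ 1)
    (hκ : (1 - δ) * θ ^ 2 / D ≤ κ) :
    (L ^ 2 / D + 2 * L + D - μ * (L ^ 2 / D)) * (l / κ + 1) ≤
      (1 - μ) * (1 + 4 / 3 * δ) * (l : ℝ) ^ 3 +
        (4 + 4 * θ ^ 2 + (4 * θ + D) * (2 * D + 1)) * (l : ℝ) ^ 2 := by
  have hD0 : (1 : ℝ) ≤ D := by exact_mod_cast hD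
  have hl1 : (1 : ℝ) ≤ l := by exact_mod_cast hl
  generalize (l : ℝ) = l at *
  generalize (D : ℝ) = D at *
  have hDp : (0 : ℝ) < D := by linarith
  have hl0 : 0 ≤ l := by linarith
  have hll : l * 1 ≤ l * l := mul_le_mul_of_nonneg_left hl1 hl0
  have hθ0 : 0 < θ := by linarith
  have hdp : 0 < 1 - δ := by linarith
  have hθ2 : 1 ≤ θ ^ 2 := one_le_pow₀ hθ
  have hc : 0 < (1 - δ) * θ ^ 2 / D := by positivity
  have hκ0 : 0 < κ := lt_of_lt_of_le hc hκ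
  have hinv : 1 / (1 - δ) ≤ 1 + 4 / 3 * δ := by
    rw [div_le_iff₀ hdp]
    linarith [mul_nonneg hδ.le (sub_nonneg.2 hδ1)]
  have hB : l / κ + 1 ≤ l * D / ((1 - δ) * θ ^ 2) + 1 := by
    have h1 : l / κ ≤ l / ((1 - δ) * θ ^ 2 / D) := by gcongr
    have h2 : l / ((1 - δ) * θ ^ 2 / D) = l * D / ((1 - δ) * θ ^ 2) := by
      field_simp
    linarith
  have hA : L ^ 2 / D + 2 * L + D - μ * (L ^ 2 / D) ≤
      (1 - μ) * (θ ^ 2 * (l + 1) ^ 2 / D) + (4 * θ + D) * l := by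
    have h1 : L ^ 2 / D ≤ θ ^ 2 * (l + 1) ^ 2 / D := by
      have h2 : L ^ 2 ≤ (θ * (l + 1)) ^ 2 := by gcongr
      have h3 : (θ * (l + 1)) ^ 2 = θ ^ 2 * (l + 1) ^ 2 := by ring
      rw [← h3]
      gcongr
    have h2 : (1 - μ) * (L ^ 2 / D) ≤ (1 - μ) * (θ ^ 2 * (l + 1) ^ 2 / D) :=
      mul_le_mul_of_nonneg_left h1 (by linarith)
    have h3 : 2 * L ≤ 4 * θ * l := by
      have h4 : θ * 1 ≤ θ * l := mul_le_mul_of_nonneg_left hl1 hθ0.le
      linarith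
    have h4 : D * 1 ≤ D * l := mul_le_mul_of_nonneg_left hl1 hDp.le
    have h5 : L ^ 2 / D + 2 * L + D - μ * (L ^ 2 / D) = (1 - μ) * (L ^ 2 / D) + 2 * L + D := by
      ring
    have h6 : (4 * θ + D) * l = 4 * θ * l + D * l := by ring
    rw [h5, h6]
    linarith
  have hμ' : 0 ≤ 1 - μ := by linarith
  set x := l * D / ((1 - δ) * θ ^ 2) with hx
  set y := (1 - μ) * (θ ^ 2 * (l + 1) ^ 2 / D) with hy
  have hy0 : 0 ≤ y := by positivity
  have hx0 : 0 ≤ x := by positivity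
  have hA0 : 0 ≤ y + (4 * θ + D) * l := by positivity
  have hB0 : 0 ≤ l / κ + 1 := by positivity
  have h1 : (L ^ 2 / D + 2 * L + D - μ * (L ^ 2 / D)) * (l / κ + 1) ≤
      (y + (4 * θ + D) * l) * (x + 1) :=
    calc _ ≤ (y + (4 * θ + D) * l) * (l / κ + 1) := mul_le_mul_of_nonneg_right hA hB0
      _ ≤ _ := mul_le_mul_of_nonneg_left hB hA0
  refine h1.trans ?_
  have h2 : y * x = (1 - μ) * ((l + 1) ^ 2 * l * (1 / (1 - δ))) := by
    rw [hx, hy]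
    field_simp
  have h3 : (l + 1) ^ 2 * l * (1 / (1 - δ)) ≤ (1 + 4 / 3 * δ) * l ^ 3 + 4 * l ^ 2 := by
    have h4 : (l + 1) ^ 2 * l ≤ l ^ 3 + 3 * l ^ 2 := by
      have h5 : (l + 1) ^ 2 * l = l ^ 3 + 2 * l ^ 2 + l := by ring
      rw [h5]
      linarith
    have h5 : 0 ≤ (l + 1) ^ 2 * l := by positivity
    have h6 : δ * l ^ 2 ≤ 1 / 4 * l ^ 2 := mul_le_mul_of_nonneg_right hδ1 (sq_nonneg l)
    calc (l + 1) ^ 2 * l * (1 / (1 - δ)) ≤ (l + 1) ^ 2 * l * (1 + 4 / 3 * δ) :=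
          mul_le_mul_of_nonneg_left hinv h5
      _ ≤ (l ^ 3 + 3 * l ^ 2) * (1 + 4 / 3 * δ) := by gcongr
      _ = (1 + 4 / 3 * δ) * l ^ 3 + 3 * l ^ 2 + 4 * (δ * l ^ 2) := by ring
      _ ≤ _ := by linarith
  have h4 : y * x ≤ (1 - μ) * (1 + 4 / 3 * δ) * l ^ 3 + 4 * l ^ 2 := by
    rw [h2]
    have h5 := mul_le_mul_of_nonneg_left h3 hμ'
    have h6 := mul_nonneg hμ (sq_nonneg l)
    have h7 : (1 - μ) * ((1 + 4 / 3 * δ) * l ^ 3 + 4 * l ^ 2) =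
        (1 - μ) * (1 + 4 / 3 * δ) * l ^ 3 + 4 * l ^ 2 - 4 * (μ * l ^ 2) := by ring
    linarith
  have h5 : y ≤ 4 * θ ^ 2 * l ^ 2 := by
    have h6 : θ ^ 2 * (l + 1) ^ 2 / D ≤ θ ^ 2 * (l + 1) ^ 2 :=
      div_le_self (by positivity) hD0
    have h7 : (l + 1) ^ 2 ≤ 4 * l ^ 2 := by
      have h8 : (l + 1) ^ 2 = l ^ 2 + 2 * l + 1 := by ring
      have h9 : l * l = l ^ 2 := by ring
      rw [h8]
      linarith
    calc y ≤ 1 * (θ ^ 2 * (l + 1) ^ 2 / D) := by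
          rw [hy]
          gcongr
          linarith
      _ ≤ θ ^ 2 * (l + 1) ^ 2 := by linarith
      _ ≤ θ ^ 2 * (4 * l ^ 2) := by gcongr
      _ = _ := by ring
  have h6 : x + 1 ≤ (2 * D + 1) * l := by
    have h7 : x ≤ 2 * (l * D) := by
      rw [hx, div_le_iff₀ (by positivity)]
      have h10 : 3 / 4 * θ ^ 2 ≤ (1 - δ) * θ ^ 2 :=
        mul_le_mul_of_nonneg_right (by linarith) (by linarith)
      have h8 : (1 / 2 : ℝ) ≤ (1 - δ) * θ ^ 2 := by linarith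
      have h9 : l * D * (1 / 2) ≤ l * D * ((1 - δ) * θ ^ 2) :=
        mul_le_mul_of_nonneg_left h8 (by positivity)
      have h11 : 2 * (l * D) * ((1 - δ) * θ ^ 2) = 2 * (l * D * ((1 - δ) * θ ^ 2)) := by ring
      rw [h11]
      linarith
    have h8 : (2 * D + 1) * l = 2 * (l * D) + l := by ring
    rw [h8]
    linarith
  have h7 : (4 * θ + D) * l * (x + 1) ≤ (4 * θ + D) * (2 * D + 1) * l ^ 2 := by
    have h8 : 0 ≤ (4 * θ + D) * l := by positivity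
    have h9 := mul_le_mul_of_nonneg_left h6 h8
    have h10 : (4 * θ + D) * (2 * D + 1) * l ^ 2 = (4 * θ + D) * l * ((2 * D + 1) * l) := by ring
    rw [h10]
    exact h9
  have h8 : (y + (4 * θ + D) * l) * (x + 1) = y * x + y + (4 * θ + D) * l * (x + 1) := by ring
  have h9 : (1 - μ) * (1 + 4 / 3 * δ) * l ^ 3 +
      (4 + 4 * θ ^ 2 + (4 * θ + D) * (2 * D + 1)) * l ^ 2 =
      ((1 - μ) * (1 + 4 / 3 * δ) * l ^ 3 + 4 * l ^ 2) + 4 * θ ^ 2 * l ^ 2 +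
        (4 * θ + D) * (2 * D + 1) * l ^ 2 := by ring
  rw [h8, h9]
  linarith

/-- (MEAN) the mean of a near-maximal set along a map of the cube with small fibres -/
theorem mean (p q : ℤ × ℤ) (hd : dt p q ≠ 0) (D : ℕ) (hD : 0 < D) {θ δ : ℝ} (hθ : 1 ≤ θ)
    (hδ : 0 < δ) (hδ1 : δ ≤ 1 / 4) : ∃ l₀ : ℕ, ∀ l : ℕ, l₀ ≤ l → ∀ L : ℕ,
      θ * l ≤ L → (L : ℝ) < θ * (l + 1) →
      ∀ (S : Set (ℤ × ℤ)) (z : ℤ × ℤ) (F : ℤ × ℤ × ℤ → ℤ × ℤ) (κ : ℤ × ℤ × ℤ) (μ : ℝ),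
        0 ≤ μ → μ ≤ 1 →
        (∀ w ∈ box3 l, dt p q ∣ dt (F w - z) q ∧ dt p q ∣ dt p (F w - z)) →
        (∀ w ∈ box3 l, (D : ℤ) ∣ (F w).2) →
        (∀ w ∈ box3 l, ∀ w' ∈ box3 l, F w = F w' → ∃ k : ℤ, w - w' = k • κ) →
        (1 - δ) * θ ^ 2 / D ≤ (κ.1 : ℝ) →
        (∀ w ∈ box3 l, |(dt (F w - z) q : ℝ) - θ * w.2.1 * dt p q| ≤ δ * L ∧
          |(dt p (F w - z) : ℝ) - θ * w.2.2 * dt p q| ≤ δ * L) →
        (cnt {y | (D : ℤ) ∣ y.2} z p q L : ℝ) ≤ (L : ℝ) ^ 2 / D + 2 * L + D →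
        μ * ((L : ℝ) ^ 2 / D) ≤ cnt (S ∩ {y | (D : ℤ) ∣ y.2}) z p q L →
        (μ - 12 * δ) * (l : ℝ) ^ 3 ≤ dens l (fun w => F w ∈ S) := by
  classical
  refine ⟨max 1 ⌈meanC D θ / (6 * δ)⌉₊, ?_⟩
  intro l hl L hL1 hL2 S z F κ μ hμ hμ1 hF1 hF2 hF3 hκ hF4 hc1 hc2
  have hl1 : 1 ≤ l := (le_max_left _ _).trans hl
  have hl2 : meanC D θ ≤ 6 * δ * l := by
    have h1 : ⌈meanC D θ / (6 * δ)⌉₊ ≤ l := (le_max_right _ _).trans hl
    have h2 : meanC D θ / (6 * δ) ≤ l := (Nat.le_ceil _).trans (by exact_mod_cast h1)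
    rw [div_le_iff₀ (by positivity)] at h2
    linarith
  have hl1' : (1 : ℝ) ≤ l := by exact_mod_cast hl1
  have hθ0 : 0 < θ := by linarith
  have hDp : (0 : ℝ) < D := by exact_mod_cast hD
  have hdp : 0 < 1 - δ := by linarith
  have hκ0 : (0 : ℝ) < κ.1 := lt_of_lt_of_le (by positivity) hκ
  have hκ1 : 0 < κ.1 := by exact_mod_cast hκ0
  -- coordinates
  have hcoord : ∀ w : ℤ × ℤ × ℤ, ∃ s t : ℤ, w ∈ box3 l → F w = pt z p q s t ∧
      dt (F w - z) q = s * dt p q ∧ dt p (F w - z) = t * dt p q := by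
    intro w
    by_cases hw : w ∈ box3 l
    · obtain ⟨s, t, h1, h2, h3⟩ := mean_solve hd (hF1 w hw).1 (hF1 w hw).2
      refine ⟨s, t, fun _ => ⟨?_, h1, h2⟩⟩
      have h4 : F w = z + (F w - z) := by abel
      rw [h4, h3]
      unfold pt
      ext
      · simp only [Prod.fst_add]
        ring
      · simp only [Prod.snd_add]
        ring
    · exact ⟨0, 0, fun h => absurd h hw⟩
  choose s t hst using hcoord
  -- the three parts
  let B1 := (box3 l).filter (fun w => w.2.1 ∈ meanE l δ)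
  let B2 := (box3 l).filter (fun w => w.2.2 ∈ meanE l δ)
  let B3 := (box3 l).filter (fun w => ((0 ≤ s w ∧ s w < L) ∧ (0 ≤ t w ∧ t w < L)) ∧ F w ∉ S)
  have hsub : box3 l ⊆ ((box3 l).filter (fun w => F w ∈ S)) ∪ (B1 ∪ (B2 ∪ B3)) := by
    intro w hw
    obtain ⟨-, h2, h3⟩ := mean_mem.1 hw
    obtain ⟨h4, h5, h6⟩ := hst w hw
    obtain ⟨h7, h8⟩ := hF4 w hw
    rw [Finset.mem_union, Finset.mem_union, Finset.mem_union, Finset.mem_filter]
    by_cases h9 : F w ∈ S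
    · exact Or.inl ⟨hw, h9⟩
    right
    by_cases h10 : 0 ≤ s w ∧ s w < L
    · by_cases h11 : 0 ≤ t w ∧ t w < L
      · exact Or.inr (Or.inr (Finset.mem_filter.2 ⟨hw, ⟨h10, h11⟩, h9⟩))
      · refine Or.inr (Or.inl (Finset.mem_filter.2 ⟨hw, ?_⟩))
        rw [h6] at h8
        exact mean_edge hθ hδ hδ1 hL1 hL2 hd h3 h8 h11
    · refine Or.inl (Finset.mem_filter.2 ⟨hw, ?_⟩)
      rw [h5] at h7
      exact mean_edge hθ hδ hδ1 hL1 hL2 hd h2 h7 h10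
  have hcard : (l : ℝ) ^ 3 ≤ dens l (fun w => F w ∈ S) + ((B1.card : ℝ) + (B2.card + B3.card)) := by
    have h1 : (box3 l).card ≤ ((box3 l).filter (fun w => F w ∈ S)).card +
        (B1.card + (B2.card + B3.card)) := by
      refine (Finset.card_le_card hsub).trans ((Finset.card_union_le _ _).trans ?_)
      refine Nat.add_le_add_left ((Finset.card_union_le _ _).trans ?_) _
      exact Nat.add_le_add_left (Finset.card_union_le _ _) _
    rw [mean_card] at h1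
    have h2 : dens l (fun w => F w ∈ S) = ((box3 l).filter (fun w => F w ∈ S)).card := rfl
    rw [h2]
    exact_mod_cast h1
  have hI : (Finset.Ico 0 (l : ℤ)).card = l := by
    rw [Int.card_Ico, sub_zero, Int.toNat_natCast]
  have hEc := meanE_card (l := l) hδ hδ1
  have hB1 : (B1.card : ℝ) ≤ (2 * δ * l + 2) * (l : ℝ) ^ 2 := by
    have h1 : B1 ⊆ Finset.Ico 0 (l : ℤ) ×ˢ (meanE l δ ×ˢ Finset.Ico 0 (l : ℤ)) := by
      intro w hw
      obtain ⟨h2, h3⟩ := Finset.mem_filter.1 hw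
      obtain ⟨h4, h5, h6⟩ := mean_mem.1 h2
      rw [Finset.mem_product, Finset.mem_product, Finset.mem_Ico, Finset.mem_Ico]
      exact ⟨h4, h3, h6⟩
    have h2 := Finset.card_le_card h1
    rw [Finset.card_product, Finset.card_product, hI] at h2
    have h3 : (B1.card : ℝ) ≤ l * ((meanE l δ).card * l) := by exact_mod_cast h2
    have h4 : (l : ℝ) * ((meanE l δ).card * l) ≤ l * ((2 * δ * l + 2) * l) := by gcongr
    linarith [h4]
  have hB2 : (B2.card : ℝ) ≤ (2 * δ * l + 2) * (l : ℝ) ^ 2 := by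
    have h1 : B2 ⊆ Finset.Ico 0 (l : ℤ) ×ˢ (Finset.Ico 0 (l : ℤ) ×ˢ meanE l δ) := by
      intro w hw
      obtain ⟨h2, h3⟩ := Finset.mem_filter.1 hw
      obtain ⟨h4, h5, h6⟩ := mean_mem.1 h2
      rw [Finset.mem_product, Finset.mem_product, Finset.mem_Ico, Finset.mem_Ico]
      exact ⟨h4, h5, h3⟩
    have h2 := Finset.card_le_card h1
    rw [Finset.card_product, Finset.card_product, hI] at h2
    have h3 : (B2.card : ℝ) ≤ l * (l * (meanE l δ).card) := by exact_mod_cast h2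
    have h4 : (l : ℝ) * (l * (meanE l δ).card) ≤ l * (l * (2 * δ * l + 2)) := by gcongr
    linarith [h4]
  -- the box
  let T := (Finset.range L ×ˢ Finset.range L).filter
    (fun v : ℕ × ℕ => pt z p q (v.1 : ℤ) (v.2 : ℤ) ∈ {y : ℤ × ℤ | (D : ℤ) ∣ y.2} ∧
      pt z p q (v.1 : ℤ) (v.2 : ℤ) ∉ S)
  have hT : (T.card : ℝ) ≤ (L : ℝ) ^ 2 / D + 2 * L + D - μ * ((L : ℝ) ^ 2 / D) := by
    have h1 : T.card + cnt (S ∩ {y | (D : ℤ) ∣ y.2}) z p q L ≤
        cnt {y | (D : ℤ) ∣ y.2} z p q L := by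
      rw [← meanT_card, ← meanT_card, ← Finset.card_union_of_disjoint]
      · apply Finset.card_le_card
        intro v hv
        rw [Finset.mem_union, Finset.mem_filter, mem_meanT] at hv
        rw [mem_meanT]
        rcases hv with h | h
        · exact ⟨h.1, h.2.1⟩
        · exact ⟨h.1, h.2.2⟩
      · rw [Finset.disjoint_left]
        intro v hv hv2
        rw [Finset.mem_filter] at hv
        rw [mem_meanT] at hv2
        exact hv.2.2 hv2.2.1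
    have h2 : (T.card : ℝ) + cnt (S ∩ {y | (D : ℤ) ∣ y.2}) z p q L ≤
        cnt {y | (D : ℤ) ∣ y.2} z p q L := by exact_mod_cast h1
    linarith
  have hB3 : (B3.card : ℝ) ≤ ((L : ℝ) ^ 2 / D + 2 * L + D - μ * ((L : ℝ) ^ 2 / D)) *
      (l / κ.1 + 1) := by
    have h1 : ∀ w ∈ B3, ((s w).toNat, (t w).toNat) ∈ T := by
      intro w hw
      obtain ⟨h2, ⟨⟨h3, h4⟩, h5, h6⟩, h7⟩ := Finset.mem_filter.1 hw
      obtain ⟨h8, -, -⟩ := hst w h2
      have h9 : (((s w).toNat : ℕ) : ℤ) = s w := Int.toNat_of_nonneg h3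
      have h10 : (((t w).toNat : ℕ) : ℤ) = t w := Int.toNat_of_nonneg h5
      rw [Finset.mem_filter, Finset.mem_product, Finset.mem_range, Finset.mem_range]
      refine ⟨⟨by omega, by omega⟩, ?_, ?_⟩
      · show pt z p q (((s w).toNat : ℕ) : ℤ) (((t w).toNat : ℕ) : ℤ) ∈ {y : ℤ × ℤ | (D : ℤ) ∣ y.2}
        rw [h9, h10, ← h8]
        exact hF2 w h2
      · show pt z p q (((s w).toNat : ℕ) : ℤ) (((t w).toNat : ℕ) : ℤ) ∉ S
        rw [h9, h10, ← h8]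
        exact h7
    have h2 : ∀ v ∈ T, ((B3.filter (fun w => ((s w).toNat, (t w).toNat) = v)).card : ℝ) ≤
        (l : ℝ) / κ.1 + 1 := by
      intro v hv
      apply mean_fib hκ1
      · intro w hw
        exact (Finset.mem_filter.1 (Finset.mem_filter.1 hw).1).1
      · intro w hw w' hw'
        obtain ⟨a1, a2⟩ := Finset.mem_filter.1 hw
        obtain ⟨b1, b2⟩ := Finset.mem_filter.1 hw'
        obtain ⟨c1, ⟨⟨c2, -⟩, c3, -⟩, -⟩ := Finset.mem_filter.1 a1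
        obtain ⟨d1, ⟨⟨d2, -⟩, d3, -⟩, -⟩ := Finset.mem_filter.1 b1
        apply hF3 w c1 w' d1
        have e1 : (s w).toNat = (s w').toNat := by
          have := congrArg Prod.fst (a2.trans b2.symm)
          exact this
        have e2 : (t w).toNat = (t w').toNat := by
          have := congrArg Prod.snd (a2.trans b2.symm)
          exact this
        have e3 : s w = s w' := by omega
        have e4 : t w = t w' := by omega
        rw [(hst w c1).1, (hst w' d1).1, e3, e4]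
    have h3 : (B3.card : ℝ) = ∑ v ∈ T,
        ((B3.filter (fun w => ((s w).toNat, (t w).toNat) = v)).card : ℝ) := by
      rw [Finset.card_eq_sum_card_fiberwise (f := fun w => ((s w).toNat, (t w).toNat)) (t := T) h1]
      push_cast
      rfl
    rw [h3]
    calc _ ≤ ∑ v ∈ T, ((l : ℝ) / κ.1 + 1) := Finset.sum_le_sum h2
      _ = T.card * ((l : ℝ) / κ.1 + 1) := by rw [Finset.sum_const, nsmul_eq_mul]
      _ ≤ _ := mul_le_mul_of_nonneg_right hT (by positivity)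
  have hB3' := hB3.trans (mean_num (D := D) (l := l) hD hl1 hθ hδ hδ1 (Nat.cast_nonneg L) hL2.le
    hμ hμ1 hκ)
  have hl2' := mul_le_mul_of_nonneg_right hl2 (show 0 ≤ (l : ℝ) ^ 2 by positivity)
  unfold meanC at hl2'
  have hμδ : 0 ≤ μ * (δ * (l : ℝ) ^ 3) := by positivity
  have hδl : 0 ≤ δ * (l : ℝ) ^ 3 := by positivity
  have hl2 : 0 ≤ (l : ℝ) ^ 2 := by positivity
  linarith

end Pool.Agent.CUB

end

section

namespace Pool.Agent.CUB

open Polynomial Pool.Agent.CF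

/-- an integer congruent to `a` modulo `N` close to `b / X` -/
theorem famA_aux1 {N X : ℕ} (hN : 0 < N) (hX : 0 < X) (a b : ℤ) :
    ∃ k : ℤ, (N : ℤ) ∣ k - a ∧ |(X : ℝ) * k - b| ≤ N * X := by
  have hNX : (0 : ℤ) < (N : ℤ) * X := by positivity
  refine ⟨a + N * ((b - X * a) / (N * X)), ⟨(b - X * a) / (N * X), by ring⟩, ?_⟩
  have h1 := Int.emod_nonneg (b - X * a) hNX.ne'
  have h2 := Int.emod_lt_of_pos (b - X * a) hNX
  have h3 := Int.emod_add_mul_ediv (b - X * a) (N * X)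
  have h4 : (X : ℤ) * (a + N * ((b - X * a) / (N * X))) - b = -((b - X * a) % (N * X)) := by
    linear_combination h3
  have h5 : (X : ℝ) * ((a + N * ((b - X * a) / (N * X)) : ℤ) : ℝ) - b =
      -(((b - X * a) % (N * X) : ℤ) : ℝ) := by
    exact_mod_cast h4
  rw [h5, abs_neg, abs_of_nonneg (by exact_mod_cast h1)]
  exact_mod_cast h2.le

/-- Cramer's rule with absolute values -/
theorem famA_aux2 {p q z : ℤ × ℤ} (hd : dt p q ≠ 0) {B : ℝ}
    (h1 : |(dt z q : ℝ)| ≤ B) (h2 : |(dt p z : ℝ)| ≤ B) :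
    |(z.1 : ℝ)| ≤ B * (|(p.1 : ℝ)| + |(q.1 : ℝ)|) ∧
      |(z.2 : ℝ)| ≤ B * (|(p.2 : ℝ)| + |(q.2 : ℝ)|) := by
  have hd1 : (1 : ℝ) ≤ |(dt p q : ℝ)| := by
    have : (1 : ℤ) ≤ |dt p q| := Int.one_le_abs hd
    exact_mod_cast this
  have e1 : (z.1 : ℝ) * dt p q = dt z q * p.1 + dt p z * q.1 := by
    simp only [dt]; push_cast; ring
  have e2 : (z.2 : ℝ) * dt p q = dt z q * p.2 + dt p z * q.2 := by
    simp only [dt]; push_cast; ring
  constructor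
  · calc |(z.1 : ℝ)| ≤ |(z.1 : ℝ)| * |(dt p q : ℝ)| := le_mul_of_one_le_right (abs_nonneg _) hd1
      _ = |(dt z q : ℝ) * p.1 + dt p z * q.1| := by rw [← abs_mul, e1]
      _ ≤ |(dt z q : ℝ)| * |(p.1 : ℝ)| + |(dt p z : ℝ)| * |(q.1 : ℝ)| := by
          rw [← abs_mul, ← abs_mul]; exact abs_add_le _ _
      _ ≤ B * |(p.1 : ℝ)| + B * |(q.1 : ℝ)| := by gcongr
      _ = _ := by ring
  · calc |(z.2 : ℝ)| ≤ |(z.2 : ℝ)| * |(dt p q : ℝ)| := le_mul_of_one_le_right (abs_nonneg _) hd1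
      _ = |(dt z q : ℝ) * p.2 + dt p z * q.2| := by rw [← abs_mul, e2]
      _ ≤ |(dt z q : ℝ)| * |(p.2 : ℝ)| + |(dt p z : ℝ)| * |(q.2 : ℝ)| := by
          rw [← abs_mul, ← abs_mul]; exact abs_add_le _ _
      _ ≤ B * |(p.2 : ℝ)| + B * |(q.2 : ℝ)| := by gcongr
      _ = _ := by ring

/-- the size of the parameter -/
theorem famA_aux3 {X l L N : ℕ} {K W c a s t P Q : ℝ} (hK : 0 < K) (hW : 0 ≤ W) (hX : 0 < X)
    (hl : 1 ≤ l) (hNl : N ≤ l) (hL : L < X * (l + 1)) {k : ℝ} (hk : |(X : ℝ) * k - (a + c)| ≤ N * X)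
    (hc : |c| ≤ X * l) (ha : |a| ≤ K * L * W) (hs0 : 0 ≤ s) (hs : s ≤ l) (ht0 : 0 ≤ t) (ht : t ≤ l)
    (hPQ : |P| + |Q| ≤ W) :
    |k + (s * P + t * Q)| ≤ ((2 * K + 1) * W + 3) * l := by
  have hXr : (0 : ℝ) < X := by exact_mod_cast hX
  have hlr : (1 : ℝ) ≤ l := by exact_mod_cast hl
  have hNr : (N : ℝ) ≤ l := by exact_mod_cast hNl
  have hLr : (L : ℝ) ≤ X * (l + 1) := by exact_mod_cast hL.le
  have h1 : |(X : ℝ) * k| ≤ N * X + K * L * W + X * l := by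
    have e : (X : ℝ) * k = (X * k - (a + c)) + (a + c) := by ring
    rw [e]
    refine (abs_add_le _ _).trans ?_
    have := abs_add_le a c
    linarith
  rw [abs_mul, abs_of_pos hXr] at h1
  have h2 : K * L * W ≤ X * (2 * K * W * l) := by
    have : K * L * W ≤ K * (X * (l + 1)) * W := by gcongr
    have h3 : K * (X * ((l : ℝ) + 1)) * W ≤ K * (X * (2 * l)) * W := by
      gcongr
      linarith
    calc K * L * W ≤ _ := this
      _ ≤ _ := h3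
      _ = _ := by ring
  have h3 : (N : ℝ) * X ≤ X * l := by
    rw [mul_comm]
    gcongr
  have h4 : (X : ℝ) * |k| ≤ X * ((2 * K * W + 2) * l) := by
    have : (X : ℝ) * ((2 * K * W + 2) * l) = X * l + X * (2 * K * W * l) + X * l := by ring
    rw [this]
    linarith
  have h5 : |k| ≤ (2 * K * W + 2) * l := le_of_mul_le_mul_left h4 hXr
  have h6 : |s * P + t * Q| ≤ W * l := by
    calc |s * P + t * Q| ≤ |s * P| + |t * Q| := abs_add_le _ _
      _ = s * |P| + t * |Q| := by rw [abs_mul, abs_mul, abs_of_nonneg hs0, abs_of_nonneg ht0]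
      _ ≤ l * |P| + l * |Q| := by gcongr
      _ = (|P| + |Q|) * l := by ring
      _ ≤ W * l := by gcongr
  calc |k + (s * P + t * Q)| ≤ |k| + |s * P + t * Q| := abs_add_le _ _
    _ ≤ (2 * K * W + 2) * l + W * l := by linarith
    _ ≤ ((2 * K + 1) * W + 3) * l := by nlinarith

/-- (FAMA) the `a`-family fills the box -/
theorem famA (p q : ℤ × ℤ) (hd : dt p q ≠ 0) (K : ℝ) (hK : 0 < K) : ∃ Ku : ℝ, 0 < Ku ∧
    ∀ (N : ℕ), (N : ℤ) = |dt p q| → ∀ (I : ℤ) (Ca τ : ℕ) (δ : ℝ), 0 < δ →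
      ∃ X₀ : ℕ, ∀ X : ℕ, X₀ ≤ X → ∃ l₀ : ℕ, ∀ l : ℕ, l₀ ≤ l → ∀ L : ℕ,
        X * l ≤ L → L < X * (l + 1) → ∀ z : ℤ × ℤ,
        |(dt z q : ℝ)| ≤ K * L → |(dt p z : ℝ)| ≤ K * L → ∃ u₀ : ℤ × ℤ,
          (∀ w ∈ box3 l, |((u₀ + pt 0 p q w.2.1 w.2.2).1 : ℝ)| ≤ Ku * l ∧
            |((u₀ + pt 0 p q w.2.1 w.2.2).2 : ℝ)| ≤ Ku * l) ∧
          ∀ T : ℤ, |T - X| ≤ τ → (N : ℤ) ∣ T - 1 → ∀ w ∈ box3 l, ∀ F : ℤ × ℤ,
            F = vl T N (N * I) (Ca * l) u₀ + fam p q T N (N * I) w →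
            dt p q ∣ dt (F - z) q ∧ dt p q ∣ dt p (F - z) ∧
              |(dt (F - z) q : ℝ) - X * w.2.1 * dt p q| ≤ δ * L ∧
              |(dt p (F - z) : ℝ) - X * w.2.2 * dt p q| ≤ δ * L := by
  set W : ℝ := |(p.1 : ℝ)| + |(p.2 : ℝ)| + |(q.1 : ℝ)| + |(q.2 : ℝ)| with hWdef
  have hp1 := abs_nonneg (p.1 : ℝ)
  have hp2 := abs_nonneg (p.2 : ℝ)
  have hq1 := abs_nonneg (q.1 : ℝ)
  have hq2 := abs_nonneg (q.2 : ℝ)
  have hW : 0 ≤ W := by positivity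
  refine ⟨(2 * K + 1) * W + 3, by positivity, ?_⟩
  set Ku : ℝ := (2 * K + 1) * W + 3 with hKu
  have hKu0 : 0 < Ku := by positivity
  intro N hN I Ca τ δ hδ
  have hN0 : 0 < N := by
    have : (0 : ℤ) < |dt p q| := abs_pos.mpr hd
    rw [← hN] at this
    exact_mod_cast this
  have hNd : ∀ y : ℤ, (N : ℤ) ∣ y → dt p q ∣ y := by
    intro y hy
    rwa [hN, abs_dvd] at hy
  set A : ℝ := τ * Ku + N + N * |(I : ℝ)| * Ku with hA
  have hA0 : 0 ≤ A := by positivity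
  refine ⟨N * Ca + 1 + ⌈2 * (W + 1) * A / δ⌉₊, fun X hX => ?_⟩
  refine ⟨N + 1 + ⌈2 * (W + 1) * N / δ⌉₊, fun l hl L hL1 hL2 z hz1 hz2 => ?_⟩
  have hX0 : 0 < X := by omega
  have hXr : (0 : ℝ) < X := by exact_mod_cast hX0
  have hl1 : 1 ≤ l := by omega
  have hlr : (1 : ℝ) ≤ l := by exact_mod_cast hl1
  have hNl : N ≤ l := by omega
  have hXC : (N : ℝ) * Ca ≤ X := by
    have : N * Ca ≤ X := by omega
    exact_mod_cast this
  have hXA : (W + 1) * A ≤ δ / 2 * X := by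
    have h1 : (⌈2 * (W + 1) * A / δ⌉₊ : ℝ) ≤ X := by
      have : ⌈2 * (W + 1) * A / δ⌉₊ ≤ X := by omega
      exact_mod_cast this
    have h2 := (Nat.le_ceil (2 * (W + 1) * A / δ)).trans h1
    rw [div_le_iff₀ hδ] at h2
    linarith
  have hlA : (W + 1) * N ≤ δ / 2 * l := by
    have h1 : (⌈2 * (W + 1) * N / δ⌉₊ : ℝ) ≤ l := by
      have : ⌈2 * (W + 1) * N / δ⌉₊ ≤ l := by omega
      exact_mod_cast this
    have h2 := (Nat.le_ceil (2 * (W + 1) * N / δ)).trans h1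
    rw [div_le_iff₀ hδ] at h2
    linarith
  have hL1r : (X : ℝ) * l ≤ L := by exact_mod_cast hL1
  have hfin : (W + 1) * (N * X + A * l) ≤ δ * L := by
    have h1 : (W + 1) * N * X ≤ δ / 2 * l * X := by gcongr
    have h2 : (W + 1) * A * l ≤ δ / 2 * X * l := by gcongr
    have h3 : δ * (X * l) ≤ δ * L := by gcongr
    calc (W + 1) * (N * X + A * l) = (W + 1) * N * X + (W + 1) * A * l := by ring
      _ ≤ δ / 2 * l * X + δ / 2 * X * l := add_le_add h1 h2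
      _ = δ * (X * l) := by ring
      _ ≤ δ * L := h3
  have hKL : 0 ≤ K * L := by positivity
  obtain ⟨hzb1, hzb2⟩ := famA_aux2 hd hz1 hz2
  have hzb1' : |(z.1 : ℝ)| ≤ K * L * W := hzb1.trans (by gcongr; rw [hWdef]; linarith)
  have hzb2' : |(z.2 : ℝ)| ≤ K * L * W := hzb2.trans (by gcongr; rw [hWdef]; linarith)
  obtain ⟨k₁, hk1, hk1'⟩ := famA_aux1 hN0 hX0 z.1 (z.1 + N * Ca * l)
  obtain ⟨k₂, hk2, hk2'⟩ := famA_aux1 hN0 hX0 z.2 (z.2 + 0)
  push_cast at hk1' hk2'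
  have hc1 : |(N : ℝ) * Ca * l| ≤ X * l := by
    rw [abs_of_nonneg (by positivity)]
    gcongr
  have hc2 : |(0 : ℝ)| ≤ X * l := by
    rw [abs_zero]
    positivity
  -- the size of `u`
  have hu : ∀ w ∈ box3 l, |(((k₁, k₂) + pt 0 p q w.2.1 w.2.2).1 : ℝ)| ≤ Ku * l ∧
      |(((k₁, k₂) + pt 0 p q w.2.1 w.2.2).2 : ℝ)| ≤ Ku * l := by
    intro w hw
    simp only [box3, Finset.mem_product, Finset.mem_Ico] at hw
    obtain ⟨-, ⟨hs0, hs⟩, ht0, ht⟩ := hw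
    have hs0' : (0 : ℝ) ≤ w.2.1 := by exact_mod_cast hs0
    have hs' : (w.2.1 : ℝ) ≤ l := by exact_mod_cast hs.le
    have ht0' : (0 : ℝ) ≤ w.2.2 := by exact_mod_cast ht0
    have ht' : (w.2.2 : ℝ) ≤ l := by exact_mod_cast ht.le
    have e1 : (((k₁, k₂) + pt 0 p q w.2.1 w.2.2).1 : ℝ) =
        (k₁ : ℝ) + (w.2.1 * p.1 + w.2.2 * q.1) := by
      simp [pt]
    have e2 : (((k₁, k₂) + pt 0 p q w.2.1 w.2.2).2 : ℝ) =
        (k₂ : ℝ) + (w.2.1 * p.2 + w.2.2 * q.2) := by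
      simp [pt]
    rw [e1, e2]
    exact ⟨famA_aux3 hK hW hX0 hl1 hNl hL2 hk1' hc1 hzb1' hs0' hs' ht0' ht' (by
        rw [hWdef]; linarith),
      famA_aux3 hK hW hX0 hl1 hNl hL2 hk2' hc2 hzb2' hs0' hs' ht0' ht' (by
        rw [hWdef]; linarith)⟩
  refine ⟨(k₁, k₂), hu, ?_⟩
  intro T hT hNT w hw F hF
  obtain ⟨hu1, hu2⟩ := hu w hw
  simp only [box3, Finset.mem_product, Finset.mem_Ico] at hw
  obtain ⟨⟨hn0, hn⟩, -, -⟩ := hw
  have hn0' : (0 : ℝ) ≤ w.1 := by exact_mod_cast hn0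
  have hn' : (w.1 : ℝ) ≤ l := by exact_mod_cast hn.le
  set U₁ : ℤ := ((k₁, k₂) + pt 0 p q w.2.1 w.2.2).1 with hU1
  set U₂ : ℤ := ((k₁, k₂) + pt 0 p q w.2.1 w.2.2).2 with hU2
  have hU1' : U₁ = k₁ + (w.2.1 * p.1 + w.2.2 * q.1) := by
    simp [hU1, pt]
  have hU2' : U₂ = k₂ + (w.2.1 * p.2 + w.2.2 * q.2) := by
    simp [hU2, pt]
  have hF1 : F.1 = T * U₁ - N * (Ca * l + w.1) := by
    rw [hF, hU1']
    change (T * k₁ - N * (Ca * l)) + (T * (0 + w.2.1 * p.1 + w.2.2 * q.1) - N * w.1) = _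
    ring
  have hF2 : F.2 = T * U₂ - N * I * U₁ := by
    rw [hF, hU1', hU2']
    change (T * k₂ - N * I * k₁) + (T * (0 + w.2.1 * p.2 + w.2.2 * q.2) -
      N * I * (0 + w.2.1 * p.1 + w.2.2 * q.1)) = _
    ring
  obtain ⟨m, hm⟩ := hNT
  obtain ⟨a₁, ha1⟩ := hk1
  obtain ⟨a₂, ha2⟩ := hk2
  have hTm : T = 1 + N * m := by linear_combination hm
  have hka : k₁ = z.1 + N * a₁ := by linear_combination ha1
  have hkb : k₂ = z.2 + N * a₂ := by linear_combination ha2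
  have g1 : F.1 - z.1 = (w.2.1 * p.1 + w.2.2 * q.1) +
      N * (m * U₁ + a₁ - (Ca * l + w.1)) := by
    rw [hF1, hTm]
    linear_combination hU1' + hka
  have g2 : F.2 - z.2 = (w.2.1 * p.2 + w.2.2 * q.2) + N * (m * U₂ + a₂ - I * U₁) := by
    rw [hF2, hTm]
    linear_combination hU2' + hkb
  have hfst : (F - z).1 = F.1 - z.1 := rfl
  have hsnd : (F - z).2 = F.2 - z.2 := rfl
  have hTr : |(T : ℝ) - X| ≤ τ := by exact_mod_cast hT
  -- the two errors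
  have herr1 : |((F.1 : ℝ) - z.1) - X * (w.2.1 * p.1 + w.2.2 * q.1)| ≤ N * X + A * l := by
    have e : ((F.1 : ℝ) - z.1) - X * (w.2.1 * p.1 + w.2.2 * q.1) =
        (X * k₁ - (z.1 + N * Ca * l)) + ((T - X) * U₁ - N * w.1) := by
      rw [hF1, hU1']
      push_cast
      ring
    rw [e]
    have h1 : |((T : ℝ) - X) * U₁| ≤ τ * (Ku * l) := by
      rw [abs_mul]
      gcongr
    have h2 : |(N : ℝ) * w.1| ≤ N * l := by
      rw [abs_mul, abs_of_nonneg hn0', abs_of_nonneg (by positivity)]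
      gcongr
    have h3 : |((T : ℝ) - X) * U₁ - N * w.1| ≤ τ * (Ku * l) + N * l :=
      (abs_sub _ _).trans (by linarith)
    have h4 : 0 ≤ N * |(I : ℝ)| * Ku * l := by positivity
    refine (abs_add_le _ _).trans ?_
    rw [hA]
    linarith
  have herr2 : |((F.2 : ℝ) - z.2) - X * (w.2.1 * p.2 + w.2.2 * q.2)| ≤ N * X + A * l := by
    have e : ((F.2 : ℝ) - z.2) - X * (w.2.1 * p.2 + w.2.2 * q.2) =
        (X * k₂ - (z.2 + 0)) + ((T - X) * U₂ - N * I * U₁) := by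
      rw [hF2, hU2']
      push_cast
      ring
    rw [e]
    have h1 : |((T : ℝ) - X) * U₂| ≤ τ * (Ku * l) := by
      rw [abs_mul]
      gcongr
    have h2 : |(N : ℝ) * I * U₁| ≤ N * |(I : ℝ)| * (Ku * l) := by
      rw [abs_mul, abs_mul, abs_of_nonneg (by positivity : (0 : ℝ) ≤ N)]
      gcongr
    have h3 : |((T : ℝ) - X) * U₂ - N * I * U₁| ≤ τ * (Ku * l) + N * |(I : ℝ)| * (Ku * l) :=
      (abs_sub _ _).trans (by linarith)
    have h4 : (0 : ℝ) ≤ N * l := by positivity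
    refine (abs_add_le _ _).trans ?_
    rw [hA]
    linarith
  set E₁ : ℝ := ((F.1 : ℝ) - z.1) - X * (w.2.1 * p.1 + w.2.2 * q.1) with hE1
  set E₂ : ℝ := ((F.2 : ℝ) - z.2) - X * (w.2.1 * p.2 + w.2.2 * q.2) with hE2
  have hB0 : (0 : ℝ) ≤ N * X + A * l := by positivity
  refine ⟨hNd _ ?_, hNd _ ?_, ?_, ?_⟩
  · have h1 : dt (F - z) q = w.2.1 * dt p q +
        N * ((m * U₁ + a₁ - (Ca * l + w.1)) * q.2 - (m * U₂ + a₂ - I * U₁) * q.1) := by
      simp only [dt, hfst, hsnd]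
      linear_combination q.2 * g1 - q.1 * g2
    rw [h1]
    refine dvd_add (Dvd.dvd.mul_left ?_ _) (dvd_mul_right _ _)
    rw [hN]
    exact (abs_dvd _ _).mpr dvd_rfl
  · have h1 : dt p (F - z) = w.2.2 * dt p q +
        N * (p.1 * (m * U₂ + a₂ - I * U₁) - p.2 * (m * U₁ + a₁ - (Ca * l + w.1))) := by
      simp only [dt, hfst, hsnd]
      linear_combination p.1 * g2 - p.2 * g1
    rw [h1]
    refine dvd_add (Dvd.dvd.mul_left ?_ _) (dvd_mul_right _ _)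
    rw [hN]
    exact (abs_dvd _ _).mpr dvd_rfl
  · have e : (dt (F - z) q : ℝ) - X * w.2.1 * dt p q = E₁ * q.2 - E₂ * q.1 := by
      simp only [dt, hfst, hsnd, hE1, hE2]
      push_cast
      ring
    rw [e]
    calc |E₁ * q.2 - E₂ * q.1| ≤ |E₁ * q.2| + |E₂ * q.1| := abs_sub _ _
      _ = |E₁| * |(q.2 : ℝ)| + |E₂| * |(q.1 : ℝ)| := by rw [abs_mul, abs_mul]
      _ ≤ (N * X + A * l) * |(q.2 : ℝ)| + (N * X + A * l) * |(q.1 : ℝ)| := by gcongr
      _ = (|(q.2 : ℝ)| + |(q.1 : ℝ)|) * (N * X + A * l) := by ring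
      _ ≤ (W + 1) * (N * X + A * l) :=
          mul_le_mul_of_nonneg_right (by rw [hWdef]; linarith) hB0
      _ ≤ δ * L := hfin
  · have e : (dt p (F - z) : ℝ) - X * w.2.2 * dt p q = p.1 * E₂ - p.2 * E₁ := by
      simp only [dt, hfst, hsnd, hE1, hE2]
      push_cast
      ring
    rw [e]
    calc |p.1 * E₂ - p.2 * E₁| ≤ |p.1 * E₂| + |p.2 * E₁| := abs_sub _ _
      _ = |(p.1 : ℝ)| * |E₂| + |(p.2 : ℝ)| * |E₁| := by rw [abs_mul, abs_mul]
      _ ≤ |(p.1 : ℝ)| * (N * X + A * l) + |(p.2 : ℝ)| * (N * X + A * l) := by gcongr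
      _ = (|(p.1 : ℝ)| + |(p.2 : ℝ)|) * (N * X + A * l) := by ring
      _ ≤ (W + 1) * (N * X + A * l) :=
          mul_le_mul_of_nonneg_right (by rw [hWdef]; linarith) hB0
      _ ≤ δ * L := hfin

end Pool.Agent.CUB

end

section

namespace Pool.Agent.CUB

open Polynomial Pool.Agent.CF

/-- an integer in a residue class near a given rational number -/
theorem famc_round (N X : ℤ) (hN : 0 < N) (hX : 0 < X) (z M : ℤ) :
    ∃ u : ℤ, N ∣ u - z ∧ |X * u - M| ≤ N * X := by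
  have hNX : 0 < N * X := mul_pos hN hX
  refine ⟨z + N * ((M - X * z) / (N * X)), ⟨(M - X * z) / (N * X), by ring⟩, ?_⟩
  have h1 := Int.emod_add_mul_ediv (M - X * z) (N * X)
  have h2 := Int.emod_nonneg (M - X * z) hNX.ne'
  have h3 := Int.emod_lt_of_pos (M - X * z) hNX
  have h4 : X * (z + N * ((M - X * z) / (N * X))) - M = -((M - X * z) % (N * X)) := by
    linarith [h1, show X * (z + N * ((M - X * z) / (N * X))) =
      X * z + N * X * ((M - X * z) / (N * X)) by ring]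
  rw [h4, abs_neg, abs_of_nonneg h2]
  exact h3.le

theorem famc_div (A L N X : ℝ) (hX : 0 < X) : A * L / X + N = (A * L + N * X) / X := by
  rw [add_div, mul_div_assoc N X X, div_self hX.ne', mul_one]

/-- the estimate for one linear form -/
theorem famc_core {X p₁ D L l n S u1 u2 z1 z2 r1 r2 t τ N P I d a b F1 F2 v1 v2 W U K δ : ℝ}
    (hX : 0 < X) (hp : 0 < p₁) (hD : 1 ≤ D) (hL : 0 ≤ L) (hN : 0 ≤ N) (hP : 0 ≤ P) (hW : 0 ≤ W)
    (hδ : 0 < δ)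
    (h1 : D * F1 = D * t * u1 - N * P * (L + n)) (h2 : D * F2 = D * t * u2 - N * I * u1)
    (h3 : X * (u1 - v1) = p₁ * z1 + N * P * L + r1) (h4 : X * (u2 - v2) = p₁ * z2 + r2)
    (hv : a * v1 + b * v2 = S * d) (ha : |a| ≤ W) (hb : |b| ≤ W) (hu1 : |u1| ≤ U) (hu2 : |u2| ≤ U)
    (hr1 : |r1| ≤ N * X) (hr2 : |r2| ≤ N * X) (ht : |D * t - X| ≤ τ)
    (hz : |a * z1 + b * z2| ≤ K * L) (hn : |n| ≤ l) (hS : |S| ≤ l) (hl : X * l ≤ p₁ * L)
    (hpD : |p₁ - D| * (4 * (K + |d|)) ≤ δ * D)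
    (hrest : 2 * τ * W * U + 2 * W * N * X + W * N * P * l + W * N * |I| * U ≤ δ / 2 * L) :
    |(a * (F1 - z1) + b * (F2 - z2)) - X / p₁ * S * d| ≤ δ * L := by
  have hD0 : 0 < D := by linarith
  have key : D * ((a * (F1 - z1) + b * (F2 - z2)) - X / p₁ * S * d) =
      (D * t - X) * (a * u1 + b * u2) + (p₁ - D) * (a * z1 + b * z2) + (a * r1 + b * r2) -
      a * (N * P * n) - b * (N * I * u1) + (p₁ - D) * (X * S / p₁ * d) := by
    have h5 : X * S * d = p₁ * (X * S / p₁ * d) := by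
      field_simp
    have h6 : X / p₁ * S * d = X * S / p₁ * d := by
      ring
    rw [h6]
    linear_combination a * h1 + b * h2 + a * h3 + b * h4 + X * hv + h5
  have b1 : |(D * t - X) * (a * u1 + b * u2)| ≤ τ * (W * U + W * U) := by
    rw [abs_mul]
    have h5 : |a * u1 + b * u2| ≤ W * U + W * U := by
      refine (abs_add_le _ _).trans ?_
      rw [abs_mul, abs_mul]
      gcongr
    have h6 : 0 ≤ τ := (abs_nonneg _).trans ht
    gcongr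
  have b2 : |(p₁ - D) * (a * z1 + b * z2)| ≤ |p₁ - D| * (K * L) := by
    rw [abs_mul]
    gcongr
  have b3 : |a * r1 + b * r2| ≤ W * (N * X) + W * (N * X) := by
    refine (abs_add_le _ _).trans ?_
    rw [abs_mul, abs_mul]
    gcongr
  have b4 : |a * (N * P * n)| ≤ W * (N * P * l) := by
    rw [abs_mul, abs_mul, abs_of_nonneg (mul_nonneg hN hP)]
    gcongr
  have b5 : |b * (N * I * u1)| ≤ W * (N * |I| * U) := by
    rw [abs_mul, abs_mul, abs_mul, abs_of_nonneg hN]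
    gcongr
  have b6 : |(p₁ - D) * (X * S / p₁ * d)| ≤ |p₁ - D| * (L * |d|) := by
    rw [abs_mul, abs_mul, abs_div, abs_mul, abs_of_pos hX, abs_of_pos hp]
    have h5 : X * |S| / p₁ ≤ L := by
      rw [div_le_iff₀ hp]
      calc X * |S| ≤ X * l := by gcongr
        _ ≤ p₁ * L := hl
        _ = L * p₁ := mul_comm _ _
    gcongr
  have hsum : |D * ((a * (F1 - z1) + b * (F2 - z2)) - X / p₁ * S * d)| ≤
      τ * (W * U + W * U) + |p₁ - D| * (K * L) + (W * (N * X) + W * (N * X)) +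
      W * (N * P * l) + W * (N * |I| * U) + |p₁ - D| * (L * |d|) := by
    rw [key]
    refine (abs_add_le _ _).trans (add_le_add ?_ b6)
    refine (abs_sub _ _).trans (add_le_add ?_ b5)
    refine (abs_sub _ _).trans (add_le_add ?_ b4)
    refine (abs_add_le _ _).trans (add_le_add ?_ b3)
    exact (abs_add_le _ _).trans (add_le_add b1 b2)
  rw [abs_mul, abs_of_pos hD0] at hsum
  have h7 : |p₁ - D| * (K * L) + |p₁ - D| * (L * |d|) ≤ δ / 4 * D * L := by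
    have h8 : |p₁ - D| * (K + |d|) ≤ δ / 4 * D := by linarith
    calc |p₁ - D| * (K * L) + |p₁ - D| * (L * |d|) = |p₁ - D| * (K + |d|) * L := by ring
      _ ≤ δ / 4 * D * L := by gcongr
  have h9 : δ / 2 * L ≤ δ / 2 * L * D := by
    have h10 : 0 ≤ δ / 2 * L := by positivity
    calc δ / 2 * L = δ / 2 * L * 1 := by ring
      _ ≤ δ / 2 * L * D := by gcongr
  have h11 : 0 ≤ δ / 4 * L * D := by positivity
  have h12 : D * |(a * (F1 - z1) + b * (F2 - z2)) - X / p₁ * S * d| ≤ D * (δ * L) := by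
    linarith
  exact le_of_mul_le_mul_left h12 hD0

/-- (FAMC) the `c`-family fills the box -/
theorem famC (p q : ℤ × ℤ) (hd : dt p q ≠ 0) (K : ℝ) (hK : 0 < K) (N : ℕ)
    (hN : (N : ℤ) = |dt p q|) (I : ℤ) (P p₁ τ : ℕ) (hp₁ : 0 < p₁) {δ ε : ℝ} (hδ : 0 < δ)
    (hε : 0 < ε) : ∃ X₀ : ℕ, ∀ X : ℕ, X₀ ≤ X → ∃ l₀ : ℕ, ∀ l : ℕ, l₀ ≤ l → ∀ L : ℕ,
      X * l ≤ p₁ * L → p₁ * L < X * (l + 1) → ∀ z : ℤ × ℤ,
      |(dt z q : ℝ)| ≤ K * L → |(dt p z : ℝ)| ≤ K * L → ∃ u₀ : ℤ × ℤ,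
        (∀ w ∈ box3 l, |((u₀ + pt 0 p q w.2.1 w.2.2).1 : ℝ)| ≤ ε * L ∧
          |((u₀ + pt 0 p q w.2.1 w.2.2).2 : ℝ)| ≤ ε * L) ∧
        ∀ (D P' : ℕ) (I' t : ℤ), 0 < D → P = D * P' → I = D * I' → |D * t - X| ≤ τ →
          (N : ℤ) ∣ t - 1 → |(p₁ : ℝ) - D| * (4 * (K + |(dt p q : ℝ)|)) ≤ δ * D →
          ∀ w ∈ box3 l, ∀ F : ℤ × ℤ,
            F = vl t (N * P') (N * I') L u₀ + fam p q t (N * P') (N * I') w →
            dt p q ∣ dt (F - z) q ∧ dt p q ∣ dt p (F - z) ∧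
              |(dt (F - z) q : ℝ) - X / p₁ * w.2.1 * dt p q| ≤ δ * L ∧
              |(dt p (F - z) : ℝ) - X / p₁ * w.2.2 * dt p q| ≤ δ * L := by
  obtain ⟨W, hWd⟩ : ∃ W : ℝ, W = |(p.1 : ℝ)| + |(p.2 : ℝ)| + |(q.1 : ℝ)| + |(q.2 : ℝ)| :=
    ⟨_, rfl⟩
  have hW : 0 ≤ W := by
    rw [hWd]
    positivity
  have hp1W : |(p.1 : ℝ)| ≤ W := by
    have h1 := abs_nonneg (p.2 : ℝ)
    have h2 := abs_nonneg (q.1 : ℝ)
    have h3 := abs_nonneg (q.2 : ℝ)
    linarith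
  have hp2W : |(p.2 : ℝ)| ≤ W := by
    have h1 := abs_nonneg (p.1 : ℝ)
    have h2 := abs_nonneg (q.1 : ℝ)
    have h3 := abs_nonneg (q.2 : ℝ)
    linarith
  have hq1W : |(q.1 : ℝ)| ≤ W := by
    have h1 := abs_nonneg (p.1 : ℝ)
    have h2 := abs_nonneg (p.2 : ℝ)
    have h3 := abs_nonneg (q.2 : ℝ)
    linarith
  have hq2W : |(q.2 : ℝ)| ≤ W := by
    have h1 := abs_nonneg (p.1 : ℝ)
    have h2 := abs_nonneg (p.2 : ℝ)
    have h3 := abs_nonneg (q.1 : ℝ)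
    linarith
  have hpq1 : |(p.1 : ℝ)| + |(q.1 : ℝ)| ≤ W := by
    have h1 := abs_nonneg (p.2 : ℝ)
    have h3 := abs_nonneg (q.2 : ℝ)
    linarith
  have hpq2 : |(p.2 : ℝ)| + |(q.2 : ℝ)| ≤ W := by
    have h1 := abs_nonneg (p.1 : ℝ)
    have h3 := abs_nonneg (q.1 : ℝ)
    linarith
  obtain ⟨C₁, hC₁⟩ : ∃ C₁ : ℝ, C₁ = p₁ * K * W + N * P + p₁ * W := ⟨_, rfl⟩
  have hC₁0 : 0 ≤ C₁ := by
    rw [hC₁]
    positivity
  obtain ⟨C₂, hC₂⟩ : ∃ C₂ : ℝ, C₂ = 2 * τ * W * C₁ + W * N * P * p₁ + W * N * |(I : ℝ)| * C₁ :=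
    ⟨_, rfl⟩
  have hp₁R : (0 : ℝ) < p₁ := by exact_mod_cast hp₁
  have hN0 : (0 : ℤ) < N := by
    rw [hN]
    exact abs_pos.mpr hd
  have hd1 : (1 : ℝ) ≤ |(dt p q : ℝ)| := by
    have h1 : (1 : ℤ) ≤ |dt p q| := by
      have h2 := abs_pos.mpr hd
      omega
    exact_mod_cast h1
  refine ⟨p₁ + 1 + ⌈2 * C₁ / ε⌉₊ + ⌈4 * C₂ / δ⌉₊, ?_⟩
  intro X hX
  have hXR : ((p₁ + 1 + ⌈2 * C₁ / ε⌉₊ + ⌈4 * C₂ / δ⌉₊ : ℕ) : ℝ) ≤ X := by exact_mod_cast hX
  push_cast at hXR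
  have hc1 := Nat.le_ceil (2 * C₁ / ε)
  have hc2 := Nat.le_ceil (4 * C₂ / δ)
  have hc1' : (0 : ℝ) ≤ (⌈2 * C₁ / ε⌉₊ : ℝ) := Nat.cast_nonneg _
  have hc2' : (0 : ℝ) ≤ (⌈4 * C₂ / δ⌉₊ : ℝ) := Nat.cast_nonneg _
  have hX0 : (0 : ℝ) < X := by linarith
  have hXp : (p₁ : ℝ) ≤ X := by linarith
  have hX1 : C₁ ≤ ε / 2 * X := by
    have h1 : 2 * C₁ / ε ≤ X := by linarith
    rw [div_le_iff₀ hε] at h1
    linarith
  have hX2 : C₂ ≤ δ / 4 * X := by
    have h1 : 4 * C₂ / δ ≤ X := by linarith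
    rw [div_le_iff₀ hδ] at h1
    linarith
  obtain ⟨C₃, hC₃⟩ : ∃ C₃ : ℝ, C₃ = 2 * τ * W * N + 2 * W * N * X + W * N * |(I : ℝ)| * N :=
    ⟨_, rfl⟩
  refine ⟨⌈2 * N / ε⌉₊ + ⌈4 * C₃ / δ⌉₊, ?_⟩
  intro l hl L hlL _ z hz1 hz2
  have hlR : ((⌈2 * N / ε⌉₊ + ⌈4 * C₃ / δ⌉₊ : ℕ) : ℝ) ≤ l := by exact_mod_cast hl
  push_cast at hlR
  have hlL' : (X : ℝ) * l ≤ p₁ * L := by exact_mod_cast hlL
  have hlL2 : (l : ℝ) ≤ L := by
    have h1 : (p₁ : ℝ) * l ≤ p₁ * L := by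
      calc (p₁ : ℝ) * l ≤ X * l := by gcongr
        _ ≤ p₁ * L := hlL'
    exact le_of_mul_le_mul_left h1 hp₁R
  have hL0 : (0 : ℝ) ≤ L := Nat.cast_nonneg _
  have hl0 : (0 : ℝ) ≤ l := Nat.cast_nonneg _
  have hL1 : (N : ℝ) ≤ ε / 2 * L := by
    have h0 := Nat.le_ceil (2 * (N : ℝ) / ε)
    have h2 : (0 : ℝ) ≤ (⌈4 * C₃ / δ⌉₊ : ℝ) := Nat.cast_nonneg _
    have h1 : 2 * (N : ℝ) / ε ≤ L := by linarith
    rw [div_le_iff₀ hε] at h1
    linarith
  have hL2 : C₃ ≤ δ / 4 * L := by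
    have h0 := Nat.le_ceil (4 * C₃ / δ)
    have h2 : (0 : ℝ) ≤ (⌈2 * (N : ℝ) / ε⌉₊ : ℝ) := Nat.cast_nonneg _
    have h1 : 4 * C₃ / δ ≤ L := by linarith
    rw [div_le_iff₀ hδ] at h1
    linarith
  have hll : (l : ℝ) ≤ p₁ * L / X := by
    rw [le_div_iff₀ hX0]
    linarith
  -- bounds for `z`
  have hz1' : |(z.1 : ℝ)| ≤ K * L * W := by
    have h1 : (dt p q : ℝ) * z.1 = dt z q * p.1 + dt p z * q.1 := by
      unfold dt
      push_cast
      ring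
    calc |(z.1 : ℝ)| = 1 * |(z.1 : ℝ)| := (one_mul _).symm
      _ ≤ |(dt p q : ℝ)| * |(z.1 : ℝ)| := by gcongr
      _ = |(dt z q : ℝ) * p.1 + dt p z * q.1| := by rw [← abs_mul, h1]
      _ ≤ |(dt z q : ℝ)| * |(p.1 : ℝ)| + |(dt p z : ℝ)| * |(q.1 : ℝ)| := by
        rw [← abs_mul, ← abs_mul]
        exact abs_add_le _ _
      _ ≤ K * L * |(p.1 : ℝ)| + K * L * |(q.1 : ℝ)| := by gcongr
      _ = K * L * (|(p.1 : ℝ)| + |(q.1 : ℝ)|) := by ring
      _ ≤ K * L * W := by gcongr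
  have hz2' : |(z.2 : ℝ)| ≤ K * L * W := by
    have h1 : (dt p q : ℝ) * z.2 = dt z q * p.2 + dt p z * q.2 := by
      unfold dt
      push_cast
      ring
    calc |(z.2 : ℝ)| = 1 * |(z.2 : ℝ)| := (one_mul _).symm
      _ ≤ |(dt p q : ℝ)| * |(z.2 : ℝ)| := by gcongr
      _ = |(dt z q : ℝ) * p.2 + dt p z * q.2| := by rw [← abs_mul, h1]
      _ ≤ |(dt z q : ℝ)| * |(p.2 : ℝ)| + |(dt p z : ℝ)| * |(q.2 : ℝ)| := by
        rw [← abs_mul, ← abs_mul]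
        exact abs_add_le _ _
      _ ≤ K * L * |(p.2 : ℝ)| + K * L * |(q.2 : ℝ)| := by gcongr
      _ = K * L * (|(p.2 : ℝ)| + |(q.2 : ℝ)|) := by ring
      _ ≤ K * L * W := by gcongr
  have hXi : (0 : ℤ) < X := by exact_mod_cast hX0
  obtain ⟨x1, ⟨e1, he1⟩, hx1⟩ := famc_round N X hN0 hXi z.1 (p₁ * z.1 + N * P * L)
  obtain ⟨x2, ⟨e2, he2⟩, hx2⟩ := famc_round N X hN0 hXi z.2 (p₁ * z.2)
  have hx1' : |(X : ℝ) * x1 - (p₁ * z.1 + N * P * L)| ≤ N * X := by exact_mod_cast hx1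
  have hx2' : |(X : ℝ) * x2 - (p₁ * z.2)| ≤ N * X := by exact_mod_cast hx2
  obtain ⟨U, hUd⟩ : ∃ U : ℝ, U = C₁ * L / X + N := ⟨_, rfl⟩
  have hUε : U ≤ ε * L := by
    have h1 : C₁ * L / X ≤ ε / 2 * L := by
      rw [div_le_iff₀ hX0]
      calc C₁ * L ≤ ε / 2 * X * L := by gcongr
        _ = ε / 2 * L * X := by ring
    linarith
  have hx1b : |(x1 : ℝ)| ≤ (p₁ * K * W + N * P) * L / X + N := by
    have h1 : |(X : ℝ) * x1| ≤ (p₁ * K * W + N * P) * L + N * X := by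
      have h2 : (X : ℝ) * x1 = ((X : ℝ) * x1 - (p₁ * z.1 + N * P * L)) +
        (p₁ * z.1 + N * P * L) := by ring
      rw [h2]
      refine (abs_add_le _ _).trans ?_
      have h3 : |(p₁ : ℝ) * z.1 + N * P * L| ≤ p₁ * (K * L * W) + N * P * L := by
        refine (abs_add_le _ _).trans ?_
        rw [abs_mul, abs_of_pos hp₁R, abs_of_nonneg (a := (N : ℝ) * P * L) (by positivity)]
        gcongr
      linarith
    rw [abs_mul, abs_of_pos hX0] at h1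
    rw [famc_div _ _ _ _ hX0, le_div_iff₀ hX0]
    linarith
  have hx2b : |(x2 : ℝ)| ≤ (p₁ * K * W + N * P) * L / X + N := by
    have h1 : |(X : ℝ) * x2| ≤ (p₁ * K * W + N * P) * L + N * X := by
      have h2 : (X : ℝ) * x2 = ((X : ℝ) * x2 - (p₁ * z.2)) + (p₁ * z.2) := by ring
      rw [h2]
      refine (abs_add_le _ _).trans ?_
      have h3 : |(p₁ : ℝ) * z.2| ≤ p₁ * (K * L * W) := by
        rw [abs_mul, abs_of_pos hp₁R]
        gcongr
      have h4 : (0 : ℝ) ≤ N * P * L := by positivity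
      linarith
    rw [abs_mul, abs_of_pos hX0] at h1
    rw [famc_div _ _ _ _ hX0, le_div_iff₀ hX0]
    linarith
  -- bounds for the points
  have hvb : ∀ s t : ℤ, 0 ≤ s → s < l → 0 ≤ t → t < l → ∀ a b : ℤ,
      |(a : ℝ)| + |(b : ℝ)| ≤ W → |(s : ℝ) * a + t * b| ≤ p₁ * W * L / X := by
    intro s t hs0 hs1 ht0 ht1 a b hab
    have h1 : (0 : ℝ) ≤ s := by exact_mod_cast hs0
    have h2 : (s : ℝ) ≤ l := by exact_mod_cast hs1.le
    have h3 : (0 : ℝ) ≤ t := by exact_mod_cast ht0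
    have h4 : (t : ℝ) ≤ l := by exact_mod_cast ht1.le
    calc |(s : ℝ) * a + t * b| ≤ |(s : ℝ) * a| + |(t : ℝ) * b| := abs_add_le _ _
      _ = s * |(a : ℝ)| + t * |(b : ℝ)| := by
        rw [abs_mul, abs_mul, abs_of_nonneg h1, abs_of_nonneg h3]
      _ ≤ l * |(a : ℝ)| + l * |(b : ℝ)| := by gcongr
      _ = l * (|(a : ℝ)| + |(b : ℝ)|) := by ring
      _ ≤ (p₁ * L / X) * W := by gcongr
      _ = p₁ * W * L / X := by ring
  have hub : ∀ w ∈ box3 l, |((((x1, x2) : ℤ × ℤ) + pt 0 p q w.2.1 w.2.2).1 : ℝ)| ≤ U ∧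
      |((((x1, x2) : ℤ × ℤ) + pt 0 p q w.2.1 w.2.2).2 : ℝ)| ≤ U := by
    intro w hw
    simp only [box3, Finset.mem_product, Finset.mem_Ico] at hw
    obtain ⟨_, hs, ht⟩ := hw
    have h1 := hvb w.2.1 w.2.2 hs.1 hs.2 ht.1 ht.2 p.1 q.1 hpq1
    have h2 := hvb w.2.1 w.2.2 hs.1 hs.2 ht.1 ht.2 p.2 q.2 hpq2
    have h3 : C₁ * L / X + N = ((p₁ * K * W + N * P) * L / X + N) + p₁ * W * L / X := by
      rw [hC₁]
      ring
    constructor
    · have h4 : ((((x1, x2) : ℤ × ℤ) + pt 0 p q w.2.1 w.2.2).1 : ℝ) =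
          x1 + ((w.2.1 : ℝ) * p.1 + w.2.2 * q.1) := by
        simp [pt]
      rw [h4, hUd, h3]
      exact (abs_add_le _ _).trans (add_le_add hx1b h1)
    · have h4 : ((((x1, x2) : ℤ × ℤ) + pt 0 p q w.2.1 w.2.2).2 : ℝ) =
          x2 + ((w.2.1 : ℝ) * p.2 + w.2.2 * q.2) := by
        simp [pt]
      rw [h4, hUd, h3]
      exact (abs_add_le _ _).trans (add_le_add hx2b h2)
  refine ⟨(x1, x2), fun w hw => ⟨(hub w hw).1.trans hUε, (hub w hw).2.trans hUε⟩, ?_⟩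
  intro D P' I' t hD hPD hID ht hNt hpD w hw F hF
  have hu := hub w hw
  simp only [box3, Finset.mem_product, Finset.mem_Ico] at hw
  obtain ⟨hn, hs, ht'⟩ := hw
  have hF1 : F.1 = t * x1 - N * P' * L + (t * (w.2.1 * p.1 + w.2.2 * q.1) - N * P' * w.1) := by
    rw [hF]
    simp [vl, fam, pt]
  have hF2 : F.2 = t * x2 - N * I' * x1 +
      (t * (w.2.1 * p.2 + w.2.2 * q.2) - N * I' * (w.2.1 * p.1 + w.2.2 * q.1)) := by
    rw [hF]
    simp [vl, fam, pt]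
  obtain ⟨k, hk⟩ := hNt
  have hdN : dt p q ∣ (N : ℤ) := by
    rw [hN]
    exact (dvd_abs _ _).mpr dvd_rfl
  have hx1e : x1 = z.1 + N * e1 := by linarith
  have hx2e : x2 = z.2 + N * e2 := by linarith
  have htk : t = 1 + N * k := by linarith
  have hA1 : F.1 - z.1 = w.2.1 * p.1 + w.2.2 * q.1 + N * (e1 + k * x1 - P' * L +
      k * (w.2.1 * p.1 + w.2.2 * q.1) - P' * w.1) := by
    rw [hF1, hx1e, htk]
    ring
  have hA2 : F.2 - z.2 = w.2.1 * p.2 + w.2.2 * q.2 + N * (e2 + k * x2 - I' * x1 +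
      k * (w.2.1 * p.2 + w.2.2 * q.2) - I' * (w.2.1 * p.1 + w.2.2 * q.1)) := by
    rw [hF2, hx2e, htk]
    ring
  refine ⟨?_, ?_, ?_, ?_⟩
  · have h1 : dt (F - z) q = dt p q * w.2.1 + N * ((e1 + k * x1 - P' * L +
        k * (w.2.1 * p.1 + w.2.2 * q.1) - P' * w.1) * q.2 - (e2 + k * x2 - I' * x1 +
        k * (w.2.1 * p.2 + w.2.2 * q.2) - I' * (w.2.1 * p.1 + w.2.2 * q.1)) * q.1) := by
      unfold dt
      rw [Prod.fst_sub, Prod.snd_sub, hA1, hA2]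
      ring
    rw [h1]
    exact dvd_add (dvd_mul_right _ _) (hdN.mul_right _)
  · have h1 : dt p (F - z) = dt p q * w.2.2 + N * (p.1 * (e2 + k * x2 - I' * x1 +
        k * (w.2.1 * p.2 + w.2.2 * q.2) - I' * (w.2.1 * p.1 + w.2.2 * q.1)) -
        p.2 * (e1 + k * x1 - P' * L + k * (w.2.1 * p.1 + w.2.2 * q.1) - P' * w.1)) := by
      unfold dt
      rw [Prod.fst_sub, Prod.snd_sub, hA1, hA2]
      ring
    rw [h1]
    exact dvd_add (dvd_mul_right _ _) (hdN.mul_right _)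
  all_goals
    have hDR : (1 : ℝ) ≤ D := by exact_mod_cast hD
    have hPR : (P : ℝ) = D * P' := by exact_mod_cast hPD
    have hIR : (I : ℝ) = D * I' := by exact_mod_cast hID
    have htR : |(D : ℝ) * t - X| ≤ τ := by exact_mod_cast ht
    have hnR : |(w.1 : ℝ)| ≤ l := by
      have h1 : (0 : ℝ) ≤ w.1 := by exact_mod_cast hn.1
      rw [abs_of_nonneg h1]
      exact_mod_cast hn.2.le
    have hsR : |(w.2.1 : ℝ)| ≤ l := by
      have h1 : (0 : ℝ) ≤ w.2.1 := by exact_mod_cast hs.1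
      rw [abs_of_nonneg h1]
      exact_mod_cast hs.2.le
    have htR' : |(w.2.2 : ℝ)| ≤ l := by
      have h1 : (0 : ℝ) ≤ w.2.2 := by exact_mod_cast ht'.1
      rw [abs_of_nonneg h1]
      exact_mod_cast ht'.2.le
    have hu1 : |(x1 : ℝ) + ((w.2.1 : ℝ) * p.1 + w.2.2 * q.1)| ≤ U := by
      have h1 := hu.1
      have h4 : ((((x1, x2) : ℤ × ℤ) + pt 0 p q w.2.1 w.2.2).1 : ℝ) =
          x1 + ((w.2.1 : ℝ) * p.1 + w.2.2 * q.1) := by
        simp [pt]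
      rwa [h4] at h1
    have hu2 : |(x2 : ℝ) + ((w.2.1 : ℝ) * p.2 + w.2.2 * q.2)| ≤ U := by
      have h1 := hu.2
      have h4 : ((((x1, x2) : ℤ × ℤ) + pt 0 p q w.2.1 w.2.2).2 : ℝ) =
          x2 + ((w.2.1 : ℝ) * p.2 + w.2.2 * q.2) := by
        simp [pt]
      rwa [h4] at h1
    have g1 : (D : ℝ) * F.1 = D * t * (x1 + ((w.2.1 : ℝ) * p.1 + w.2.2 * q.1)) -
        N * P * (L + w.1) := by
      rw [hF1, hPR]
      push_cast
      ring
    have g2 : (D : ℝ) * F.2 = D * t * (x2 + ((w.2.1 : ℝ) * p.2 + w.2.2 * q.2)) -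
        N * I * (x1 + ((w.2.1 : ℝ) * p.1 + w.2.2 * q.1)) := by
      rw [hF2, hIR]
      push_cast
      ring
    have g3 : (X : ℝ) * ((x1 + ((w.2.1 : ℝ) * p.1 + w.2.2 * q.1)) -
        ((w.2.1 : ℝ) * p.1 + w.2.2 * q.1)) = p₁ * z.1 + N * P * L +
        (X * x1 - (p₁ * z.1 + N * P * L)) := by ring
    have g4 : (X : ℝ) * ((x2 + ((w.2.1 : ℝ) * p.2 + w.2.2 * q.2)) -
        ((w.2.1 : ℝ) * p.2 + w.2.2 * q.2)) = p₁ * z.2 + (X * x2 - p₁ * z.2) := by ring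
    have hrest : 2 * (τ : ℝ) * W * U + 2 * W * N * X + W * N * P * l +
        W * N * |(I : ℝ)| * U ≤ δ / 2 * L := by
      have h1 : 2 * (τ : ℝ) * W * U + 2 * W * N * X + W * N * P * l + W * N * |(I : ℝ)| * U ≤
          C₂ * L / X + C₃ := by
        calc 2 * (τ : ℝ) * W * U + 2 * W * N * X + W * N * P * l + W * N * |(I : ℝ)| * U
            ≤ 2 * (τ : ℝ) * W * U + 2 * W * N * X + W * N * P * (p₁ * L / X) +
              W * N * |(I : ℝ)| * U := by gcongr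
          _ = C₂ * L / X + C₃ := by
            rw [hC₂, hC₃, hUd]
            ring
      have h2 : C₂ * L / X ≤ δ / 4 * L := by
        rw [div_le_iff₀ hX0]
        calc C₂ * L ≤ δ / 4 * X * L := by gcongr
          _ = δ / 4 * L * X := by ring
      linarith
  · have hmain := famc_core (a := (q.2 : ℝ)) (b := -(q.1 : ℝ)) (S := (w.2.1 : ℝ))
      (d := (dt p q : ℝ)) hX0 hp₁R hDR hL0 (Nat.cast_nonneg N) (Nat.cast_nonneg P) hW hδ g1 g2
      g3 g4 (by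
        unfold dt
        push_cast
        ring) hq2W (by rw [abs_neg]; exact hq1W) hu1 hu2 hx1' hx2' htR (by
        have h1 : (q.2 : ℝ) * z.1 + -(q.1 : ℝ) * z.2 = dt z q := by
          unfold dt
          push_cast
          ring
        rw [h1]
        exact hz1) hnR hsR hlL' hpD hrest
    have h1 : (q.2 : ℝ) * (F.1 - z.1) + -(q.1 : ℝ) * (F.2 - z.2) = dt (F - z) q := by
      unfold dt
      rw [Prod.fst_sub, Prod.snd_sub]
      push_cast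
      ring
    rw [h1] at hmain
    exact hmain
  · have hmain := famc_core (a := -(p.2 : ℝ)) (b := (p.1 : ℝ)) (S := (w.2.2 : ℝ))
      (d := (dt p q : ℝ)) hX0 hp₁R hDR hL0 (Nat.cast_nonneg N) (Nat.cast_nonneg P) hW hδ g1 g2
      g3 g4 (by
        unfold dt
        push_cast
        ring) (by rw [abs_neg]; exact hp2W) hp1W hu1 hu2 hx1' hx2' htR (by
        have h1 : -(p.2 : ℝ) * z.1 + (p.1 : ℝ) * z.2 = dt p z := by
          unfold dt
          push_cast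
          ring
        rw [h1]
        exact hz2) hnR htR' hlL' hpD hrest
    have h1 : -(p.2 : ℝ) * (F.1 - z.1) + (p.1 : ℝ) * (F.2 - z.2) = dt p (F - z) := by
      unfold dt
      rw [Prod.fst_sub, Prod.snd_sub]
      push_cast
      ring
    rw [h1] at hmain
    exact hmain

end Pool.Agent.CUB

end

section

namespace Pool.Agent.CUB

open Polynomial Pool.Agent.CF

open Matrix

/-- the nine quantities which have to be positive, in normalised real variables: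
`A` = scaled `a`, `E` = scaled `c`, `y = 1 / x`, `y' = 1 / x'`, `v` = fixed vector -/
def PosAll (v A A1 E E1 : Fin 3 → ℝ) (y y' : ℝ) : Prop :=
  0 < DD A A1 E E1 ∧
  0 < G1 A A1 E E1 + y * G2 A A1 E E1 ∧ 0 < H1 A A1 E E1 + y' * H2 A A1 E E1 ∧
  0 < G1 A A1 E E1 + y' * G2 A A1 E E1 ∧ 0 < H1 A A1 E E1 + y * H2 A A1 E E1 ∧
  0 < br A v * (et1 A A1 E - y * et0 A A1 E1) ∧ 0 < br A v * (-xi1 A E E1 + y' * xi0 A1 E E1) ∧
  0 < br A v * (et1 A A1 E - y' * et0 A A1 E1) ∧ 0 < br A v * (-xi1 A E E1 + y * xi0 A1 E E1)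

theorem pos_open (V : Matrix (Fin 3) (Fin 3) ℝ) (v e : Fin 3 → ℝ) :
    IsOpen {w : (Fin 3 → ℝ) × ((Fin 3 → ℝ) × ℝ × ℝ) |
      PosAll v w.1 (V *ᵥ w.1) (e + w.2.1) (V *ᵥ (e + w.2.1)) w.2.2.1 w.2.2.2} := by
  unfold PosAll DD G1 G2 H1 H2 et0 et1 xi0 xi1 th d3 br
  simp only [Matrix.mulVec, dotProduct, Fin.sum_univ_three, Pi.add_apply]
  simp only [Set.ofPred_and]
  refine IsOpen.inter ?_ (IsOpen.inter ?_ (IsOpen.inter ?_ (IsOpen.inter ?_ (IsOpen.inter ?_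
    (IsOpen.inter ?_ (IsOpen.inter ?_ (IsOpen.inter ?_ ?_)))))))
  all_goals
    refine isOpen_lt continuous_const ?_
    fun_prop

theorem pos_compact (V : Matrix (Fin 3) (Fin 3) ℝ) (v : Fin 3 → ℝ) (C κ : ℝ) :
    IsCompact {A : Fin 3 → ℝ | (∀ i, |A i| ≤ C) ∧ κ ≤ br A (V *ᵥ A) * br A v} := by
  have h1 : IsCompact (Set.pi Set.univ (fun _ : Fin 3 => Set.Icc (-C) C)) :=
    isCompact_univ_pi (fun _ => isCompact_Icc)
  refine h1.of_isClosed_subset ?_ ?_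
  · simp only [Set.ofPred_and]
    refine IsClosed.inter ?_ ?_
    · simp only [Set.ofPred_forall]
      refine isClosed_iInter (fun i => ?_)
      refine isClosed_le ?_ continuous_const
      fun_prop
    · refine isClosed_le continuous_const ?_
      unfold br
      simp only [Matrix.mulVec, dotProduct, Fin.sum_univ_three]
      fun_prop
  · rintro A ⟨hA, -⟩
    rw [Set.mem_univ_pi]
    intro i
    exact abs_le.mp (hA i)

theorem pos_limit (V : Matrix (Fin 3) (Fin 3) ℝ) {κ : ℝ} (hκ : 0 < κ) (A : Fin 3 → ℝ)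
    (h : κ ≤ br A (V *ᵥ A) * br A (V *ᵥ Pi.single 0 1)) :
    PosAll (V *ᵥ Pi.single 0 1) A (V *ᵥ A) (Pi.single 0 1) (V *ᵥ Pi.single 0 1) 0 0 := by
  set v := V *ᵥ (Pi.single 0 1 : Fin 3 → ℝ) with hv
  set A1 := V *ᵥ A with hA1
  have h0 : (Pi.single 0 1 : Fin 3 → ℝ) 0 = 1 := by simp
  have h1 : (Pi.single 0 1 : Fin 3 → ℝ) 1 = 0 := by simp
  have h2 : (Pi.single 0 1 : Fin 3 → ℝ) 2 = 0 := by simp
  have hpos : 0 < br A A1 * br A v := lt_of_lt_of_le hκ h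
  have hs : br A v ≠ 0 := by
    intro h0
    rw [h0, mul_zero] at hpos
    exact lt_irrefl _ hpos
  have hs2 : 0 < br A v ^ 2 := by positivity
  have b1 : ∀ y : Fin 3 → ℝ, br (Pi.single 0 1) y = 0 := by
    intro y; unfold br; rw [h1, h2]; ring
  have b2 : ∀ y : Fin 3 → ℝ, br y (Pi.single 0 1) = 0 := by
    intro y; unfold br; rw [h1, h2]; ring
  have b3 : br v A = - br A v := by unfold br; ring
  have eth : th A A1 (Pi.single 0 1) v = br A v := by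
    unfold th; rw [b2]; ring
  have eet : et1 A A1 (Pi.single 0 1) = br A A1 := by
    unfold et1 d3; rw [b1, b1, h0]; ring
  have exi : xi1 A (Pi.single 0 1) v = - br A v := by
    unfold xi1 d3; rw [b1, b1, h0, b3]; ring
  have eD : DD A A1 (Pi.single 0 1) v = br A v ^ 2 := by
    unfold DD; rw [eth, b1]; ring
  have eG : G1 A A1 (Pi.single 0 1) v = br A A1 * br A v := by
    unfold G1; rw [eth, eet, exi]; ring
  have eH : H1 A A1 (Pi.single 0 1) v = br A v ^ 2 := by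
    unfold H1; rw [eth, eet, exi, b1]; ring
  unfold PosAll
  rw [eD, eG, eH, eet, exi]
  simp only [zero_mul, add_zero, sub_zero, neg_neg]
  refine ⟨hs2, hpos, hs2, hpos, hs2, ?_, ?_, ?_, ?_⟩ <;> nlinarith

/-- (POS) positivity of the coefficients, normalised real form -/
theorem pos_real (V : Matrix (Fin 3) (Fin 3) ℝ) (C : ℝ) {κ : ℝ} (hκ : 0 < κ) :
    ∃ ε : ℝ, 0 < ε ∧ ∀ (A d : Fin 3 → ℝ) (y y' : ℝ), (∀ i, |A i| ≤ C) →
      κ ≤ br A (V *ᵥ A) * br A (V *ᵥ Pi.single 0 1) → (∀ i, |d i| ≤ ε) → |y| ≤ ε → |y'| ≤ ε →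
      PosAll (V *ᵥ Pi.single 0 1) A (V *ᵥ A) (Pi.single 0 1 + d) (V *ᵥ (Pi.single 0 1 + d))
        y y' := by
  obtain ⟨U, W, hU, hW, hSU, h0W, hUW⟩ := generalized_tube_lemma
    (pos_compact V (V *ᵥ Pi.single 0 1) C κ)
    (isCompact_singleton (x := ((0, 0, 0) : (Fin 3 → ℝ) × ℝ × ℝ)))
    (pos_open V (V *ᵥ Pi.single 0 1) (Pi.single 0 1)) (by
      rintro ⟨A, w⟩ ⟨hA, hw⟩
      rw [Set.mem_singleton_iff] at hw
      simp only at hw
      subst hw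
      have := pos_limit V hκ A hA.2
      show PosAll _ _ _ _ _ _ _
      simpa using this)
  have hmem : ((0, 0, 0) : (Fin 3 → ℝ) × ℝ × ℝ) ∈ W := h0W rfl
  obtain ⟨ε, hε, hball⟩ := Metric.isOpen_iff.mp hW _ hmem
  refine ⟨ε / 2, by positivity, ?_⟩
  intro A d y y' hA hk hd hy hy'
  have hm : ((d, y, y') : (Fin 3 → ℝ) × ℝ × ℝ) ∈ W := by
    apply hball
    rw [Metric.mem_ball, Prod.dist_eq, Prod.dist_eq]
    simp only [max_lt_iff]
    refine ⟨?_, ?_, ?_⟩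
    · refine lt_of_le_of_lt ((dist_pi_le_iff (by positivity)).mpr ?_) (half_lt_self hε)
      intro i
      rw [Pi.zero_apply, Real.dist_eq, sub_zero]
      exact hd i
    · rw [Real.dist_eq, sub_zero]
      linarith
    · rw [Real.dist_eq, sub_zero]
      linarith
  have : ((A, (d, y, y')) : (Fin 3 → ℝ) × ((Fin 3 → ℝ) × ℝ × ℝ)) ∈ U ×ˢ W :=
    ⟨hSU ⟨hA, hk⟩, hm⟩
  exact hUW this

section scaling

variable (l z : ℝ) (A A1 E E1 : Fin 3 → ℝ) (a a1 c c1 : Fin 3 → ℤ)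

theorem pos_scD : DD (l • A) (l • A1) (z • E) (z • E1) = (l * z) ^ 2 * DD A A1 E E1 := by
  unfold DD th br; simp only [Pi.smul_apply, smul_eq_mul]; ring

theorem pos_scG1 :
    G1 (l • A) (l • A1) (z • E) (z • E1) = (l ^ 3 * z ^ 2) * G1 A A1 E E1 := by
  unfold G1 th et1 xi1 d3 br; simp only [Pi.smul_apply, smul_eq_mul]; ring

theorem pos_scG2 :
    G2 (l • A) (l • A1) (z • E) (z • E1) = (l ^ 3 * z ^ 2) * G2 A A1 E E1 := by
  unfold G2 et0 et1 d3 br; simp only [Pi.smul_apply, smul_eq_mul]; ring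

theorem pos_scH1 :
    H1 (l • A) (l • A1) (z • E) (z • E1) = (l ^ 2 * z ^ 3) * H1 A A1 E E1 := by
  unfold H1 th et1 xi1 d3 br; simp only [Pi.smul_apply, smul_eq_mul]; ring

theorem pos_scH2 :
    H2 (l • A) (l • A1) (z • E) (z • E1) = (l ^ 2 * z ^ 3) * H2 A A1 E E1 := by
  unfold H2 xi0 xi1 d3 br; simp only [Pi.smul_apply, smul_eq_mul]; ring

theorem pos_sc0 : et0 (l • A) (l • A1) (z • E1) = (l ^ 2 * z) * et0 A A1 E1 := by
  unfold et0 d3 br; simp only [Pi.smul_apply, smul_eq_mul]; ring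

theorem pos_sc1 : et1 (l • A) (l • A1) (z • E) = (l ^ 2 * z) * et1 A A1 E := by
  unfold et1 d3 br; simp only [Pi.smul_apply, smul_eq_mul]; ring

theorem pos_scx0 : xi0 (l • A1) (z • E) (z • E1) = (l * z ^ 2) * xi0 A1 E E1 := by
  unfold xi0 d3 br; simp only [Pi.smul_apply, smul_eq_mul]; ring

theorem pos_scx1 : xi1 (l • A) (z • E) (z • E1) = (l * z ^ 2) * xi1 A E E1 := by
  unfold xi1 d3 br; simp only [Pi.smul_apply, smul_eq_mul]; ring

theorem pos_castD : ((DD a a1 c c1 : ℤ) : ℝ) =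
    DD (fun i => (a i : ℝ)) (fun i => (a1 i : ℝ)) (fun i => (c i : ℝ)) (fun i => (c1 i : ℝ)) := by
  unfold DD th br; push_cast; ring

theorem pos_castG1 : ((G1 a a1 c c1 : ℤ) : ℝ) =
    G1 (fun i => (a i : ℝ)) (fun i => (a1 i : ℝ)) (fun i => (c i : ℝ)) (fun i => (c1 i : ℝ)) := by
  unfold G1 th et1 xi1 d3 br; push_cast; ring

theorem pos_castG2 : ((G2 a a1 c c1 : ℤ) : ℝ) =
    G2 (fun i => (a i : ℝ)) (fun i => (a1 i : ℝ)) (fun i => (c i : ℝ)) (fun i => (c1 i : ℝ)) := by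
  unfold G2 et0 et1 d3 br; push_cast; ring

theorem pos_castH1 : ((H1 a a1 c c1 : ℤ) : ℝ) =
    H1 (fun i => (a i : ℝ)) (fun i => (a1 i : ℝ)) (fun i => (c i : ℝ)) (fun i => (c1 i : ℝ)) := by
  unfold H1 th et1 xi1 d3 br; push_cast; ring

theorem pos_castH2 : ((H2 a a1 c c1 : ℤ) : ℝ) =
    H2 (fun i => (a i : ℝ)) (fun i => (a1 i : ℝ)) (fun i => (c i : ℝ)) (fun i => (c1 i : ℝ)) := by
  unfold H2 xi0 xi1 d3 br; push_cast; ring

theorem pos_cast0 : ((et0 a a1 c1 : ℤ) : ℝ) =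
    et0 (fun i => (a i : ℝ)) (fun i => (a1 i : ℝ)) (fun i => (c1 i : ℝ)) := by
  unfold et0 d3 br; push_cast; ring

theorem pos_cast1 : ((et1 a a1 c : ℤ) : ℝ) =
    et1 (fun i => (a i : ℝ)) (fun i => (a1 i : ℝ)) (fun i => (c i : ℝ)) := by
  unfold et1 d3 br; push_cast; ring

theorem pos_castx0 : ((xi0 a1 c c1 : ℤ) : ℝ) =
    xi0 (fun i => (a1 i : ℝ)) (fun i => (c i : ℝ)) (fun i => (c1 i : ℝ)) := by
  unfold xi0 d3 br; push_cast; ring

theorem pos_castx1 : ((xi1 a c c1 : ℤ) : ℝ) =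
    xi1 (fun i => (a i : ℝ)) (fun i => (c i : ℝ)) (fun i => (c1 i : ℝ)) := by
  unfold xi1 d3 br; push_cast; ring

end scaling

open Matrix in
/-- (POS) positivity of the coefficients -/
theorem pos (V : Matrix (Fin 3) (Fin 3) ℤ) {C κ : ℝ} (hC : 0 < C) (hκ : 0 < κ) :
    ∃ ε : ℝ, 0 < ε ∧ ∃ X₀ : ℝ, ∀ l : ℝ, 0 < l → ∀ (a c : Fin 3 → ℤ) (x x' : ℤ),
      (∀ i, |(a i : ℝ)| ≤ C * l) →
      κ * l ^ 3 ≤ ((br a (V *ᵥ a) * br a (V *ᵥ Pi.single 0 1) : ℤ) : ℝ) →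
      0 < c 0 → |(c 1 : ℝ)| ≤ ε * c 0 → |(c 2 : ℝ)| ≤ ε * c 0 → X₀ ≤ x → X₀ ≤ x' →
      0 < DD a (V *ᵥ a) c (V *ᵥ c) ∧ (∀ j, 0 < ff a (V *ᵥ a) c (V *ᵥ c) x x' j) ∧
        ((∀ j, 0 ≤ ee a (V *ᵥ a) c (V *ᵥ c) x x' j) ∨
          (∀ j, ee a (V *ᵥ a) c (V *ᵥ c) x x' j ≤ 0)) := by
  set VR : Matrix (Fin 3) (Fin 3) ℝ := V.map (Int.cast : ℤ → ℝ) with hVR
  obtain ⟨ε, hε, hmain⟩ := pos_real VR C hκ
  refine ⟨ε, hε, 1 / ε, ?_⟩
  intro l hl a c x x' ha hk hc0 hc1 hc2 hx hx'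
  have hc0R : (0 : ℝ) < c 0 := by exact_mod_cast hc0
  have hinv : 0 < 1 / ε := by positivity
  have hxR : (0 : ℝ) < x := lt_of_lt_of_le hinv hx
  have hx'R : (0 : ℝ) < x' := lt_of_lt_of_le hinv hx'
  set A : Fin 3 → ℝ := fun i => (a i : ℝ) / l with hA
  set E : Fin 3 → ℝ := fun i => (c i : ℝ) / (c 0 : ℝ) with hE
  set d : Fin 3 → ℝ := fun i => E i - (Pi.single 0 1 : Fin 3 → ℝ) i with hd
  have hEd : (Pi.single 0 1 : Fin 3 → ℝ) + d = E := by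
    ext i; simp [hd]
  -- relations between the vectors
  have ea : (fun i => (a i : ℝ)) = l • A := by
    ext i; simp [hA]; field_simp
  have ec : (fun i => (c i : ℝ)) = (c 0 : ℝ) • E := by
    ext i; simp [hE]; field_simp
  have emul : ∀ u : Fin 3 → ℤ, (fun i => ((V *ᵥ u) i : ℝ)) = VR *ᵥ (fun i => (u i : ℝ)) := by
    intro u
    ext i
    simp [Matrix.mulVec, dotProduct, Fin.sum_univ_three, hVR]
  have ea1 : (fun i => ((V *ᵥ a) i : ℝ)) = l • (VR *ᵥ A) := by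
    rw [emul, ea, Matrix.mulVec_smul]
  have ec1 : (fun i => ((V *ᵥ c) i : ℝ)) = (c 0 : ℝ) • (VR *ᵥ E) := by
    rw [emul, ec, Matrix.mulVec_smul]
  have ev : (fun i => ((V *ᵥ (Pi.single 0 1 : Fin 3 → ℤ)) i : ℝ)) =
      VR *ᵥ (Pi.single 0 1 : Fin 3 → ℝ) := by
    rw [emul]
    congr 1
    ext i
    by_cases hi : i = 0
    · subst hi; simp
    · simp [Pi.single_eq_of_ne hi]
  have fa : ∀ i, (a i : ℝ) = l * A i := fun i => by
    have := congrFun ea i; simpa using this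
  have fc : ∀ i, (c i : ℝ) = c 0 * E i := fun i => by
    have := congrFun ec i; simpa using this
  have fa1 : ∀ i, ((V *ᵥ a) i : ℝ) = l * (VR *ᵥ A) i := fun i => by
    have := congrFun ea1 i; simpa using this
  have fc1 : ∀ i, ((V *ᵥ c) i : ℝ) = c 0 * (VR *ᵥ E) i := fun i => by
    have := congrFun ec1 i; simpa using this
  have fv : ∀ i, ((V *ᵥ (Pi.single 0 1 : Fin 3 → ℤ)) i : ℝ) =
      (VR *ᵥ (Pi.single 0 1 : Fin 3 → ℝ)) i := fun i => congrFun ev i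
  set v := VR *ᵥ (Pi.single 0 1 : Fin 3 → ℝ) with hv
  set A1 := VR *ᵥ A with hA1
  set E1 := VR *ᵥ E with hE1
  -- application of the real form
  have key := hmain A d (1 / x) (1 / x') (by
      intro i
      simp only [hA]
      rw [abs_div, abs_of_pos hl, div_le_iff₀ hl]
      exact ha i) (by
      have e : ((br a (V *ᵥ a) * br a (V *ᵥ Pi.single 0 1) : ℤ) : ℝ) =
          l ^ 3 * (br A A1 * br A v) := by
        unfold br
        push_cast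
        rw [fa, fa, fa1, fa1, fv, fv]
        ring
      rw [e] at hk
      have h3 : 0 < l ^ 3 := by positivity
      have : l ^ 3 * κ ≤ l ^ 3 * (br A A1 * br A v) := by linarith
      exact le_of_mul_le_mul_left this h3) (by
      intro i
      fin_cases i
      · show |d 0| ≤ ε
        have : d 0 = 0 := by
          simp only [hd, hE]
          rw [div_self hc0R.ne']
          simp
        rw [this, abs_zero]
        exact hε.le
      · show |d 1| ≤ ε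
        have : d 1 = (c 1 : ℝ) / c 0 := by simp [hd, hE]
        rw [this, abs_div, abs_of_pos hc0R, div_le_iff₀ hc0R]
        exact hc1
      · show |d 2| ≤ ε
        have : d 2 = (c 2 : ℝ) / c 0 := by simp [hd, hE]
        rw [this, abs_div, abs_of_pos hc0R, div_le_iff₀ hc0R]
        exact hc2) (by
      rw [abs_of_pos (by positivity), div_le_iff₀ hxR]
      rw [div_le_iff₀ hε] at hx
      linarith) (by
      rw [abs_of_pos (by positivity), div_le_iff₀ hx'R]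
      rw [div_le_iff₀ hε] at hx'
      linarith)
  rw [hEd] at key
  obtain ⟨k1, k2, k3, k4, k5, k6, k7, k8, k9⟩ := key
  have eD : ((DD a (V *ᵥ a) c (V *ᵥ c) : ℤ) : ℝ) = (l * c 0) ^ 2 * DD A A1 E E1 := by
    rw [pos_castD, ea, ea1, ec, ec1, pos_scD]
  have eG1 : ((G1 a (V *ᵥ a) c (V *ᵥ c) : ℤ) : ℝ) = (l ^ 3 * (c 0 : ℝ) ^ 2) * G1 A A1 E E1 := by
    rw [pos_castG1, ea, ea1, ec, ec1, pos_scG1]
  have eG2 : ((G2 a (V *ᵥ a) c (V *ᵥ c) : ℤ) : ℝ) = (l ^ 3 * (c 0 : ℝ) ^ 2) * G2 A A1 E E1 := by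
    rw [pos_castG2, ea, ea1, ec, ec1, pos_scG2]
  have eH1 : ((H1 a (V *ᵥ a) c (V *ᵥ c) : ℤ) : ℝ) = (l ^ 2 * (c 0 : ℝ) ^ 3) * H1 A A1 E E1 := by
    rw [pos_castH1, ea, ea1, ec, ec1, pos_scH1]
  have eH2 : ((H2 a (V *ᵥ a) c (V *ᵥ c) : ℤ) : ℝ) = (l ^ 2 * (c 0 : ℝ) ^ 3) * H2 A A1 E E1 := by
    rw [pos_castH2, ea, ea1, ec, ec1, pos_scH2]
  have ee0 : ((et0 a (V *ᵥ a) (V *ᵥ c) : ℤ) : ℝ) = (l ^ 2 * (c 0 : ℝ)) * et0 A A1 E1 := by
    rw [pos_cast0, ea, ea1, ec1, pos_sc0]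
  have ee1 : ((et1 a (V *ᵥ a) c : ℤ) : ℝ) = (l ^ 2 * (c 0 : ℝ)) * et1 A A1 E := by
    rw [pos_cast1, ea, ea1, ec, pos_sc1]
  have ex0 : ((xi0 (V *ᵥ a) c (V *ᵥ c) : ℤ) : ℝ) = (l * (c 0 : ℝ) ^ 2) * xi0 A1 E E1 := by
    rw [pos_castx0, ea1, ec, ec1, pos_scx0]
  have ex1 : ((xi1 a c (V *ᵥ c) : ℤ) : ℝ) = (l * (c 0 : ℝ) ^ 2) * xi1 A E E1 := by
    rw [pos_castx1, ea, ec, ec1, pos_scx1]
  have hx0 : (x : ℝ) ≠ 0 := hxR.ne'
  have hx'0 : (x' : ℝ) ≠ 0 := hx'R.ne'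
  -- sign lemma
  have hmul : ∀ (t P Q w : ℝ), 0 < w → 0 < t → 0 < P + 1 / t * Q → 0 < w * (t * P + Q) := by
    intro t P Q w hw ht h
    have : t * P + Q = t * (P + 1 / t * Q) := by field_simp
    rw [this]
    positivity
  refine ⟨?_, ?_, ?_⟩
  · have : (0 : ℝ) < ((DD a (V *ᵥ a) c (V *ᵥ c) : ℤ) : ℝ) := by
      rw [eD]; exact mul_pos (by positivity) k1
    exact_mod_cast this
  · have f0 : (0 : ℝ) < ((x * G1 a (V *ᵥ a) c (V *ᵥ c) + G2 a (V *ᵥ a) c (V *ᵥ c) : ℤ) : ℝ) := by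
      push_cast
      rw [eG1, eG2]
      have := hmul x _ _ (l ^ 3 * (c 0 : ℝ) ^ 2) (by positivity) hxR k2
      linarith
    have f1 : (0 : ℝ) < ((x' * H1 a (V *ᵥ a) c (V *ᵥ c) + H2 a (V *ᵥ a) c (V *ᵥ c) : ℤ) : ℝ) := by
      push_cast
      rw [eH1, eH2]
      have := hmul x' _ _ (l ^ 2 * (c 0 : ℝ) ^ 3) (by positivity) hx'R k3
      linarith
    have f2 : (0 : ℝ) < ((x' * G1 a (V *ᵥ a) c (V *ᵥ c) + G2 a (V *ᵥ a) c (V *ᵥ c) : ℤ) : ℝ) := by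
      push_cast
      rw [eG1, eG2]
      have := hmul x' _ _ (l ^ 3 * (c 0 : ℝ) ^ 2) (by positivity) hx'R k4
      linarith
    have f3 : (0 : ℝ) < ((x * H1 a (V *ᵥ a) c (V *ᵥ c) + H2 a (V *ᵥ a) c (V *ᵥ c) : ℤ) : ℝ) := by
      push_cast
      rw [eH1, eH2]
      have := hmul x _ _ (l ^ 2 * (c 0 : ℝ) ^ 3) (by positivity) hxR k5
      linarith
    have i0 := Int.cast_pos.mp f0
    have i1 := Int.cast_pos.mp f1
    have i2 := Int.cast_pos.mp f2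
    have i3 := Int.cast_pos.mp f3
    intro j
    fin_cases j
    · exact i0
    · exact i1
    · exact i2
    · exact i3
  · set s := br A v with hs
    have hneg : ∀ (t P Q w : ℝ), 0 < w → 0 < t → 0 < s * (P - 1 / t * Q) →
        s * (w * Q - t * (w * P)) < 0 := by
      intro t P Q w hw ht h
      have e : s * (w * Q - t * (w * P)) = -(w * t * (s * (P - 1 / t * Q))) := by
        field_simp; ring
      rw [e]
      have : 0 < w * t * (s * (P - 1 / t * Q)) := by positivity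
      linarith
    have hneg2 : ∀ (t P Q w : ℝ), 0 < w → 0 < t → 0 < s * (-P + 1 / t * Q) →
        s * (-(w * Q - t * (w * P))) < 0 := by
      intro t P Q w hw ht h
      have e : s * (-(w * Q - t * (w * P))) = -(w * t * (s * (-P + 1 / t * Q))) := by
        field_simp; ring
      rw [e]
      have : 0 < w * t * (s * (-P + 1 / t * Q)) := by positivity
      linarith
    have g0 : s * ((et0 a (V *ᵥ a) (V *ᵥ c) - x * et1 a (V *ᵥ a) c : ℤ) : ℝ) < 0 := by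
      push_cast
      rw [ee0, ee1]
      exact hneg x _ _ _ (by positivity) hxR k6
    have g1 : s * ((-(xi0 (V *ᵥ a) c (V *ᵥ c) - x' * xi1 a c (V *ᵥ c)) : ℤ) : ℝ) < 0 := by
      push_cast
      rw [ex0, ex1]
      exact hneg2 x' _ _ _ (by positivity) hx'R k7
    have g2 : s * ((et0 a (V *ᵥ a) (V *ᵥ c) - x' * et1 a (V *ᵥ a) c : ℤ) : ℝ) < 0 := by
      push_cast
      rw [ee0, ee1]
      exact hneg x' _ _ _ (by positivity) hx'R k8
    have g3 : s * ((-(xi0 (V *ᵥ a) c (V *ᵥ c) - x * xi1 a c (V *ᵥ c)) : ℤ) : ℝ) < 0 := by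
      push_cast
      rw [ex0, ex1]
      exact hneg2 x _ _ _ (by positivity) hxR k9
    have hall : ∀ j, s * ((ee a (V *ᵥ a) c (V *ᵥ c) x x' j : ℤ) : ℝ) < 0 := by
      intro j
      fin_cases j
      · exact g0
      · exact g1
      · exact g2
      · exact g3
    rcases le_or_gt s 0 with hs0 | hs0
    · left
      intro j
      have h := hall j
      by_contra hcon
      push Not at hcon
      have h2 : ((ee a (V *ᵥ a) c (V *ᵥ c) x x' j : ℤ) : ℝ) < 0 := Int.cast_lt_zero.mpr hcon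
      exact absurd h (not_lt.mpr (mul_nonneg_of_nonpos_of_nonpos hs0 h2.le))
    · right
      intro j
      have h := hall j
      by_contra hcon
      push Not at hcon
      have h2 : (0 : ℝ) < ((ee a (V *ᵥ a) c (V *ᵥ c) x x' j : ℤ) : ℝ) := Int.cast_pos.mpr hcon
      exact absurd h (not_lt.mpr (mul_pos hs0 h2).le)

end Pool.Agent.CUB

end
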