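import Pool.Agent.Lib_helper43.CU.F1
import Pool.Agent.Lib_helper43.CU.F2
import Pool.Agent.Lib_helper43.CU.F3
import Pool.Agent.Lib_helper54.OZ.BEUL
import Pool.Agent.Lib_helper54.OZ.BNZL
import Pool.Agent.Lib_helper54.OZ.BZW
import Pool.Agent.Lib_helper90.PNT.WienerIkehara

/-!
# part 4: non-squares, sublattices and primes
-/

set_option autoImplicit false

section

namespace Pool.Agent.CUB

open Polynomial Pool.Agent.CF

theorem nsq1_aux1 {π : ℕ} [Fact π.Prime] (a : ZMod π) :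
    (Finset.univ.filter (fun z : ZMod π => z ^ 2 = a)).card ≤ 2 := by
  classical
  by_cases h : ∃ z : ZMod π, z ^ 2 = a
  · obtain ⟨z, hz⟩ := h
    have hsub : (Finset.univ.filter (fun z : ZMod π => z ^ 2 = a)) ⊆ {z, -z} := by
      intro y hy
      simp only [Finset.mem_filter, Finset.mem_univ, true_and] at hy
      have h1 : (y - z) * (y + z) = 0 := by linear_combination hy - hz
      rcases mul_eq_zero.mp h1 with h2 | h2
      · have : y = z := by linear_combination h2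
        simp [this]
      · have : y = -z := by linear_combination h2
        simp [this]
    exact (Finset.card_le_card hsub).trans Finset.card_le_two
  · have h0 : (Finset.univ.filter (fun z : ZMod π => z ^ 2 = a)) = ∅ := by
      rw [Finset.filter_eq_empty_iff]
      intro y _ hy
      exact h ⟨y, hy⟩
    rw [h0]
    simp

theorem nsq1_aux2 {π : ℕ} [Fact π.Prime] (h2 : (2 : ZMod π) ≠ 0) (a : ZMod π)
    (ha : IsSquare a) :
    2 ≤ (Finset.univ.filter (fun z : ZMod π => z ^ 2 = a)).card + (if a = 0 then 1 else 0) := by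
  classical
  obtain ⟨z, hz⟩ := ha
  by_cases h0 : a = 0
  · have : 1 ≤ (Finset.univ.filter (fun z : ZMod π => z ^ 2 = a)).card := by
      rw [Nat.succ_le_iff, Finset.card_pos]
      exact ⟨z, by simp [hz, pow_two]⟩
    simp only [h0, if_true] at this ⊢
    omega
  · have hz0 : z ≠ 0 := by
      rintro rfl
      exact h0 (by simpa using hz)
    have hne : z ≠ -z := by
      intro h
      have : 2 * z = 0 := by linear_combination h
      rcases mul_eq_zero.mp this with h | h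
      · exact h2 h
      · exact hz0 h
    have : ({z, -z} : Finset (ZMod π)) ⊆ Finset.univ.filter (fun z : ZMod π => z ^ 2 = a) := by
      intro y hy
      simp only [Finset.mem_insert, Finset.mem_singleton] at hy
      simp only [Finset.mem_filter, Finset.mem_univ, true_and]
      rcases hy with rfl | rfl
      · rw [hz]; ring
      · rw [hz]; ring
    have h3 := Finset.card_le_card this
    rw [Finset.card_pair hne] at h3
    omega

/-- (NSQ1) values of a binary form which are squares -/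
theorem nsq0 {π : ℕ} (hπ : π.Prime) (h5 : 5 ≤ π) {d : ZMod π} (hd : d ≠ 0) :
    2 * {x : ZMod π × ZMod π | IsSquare (x.1 ^ 2 - d * x.2 ^ 2)}.ncard ≤ π ^ 2 + 2 * π := by
  classical
  have : Fact π.Prime := ⟨hπ⟩
  have h2 : (2 : ZMod π) ≠ 0 := by
    intro h
    have h' : ((2 : ℕ) : ZMod π) = 0 := by exact_mod_cast h
    rw [ZMod.natCast_eq_zero_iff] at h'
    have := Nat.le_of_dvd (by norm_num) h'
    omega
  have hS : {x : ZMod π × ZMod π | IsSquare (x.1 ^ 2 - d * x.2 ^ 2)}.ncard =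
      (Finset.univ.filter (fun x : ZMod π × ZMod π => IsSquare (x.1 ^ 2 - d * x.2 ^ 2))).card := by
    rw [← Set.ncard_coe_finset]
    congr 1
    ext x
    simp
  rw [hS]
  -- sum over `x` of the number of roots
  have h3 : 2 * (Finset.univ.filter
      (fun x : ZMod π × ZMod π => IsSquare (x.1 ^ 2 - d * x.2 ^ 2))).card ≤
      ∑ x : ZMod π × ZMod π, ((Finset.univ.filter
        (fun z : ZMod π => z ^ 2 = x.1 ^ 2 - d * x.2 ^ 2)).card +
          (if x.1 ^ 2 - d * x.2 ^ 2 = 0 then 1 else 0)) := by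
    rw [mul_comm, ← smul_eq_mul, ← Finset.sum_const]
    refine (Finset.sum_le_sum (fun x hx => ?_)).trans
      (Finset.sum_le_sum_of_subset (Finset.filter_subset _ _))
    exact nsq1_aux2 h2 _ (Finset.mem_filter.mp hx).2
  rw [Finset.sum_add_distrib] at h3
  -- number of zeros
  have h4 : ∑ x : ZMod π × ZMod π, (if x.1 ^ 2 - d * x.2 ^ 2 = 0 then 1 else 0) ≤ 2 * π := by
    rw [Fintype.sum_prod_type_right]
    have : ∀ y : ZMod π, ∑ x : ZMod π, (if x ^ 2 - d * y ^ 2 = 0 then 1 else 0) ≤ 2 := by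
      intro y
      rw [← Finset.card_filter]
      have : (Finset.univ.filter (fun x : ZMod π => x ^ 2 - d * y ^ 2 = 0)) =
          (Finset.univ.filter (fun x : ZMod π => x ^ 2 = d * y ^ 2)) := by
        ext x
        simp [sub_eq_zero]
      rw [this]
      exact nsq1_aux1 _
    refine (Finset.sum_le_sum (fun y _ => this y)).trans ?_
    simp [ZMod.card, mul_comm]
  -- number of solutions of `x² - z² = d y²`
  have h5' : ∑ x : ZMod π × ZMod π, (Finset.univ.filter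
        (fun z : ZMod π => z ^ 2 = x.1 ^ 2 - d * x.2 ^ 2)).card ≤ π ^ 2 := by
    have e1 : ∑ x : ZMod π × ZMod π, (Finset.univ.filter
        (fun z : ZMod π => z ^ 2 = x.1 ^ 2 - d * x.2 ^ 2)).card =
        (Finset.univ.filter (fun w : (ZMod π × ZMod π) × ZMod π =>
          w.2 ^ 2 = w.1.1 ^ 2 - d * w.1.2 ^ 2)).card := by
      conv_rhs => rw [Finset.card_filter, Fintype.sum_prod_type]
      exact Finset.sum_congr rfl (fun x _ => Finset.card_filter _ _)
    rw [e1]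
    have hinj : Set.InjOn (fun w : (ZMod π × ZMod π) × ZMod π =>
        if w.1.1 + w.2 = 0 then ((0 : ZMod π), w.1.1 - w.2) else (w.1.1 + w.2, w.1.2))
        (Finset.univ.filter (fun w : (ZMod π × ZMod π) × ZMod π =>
          w.2 ^ 2 = w.1.1 ^ 2 - d * w.1.2 ^ 2) : Finset _) := by
      rintro ⟨⟨x, y⟩, z⟩ hw ⟨⟨x', y'⟩, z'⟩ hw' h
      simp only [Finset.coe_filter, Finset.mem_univ, true_and, Set.mem_ofPred_eq] at hw hw'
      simp only at h
      have key : ∀ (A B : ZMod π), 2 * A = 2 * B → A = B := fun A B hAB =>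
        mul_left_cancel₀ h2 hAB
      by_cases hv : x + z = 0
      · by_cases hv' : x' + z' = 0
        · rw [if_pos hv, if_pos hv', Prod.mk.injEq] at h
          have hy : d * y ^ 2 = 0 := by linear_combination hw + (x - z) * hv
          have hy' : d * y' ^ 2 = 0 := by linear_combination hw' + (x' - z') * hv'
          have hy0 : y = 0 := by simpa [hd] using hy
          have hy0' : y' = 0 := by simpa [hd] using hy'
          have h1 : x = x' := key _ _ (by linear_combination h.2 + hv - hv')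
          have h2 : z = z' := key _ _ (by linear_combination -h.2 + hv - hv')
          rw [h1, h2, hy0, hy0']
        · rw [if_pos hv, if_neg hv', Prod.mk.injEq] at h
          exact absurd h.1.symm hv'
      · by_cases hv' : x' + z' = 0
        · rw [if_neg hv, if_pos hv', Prod.mk.injEq] at h
          exact absurd h.1 hv
        · rw [if_neg hv, if_neg hv', Prod.mk.injEq] at h
          have hy : y = y' := h.2
          subst hy
          have h6 : (x + z) * (x - z) = (x + z) * (x' - z') := by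
            linear_combination -hw + hw' - (x' - z') * h.1
          have h7 := mul_left_cancel₀ hv h6
          have h1 : x = x' := key _ _ (by linear_combination h.1 + h7)
          have h2 : z = z' := key _ _ (by linear_combination h.1 - h7)
          rw [h1, h2]
    have := Finset.card_le_card_of_injOn _ (fun w _ => Finset.mem_univ _) hinj
    refine this.trans (le_of_eq ?_)
    rw [Finset.card_univ, Fintype.card_prod, ZMod.card, pow_two]
  omega

/-- (NSQ1) the discriminant is a square modulo `π` for at most 3/4 of the classes -/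
theorem nsq1 {π : ℕ} (hπ : π.Prime) (h5 : 5 ≤ π) {p q : ℤ × ℤ} (hd : ¬ (π : ℤ) ∣ dt p q)
    {I P n : ℤ} (hI : ¬ (π : ℤ) ∣ I) (hP : ¬ (π : ℤ) ∣ P) {u : ℤ × ℤ}
    (hu : ¬ (π : ℤ) ∣ u.2 * (I * u.1 ^ 2 - u.2 * n)) (m₀ : ℤ) (w₀ : ℤ × ℤ) :
    (dens π (fun w => IsSquare ((Dq I n u ((m₀ + w.1) * P)
      (w₀ + pt 0 p q w.2.1 w.2.2) : ℤ) : ZMod π)) : ℝ) ≤ 3 / 4 * (π : ℝ) ^ 3 := by
  classical
  have : Fact π.Prime := ⟨hπ⟩
  have key : ∀ z : ℤ, ¬ (π : ℤ) ∣ z → (z : ZMod π) ≠ 0 := fun z hz h =>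
    hz ((ZMod.intCast_zmod_eq_zero_iff_dvd z π).mp h)
  have h4 : (4 : ZMod π) ≠ 0 := by
    intro h
    have h' : ((4 : ℕ) : ZMod π) = 0 := by exact_mod_cast h
    rw [ZMod.natCast_eq_zero_iff] at h'
    have := Nat.le_of_dvd (by norm_num) h'
    omega
  have hIz := key _ hI
  have hPz := key _ hP
  have hdz := key _ hd
  have huz := key _ hu
  rw [Int.cast_mul] at huz
  have hu2 : (u.2 : ZMod π) ≠ 0 := left_ne_zero_of_mul huz
  have hu3 : ((I * u.1 ^ 2 - u.2 * n : ℤ) : ZMod π) ≠ 0 := right_ne_zero_of_mul huz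
  set d : ZMod π := 4 * (I : ZMod π) * ((I * u.1 ^ 2 - u.2 * n : ℤ) : ZMod π) with hddef
  have hd0 : d ≠ 0 := mul_ne_zero (mul_ne_zero h4 hIz) hu3
  have h0 := nsq0 hπ h5 hd0
  set S : Finset (ZMod π × ZMod π) :=
    Finset.univ.filter (fun x => IsSquare (x.1 ^ 2 - d * x.2 ^ 2)) with hS
  have hSc : {x : ZMod π × ZMod π | IsSquare (x.1 ^ 2 - d * x.2 ^ 2)}.ncard = S.card := by
    rw [← Set.ncard_coe_finset]
    congr 1
    ext x
    simp [hS]
  rw [hSc] at h0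
  let M : ℤ × ℤ × ℤ → ℤ := fun w => (m₀ + w.1) * P
  let W : ℤ × ℤ × ℤ → ℤ × ℤ := fun w => w₀ + pt 0 p q w.2.1 w.2.2
  let Y : ℤ × ℤ × ℤ → ℤ := fun w => u.1 * (W w).2 - u.2 * (W w).1
  let XX : ℤ × ℤ × ℤ → ℤ := fun w => u.2 ^ 2 * M w - u.2 * n * (W w).2 + 2 * I * u.1 * Y w
  let g : ℤ × ℤ × ℤ → (ZMod π × ZMod π) × ZMod π := fun w =>
    (((XX w : ZMod π), (Y w : ZMod π)), ((W w).2 : ZMod π))
  let F : Finset (ℤ × ℤ × ℤ) := @Finset.filter _ (fun w => IsSquare ((Dq I n u (M w) (W w) : ℤ) :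
      ZMod π)) (fun _ => Classical.propDecidable _) (box3 π)
  have hF : ∀ w, w ∈ F ↔ w ∈ box3 π ∧ IsSquare ((Dq I n u (M w) (W w) : ℤ) : ZMod π) :=
    fun w => @Finset.mem_filter _ _ (fun _ => Classical.propDecidable _) _ _
  have hmaps : Set.MapsTo g (F : Set _) (S ×ˢ (Finset.univ : Finset (ZMod π)) : Finset _) := by
    intro w hw
    rw [Finset.mem_coe, hF] at hw
    rw [Finset.mem_coe, Finset.mem_product]
    refine ⟨?_, Finset.mem_univ _⟩
    rw [hS, Finset.mem_filter]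
    refine ⟨Finset.mem_univ _, ?_⟩
    obtain ⟨z, hz⟩ := hw.2
    refine ⟨(u.2 : ZMod π) * z, ?_⟩
    have hid : (XX w) ^ 2 - 4 * I * (I * u.1 ^ 2 - u.2 * n) * (Y w) ^ 2 =
        u.2 ^ 2 * Dq I n u (M w) (W w) := by
      simp only [XX, Y, Dq]
      ring
    have hid' : ((XX w : ZMod π)) ^ 2 - d * (Y w : ZMod π) ^ 2 =
        (u.2 : ZMod π) ^ 2 * ((Dq I n u (M w) (W w) : ℤ) : ZMod π) := by
      have := congrArg (Int.cast : ℤ → ZMod π) hid
      push_cast at this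
      rw [hddef]
      push_cast
      exact this
    change ((XX w : ZMod π)) ^ 2 - d * (Y w : ZMod π) ^ 2 = _
    rw [hid', hz]
    ring
  have hinj : Set.InjOn g (F : Set _) := by
    intro w hw w' hw' h
    rw [Finset.mem_coe, hF] at hw hw'
    have hb := hw.1
    have hb' := hw'.1
    simp only [box3, Finset.mem_product, Finset.mem_Ico] at hb hb'
    simp only [g, Prod.mk.injEq] at h
    obtain ⟨⟨hX, hY⟩, hW2⟩ := h
    have hW1 : ((W w).1 : ZMod π) = ((W w').1 : ZMod π) := by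
      have h1 : (u.2 : ZMod π) * ((W w).1 : ZMod π) = (u.2 : ZMod π) * ((W w').1 : ZMod π) := by
        simp only [Y] at hY
        push_cast at hY
        linear_combination -hY + (u.1 : ZMod π) * hW2
      exact mul_left_cancel₀ hu2 h1
    have hM : (M w : ZMod π) = (M w' : ZMod π) := by
      have h1 : (u.2 : ZMod π) ^ 2 * (M w : ZMod π) = (u.2 : ZMod π) ^ 2 * (M w' : ZMod π) := by
        simp only [XX] at hX
        push_cast at hX
        linear_combination hX + (u.2 : ZMod π) * n * hW2 - 2 * I * u.1 * hY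
      exact mul_left_cancel₀ (pow_ne_zero 2 hu2) h1
    have ha : (w.1 : ZMod π) = (w'.1 : ZMod π) := by
      have h1 : (w.1 : ZMod π) * (P : ZMod π) = (w'.1 : ZMod π) * (P : ZMod π) := by
        simp only [M] at hM
        push_cast at hM
        linear_combination hM
      exact mul_right_cancel₀ hPz h1
    simp only [W, pt, Prod.fst_add, Prod.snd_add, Prod.fst_zero, Prod.snd_zero] at hW1 hW2
    push_cast at hW1 hW2
    have hs : (w.2.1 : ZMod π) = (w'.2.1 : ZMod π) := by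
      have h1 : (w.2.1 : ZMod π) * (dt p q : ZMod π) = (w'.2.1 : ZMod π) * (dt p q : ZMod π) := by
        simp only [dt]
        push_cast
        linear_combination (q.2 : ZMod π) * hW1 - (q.1 : ZMod π) * hW2
      exact mul_right_cancel₀ hdz h1
    have ht : (w.2.2 : ZMod π) = (w'.2.2 : ZMod π) := by
      have h1 : (w.2.2 : ZMod π) * (dt p q : ZMod π) = (w'.2.2 : ZMod π) * (dt p q : ZMod π) := by
        simp only [dt]
        push_cast
        linear_combination (p.1 : ZMod π) * hW2 - (p.2 : ZMod π) * hW1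
      exact mul_right_cancel₀ hdz h1
    have hfin : ∀ a a' : ℤ, 0 ≤ a → a < π → 0 ≤ a' → a' < π → (a : ZMod π) = (a' : ZMod π) →
        a = a' := by
      intro a a' h1 h2 h3 h4 h5
      rw [ZMod.intCast_eq_intCast_iff] at h5
      have h6 := h5.eq
      rwa [Int.emod_eq_of_lt h1 h2, Int.emod_eq_of_lt h3 h4] at h6
    refine Prod.ext ?_ (Prod.ext ?_ ?_)
    · exact hfin _ _ hb.1.1 hb.1.2 hb'.1.1 hb'.1.2 ha
    · exact hfin _ _ hb.2.1.1 hb.2.1.2 hb'.2.1.1 hb'.2.1.2 hs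
    · exact hfin _ _ hb.2.2.1 hb.2.2.2 hb'.2.2.1 hb'.2.2.2 ht
  have hcard := Finset.card_le_card_of_injOn g hmaps hinj
  rw [Finset.card_product, Finset.card_univ, ZMod.card] at hcard
  have hdens : dens π (fun w => IsSquare ((Dq I n u ((m₀ + w.1) * P)
      (w₀ + pt 0 p q w.2.1 w.2.2) : ℤ) : ZMod π)) ≤ S.card * π := hcard
  have h6 : (dens π (fun w => IsSquare ((Dq I n u ((m₀ + w.1) * P)
      (w₀ + pt 0 p q w.2.1 w.2.2) : ℤ) : ZMod π)) : ℝ) ≤ (S.card : ℝ) * π := by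
    exact_mod_cast hdens
  have h7 : 2 * (S.card : ℝ) ≤ (π : ℝ) ^ 2 + 2 * π := by exact_mod_cast h0
  have h8 : (5 : ℝ) ≤ π := by exact_mod_cast h5
  nlinarith [h6, h7, h8, mul_nonneg (sub_nonneg.mpr h8) (sq_nonneg (π : ℝ)),
    mul_le_mul_of_nonneg_right h7 (by linarith : (0:ℝ) ≤ π)]

end Pool.Agent.CUB

end

section

namespace Pool.Agent.CUB

open Polynomial Pool.Agent.CF

/-- periodic predicates -/
def nsq2_Per (m : ℕ) (P : ℤ × ℤ × ℤ → Prop) : Prop :=
  ∀ w v : ℤ × ℤ × ℤ, P (w + (m : ℤ) • v) ↔ P w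

theorem nsq2_congr {m : ℕ} {P : ℤ × ℤ × ℤ → Prop} (hP : nsq2_Per m P) {w w' : ℤ × ℤ × ℤ}
    (h1 : (m : ℤ) ∣ w'.1 - w.1) (h2 : (m : ℤ) ∣ w'.2.1 - w.2.1) (h3 : (m : ℤ) ∣ w'.2.2 - w.2.2) :
    P w' ↔ P w := by
  obtain ⟨a, ha⟩ := h1
  obtain ⟨b, hb⟩ := h2
  obtain ⟨c, hc⟩ := h3
  have : w' = w + (m : ℤ) • ((a, b, c) : ℤ × ℤ × ℤ) := by
    ext
    · simp; linarith
    · simp; linarith
    · simp; linarith
  rw [this]
  exact hP w _

theorem nsq2_per_dvd {m k : ℕ} (h : m ∣ k) {P : ℤ × ℤ × ℤ → Prop} (hP : nsq2_Per m P) :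
    nsq2_Per k P := by
  intro w v
  obtain ⟨c, rfl⟩ := h
  have := hP w ((c : ℤ) • v)
  rw [smul_smul] at this
  push_cast
  exact this

theorem nsq2_mem_box {l : ℕ} {w : ℤ × ℤ × ℤ} : w ∈ box3 l ↔ (0 ≤ w.1 ∧ w.1 < l) ∧
    (0 ≤ w.2.1 ∧ w.2.1 < l) ∧ (0 ≤ w.2.2 ∧ w.2.2 < l) := by
  simp only [box3, Finset.mem_product, Finset.mem_Ico]

theorem nsq2_card_box (l : ℕ) : (box3 l).card = l ^ 3 := by
  simp only [box3, Finset.card_product, Int.card_Ico, sub_zero, Int.toNat_natCast]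
  ring

theorem nsq2_dens_le (l : ℕ) (P : ℤ × ℤ × ℤ → Prop) : dens l P ≤ (box3 l).card := by
  classical
  unfold dens
  exact Finset.card_le_card (Finset.filter_subset _ _)

/-- covering by cubes -/
theorem nsq2_cover {M : ℕ} (hM : 0 < M) {P : ℤ × ℤ × ℤ → Prop} (hP : nsq2_Per M P) (l : ℕ) :
    dens l P ≤ ((l + M - 1) / M) ^ 3 * dens M P := by
  classical
  set K : ℕ := (l + M - 1) / M with hK
  have hMz : (0 : ℤ) < M := by exact_mod_cast hM
  have hlK : (l : ℤ) ≤ K * M := by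
    have h1 : l + M - 1 < (K + 1) * M := by
      have := Nat.lt_div_mul_add (a := l + M - 1) hM
      rw [← hK] at this
      calc l + M - 1 < K * M + M := this
        _ = (K + 1) * M := by ring
    have h2 : l ≤ K * M := by
      have : (K + 1) * M = K * M + M := by ring
      omega
    exact_mod_cast h2
  have key : ((box3 l).filter P).card ≤ (box3 K ×ˢ (box3 M).filter P).card := by
    refine Finset.card_le_card_of_injOn
      (fun w => ((w.1 / (M : ℤ), w.2.1 / (M : ℤ), w.2.2 / (M : ℤ)),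
        (w.1 % (M : ℤ), w.2.1 % (M : ℤ), w.2.2 % (M : ℤ)))) ?_ ?_
    · intro w hw
      rw [Finset.mem_coe, Finset.mem_filter, nsq2_mem_box] at hw
      obtain ⟨⟨⟨a1, a2⟩, ⟨b1, b2⟩, ⟨c1, c2⟩⟩, hPw⟩ := hw
      rw [Finset.mem_coe, Finset.mem_product, Finset.mem_filter, nsq2_mem_box, nsq2_mem_box]
      have e : ∀ x : ℤ, 0 ≤ x → x < l → (0 ≤ x / (M : ℤ) ∧ x / (M : ℤ) < K) := by
        intro x hx0 hxl
        refine ⟨Int.ediv_nonneg hx0 hMz.le, ?_⟩
        exact Int.ediv_lt_of_lt_mul hMz (lt_of_lt_of_le hxl hlK)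
      have e' : ∀ x : ℤ, 0 ≤ x % (M : ℤ) ∧ x % (M : ℤ) < M := fun x =>
        ⟨Int.emod_nonneg x hMz.ne', Int.emod_lt_of_pos x hMz⟩
      refine ⟨⟨e _ a1 a2, e _ b1 b2, e _ c1 c2⟩, ⟨e' _, e' _, e' _⟩, ?_⟩
      have hd : ∀ x : ℤ, (M : ℤ) ∣ x % (M : ℤ) - x := fun x => by
        have := Int.emod_add_mul_ediv x (M : ℤ)
        exact ⟨-(x / (M : ℤ)), by linarith⟩
      exact (nsq2_congr hP (hd _) (hd _) (hd _)).2 hPw
    · intro w _ w' _ h
      simp only [Prod.mk.injEq] at h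
      obtain ⟨⟨h1, h2, h3⟩, h4, h5, h6⟩ := h
      have e : ∀ x y : ℤ, x / (M : ℤ) = y / (M : ℤ) → x % (M : ℤ) = y % (M : ℤ) → x = y := by
        intro x y hx hy
        rw [← Int.emod_add_mul_ediv x (M : ℤ), ← Int.emod_add_mul_ediv y (M : ℤ), hx, hy]
      ext
      · exact e _ _ h1 h4
      · exact e _ _ h2 h5
      · exact e _ _ h3 h6
  rw [Finset.card_product, nsq2_card_box] at key
  exact key

/-- the number of classes, as a number of points of `(ZMod m)³` -/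
theorem nsq2_dens_zmod {m : ℕ} [NeZero m] {P : ℤ × ℤ × ℤ → Prop} (hP : nsq2_Per m P) :
    dens m P = Nat.card {x : ZMod m × ZMod m × ZMod m //
      P ((x.1.val : ℤ), (x.2.1.val : ℤ), (x.2.2.val : ℤ))} := by
  classical
  rw [Nat.card_eq_fintype_card, Fintype.card_subtype, dens]
  refine Finset.card_bij (fun w _ => ((w.1 : ZMod m), (w.2.1 : ZMod m), (w.2.2 : ZMod m))) ?_ ?_ ?_
  · intro w hw
    rw [Finset.mem_filter, nsq2_mem_box] at hw
    rw [Finset.mem_filter]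
    refine ⟨Finset.mem_univ _, ?_⟩
    refine (nsq2_congr hP ?_ ?_ ?_).2 hw.2
    all_goals
      rw [← ZMod.intCast_zmod_eq_zero_iff_dvd]
      push_cast
      rw [ZMod.natCast_zmod_val, sub_self]
  · intro w hw w' hw' h
    rw [Finset.mem_filter, nsq2_mem_box] at hw hw'
    obtain ⟨⟨⟨a1, a2⟩, ⟨b1, b2⟩, ⟨c1, c2⟩⟩, _⟩ := hw
    obtain ⟨⟨⟨a1', a2'⟩, ⟨b1', b2'⟩, ⟨c1', c2'⟩⟩, _⟩ := hw'
    simp only [Prod.mk.injEq] at h
    have e : ∀ x y : ℤ, 0 ≤ x → x < m → 0 ≤ y → y < m → (x : ZMod m) = (y : ZMod m) → x = y := by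
      intro x y hx hx' hy hy' hxy
      rw [ZMod.intCast_eq_intCast_iff, Int.ModEq, Int.emod_eq_of_lt hx hx',
        Int.emod_eq_of_lt hy hy'] at hxy
      exact hxy
    ext
    · exact e _ _ a1 a2 a1' a2' h.1
    · exact e _ _ b1 b2 b1' b2' h.2.1
    · exact e _ _ c1 c2 c1' c2' h.2.2
  · intro x hx
    rw [Finset.mem_filter] at hx
    refine ⟨((x.1.val : ℤ), (x.2.1.val : ℤ), (x.2.2.val : ℤ)), ?_, ?_⟩
    · rw [Finset.mem_filter, nsq2_mem_box]
      refine ⟨⟨⟨by positivity, ?_⟩, ⟨by positivity, ?_⟩, ⟨by positivity, ?_⟩⟩, hx.2⟩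
      · show ((x.1.val : ℕ) : ℤ) < (m : ℤ)
        exact_mod_cast ZMod.val_lt x.1
      · show ((x.2.1.val : ℕ) : ℤ) < (m : ℤ)
        exact_mod_cast ZMod.val_lt x.2.1
      · show ((x.2.2.val : ℕ) : ℤ) < (m : ℤ)
        exact_mod_cast ZMod.val_lt x.2.2
    · simp

/-- independence modulo coprime numbers -/
theorem nsq2_mul {m k : ℕ} (hm : 0 < m) (hk : 0 < k) (hc : Nat.Coprime m k)
    {P Q : ℤ × ℤ × ℤ → Prop} (hP : nsq2_Per m P) (hQ : nsq2_Per k Q) :
    dens (m * k) (fun w => P w ∧ Q w) = dens m P * dens k Q := by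
  classical
  have : NeZero m := ⟨hm.ne'⟩
  have : NeZero k := ⟨hk.ne'⟩
  have : NeZero (m * k) := ⟨(Nat.mul_pos hm hk).ne'⟩
  have hPQ : nsq2_Per (m * k) (fun w => P w ∧ Q w) := fun w v =>
    and_congr (nsq2_per_dvd (Dvd.intro _ rfl) hP w v)
      (nsq2_per_dvd (Dvd.intro_left _ rfl) hQ w v)
  rw [nsq2_dens_zmod hPQ, nsq2_dens_zmod hP, nsq2_dens_zmod hQ, ← Nat.card_prod]
  let e := ZMod.chineseRemainder hc
  have e1 : ∀ x : ZMod (m * k), (e x).1 = (x.val : ZMod m) := fun x => by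
    have h : x = ((x.val : ℕ) : ZMod (m * k)) := (ZMod.natCast_zmod_val x).symm
    conv_lhs => rw [h, map_natCast]
    rfl
  have e2 : ∀ x : ZMod (m * k), (e x).2 = (x.val : ZMod k) := fun x => by
    have h : x = ((x.val : ℕ) : ZMod (m * k)) := (ZMod.natCast_zmod_val x).symm
    conv_lhs => rw [h, map_natCast]
    rfl
  have d1 : ∀ x : ZMod (m * k), (m : ℤ) ∣ (((e x).1.val : ℕ) : ℤ) - (x.val : ℤ) := fun x => by
    rw [← ZMod.intCast_zmod_eq_zero_iff_dvd]
    push_cast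
    rw [ZMod.natCast_zmod_val, e1, sub_self]
  have d2 : ∀ x : ZMod (m * k), (k : ℤ) ∣ (((e x).2.val : ℕ) : ℤ) - (x.val : ℤ) := fun x => by
    rw [← ZMod.intCast_zmod_eq_zero_iff_dvd]
    push_cast
    rw [ZMod.natCast_zmod_val, e2, sub_self]
  have q1 : ∀ x : ZMod (m * k) × ZMod (m * k) × ZMod (m * k),
      P (((e x.1).1.val : ℤ), ((e x.2.1).1.val : ℤ), ((e x.2.2).1.val : ℤ)) ↔
        P ((x.1.val : ℤ), (x.2.1.val : ℤ), (x.2.2.val : ℤ)) := fun x =>
    nsq2_congr hP (d1 _) (d1 _) (d1 _)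
  have q2 : ∀ x : ZMod (m * k) × ZMod (m * k) × ZMod (m * k),
      Q (((e x.1).2.val : ℤ), ((e x.2.1).2.val : ℤ), ((e x.2.2).2.val : ℤ)) ↔
        Q ((x.1.val : ℤ), (x.2.1.val : ℤ), (x.2.2.val : ℤ)) := fun x =>
    nsq2_congr hQ (d2 _) (d2 _) (d2 _)
  refine Nat.card_congr
    { toFun := fun x => (⟨((e x.1.1).1, (e x.1.2.1).1, (e x.1.2.2).1), (q1 x.1).2 x.2.1⟩,
        ⟨((e x.1.1).2, (e x.1.2.1).2, (e x.1.2.2).2), (q2 x.1).2 x.2.2⟩)
      invFun := fun y => ⟨(e.symm (y.1.1.1, y.2.1.1), e.symm (y.1.1.2.1, y.2.1.2.1),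
        e.symm (y.1.1.2.2, y.2.1.2.2)), by
          constructor
          · refine (q1 _).1 ?_
            simp only [RingEquiv.apply_symm_apply]
            exact y.1.2
          · refine (q2 _).1 ?_
            simp only [RingEquiv.apply_symm_apply]
            exact y.2.2⟩
      left_inv := fun x => by
        apply Subtype.ext
        simp only [Prod.mk.eta, RingEquiv.symm_apply_apply]
      right_inv := fun y => by
        apply Prod.ext <;> apply Subtype.ext <;> simp }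

theorem nsq2_prod (Q : Finset ℕ) : (∀ π ∈ Q, π.Prime) → ∀ (A : ℕ → ℤ × ℤ × ℤ → Prop),
    (∀ π ∈ Q, nsq2_Per π (A π)) → ∀ {ρ : ℝ}, 0 ≤ ρ →
    (∀ π ∈ Q, (dens π (A π) : ℝ) ≤ ρ * (π : ℝ) ^ 3) →
    nsq2_Per (∏ π ∈ Q, π) (fun w => ∀ π ∈ Q, A π w) ∧
    (dens (∏ π ∈ Q, π) (fun w => ∀ π ∈ Q, A π w) : ℝ) ≤
      ρ ^ Q.card * (∏ π ∈ Q, (π : ℝ)) ^ 3 := by
  classical
  induction Q using Finset.induction_on with
  | empty =>
    intro _ A _ ρ _ _
    refine ⟨fun w v => by simp, ?_⟩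
    have h1 : dens 1 (fun w => ∀ π ∈ (∅ : Finset ℕ), A π w) ≤ 1 := by
      refine (nsq2_dens_le 1 _).trans ?_
      rw [nsq2_card_box]
      norm_num
    simp only [Finset.prod_empty, Finset.card_empty, pow_zero, one_pow, mul_one]
    exact_mod_cast h1
  | insert a Q ha ih =>
    intro hQ A hper ρ hρ hd
    have hQ' : ∀ π ∈ Q, π.Prime := fun π h => hQ π (Finset.mem_insert_of_mem h)
    obtain ⟨h1, h2⟩ := ih hQ' A (fun π h => hper π (Finset.mem_insert_of_mem h)) hρ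
      (fun π h => hd π (Finset.mem_insert_of_mem h))
    have hap : a.Prime := hQ a (Finset.mem_insert_self a Q)
    have hA := hper a (Finset.mem_insert_self a Q)
    have hda := hd a (Finset.mem_insert_self a Q)
    have hcop : Nat.Coprime a (∏ π ∈ Q, π) := by
      apply Nat.Coprime.prod_right
      intro π hπ
      rw [Nat.coprime_primes hap (hQ' π hπ)]
      rintro rfl
      exact ha hπ
    have hpos : 0 < ∏ π ∈ Q, π := Finset.prod_pos fun π h => (hQ' π h).pos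
    have hfun : (fun w => ∀ π ∈ insert a Q, A π w) = fun w => A a w ∧ ∀ π ∈ Q, A π w := by
      funext w
      simp only [Finset.mem_insert, forall_eq_or_imp]
    have hmul := nsq2_mul hap.pos hpos hcop hA h1
    constructor
    · rw [hfun, Finset.prod_insert ha]
      exact fun w v => and_congr (nsq2_per_dvd (Dvd.intro _ rfl) hA w v)
        (nsq2_per_dvd (Dvd.intro_left _ rfl) h1 w v)
    · rw [hfun, Finset.prod_insert ha, Finset.prod_insert ha, Finset.card_insert_of_notMem ha,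
        hmul]
      push_cast
      calc (dens a (A a) : ℝ) * (dens (∏ π ∈ Q, π) (fun w => ∀ π ∈ Q, A π w) : ℝ)
          ≤ (ρ * (a : ℝ) ^ 3) * (ρ ^ Q.card * (∏ π ∈ Q, (π : ℝ)) ^ 3) :=
            mul_le_mul hda h2 (by positivity) (by positivity)
        _ = _ := by ring

/-- (NSQ2) a sieve in the cube: independent conditions modulo different primes -/
theorem sieve3 (Q : Finset ℕ) (hQ : ∀ π ∈ Q, π.Prime) (A : ℕ → ℤ × ℤ × ℤ → Prop)
    (hper : ∀ π ∈ Q, ∀ w v : ℤ × ℤ × ℤ, A π (w + (π : ℤ) • v) ↔ A π w) {ρ : ℝ} (hρ : 0 ≤ ρ)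
    (hd : ∀ π ∈ Q, (dens π (A π) : ℝ) ≤ ρ * (π : ℝ) ^ 3) (l : ℕ) :
    (dens l (fun w => ∀ π ∈ Q, A π w) : ℝ) ≤ ρ ^ Q.card * ((l : ℝ) + ∏ π ∈ Q, (π : ℝ)) ^ 3 := by
  obtain ⟨h1, h2⟩ := nsq2_prod Q hQ A hper hρ hd
  set M : ℕ := ∏ π ∈ Q, π with hM
  have hpos : 0 < M := Finset.prod_pos fun π h => (hQ π h).pos
  have hMr : (M : ℝ) = ∏ π ∈ Q, (π : ℝ) := by rw [hM]; push_cast; rfl
  have h3 := nsq2_cover hpos h1 l
  set K : ℕ := (l + M - 1) / M with hK
  have h4 : (K : ℝ) * M ≤ l + M := by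
    have : K * M ≤ l + M - 1 := Nat.div_mul_le_self _ _
    have h5 : K * M ≤ l + M := this.trans (Nat.sub_le _ _)
    exact_mod_cast h5
  rw [← hMr] at h2 ⊢
  calc (dens l (fun w => ∀ π ∈ Q, A π w) : ℝ)
      ≤ (K : ℝ) ^ 3 * (dens M (fun w => ∀ π ∈ Q, A π w) : ℝ) := by exact_mod_cast h3
    _ ≤ (K : ℝ) ^ 3 * (ρ ^ Q.card * (M : ℝ) ^ 3) := by gcongr
    _ = ρ ^ Q.card * ((K : ℝ) * M) ^ 3 := by ring
    _ ≤ ρ ^ Q.card * ((l : ℝ) + M) ^ 3 := by gcongr

end Pool.Agent.CUB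

end

section

namespace Pool.Agent.CUB

open Polynomial Pool.Agent.CF

theorem nsq_dens_mono (l : ℕ) {P Q : ℤ × ℤ × ℤ → Prop} (h : ∀ w, P w → Q w) :
    dens l P ≤ dens l Q := by
  classical
  unfold dens
  refine Finset.card_le_card fun w hw => ?_
  rw [Finset.mem_filter] at hw ⊢
  exact ⟨hw.1, h w hw.2⟩

theorem nsq_dens_le_card (l : ℕ) {P : ℤ × ℤ × ℤ → Prop} {S : Finset (ℤ × ℤ × ℤ)}
    (h : ∀ w ∈ box3 l, P w → w ∈ S) : dens l P ≤ S.card := by
  classical
  unfold dens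
  refine Finset.card_le_card fun w hw => ?_
  rw [Finset.mem_filter] at hw
  exact h w hw.1 hw.2

theorem nsq_card_le_dens (l : ℕ) {P : ℤ × ℤ × ℤ → Prop} {S : Finset (ℤ × ℤ × ℤ)}
    (h : ∀ w ∈ S, w ∈ box3 l ∧ P w) : S.card ≤ dens l P := by
  classical
  unfold dens
  refine Finset.card_le_card fun w hw => ?_
  rw [Finset.mem_filter]
  exact h w hw

theorem nsq_dens_union (l : ℕ) (Q : Finset ℕ) (A : ℕ → ℤ × ℤ × ℤ → Prop) :
    dens l (fun w => ∃ π ∈ Q, A π w) ≤ ∑ π ∈ Q, dens l (A π) := by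
  classical
  have h1 : dens l (fun w => ∃ π ∈ Q, A π w) ≤
      (Q.biUnion fun π => (box3 l).filter (A π)).card := by
    apply nsq_dens_le_card
    intro w hw h
    obtain ⟨π, hπ, hA⟩ := h
    rw [Finset.mem_biUnion]
    exact ⟨π, hπ, by rw [Finset.mem_filter]; exact ⟨hw, hA⟩⟩
  refine h1.trans (Finset.card_biUnion_le.trans (Finset.sum_le_sum fun π _ => ?_))
  apply nsq_card_le_dens
  intro w hw
  rw [Finset.mem_filter] at hw
  exact hw

theorem nsq_cast_inj {π : ℕ} {x y : ℤ} (hx : 0 ≤ x) (hx' : x < π) (hy : 0 ≤ y) (hy' : y < π)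
    (h : (π : ℤ) ∣ x - y) : x = y := by
  have h1 : x ≡ y [ZMOD π] := (Int.modEq_iff_dvd.2 (by
    obtain ⟨c, hc⟩ := h
    exact ⟨-c, by linarith⟩))
  rw [Int.ModEq, Int.emod_eq_of_lt hx hx', Int.emod_eq_of_lt hy hy'] at h1
  exact h1

/-- the bad classes modulo one prime -/
theorem nsq_two {π : ℕ} (hπ : π.Prime) {p q : ℤ × ℤ} (hd : ¬ (π : ℤ) ∣ dt p q) (I : ℤ)
    (n₀ : ℤ) (u₀ : ℤ × ℤ) :
    dens π (fun w => (π : ℤ) ∣ (u₀ + pt 0 p q w.2.1 w.2.2).2 *
      (I * (u₀ + pt 0 p q w.2.1 w.2.2).1 ^ 2 - (u₀ + pt 0 p q w.2.1 w.2.2).2 * (n₀ + w.1))) ≤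
      2 * π ^ 2 := by
  classical
  have hπi : Prime (π : ℤ) := Nat.prime_iff_prime_int.1 hπ
  -- first part: the second coordinate is divisible
  set B1 := (box3 π).filter (fun w => (π : ℤ) ∣ (u₀ + pt 0 p q w.2.1 w.2.2).2) with hB1
  set B2 := (box3 π).filter (fun w => ¬ (π : ℤ) ∣ (u₀ + pt 0 p q w.2.1 w.2.2).2 ∧
    (π : ℤ) ∣ I * (u₀ + pt 0 p q w.2.1 w.2.2).1 ^ 2 -
      (u₀ + pt 0 p q w.2.1 w.2.2).2 * (n₀ + w.1)) with hB2
  have hbox : ∀ w : ℤ × ℤ × ℤ, w ∈ box3 π ↔ (0 ≤ w.1 ∧ w.1 < π) ∧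
      (0 ≤ w.2.1 ∧ w.2.1 < π) ∧ (0 ≤ w.2.2 ∧ w.2.2 < π) := fun w => by
    simp only [box3, Finset.mem_product, Finset.mem_Ico]
  have hsq : (Finset.Ico 0 (π : ℤ) ×ˢ Finset.Ico 0 (π : ℤ)).card = π ^ 2 := by
    simp only [Finset.card_product, Int.card_Ico, sub_zero, Int.toNat_natCast]
    ring
  have h0 : dens π (fun w => (π : ℤ) ∣ (u₀ + pt 0 p q w.2.1 w.2.2).2 *
      (I * (u₀ + pt 0 p q w.2.1 w.2.2).1 ^ 2 - (u₀ + pt 0 p q w.2.1 w.2.2).2 * (n₀ + w.1))) ≤
      (B1 ∪ B2).card := by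
    apply nsq_dens_le_card
    intro w hw hw2
    rw [Finset.mem_union, hB1, hB2, Finset.mem_filter, Finset.mem_filter]
    by_cases h : (π : ℤ) ∣ (u₀ + pt 0 p q w.2.1 w.2.2).2
    · exact Or.inl ⟨hw, h⟩
    · refine Or.inr ⟨hw, h, ?_⟩
      exact (hπi.dvd_or_dvd hw2).resolve_left h
  have h1 : B1.card ≤ π ^ 2 := by
    rw [← hsq]
    by_cases hp2 : (π : ℤ) ∣ p.2
    · -- then q.2 is a unit and w.2.2 is determined
      have hq2 : ¬ (π : ℤ) ∣ q.2 := fun h => hd (by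
        unfold dt
        exact dvd_sub (h.mul_left _) (hp2.mul_right _))
      refine Finset.card_le_card_of_injOn (fun w => (w.1, w.2.1)) ?_ ?_
      · intro w hw
        rw [Finset.mem_coe, hB1, Finset.mem_filter, hbox] at hw
        rw [Finset.mem_coe, Finset.mem_product, Finset.mem_Ico, Finset.mem_Ico]
        exact ⟨hw.1.1, hw.1.2.1⟩
      · intro w hw w' hw' h
        rw [Finset.mem_coe, hB1, Finset.mem_filter, hbox] at hw hw'
        simp only [Prod.mk.injEq] at h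
        have e : (π : ℤ) ∣ (w.2.2 - w'.2.2) * q.2 := by
          have := dvd_sub hw.2 hw'.2
          simp only [pt, Prod.snd_add, h.2] at this
          ring_nf at this ⊢
          exact this
        have e2 := (hπi.dvd_or_dvd e).resolve_right hq2
        ext
        · exact h.1
        · exact h.2
        · exact nsq_cast_inj hw.1.2.2.1 hw.1.2.2.2 hw'.1.2.2.1 hw'.1.2.2.2 e2
    · refine Finset.card_le_card_of_injOn (fun w => (w.1, w.2.2)) ?_ ?_
      · intro w hw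
        rw [Finset.mem_coe, hB1, Finset.mem_filter, hbox] at hw
        rw [Finset.mem_coe, Finset.mem_product, Finset.mem_Ico, Finset.mem_Ico]
        exact ⟨hw.1.1, hw.1.2.2⟩
      · intro w hw w' hw' h
        rw [Finset.mem_coe, hB1, Finset.mem_filter, hbox] at hw hw'
        simp only [Prod.mk.injEq] at h
        have e : (π : ℤ) ∣ (w.2.1 - w'.2.1) * p.2 := by
          have := dvd_sub hw.2 hw'.2
          simp only [pt, Prod.snd_add, h.2] at this
          ring_nf at this ⊢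
          exact this
        have e2 := (hπi.dvd_or_dvd e).resolve_right hp2
        ext
        · exact h.1
        · exact nsq_cast_inj hw.1.2.1.1 hw.1.2.1.2 hw'.1.2.1.1 hw'.1.2.1.2 e2
        · exact h.2
  have h2 : B2.card ≤ π ^ 2 := by
    rw [← hsq]
    refine Finset.card_le_card_of_injOn (fun w => w.2) ?_ ?_
    · intro w hw
      rw [Finset.mem_coe, hB2, Finset.mem_filter, hbox] at hw
      rw [Finset.mem_coe, Finset.mem_product, Finset.mem_Ico, Finset.mem_Ico]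
      exact hw.1.2
    · intro w hw w' hw' h
      rw [Finset.mem_coe, hB2, Finset.mem_filter, hbox] at hw hw'
      simp only at h
      have e : (π : ℤ) ∣ (u₀ + pt 0 p q w.2.1 w.2.2).2 * (w.1 - w'.1) := by
        have := dvd_sub hw'.2.2 hw.2.2
        rw [← h] at this
        ring_nf at this ⊢
        exact this
      have e2 := (hπi.dvd_or_dvd e).resolve_left hw.2.1
      apply Prod.ext
      · exact nsq_cast_inj hw.1.1.1 hw.1.1.2 hw'.1.1.1 hw'.1.1.2 e2
      · exact h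
  calc _ ≤ (B1 ∪ B2).card := h0
    _ ≤ B1.card + B2.card := Finset.card_union_le _ _
    _ ≤ π ^ 2 + π ^ 2 := add_le_add h1 h2
    _ = 2 * π ^ 2 := by ring

theorem nsq_per1 {π : ℕ} (p q : ℤ × ℤ) (I n₀ : ℤ) (u₀ : ℤ × ℤ) (w v : ℤ × ℤ × ℤ) :
    ((π : ℤ) ∣ (u₀ + pt 0 p q (w + (π : ℤ) • v).2.1 (w + (π : ℤ) • v).2.2).2 *
      (I * (u₀ + pt 0 p q (w + (π : ℤ) • v).2.1 (w + (π : ℤ) • v).2.2).1 ^ 2 -
        (u₀ + pt 0 p q (w + (π : ℤ) • v).2.1 (w + (π : ℤ) • v).2.2).2 *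
          (n₀ + (w + (π : ℤ) • v).1))) ↔
    ((π : ℤ) ∣ (u₀ + pt 0 p q w.2.1 w.2.2).2 *
      (I * (u₀ + pt 0 p q w.2.1 w.2.2).1 ^ 2 -
        (u₀ + pt 0 p q w.2.1 w.2.2).2 * (n₀ + w.1))) := by
  rw [← ZMod.intCast_zmod_eq_zero_iff_dvd, ← ZMod.intCast_zmod_eq_zero_iff_dvd]
  simp only [pt, Prod.fst_add, Prod.snd_add, Prod.smul_fst, Prod.smul_snd, smul_eq_mul]
  push_cast
  simp

theorem nsq_per2 {π : ℕ} (p q : ℤ × ℤ) (I P n : ℤ) (u : ℤ × ℤ) (m₀ : ℤ) (w₀ : ℤ × ℤ)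
    (w v : ℤ × ℤ × ℤ) :
    IsSquare ((Dq I n u ((m₀ + (w + (π : ℤ) • v).1) * P)
      (w₀ + pt 0 p q (w + (π : ℤ) • v).2.1 (w + (π : ℤ) • v).2.2) : ℤ) : ZMod π) ↔
    IsSquare ((Dq I n u ((m₀ + w.1) * P) (w₀ + pt 0 p q w.2.1 w.2.2) : ℤ) : ZMod π) := by
  simp only [Dq, pt, Prod.fst_add, Prod.snd_add, Prod.smul_fst, Prod.smul_snd, smul_eq_mul]
  push_cast
  simp

theorem nsq_primes (k B : ℕ) : ∃ Q : Finset ℕ, Q.card = k ∧ ∀ π ∈ Q, π.Prime ∧ B < π := by
  induction k with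
  | zero => exact ⟨∅, rfl, by simp⟩
  | succ k ih =>
    obtain ⟨Q, hQ, h⟩ := ih
    obtain ⟨r, hr, hrp⟩ := Nat.exists_infinite_primes (B + 1 + ∑ π ∈ Q, π)
    have hrQ : r ∉ Q := fun hm => by
      have h1 : r ≤ ∑ π ∈ Q, π :=
        Finset.single_le_sum (f := fun π : ℕ => π) (fun _ _ => Nat.zero_le _) hm
      omega
    refine ⟨insert r Q, by rw [Finset.card_insert_of_notMem hrQ, hQ], ?_⟩
    intro π hπ
    rw [Finset.mem_insert] at hπ
    rcases hπ with rfl | hπ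
    · exact ⟨hrp, by omega⟩
    · exact h π hπ

/-- (NSQ) the discriminant is rarely a square -/
theorem nsq (p q : ℤ × ℤ) (hd : dt p q ≠ 0) (I : ℤ) (hI : I ≠ 0) (P : ℤ) (hP : P ≠ 0) {δ : ℝ}
    (hδ : 0 < δ) : ∃ (Q : Finset ℕ) (l₀ : ℕ), ∀ l : ℕ, l₀ ≤ l →
      (∀ (n₀ : ℤ) (u₀ : ℤ × ℤ), (dens l (fun w => ∃ π ∈ Q,
        (π : ℤ) ∣ (u₀ + pt 0 p q w.2.1 w.2.2).2 * (I * (u₀ + pt 0 p q w.2.1 w.2.2).1 ^ 2 -
          (u₀ + pt 0 p q w.2.1 w.2.2).2 * (n₀ + w.1))) : ℝ) ≤ δ * (l : ℝ) ^ 3) ∧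
      (∀ (n : ℤ) (u : ℤ × ℤ), (∀ π ∈ Q, ¬ (π : ℤ) ∣ u.2 * (I * u.1 ^ 2 - u.2 * n)) →
        ∀ (m₀ : ℤ) (w₀ : ℤ × ℤ), (dens l (fun w =>
          IsSquare (Dq I n u ((m₀ + w.1) * P) (w₀ + pt 0 p q w.2.1 w.2.2))) : ℝ) ≤
            δ * (l : ℝ) ^ 3) := by
  -- the number of primes
  obtain ⟨k, hk⟩ := exists_pow_lt_of_lt_one (show (0 : ℝ) < δ / 8 by positivity)
    (show (3 / 4 : ℝ) < 1 by norm_num)
  -- the size of the primes
  obtain ⟨B₀, hB₀⟩ := exists_nat_gt (16 * k / δ)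
  set B : ℕ := B₀ + 5 + I.natAbs + P.natAbs + (dt p q).natAbs with hB
  obtain ⟨Q, hQc, hQ⟩ := nsq_primes k B
  have hQp : ∀ π ∈ Q, π.Prime := fun π h => (hQ π h).1
  have hndvd : ∀ π ∈ Q, ∀ z : ℤ, z ≠ 0 → z.natAbs ≤ B → ¬ (π : ℤ) ∣ z := by
    intro π hπ z hz hzB hdv
    have h1 := Int.natAbs_dvd_natAbs.2 hdv
    rw [Int.natAbs_natCast] at h1
    have h2 := Nat.le_of_dvd (Int.natAbs_pos.2 hz) h1
    have h3 := (hQ π hπ).2
    omega
  refine ⟨Q, ∏ π ∈ Q, π, fun l hl => ?_⟩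
  have hlr : (∏ π ∈ Q, (π : ℝ)) ≤ l := by
    have : ((∏ π ∈ Q, π : ℕ) : ℝ) ≤ l := by exact_mod_cast hl
    push_cast at this
    exact this
  have hl0 : (0 : ℝ) ≤ l := Nat.cast_nonneg l
  constructor
  · intro n₀ u₀
    have h1 := nsq_dens_union l Q (fun π w => (π : ℤ) ∣ (u₀ + pt 0 p q w.2.1 w.2.2).2 *
      (I * (u₀ + pt 0 p q w.2.1 w.2.2).1 ^ 2 - (u₀ + pt 0 p q w.2.1 w.2.2).2 * (n₀ + w.1)))
    have h2 : ∀ π ∈ Q, (dens l (fun w => (π : ℤ) ∣ (u₀ + pt 0 p q w.2.1 w.2.2).2 *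
        (I * (u₀ + pt 0 p q w.2.1 w.2.2).1 ^ 2 -
          (u₀ + pt 0 p q w.2.1 w.2.2).2 * (n₀ + w.1))) : ℝ) ≤ 16 / (B₀ : ℝ) * (l : ℝ) ^ 3 := by
      intro π hπ
      have hπp := hQp π hπ
      have hB0 : (0 : ℝ) < B₀ := lt_of_le_of_lt (by positivity) hB₀
      have hπB : (B₀ : ℝ) ≤ π := by
        have h3 := (hQ π hπ).2
        have : B₀ ≤ π := by omega
        exact_mod_cast this
      have hπ0 : (0 : ℝ) < π := lt_of_lt_of_le hB0 hπB
      have hdens := nsq_two hπp (hndvd π hπ _ hd (by omega)) I n₀ u₀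
      have hs := sieve3 {π} (by simpa using hπp)
        (fun _ w => (π : ℤ) ∣ (u₀ + pt 0 p q w.2.1 w.2.2).2 *
          (I * (u₀ + pt 0 p q w.2.1 w.2.2).1 ^ 2 -
            (u₀ + pt 0 p q w.2.1 w.2.2).2 * (n₀ + w.1)))
        (by
          intro π' hπ' w v
          rw [Finset.mem_singleton] at hπ'
          subst hπ'
          exact nsq_per1 p q I n₀ u₀ w v)
        (ρ := 2 / (π : ℝ)) (by positivity)
        (by
          intro π' hπ'
          rw [Finset.mem_singleton] at hπ'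
          subst hπ'
          have : (2 / (π' : ℝ)) * (π' : ℝ) ^ 3 = 2 * (π' : ℝ) ^ 2 := by
            field_simp
          rw [this]
          exact_mod_cast hdens) l
      have e1 : dens l (fun w => ∀ π' ∈ ({π} : Finset ℕ), (π : ℤ) ∣
          (u₀ + pt 0 p q w.2.1 w.2.2).2 * (I * (u₀ + pt 0 p q w.2.1 w.2.2).1 ^ 2 -
            (u₀ + pt 0 p q w.2.1 w.2.2).2 * (n₀ + w.1))) =
          dens l (fun w => (π : ℤ) ∣ (u₀ + pt 0 p q w.2.1 w.2.2).2 *
            (I * (u₀ + pt 0 p q w.2.1 w.2.2).1 ^ 2 -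
              (u₀ + pt 0 p q w.2.1 w.2.2).2 * (n₀ + w.1))) := by
        apply le_antisymm
        · exact nsq_dens_mono l fun w h => h π (Finset.mem_singleton_self π)
        · exact nsq_dens_mono l fun w h π' _ => h
      rw [e1, Finset.card_singleton, pow_one, Finset.prod_singleton] at hs
      have hπl : (π : ℝ) ≤ l := by
        have h3 : π ≤ ∏ π ∈ Q, π := Finset.single_le_prod' (f := fun π : ℕ => π)
          (fun i hi => (hQp i hi).one_lt.le) hπ
        exact_mod_cast h3.trans hl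
      refine hs.trans ?_
      calc 2 / (π : ℝ) * ((l : ℝ) + π) ^ 3 ≤ 2 / (B₀ : ℝ) * ((l : ℝ) + l) ^ 3 := by gcongr
        _ = 16 / (B₀ : ℝ) * (l : ℝ) ^ 3 := by ring
    calc _ ≤ ((∑ π ∈ Q, dens l (fun w => (π : ℤ) ∣ (u₀ + pt 0 p q w.2.1 w.2.2).2 *
        (I * (u₀ + pt 0 p q w.2.1 w.2.2).1 ^ 2 -
          (u₀ + pt 0 p q w.2.1 w.2.2).2 * (n₀ + w.1))) : ℕ) : ℝ) := by exact_mod_cast h1
      _ ≤ ∑ π ∈ Q, 16 / (B₀ : ℝ) * (l : ℝ) ^ 3 := by
          push_cast
          exact Finset.sum_le_sum h2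
      _ = k * (16 / (B₀ : ℝ)) * (l : ℝ) ^ 3 := by
          rw [Finset.sum_const, hQc, nsmul_eq_mul]
          ring
      _ ≤ δ * (l : ℝ) ^ 3 := by
          apply mul_le_mul_of_nonneg_right _ (by positivity)
          have hB0 : (0 : ℝ) < B₀ := lt_of_le_of_lt (by positivity) hB₀
          rw [div_lt_iff₀ hδ] at hB₀
          rw [mul_div_assoc', div_le_iff₀ hB0]
          nlinarith
  · intro n u hu m₀ w₀
    have hs := sieve3 Q hQp (fun π w => IsSquare ((Dq I n u ((m₀ + w.1) * P)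
      (w₀ + pt 0 p q w.2.1 w.2.2) : ℤ) : ZMod π))
      (fun π _ w v => nsq_per2 p q I P n u m₀ w₀ w v) (ρ := 3 / 4) (by norm_num)
      (fun π hπ => nsq1 (hQp π hπ) (by have := (hQ π hπ).2; omega)
        (hndvd π hπ _ hd (by omega)) (hndvd π hπ _ hI (by omega)) (hndvd π hπ _ hP (by omega))
        (hu π hπ) m₀ w₀) l
    have hm : dens l (fun w => IsSquare (Dq I n u ((m₀ + w.1) * P)
        (w₀ + pt 0 p q w.2.1 w.2.2))) ≤
        dens l (fun w => ∀ π ∈ Q, IsSquare ((Dq I n u ((m₀ + w.1) * P)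
          (w₀ + pt 0 p q w.2.1 w.2.2) : ℤ) : ZMod π)) := by
      refine nsq_dens_mono l fun w h π _ => ?_
      obtain ⟨r, hr⟩ := h
      exact ⟨(r : ZMod π), by rw [hr]; push_cast; rfl⟩
    rw [hQc] at hs
    calc _ ≤ (dens l (fun w => ∀ π ∈ Q, IsSquare ((Dq I n u ((m₀ + w.1) * P)
          (w₀ + pt 0 p q w.2.1 w.2.2) : ℤ) : ZMod π)) : ℝ) := by exact_mod_cast hm
      _ ≤ (3 / 4 : ℝ) ^ k * ((l : ℝ) + ∏ π ∈ Q, (π : ℝ)) ^ 3 := hs
      _ ≤ (δ / 8) * ((l : ℝ) + l) ^ 3 := by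
          have h9 : (0 : ℝ) ≤ ∏ π ∈ Q, (π : ℝ) := Finset.prod_nonneg fun _ _ => Nat.cast_nonneg _
          gcongr
      _ = δ * (l : ℝ) ^ 3 := by ring

end Pool.Agent.CUB

end

section

namespace Pool.Agent.CUB

open Polynomial Pool.Agent.CF

/-- the classes on a line modulo `π` -/
def Lam (π : ℕ) (g : ℤ × ℤ) : Set (ℤ × ℤ) := {y | (π : ℤ) ∣ dt y g}

theorem nm_lam_mul {m n : ℕ} (h : Nat.Coprime m n) (g y : ℤ × ℤ) :
    y ∈ Lam (m * n) g ↔ y ∈ Lam m g ∧ y ∈ Lam n g := by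
  simp only [Lam, Set.mem_ofPred_eq, Nat.cast_mul]
  constructor
  · intro h1
    exact ⟨(Dvd.intro _ rfl).trans h1, (Dvd.intro_left _ rfl).trans h1⟩
  · rintro ⟨h1, h2⟩
    exact IsCoprime.mul_dvd (Nat.isCoprime_iff_coprime.2 h) h1 h2

theorem nm_lam_congr {π : ℕ} {g h : ℤ × ℤ} (h1 : (π : ℤ) ∣ h.1 - g.1) (h2 : (π : ℤ) ∣ h.2 - g.2) :
    Lam π g = Lam π h := by
  ext y
  simp only [Lam, Set.mem_ofPred_eq, dt]
  have e : y.1 * h.2 - y.2 * h.1 = (y.1 * g.2 - y.2 * g.1) + (y.1 * (h.2 - g.2) - y.2 * (h.1 - g.1)) := by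
    ring
  rw [e]
  exact (dvd_add_left (dvd_sub (h2.mul_left _) (h1.mul_left _))).symm

/-- CRT for a finite set of primes -/
theorem nm_crt (P : Finset ℕ) (hP : ∀ π ∈ P, π.Prime) (a : ℕ → ℤ) :
    ∃ x : ℤ, ∀ π ∈ P, (π : ℤ) ∣ x - a π := by
  have hco : Set.Pairwise (P : Set ℕ) (Function.onFun Nat.Coprime (fun i : ℕ => i)) := by
    intro i hi j hj hij
    exact (Nat.coprime_primes (hP i hi) (hP j hj)).2 hij
  obtain ⟨k, hk⟩ := Nat.chineseRemainderOfFinset (fun i => (a i % i).toNat) (fun i : ℕ => i) P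
    (fun i hi => (hP i hi).ne_zero) hco
  refine ⟨k, fun π hπ => ?_⟩
  have h1 := hk π hπ
  have h2 : (k : ℤ) ≡ ((a π % π).toNat : ℤ) [ZMOD π] := (Int.natCast_modEq_iff).2 h1
  rw [Int.toNat_of_nonneg (Int.emod_nonneg _ (by exact_mod_cast (hP π hπ).ne_zero))] at h2
  have h3 : (k : ℤ) ≡ a π [ZMOD π] := h2.trans (Int.mod_modEq _ _)
  exact h3.symm.dvd

open Classical in
theorem nm_core (p q h z : ℤ × ℤ) (S : Set (ℤ × ℤ)) (P : Finset ℕ) (r L : ℕ) {μ ε : ℝ}
    (hμ0 : 0 ≤ μ) (hμ : μ ≤ 1) (hε : 0 < ε) (hr : 1 ≤ r)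
    (hP : ∀ π ∈ P, π.Prime) (hco : ∀ π ∈ P, Nat.Coprime r π)
    (hc1 : |(cnt (Lam r h) z p q L : ℝ) - (L : ℝ) ^ 2 / r| ≤ 3 * L)
    (hc2 : ∀ π ∈ P, |(cnt (Lam (r * π) h) z p q L : ℝ) - (L : ℝ) ^ 2 / (r * π : ℕ)| ≤ 3 * L)
    (hc3 : ∀ π ∈ P, ∀ ρ ∈ P, π ≠ ρ →
      |(cnt (Lam (r * π * ρ) h) z p q L : ℝ) - (L : ℝ) ^ 2 / (r * π * ρ : ℕ)| ≤ 3 * L)
    (hL : (18 * (P.card : ℝ) ^ 2 + 3 + 12 / ε) * r ≤ L)
    (hm : μ * ((L : ℝ) ^ 2 / r) ≤ cnt (S ∩ Lam r h) z p q L) :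
    ∑ π ∈ P.filter (fun π : ℕ => (cnt (S ∩ Lam r h ∩ Lam π h) z p q L : ℝ) <
            (μ - ε) * ((L : ℝ) ^ 2 / (r * π))), (1 / π : ℝ) ≤ 4 / ε ^ 2 + 1 := by
  have hr0 : (0 : ℝ) < r := by exact_mod_cast hr
  have hr1 : (1 : ℝ) ≤ r := by exact_mod_cast hr
  have hL0 : (0 : ℝ) < L := by
    have : 0 < 12 / ε := by positivity
    have : 0 < (18 * (P.card : ℝ) ^ 2 + 3 + 12 / ε) * r := by positivity
    linarith
  set T : Finset (ℕ × ℕ) := (Finset.range L ×ˢ Finset.range L).filter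
    (fun w : ℕ × ℕ => pt z p q (w.1 : ℤ) (w.2 : ℤ) ∈ Lam r h) with hT
  set T' : ℕ → Finset (ℕ × ℕ) := fun π => T.filter
    (fun w : ℕ × ℕ => pt z p q (w.1 : ℤ) (w.2 : ℤ) ∈ Lam π h) with hT'
  set A : Finset (ℕ × ℕ) := T.filter (fun w : ℕ × ℕ => pt z p q (w.1 : ℤ) (w.2 : ℤ) ∈ S) with hA
  have cT : T.card = cnt (Lam r h) z p q L := rfl
  have cT' : ∀ π ∈ P, (T' π).card = cnt (Lam (r * π) h) z p q L := by
    intro π hπ
    unfold cnt
    congr 1
    ext w
    simp only [hT', hT, Finset.mem_filter, nm_lam_mul (hco π hπ)]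
    tauto
  have cT2 : ∀ π ∈ P, ∀ ρ ∈ P, π ≠ ρ → (T' π ∩ T' ρ).card = cnt (Lam (r * π * ρ) h) z p q L := by
    intro π hπ ρ hρ hne
    have h1 : Nat.Coprime (r * π) ρ :=
      Nat.Coprime.mul_left (hco ρ hρ) ((Nat.coprime_primes (hP π hπ) (hP ρ hρ)).2 hne)
    unfold cnt
    congr 1
    ext w
    simp only [hT', hT, Finset.mem_filter, Finset.mem_inter, nm_lam_mul h1, nm_lam_mul (hco π hπ)]
    tauto
  have cA : A.card = cnt (S ∩ Lam r h) z p q L := by
    unfold cnt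
    congr 1
    ext w
    simp only [hA, hT, Finset.mem_filter, Set.mem_inter_iff]
    tauto
  have cAT : ∀ π, (A ∩ T' π).card = cnt (S ∩ Lam r h ∩ Lam π h) z p q L := by
    intro π
    unfold cnt
    congr 1
    ext w
    simp only [hA, hT', hT, Finset.mem_filter, Finset.mem_inter, Set.mem_inter_iff]
    tauto
  rw [← cT] at hc1
  have hTlow : (L : ℝ) * (18 * (P.card : ℝ) ^ 2 + 12 / ε) ≤ T.card := by
    have h1 := (abs_le.1 hc1).1
    have h2 : (18 * (P.card : ℝ) ^ 2 + 3 + 12 / ε) ≤ L / r := by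
      rw [le_div_iff₀ hr0]
      exact hL
    have h3 : (L : ℝ) ^ 2 / r = L * (L / r) := by ring
    have h4 : (L : ℝ) * (18 * (P.card : ℝ) ^ 2 + 3 + 12 / ε) ≤ L * (L / r) :=
      mul_le_mul_of_nonneg_left h2 hL0.le
    linarith
  have h12 : 3 * (L : ℝ) ≤ ε / 4 * T.card := by
    have h1 : (L : ℝ) * (12 / ε) ≤ T.card := by
      have : 0 ≤ (L : ℝ) * (18 * (P.card : ℝ) ^ 2) := by positivity
      linarith
    have h2 : ε / 4 * ((L : ℝ) * (12 / ε)) ≤ ε / 4 * T.card :=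
      mul_le_mul_of_nonneg_left h1 (by positivity)
    have h3 : ε / 4 * ((L : ℝ) * (12 / ε)) = 3 * L := by
      field_simp
      ring
    linarith
  have key := tk T P (fun π hπ => (hP π hπ).one_lt.le) T' (fun π _ => Finset.filter_subset _ _)
    (E := 6 * (L : ℝ)) (by positivity) ?_ ?_ A (Finset.filter_subset _ _) (μ := μ - ε / 4)
    (ε := ε / 2) (by positivity) ?_
    (P.filter (fun π : ℕ => (cnt (S ∩ Lam r h ∩ Lam π h) z p q L : ℝ) <
            (μ - ε) * ((L : ℝ) ^ 2 / (r * π)))) (Finset.filter_subset _ _) ?_ ?_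
  · refine key.trans (le_of_eq ?_)
    field_simp
    ring
  · intro π hπ
    have h1 := hc2 π hπ
    rw [← cT' π hπ] at h1
    have hπ1 : (1 : ℝ) ≤ π := by exact_mod_cast (hP π hπ).one_lt.le
    have h2 : |(L : ℝ) ^ 2 / (r * π : ℕ) - T.card / π| ≤ 3 * L := by
      have e : (L : ℝ) ^ 2 / (r * π : ℕ) - T.card / π = -((T.card : ℝ) - (L : ℝ) ^ 2 / r) / π := by
        push_cast
        field_simp
        ring
      rw [e, abs_div, abs_neg, abs_of_pos (by linarith : (0 : ℝ) < π)]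
      exact (div_le_self (abs_nonneg _) hπ1).trans hc1
    calc |((T' π).card : ℝ) - T.card / π| = |(((T' π).card : ℝ) - (L : ℝ) ^ 2 / (r * π : ℕ)) +
        ((L : ℝ) ^ 2 / (r * π : ℕ) - T.card / π)| := by ring_nf
      _ ≤ _ := abs_add_le _ _
      _ ≤ 6 * L := by linarith
  · intro π hπ ρ hρ hne
    have h1 := hc3 π hπ ρ hρ hne
    rw [← cT2 π hπ ρ hρ hne] at h1
    have hπ1 : (1 : ℝ) ≤ π := by exact_mod_cast (hP π hπ).one_lt.le
    have hρ1 : (1 : ℝ) ≤ ρ := by exact_mod_cast (hP ρ hρ).one_lt.le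
    have hπρ : (1 : ℝ) ≤ π * ρ := one_le_mul_of_one_le_of_one_le hπ1 hρ1
    have h2 : |(L : ℝ) ^ 2 / (r * π * ρ : ℕ) - T.card / (π * ρ)| ≤ 3 * L := by
      have e : (L : ℝ) ^ 2 / (r * π * ρ : ℕ) - T.card / (π * ρ) =
          -((T.card : ℝ) - (L : ℝ) ^ 2 / r) / (π * ρ) := by
        push_cast
        field_simp
        ring
      rw [e, abs_div, abs_neg, abs_of_pos (by linarith : (0 : ℝ) < π * ρ)]
      exact (div_le_self (abs_nonneg _) hπρ).trans hc1
    calc |((T' π ∩ T' ρ).card : ℝ) - T.card / (π * ρ)| =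
        |(((T' π ∩ T' ρ).card : ℝ) - (L : ℝ) ^ 2 / (r * π * ρ : ℕ)) +
        ((L : ℝ) ^ 2 / (r * π * ρ : ℕ) - T.card / (π * ρ))| := by ring_nf
      _ ≤ _ := abs_add_le _ _
      _ ≤ 6 * L := by linarith
  · rw [cA]
    have h1 := (abs_le.1 hc1).2
    have h2 : μ * T.card ≤ μ * ((L : ℝ) ^ 2 / r + 3 * L) :=
      mul_le_mul_of_nonneg_left (by linarith) hμ0
    have h3 : μ * (3 * L) ≤ 3 * (L : ℝ) := mul_le_of_le_one_left (by positivity) hμ
    nlinarith
  · intro π hπ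
    have hlt := (Finset.mem_filter.1 hπ).2
    have hπP := (Finset.mem_filter.1 hπ).1
    have hπ1 : (1 : ℝ) ≤ π := by exact_mod_cast (hP π hπP).one_lt.le
    have hπ0 : (0 : ℝ) < π := by linarith
    rw [cAT]
    refine hlt.trans_le ?_
    have hpos : 0 < μ - ε := by
      by_contra hneg
      have h1 : (μ - ε) * ((L : ℝ) ^ 2 / (r * π)) ≤ 0 :=
        mul_nonpos_of_nonpos_of_nonneg (by linarith) (by positivity)
      have h2 : (0 : ℝ) ≤ (cnt (S ∩ Lam r h ∩ Lam π h) z p q L : ℝ) := Nat.cast_nonneg _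
      linarith
    have h1 := (abs_le.1 hc1).1
    have h2 : (μ - ε) * ((L : ℝ) ^ 2 / r) ≤ (μ - ε) * (T.card + 3 * L) :=
      mul_le_mul_of_nonneg_left (by linarith) hpos.le
    have h3 : (μ - ε) * (3 * L) ≤ 3 * (L : ℝ) := mul_le_of_le_one_left (by positivity) (by linarith)
    have h4 : (μ - ε) * ((L : ℝ) ^ 2 / r) ≤ (μ - ε / 4 - ε / 2) * T.card := by nlinarith
    have e1 : (μ - ε) * ((L : ℝ) ^ 2 / (r * π)) = (μ - ε) * ((L : ℝ) ^ 2 / r) / π := by
      field_simp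
    have e2 : (μ - ε / 4 - ε / 2) * ((T.card : ℝ) / π) = (μ - ε / 4 - ε / 2) * T.card / π := by
      field_simp
    rw [e1, e2]
    exact div_le_div_of_nonneg_right h4 hπ0.le
  · have : 0 ≤ (L : ℝ) * (12 / ε) := by positivity
    nlinarith

open Classical in
/-- (NM) a near-maximal box is near-maximal on most of its lines, and on most of the
intersections of a near-maximal line with another line -/
theorem nm (p q : ℤ × ℤ) (P : Finset ℕ) (hP : ∀ π ∈ P, π.Prime ∧ ¬ (π : ℤ) ∣ dt p q)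
    (g : ℕ → ℤ × ℤ) (hg : ∀ π ∈ P, ¬ ((π : ℤ) ∣ (g π).1 ∧ (π : ℤ) ∣ (g π).2)) {μ ε : ℝ}
    (hμ0 : 0 ≤ μ) (hμ : μ ≤ 1) (hε : 0 < ε) :
    ∃ L₀ : ℕ, ∀ L : ℕ, L₀ ≤ L → ∀ (S : Set (ℤ × ℤ)) (z : ℤ × ℤ),
      (μ * (L : ℝ) ^ 2 ≤ cnt S z p q L →
        ∑ π ∈ P.filter (fun π : ℕ => (cnt (S ∩ Lam π (g π)) z p q L : ℝ) <
          (μ - ε) * ((L : ℝ) ^ 2 / π)), (1 / π : ℝ) ≤ 4 / ε ^ 2 + 1) ∧
      (∀ ρ ∈ P, μ * ((L : ℝ) ^ 2 / ρ) ≤ cnt (S ∩ Lam ρ (g ρ)) z p q L →
        ∑ π ∈ (P.erase ρ).filter (fun π : ℕ =>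
          (cnt (S ∩ Lam ρ (g ρ) ∩ Lam π (g π)) z p q L : ℝ) <
            (μ - ε) * ((L : ℝ) ^ 2 / (ρ * π))), (1 / π : ℝ) ≤ 4 / ε ^ 2 + 1) := by
  have hPp : ∀ π ∈ P, π.Prime := fun π hπ => (hP π hπ).1
  obtain ⟨x, hx⟩ := nm_crt P hPp (fun π => (g π).1)
  obtain ⟨y, hy⟩ := nm_crt P hPp (fun π => (g π).2)
  set h : ℤ × ℤ := (x, y) with hh
  have hLam : ∀ π ∈ P, Lam π (g π) = Lam π h := fun π hπ => nm_lam_congr (hx π hπ) (hy π hπ)
  have hh0 : ∀ π ∈ P, ¬ ((π : ℤ) ∣ h.1 ∧ (π : ℤ) ∣ h.2) := by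
    intro π hπ ⟨h1, h2⟩
    refine hg π hπ ⟨?_, ?_⟩
    · have h3 : (π : ℤ) ∣ x - (x - (g π).1) := dvd_sub h1 (hx π hπ)
      simpa using h3
    · have h3 : (π : ℤ) ∣ y - (y - (g π).2) := dvd_sub h2 (hy π hπ)
      simpa using h3
  -- the bound for the moduli
  set B : ℕ := ∑ π ∈ P, π + 1 with hB
  have hBle : ∀ π ∈ P, π ≤ B := by
    intro π hπ
    have := Finset.single_le_sum (f := fun π : ℕ => π) (fun i _ => Nat.zero_le i) hπ
    omega
  have hB1 : 1 ≤ B := by omega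
  obtain ⟨L₁, hL₁⟩ := exists_nat_ge ((18 * (P.card : ℝ) ^ 2 + 3 + 12 / ε) * B)
  refine ⟨max L₁ (B ^ 3), fun L hL S z => ?_⟩
  have hLB : B ^ 3 ≤ L := (le_max_right _ _).trans hL
  have hL1' : ((18 * (P.card : ℝ) ^ 2 + 3 + 12 / ε) * B) ≤ L :=
    hL₁.trans (by exact_mod_cast (le_max_left _ _).trans hL)
  have hcnt : ∀ m : ℕ, 0 < m → m ≤ B ^ 3 → (∀ π : ℕ, π.Prime → π ∣ m → π ∈ P) →
      |(cnt (Lam m h) z p q L : ℝ) - (L : ℝ) ^ 2 / m| ≤ 3 * L := by
    intro m hm hmB hmP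
    have h1 := lat_cnt (p := p) (q := q) (g := h) m hm
      (fun π hπ hd => ⟨(hP π (hmP π hπ hd)).2, hh0 π (hmP π hπ hd)⟩) z L
    have h2 : (m : ℝ) ≤ L := by exact_mod_cast hmB.trans hLB
    exact h1.trans (by linarith)
  have hBB : ∀ a b c : ℕ, a ≤ B → b ≤ B → c ≤ B → a * b * c ≤ B ^ 3 := by
    intro a b c ha hb hc
    calc a * b * c ≤ B * B * B := Nat.mul_le_mul (Nat.mul_le_mul ha hb) hc
      _ = B ^ 3 := by ring
  constructor
  · intro hm
    have key := nm_core p q h z S P 1 L hμ0 hμ hε le_rfl hPp (fun π _ => Nat.coprime_one_left π)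
      (hcnt 1 one_pos (by simpa using hBB 1 1 1 hB1 hB1 hB1)
        (fun π hπ hd => absurd (Nat.dvd_one.1 hd) hπ.one_lt.ne'))
      (fun π hπ => hcnt (1 * π) (by simpa using (hPp π hπ).pos)
        (by simpa using hBB 1 1 π hB1 hB1 (hBle π hπ))
        (fun σ hσ hd => by
          rw [one_mul] at hd
          rwa [(Nat.prime_dvd_prime_iff_eq hσ (hPp π hπ)).1 hd]))
      (fun π hπ ρ hρ _ => hcnt (1 * π * ρ) (by simpa using ⟨(hPp π hπ).pos, (hPp ρ hρ).pos⟩)
        (hBB 1 π ρ hB1 (hBle π hπ) (hBle ρ hρ))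
        (fun σ hσ hd => by
          rw [one_mul] at hd
          rcases (Nat.Prime.dvd_mul hσ).1 hd with hd | hd
          · rwa [(Nat.prime_dvd_prime_iff_eq hσ (hPp π hπ)).1 hd]
          · rwa [(Nat.prime_dvd_prime_iff_eq hσ (hPp ρ hρ)).1 hd]))
      (le_trans (by
        push_cast
        rw [mul_one]
        refine le_mul_of_one_le_right (by positivity) ?_
        exact_mod_cast hB1) hL1') ?_
    · refine le_trans (le_of_eq ?_) key
      have e1 : Lam 1 h = Set.univ := by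
        ext y
        simp [Lam]
      simp only [e1, Set.inter_univ, Nat.cast_one, one_mul]
      refine Finset.sum_congr ?_ (fun _ _ => rfl)
      refine Finset.filter_congr fun π hπ => ?_
      rw [hLam π hπ]
    · have e1 : Lam 1 h = Set.univ := by
        ext y
        simp [Lam]
      rw [e1, Set.inter_univ]
      simpa using hm
  · intro ρ hρ hm
    have hne : ∀ π ∈ P.erase ρ, ρ ≠ π := fun π hπ => ((Finset.mem_erase.1 hπ).1).symm
    have hmem : ∀ π ∈ P.erase ρ, π ∈ P := fun π hπ => Finset.mem_of_mem_erase hπ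
    have key := nm_core p q h z S (P.erase ρ) ρ L hμ0 hμ hε (hPp ρ hρ).one_lt.le
      (fun π hπ => hPp π (hmem π hπ))
      (fun π hπ => (Nat.coprime_primes (hPp ρ hρ) (hPp π (hmem π hπ))).2 (hne π hπ))
      (hcnt ρ (hPp ρ hρ).pos (by simpa using hBB 1 1 ρ hB1 hB1 (hBle ρ hρ))
        (fun σ hσ hd => by rwa [(Nat.prime_dvd_prime_iff_eq hσ (hPp ρ hρ)).1 hd]))
      (fun π hπ => hcnt (ρ * π) (Nat.mul_pos (hPp ρ hρ).pos (hPp π (hmem π hπ)).pos)
        (by simpa using hBB 1 ρ π hB1 (hBle ρ hρ) (hBle π (hmem π hπ)))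
        (fun σ hσ hd => by
          rcases (Nat.Prime.dvd_mul hσ).1 hd with hd | hd
          · rwa [(Nat.prime_dvd_prime_iff_eq hσ (hPp ρ hρ)).1 hd]
          · rw [(Nat.prime_dvd_prime_iff_eq hσ (hPp π (hmem π hπ))).1 hd]
            exact hmem π hπ))
      (fun π hπ τ hτ _ => hcnt (ρ * π * τ)
        (Nat.mul_pos (Nat.mul_pos (hPp ρ hρ).pos (hPp π (hmem π hπ)).pos) (hPp τ (hmem τ hτ)).pos)
        (hBB ρ π τ (hBle ρ hρ) (hBle π (hmem π hπ)) (hBle τ (hmem τ hτ)))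
        (fun σ hσ hd => by
          rcases (Nat.Prime.dvd_mul hσ).1 hd with hd | hd
          · rcases (Nat.Prime.dvd_mul hσ).1 hd with hd | hd
            · rwa [(Nat.prime_dvd_prime_iff_eq hσ (hPp ρ hρ)).1 hd]
            · rw [(Nat.prime_dvd_prime_iff_eq hσ (hPp π (hmem π hπ))).1 hd]
              exact hmem π hπ
          · rw [(Nat.prime_dvd_prime_iff_eq hσ (hPp τ (hmem τ hτ))).1 hd]
            exact hmem τ hτ))
      (le_trans (by
        have h1 : ((P.erase ρ).card : ℝ) ≤ P.card := by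
          exact_mod_cast Finset.card_le_card (Finset.erase_subset _ _)
        have h2 : (ρ : ℝ) ≤ B := by exact_mod_cast hBle ρ hρ
        have h3 : ((P.erase ρ).card : ℝ) ^ 2 ≤ (P.card : ℝ) ^ 2 := by gcongr
        refine mul_le_mul (by linarith) h2 (Nat.cast_nonneg _) (by positivity)) hL1') ?_
    · refine le_trans (le_of_eq ?_) key
      refine Finset.sum_congr ?_ (fun _ _ => rfl)
      refine Finset.filter_congr fun π hπ => ?_
      rw [hLam π (hmem π hπ), hLam ρ hρ]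
    · rw [← hLam ρ hρ]
      exact hm

end Pool.Agent.CUB

end

section

namespace Pool.Agent.CUB

open Polynomial Pool.Agent.CF

open Complex in
theorem pitN_aux1 {a : ℝ} (ha₀ : 0 ≤ a) (ha₁ : a < 1) {z : ℂ} (hz : ‖z‖ = 1) :
    0 ≤ 3 * (-log (1 - a)).re + 4 * (-log (1 - a * z)).re + (-log (1 - a * z ^ 2)).re := by
  have hac₀ : ‖(a : ℂ)‖ < 1 := by
    simp only [Complex.norm_of_nonneg ha₀, ha₁]
  have hac₁ : ‖a * z‖ < 1 := by rwa [norm_mul, hz, mul_one]
  have hac₂ : ‖a * z ^ 2‖ < 1 := by rwa [norm_mul, norm_pow, hz, one_pow, mul_one]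
  rw [← ((hasSum_re <| hasSum_taylorSeries_neg_log hac₀).mul_left 3).add
    ((hasSum_re <| hasSum_taylorSeries_neg_log hac₁).mul_left 4) |>.add
    (hasSum_re <| hasSum_taylorSeries_neg_log hac₂) |>.tsum_eq]
  refine tsum_nonneg fun n ↦ ?_
  simp only [← ofReal_pow, div_natCast_re, ofReal_re, mul_pow, mul_re, ofReal_im, zero_mul,
    sub_zero]
  rcases n.eq_zero_or_pos with rfl | hn
  · simp
  · simp only [← mul_div_assoc, ← add_div]
    refine div_nonneg ?_ n.cast_nonneg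
    rw [← pow_mul, pow_mul', sq, mul_re, ← sq, ← sq, ← sq_norm_sub_sq_re, norm_pow, hz]
    convert! (show 0 ≤ 2 * a ^ n * ((z ^ n).re + 1) ^ 2 by positivity) using 1
    ring

open Complex in
/-- the local 3-4-1 inequality -/
theorem pitN_aux2 {a : ℝ} (ha₀ : 0 ≤ a) (ha₁ : a < 1) {z : ℂ} (hz : ‖z‖ = 1) :
    1 ≤ ‖((1 - (a : ℂ))⁻¹) ^ 3 * ((1 - a * z)⁻¹) ^ 4 * (1 - a * z ^ 2)⁻¹‖ := by
  have hac₀ : ‖(a : ℂ)‖ < 1 := by
    simp only [Complex.norm_of_nonneg ha₀, ha₁]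
  have hac₁ : ‖a * z‖ < 1 := by rwa [norm_mul, hz, mul_one]
  have hac₂ : ‖a * z ^ 2‖ < 1 := by rwa [norm_mul, norm_pow, hz, one_pow, mul_one]
  have hne : ∀ w : ℂ, ‖w‖ < 1 → 1 - w ≠ 0 := fun w hw h => by
    rw [← sub_eq_zero.1 h, norm_one] at hw
    exact lt_irrefl _ hw
  have hn : ∀ w : ℂ, ‖w‖ < 1 → ‖(1 - w)⁻¹‖ = Real.exp (-log (1 - w)).re := by
    intro w hw
    rw [← Complex.norm_exp, Complex.exp_neg, Complex.exp_log (hne w hw)]
  rw [norm_mul, norm_mul, norm_pow, norm_pow, hn _ hac₀, hn _ hac₁, hn _ hac₂, ← Real.exp_nat_mul,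
    ← Real.exp_nat_mul, ← Real.exp_add, ← Real.exp_add]
  refine Real.one_le_exp ?_
  push_cast
  exact pitN_aux1 ha₀ ha₁ hz

open NumberField IsDedekindDomain in
/-- the global 3-4-1 inequality -/
theorem pitN_aux3 (E : Type) [Field E] [NumberField E] {x : ℝ} (hx : 0 < x) (t : ℝ) :
    1 ≤ ‖dedekindZeta E (1 + x) ^ 3 * dedekindZeta E (1 + x + t * Complex.I) ^ 4 *
      dedekindZeta E (1 + x + (2 * t : ℝ) * Complex.I)‖ := by
  have h0 : 1 < (1 + x : ℂ).re := by simpa using hx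
  have h1 : 1 < (1 + x + t * Complex.I : ℂ).re := by simpa using hx
  have h2 : 1 < (1 + x + (2 * t : ℝ) * Complex.I : ℂ).re := by simpa using hx
  have e0 := Pool.Agent.RSK.eb_hasProd (k := E) h0
  have e1 := Pool.Agent.RSK.eb_hasProd (k := E) h1
  have e2 := Pool.Agent.RSK.eb_hasProd (k := E) h2
  have e3 := ((e0.pow 3).mul (e1.pow 4)).mul e2
  have hloc : ∀ v : HeightOneSpectrum (𝓞 E), 1 ≤ ‖(1 - (Pool.Agent.RSK.nv v : ℂ) ^ (-(1 + x : ℂ)))⁻¹ ^ 3 *
      (1 - (Pool.Agent.RSK.nv v : ℂ) ^ (-(1 + x + t * Complex.I)))⁻¹ ^ 4 *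
      (1 - (Pool.Agent.RSK.nv v : ℂ) ^ (-(1 + x + (2 * t : ℝ) * Complex.I)))⁻¹‖ := by
    intro v
    have hv2 := Pool.Agent.RSK.nv_two_le v
    set N := Pool.Agent.RSK.nv v
    have hN0 : (N : ℂ) ≠ 0 := by
      have : N ≠ 0 := by omega
      exact_mod_cast this
    have ha : (N : ℂ) ^ (-(1 + x : ℂ)) = (((N : ℝ) ^ (-(1 + x)) : ℝ) : ℂ) := by
      rw [Complex.ofReal_cpow (Nat.cast_nonneg N)]
      push_cast
      rfl
    have hz : ‖(N : ℂ) ^ (-(t * Complex.I))‖ = 1 := by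
      rw [Complex.norm_natCast_cpow_of_pos (by omega)]
      simp
    have hb : (N : ℂ) ^ (-(1 + x + t * Complex.I)) =
        (((N : ℝ) ^ (-(1 + x)) : ℝ) : ℂ) * (N : ℂ) ^ (-(t * Complex.I)) := by
      rw [← ha, ← Complex.cpow_add _ _ hN0]
      congr 1
      ring
    have hc : (N : ℂ) ^ (-(1 + x + (2 * t : ℝ) * Complex.I)) =
        (((N : ℝ) ^ (-(1 + x)) : ℝ) : ℂ) * ((N : ℂ) ^ (-(t * Complex.I))) ^ 2 := by
      rw [← ha, ← Complex.cpow_nat_mul, ← Complex.cpow_add _ _ hN0]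
      congr 1
      push_cast
      ring
    rw [ha, hb, hc]
    refine pitN_aux2 (by positivity) ?_ hz
    refine Real.rpow_lt_one_of_one_lt_of_neg ?_ (by linarith)
    have : (2 : ℝ) ≤ N := by exact_mod_cast hv2
    linarith
  refine ge_of_tendsto e3.norm ?_
  refine Filter.Eventually.of_forall fun s => ?_
  calc (1 : ℝ) = ∏ _b ∈ s, (1 : ℝ) := by rw [Finset.prod_const_one]
    _ ≤ _ := Finset.prod_le_prod (fun _ _ => zero_le_one) (fun v _ => hloc v)

open NumberField in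
/-- (PITN) the Dedekind zeta function does not vanish on the line `Re s = 1` -/
theorem pitN (E : Type) [Field E] [NumberField E] (W : ℂ → ℂ)
    (hW : DifferentiableOn ℂ W {s : ℂ | 0 < s.re})
    (hWz : ∀ s : ℂ, 1 < s.re → W s = (s - 1) * dedekindZeta E s) (hW1 : W 1 ≠ 0) (t : ℝ) :
    W (1 + t * Complex.I) ≠ 0 := by
  rcases eq_or_ne t 0 with rfl | ht
  · simpa using hW1
  intro hz
  have hopen : IsOpen {s : ℂ | 0 < s.re} := isOpen_lt continuous_const Complex.continuous_re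
  have hdiff : ∀ s : ℂ, 0 < s.re → DifferentiableAt ℂ W s := fun s hs =>
    hW.differentiableAt (hopen.mem_nhds hs)
  -- three functions of a real variable
  have hc : ∀ y : ℝ, Filter.Tendsto (fun x : ℝ => W (1 + x + y * Complex.I))
      (nhdsWithin 0 (Set.Ioi 0)) (nhds (W (1 + y * Complex.I))) := by
    intro y
    have h1 : ContinuousAt (fun x : ℝ => W (1 + x + y * Complex.I)) 0 := by
      refine ContinuousAt.comp (f := fun x : ℝ => (1 + x + y * Complex.I : ℂ)) (g := W) ?_ ?_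
      · refine (hdiff _ ?_).continuousAt
        simp
      · fun_prop
    have h2 := h1.tendsto.mono_left (nhdsWithin_le_nhds (s := Set.Ioi (0 : ℝ)))
    simpa using h2
  -- the derivative bounds the middle one
  have hd : HasDerivAt W (deriv W (1 + t * Complex.I)) (1 + t * Complex.I) :=
    (hdiff _ (by simp)).hasDerivAt
  have hO : Filter.Tendsto (fun x : ℝ => W (1 + x + t * Complex.I) / x)
      (nhdsWithin 0 (Set.Ioi 0)) (nhds (deriv W (1 + t * Complex.I))) := by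
    have h3 : HasDerivAt (fun x : ℝ => W (1 + x + t * Complex.I)) (deriv W (1 + t * Complex.I)) 0 := by
      have h4 : HasDerivAt (fun x : ℝ => (1 + x + t * Complex.I : ℂ)) 1 0 := by
        have := ((Complex.ofRealCLM.hasDerivAt (x := (0:ℝ))).const_add (1 : ℂ)).add_const
          (t * Complex.I)
        simpa using this
      have h5 : HasDerivAt W (deriv W (1 + t * Complex.I)) ((fun x : ℝ => (1 + x + t * Complex.I : ℂ)) 0) := by
        simpa using hd
      have := h5.scomp_of_eq (x := (0:ℝ)) h4 rfl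
      rw [one_smul] at this
      exact this
    have h6 := h3.tendsto_slope_zero_right
    refine h6.congr' ?_
    filter_upwards [self_mem_nhdsWithin] with x hx
    have hx0 : (x : ℂ) ≠ 0 := by
      have : (x : ℝ) ≠ 0 := ne_of_gt hx
      exact_mod_cast this
    simp only [zero_add, Complex.ofReal_zero, add_zero, hz, sub_zero, Complex.real_smul,
      Complex.ofReal_inv]
    field_simp
  -- the product
  have hlim : Filter.Tendsto (fun x : ℝ => x * (‖W (1 + x + (0 : ℝ) * Complex.I)‖ ^ 3 *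
      ‖W (1 + x + t * Complex.I) / x‖ ^ 4 * ‖W (1 + x + (2 * t : ℝ) * Complex.I)‖))
      (nhdsWithin 0 (Set.Ioi 0)) (nhds (0 * (‖W (1 + (0 : ℝ) * Complex.I)‖ ^ 3 *
      ‖deriv W (1 + t * Complex.I)‖ ^ 4 * ‖W (1 + (2 * t : ℝ) * Complex.I)‖))) := by
    refine Filter.Tendsto.mul ?_ ?_
    · exact (continuous_id.tendsto (0 : ℝ)).mono_left nhdsWithin_le_nhds
    · exact (((hc 0).norm.pow 3).mul (hO.norm.pow 4)).mul (hc (2 * t)).norm
  rw [zero_mul] at hlim
  have hlow : ∀ x : ℝ, 0 < x → |t| ^ 5 ≤ x * (‖W (1 + x + (0 : ℝ) * Complex.I)‖ ^ 3 *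
      ‖W (1 + x + t * Complex.I) / x‖ ^ 4 * ‖W (1 + x + (2 * t : ℝ) * Complex.I)‖) := by
    intro x hx
    have h1 := pitN_aux3 E hx t
    have e0 := hWz (1 + x + (0 : ℝ) * Complex.I) (by simpa using hx)
    have e1 := hWz (1 + x + t * Complex.I) (by simpa using hx)
    have e2 := hWz (1 + x + (2 * t : ℝ) * Complex.I) (by simpa using hx)
    rw [e0, e1, e2]
    have n0 : ‖((1 + x + (0 : ℝ) * Complex.I : ℂ) - 1)‖ = x := by
      have : ((1 + x + (0 : ℝ) * Complex.I : ℂ) - 1) = (x : ℂ) := by push_cast; ring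
      rw [this, Complex.norm_real, Real.norm_eq_abs, abs_of_pos hx]
    have n1 : ∀ y : ℝ, |y| ≤ ‖((1 + x + y * Complex.I : ℂ) - 1)‖ := by
      intro y
      have h2 := Complex.abs_im_le_norm ((1 + x + y * Complex.I : ℂ) - 1)
      simpa using h2
    have m1 := n1 t
    have m2 := n1 (2 * t)
    have m3 : |t| ≤ |2 * t| := by
      rw [abs_mul, abs_of_pos (by norm_num : (0 : ℝ) < 2)]
      linarith [abs_nonneg t]
    have z0 : (1 + x + (0 : ℝ) * Complex.I : ℂ) = 1 + x := by push_cast; ring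
    rw [norm_mul, norm_mul, norm_pow, norm_pow] at h1
    rw [norm_mul, norm_mul, norm_div, norm_mul, n0, z0, Complex.norm_real, Real.norm_eq_abs,
      abs_of_pos hx]
    set A := ‖dedekindZeta E (1 + x)‖
    set B := ‖dedekindZeta E (1 + x + t * Complex.I)‖
    set C := ‖dedekindZeta E (1 + x + (2 * t : ℝ) * Complex.I)‖
    set U := ‖(1 + x + t * Complex.I : ℂ) - 1‖
    set V := ‖(1 + x + (2 * t : ℝ) * Complex.I : ℂ) - 1‖
    have hrw : x * ((x * A) ^ 3 * (U * B / x) ^ 4 * (V * C)) = (U ^ 4 * V) * (A ^ 3 * B ^ 4 * C) := by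
      field_simp
    rw [hrw]
    have hU : |t| ^ 4 ≤ U ^ 4 := pow_le_pow_left₀ (abs_nonneg t) m1 4
    have hV : |t| ≤ V := m3.trans m2
    have hUV : |t| ^ 5 ≤ U ^ 4 * V := by
      calc |t| ^ 5 = |t| ^ 4 * |t| := by ring
        _ ≤ U ^ 4 * V := mul_le_mul hU hV (abs_nonneg t) (by positivity)
    calc |t| ^ 5 ≤ U ^ 4 * V := hUV
      _ = (U ^ 4 * V) * 1 := by ring
      _ ≤ _ := mul_le_mul_of_nonneg_left h1 (le_trans (by positivity) hUV)
  have hfin : |t| ^ 5 ≤ 0 := by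
    refine ge_of_tendsto hlim ?_
    filter_upwards [self_mem_nhdsWithin] with x hx using hlow x hx
  have : 0 < |t| ^ 5 := pow_pos (abs_pos.2 ht) 5
  linarith

end Pool.Agent.CUB

end

section

namespace Pool.Agent.CUB

open Polynomial Pool.Agent.CF

open NumberField

/-- the number of prime ideals of norm `n` -/
noncomputable def n1 (E : Type) [Field E] [NumberField E] (n : ℕ) : ℕ :=
  {P : Ideal (𝓞 E) | P.IsPrime ∧ Ideal.absNorm P = n}.ncard

open Classical in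
/-- `log p` times the number of prime ideals of norm `p`, `p` prime -/
noncomputable def fE (E : Type) [Field E] [NumberField E] (n : ℕ) : ℝ :=
  if n.Prime then (n1 E n : ℝ) * Real.log n else 0

section pita

open IsDedekindDomain (HeightOneSpectrum)
open Pool.Agent.RSK (nv)
open Pool.Agent.OZ (eul_p eul_f eul_u eul_facts eul_cE cE cE_le)

/-- the sum of the `p_v ^ (-3 / 2)` converges -/
theorem pita_summable (E : Type) [Field E] [NumberField E] :
    Summable (fun v : HeightOneSpectrum (𝓞 E) => ((eul_p v : ℕ) : ℝ) ^ (-(3 / 2) : ℝ)) := by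
  classical
  have hs : Summable (fun n : ℕ => (n : ℝ) ^ (-(3 / 2) : ℝ)) :=
    Real.summable_nat_rpow.2 (by norm_num)
  refine summable_of_sum_le (c := (Module.finrank ℚ E : ℝ) * ∑' n : ℕ, (n : ℝ) ^ (-(3 / 2) : ℝ))
    (fun v => by positivity) (fun u => ?_)
  rw [← Finset.sum_fiberwise_of_maps_to (s := u) (t := u.image eul_p) (g := eul_p)
    (fun v hv => Finset.mem_image_of_mem eul_p hv)]
  have h1 : ∀ p ∈ u.image eul_p, ∑ v ∈ u.filter (fun v => eul_p v = p),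
      ((eul_p v : ℕ) : ℝ) ^ (-(3 / 2) : ℝ) ≤ (Module.finrank ℚ E : ℝ) *
        (p : ℝ) ^ (-(3 / 2) : ℝ) := by
    intro p hp
    obtain ⟨v₀, -, rfl⟩ := Finset.mem_image.1 hp
    have hpp := (eul_facts v₀).1
    have h2 : ∑ v ∈ u.filter (fun v => eul_p v = eul_p v₀), ((eul_p v : ℕ) : ℝ) ^ (-(3 / 2) : ℝ) =
        ((u.filter (fun v => eul_p v = eul_p v₀)).card : ℝ) *
          ((eul_p v₀ : ℕ) : ℝ) ^ (-(3 / 2) : ℝ) := by
      rw [Finset.sum_congr rfl (g := fun _ => ((eul_p v₀ : ℕ) : ℝ) ^ (-(3 / 2) : ℝ)),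
        Finset.sum_const, nsmul_eq_mul]
      intro v hv
      rw [(Finset.mem_filter.1 hv).2]
    rw [h2]
    refine mul_le_mul_of_nonneg_right ?_ (by positivity)
    have h3 := eul_cE (E := E) hpp 0
    have h4 : ∑ v ∈ u.filter (fun v => eul_p v = eul_p v₀), (eul_u (eul_p v₀) 0 v : ℝ) ≤
        (cE E (eul_p v₀) 0 : ℝ) := sum_le_hasSum _ (fun v _ => by positivity) h3
    have h5 : ((u.filter (fun v => eul_p v = eul_p v₀)).card : ℝ) ≤
        ∑ v ∈ u.filter (fun v => eul_p v = eul_p v₀), (eul_u (eul_p v₀) 0 v : ℝ) := by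
      rw [Finset.card_eq_sum_ones, Nat.cast_sum]
      refine Finset.sum_le_sum fun v hv => ?_
      have h6 := (Finset.mem_filter.1 hv).2
      unfold eul_u
      rw [if_pos ⟨h6, dvd_zero _⟩]
      exact_mod_cast (eul_facts v).2.2.2
    have h6 : (cE E (eul_p v₀) 0 : ℝ) ≤ Module.finrank ℚ E := by exact_mod_cast cE_le E hpp 0
    linarith
  refine (Finset.sum_le_sum h1).trans ?_
  rw [← Finset.mul_sum]
  exact mul_le_mul_of_nonneg_left (hs.sum_le_tsum _ (fun n _ => by positivity)) (by positivity)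

variable {E : Type} [Field E] [NumberField E]

theorem pita_two : (2 : ℝ) ^ (-(3 / 4) : ℝ) ≤ 2 / 3 := by
  by_contra h
  rw [not_le] at h
  have h1 : (2 / 3 : ℝ) ^ 4 < ((2 : ℝ) ^ (-(3 / 4) : ℝ)) ^ 4 := by gcongr
  rw [← Real.rpow_natCast, ← Real.rpow_natCast, ← Real.rpow_mul (by norm_num)] at h1
  norm_num at h1

/-- the size of `N v ^ (-s)` -/
theorem pita_norm (v : HeightOneSpectrum (𝓞 E)) {s : ℂ} (hs : 3 / 4 < s.re) :
    ‖(nv v : ℂ) ^ (-s)‖ ≤ (nv v : ℝ) ^ (-(3 / 4) : ℝ) ∧ (nv v : ℝ) ^ (-(3 / 4) : ℝ) ≤ 2 / 3 := by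
  have h2 : (2 : ℝ) ≤ nv v := by exact_mod_cast Pool.Agent.RSK.nv_two_le v
  have h3 : 0 < nv v := by
    have := Pool.Agent.RSK.nv_two_le v
    omega
  constructor
  · rw [Complex.norm_natCast_cpow_of_pos h3, Complex.neg_re]
    exact Real.rpow_le_rpow_of_exponent_le (by linarith) (by linarith)
  · refine le_trans ?_ pita_two
    exact Real.rpow_le_rpow_of_nonpos (by norm_num) h2 (by norm_num)

open Classical in
/-- the part of degree one -/
noncomputable def pita_a (s : ℂ) (v : HeightOneSpectrum (𝓞 E)) : ℂ :=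
  if (nv v).Prime then (nv v : ℂ) ^ (-s) else 0

/-- the other part of the logarithm -/
noncomputable def pita_g (v : HeightOneSpectrum (𝓞 E)) (s : ℂ) : ℂ :=
  -Complex.log (1 - (nv v : ℂ) ^ (-s)) - pita_a s v

theorem pita_le (v : HeightOneSpectrum (𝓞 E)) {s : ℂ} (hs : 3 / 4 < s.re) :
    ‖pita_g v s‖ ≤ 3 * ((eul_p v : ℕ) : ℝ) ^ (-(3 / 2) : ℝ) := by
  obtain ⟨h1, h2⟩ := pita_norm v hs
  obtain ⟨hp, -, hN, hf⟩ := eul_facts v
  have hN' : nv v = eul_p v ^ eul_f v := hN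
  set z := (nv v : ℂ) ^ (-s) with hz
  have hz1 : ‖z‖ ≤ 2 / 3 := h1.trans h2
  have h3 : ‖-Complex.log (1 - z) - z‖ ≤ 3 / 2 * ‖z‖ ^ 2 := by
    have h4 := Complex.norm_log_one_add_sub_self_le (z := -z) (by rw [norm_neg]; linarith)
    rw [norm_neg, ← sub_eq_add_neg, sub_neg_eq_add] at h4
    have h5 : -Complex.log (1 - z) - z = -(Complex.log (1 - z) + z) := by ring
    rw [h5, norm_neg]
    have h6 : (1 - ‖z‖)⁻¹ ≤ 3 := by
      rw [inv_le_comm₀ (by linarith) (by norm_num)]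
      linarith
    calc _ ≤ ‖z‖ ^ 2 * (1 - ‖z‖)⁻¹ / 2 := h4
      _ ≤ ‖z‖ ^ 2 * 3 / 2 := by gcongr
      _ = _ := by ring
  have hp0 : (1 : ℝ) ≤ ((eul_p v : ℕ) : ℝ) := by exact_mod_cast hp.one_lt.le
  unfold pita_g pita_a
  by_cases hpr : (nv v).Prime
  · rw [if_pos hpr]
    have h4 : eul_f v = 1 := by
      by_contra h5
      rw [hN'] at hpr
      exact Nat.Prime.not_prime_pow (by omega) hpr
    rw [h4, pow_one] at hN'
    have h5 : ‖z‖ ^ 2 ≤ ((eul_p v : ℕ) : ℝ) ^ (-(3 / 2) : ℝ) := by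
      calc ‖z‖ ^ 2 ≤ ((nv v : ℝ) ^ (-(3 / 4) : ℝ)) ^ 2 := by gcongr
        _ = _ := by
          rw [hN', ← Real.rpow_natCast, ← Real.rpow_mul (by linarith)]
          norm_num
    refine h3.trans ?_
    linarith [sq_nonneg ‖z‖]
  · rw [if_neg hpr, sub_zero, norm_neg]
    have h4 : 2 ≤ eul_f v := by
      by_contra h5
      have h6 : eul_f v = 1 := by omega
      rw [h6, pow_one] at hN'
      rw [hN'] at hpr
      exact hpr hp
    have h5 : ‖z‖ ≤ ((eul_p v : ℕ) : ℝ) ^ (-(3 / 2) : ℝ) := by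
      refine h1.trans ?_
      rw [hN', Nat.cast_pow, ← Real.rpow_natCast, ← Real.rpow_mul (by linarith)]
      apply Real.rpow_le_rpow_of_exponent_le hp0
      have h6 : (2 : ℝ) ≤ eul_f v := by exact_mod_cast h4
      linarith
    have h6 : ‖Complex.log (1 - z)‖ ≤ 3 / 2 * ‖z‖ ^ 2 + ‖z‖ := by
      have h7 : Complex.log (1 - z) = -((-Complex.log (1 - z) - z) + z) := by ring
      rw [h7, norm_neg]
      exact (norm_add_le _ _).trans (add_le_add_left h3 _)
    have h7 : ‖z‖ ^ 2 ≤ 2 / 3 * ‖z‖ := by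
      rw [pow_two]
      exact mul_le_mul_of_nonneg_right hz1 (norm_nonneg z)
    linarith [norm_nonneg z]

theorem pita_open : IsOpen {s : ℂ | 3 / 4 < s.re} := isOpen_lt continuous_const Complex.continuous_re

theorem pita_diff (v : HeightOneSpectrum (𝓞 E)) :
    DifferentiableOn ℂ (pita_g v) {s : ℂ | 3 / 4 < s.re} := by
  intro s hs
  obtain ⟨h1, h2⟩ := pita_norm v hs
  have h3 : (nv v : ℂ) ≠ 0 := by
    have := Pool.Agent.RSK.nv_two_le v
    exact_mod_cast (by omega : nv v ≠ 0)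
  have h4 : DifferentiableAt ℂ (fun s : ℂ => (nv v : ℂ) ^ (-s)) s :=
    (differentiableAt_id.neg).const_cpow (Or.inl h3)
  have h5 : 1 - (nv v : ℂ) ^ (-s) ∈ Complex.slitPlane := by
    rw [sub_eq_add_neg]
    apply Complex.mem_slitPlane_of_norm_lt_one
    rw [norm_neg]
    linarith
  have h6 : DifferentiableAt ℂ (fun s : ℂ => -Complex.log (1 - (nv v : ℂ) ^ (-s))) s :=
    ((h4.const_sub 1).clog h5).neg
  have h7 : DifferentiableAt ℂ (fun s : ℂ => pita_a s v) s := by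
    unfold pita_a
    by_cases hpr : (nv v).Prime
    · simp only [if_pos hpr]
      exact h4
    · simp only [if_neg hpr]
      exact differentiableAt_const _
  exact (h6.sub h7).differentiableWithinAt

/-- the holomorphic part of the logarithm -/
noncomputable def pita_G (E : Type) [Field E] [NumberField E] (s : ℂ) : ℂ :=
  ∑' v : HeightOneSpectrum (𝓞 E), pita_g v s

theorem pita_G_diff : DifferentiableOn ℂ (pita_G E) {s : ℂ | 3 / 4 < s.re} :=
  Complex.differentiableOn_tsum_of_summable_norm ((pita_summable E).mul_left 3) pita_diff pita_open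
    (fun v _ hs => pita_le v hs)

open Classical in
/-- the number of prime ideals of norm `p`, `p` prime -/
noncomputable def pita_c (E : Type) [Field E] [NumberField E] (n : ℕ) : ℂ :=
  if n.Prime then (n1 E n : ℂ) else 0

theorem pita_card (n : ℕ) (hn : n ≠ 0) : Nat.card {v : HeightOneSpectrum (𝓞 E) // nv v = n} =
    n1 E n := by
  unfold n1
  rw [← Nat.card_coe_set_eq]
  apply Nat.card_congr
  exact {
    toFun := fun v => ⟨v.1.asIdeal, v.1.isPrime, v.2⟩
    invFun := fun P => ⟨⟨P.1, P.2.1, fun h => hn (by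
      have h1 := P.2.2
      rw [h, Ideal.absNorm_bot] at h1
      exact h1.symm)⟩, P.2.2⟩
    left_inv := fun v => rfl
    right_inv := fun P => rfl }

theorem pita_fin (n : ℕ) : Finite {v : HeightOneSpectrum (𝓞 E) // nv v = n} := by
  have h1 : Finite {I : Ideal (𝓞 E) // Ideal.absNorm I = n} := Ideal.finite_setOfPred_absNorm_eq n
  refine Finite.of_injective (fun v : {v : HeightOneSpectrum (𝓞 E) // nv v = n} =>
    (⟨v.1.asIdeal, v.2⟩ : {I : Ideal (𝓞 E) // Ideal.absNorm I = n})) ?_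
  intro v w h
  exact Subtype.ext (HeightOneSpectrum.ext (congrArg Subtype.val h))

theorem pita_a_summable {s : ℂ} (hs : 1 < s.re) :
    Summable (fun v : HeightOneSpectrum (𝓞 E) => pita_a s v) := by
  apply Summable.of_norm_bounded (Pool.Agent.RSK.summable_nv (k := E) hs)
  intro v
  unfold pita_a
  split_ifs
  · exact le_rfl
  · rw [norm_zero]
    exact norm_nonneg _

theorem pita_series {s : ℂ} (hs : 1 < s.re) :
    LSeriesHasSum (pita_c E) s (∑' v : HeightOneSpectrum (𝓞 E), pita_a s v) := by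
  unfold LSeriesHasSum
  have h1 := (Equiv.sigmaFiberEquiv (fun v : HeightOneSpectrum (𝓞 E) => nv v)).hasSum_iff.2
    (pita_a_summable (E := E) hs).hasSum
  refine h1.sigma fun n => ?_
  rcases Nat.eq_zero_or_pos n with rfl | hn
  · have h2 : ∀ x : {v : HeightOneSpectrum (𝓞 E) // nv v = 0}, False := by
      intro x
      have := Pool.Agent.RSK.nv_two_le x.1
      have h3 := x.2
      omega
    have h3 : IsEmpty {v : HeightOneSpectrum (𝓞 E) // nv v = 0} := ⟨h2⟩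
    rw [LSeries.term_zero]
    exact hasSum_empty
  · have hfin := pita_fin (E := E) n
    have := Fintype.ofFinite {v : HeightOneSpectrum (𝓞 E) // nv v = n}
    have h2 := hasSum_fintype (fun x : {v : HeightOneSpectrum (𝓞 E) // nv v = n} =>
      ((fun v => pita_a s v) ∘ (Equiv.sigmaFiberEquiv
        (fun v : HeightOneSpectrum (𝓞 E) => nv v))) ⟨n, x⟩)
    have h3 : ∀ x : {v : HeightOneSpectrum (𝓞 E) // nv v = n},
        ((fun v => pita_a s v) ∘ (Equiv.sigmaFiberEquiv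
          (fun v : HeightOneSpectrum (𝓞 E) => nv v))) ⟨n, x⟩ =
          if n.Prime then (n : ℂ) ^ (-s) else 0 := by
      intro x
      show pita_a s x.1 = _
      unfold pita_a
      rw [x.2]
    have h4 : ∑ x : {v : HeightOneSpectrum (𝓞 E) // nv v = n},
        ((fun v => pita_a s v) ∘ (Equiv.sigmaFiberEquiv
          (fun v : HeightOneSpectrum (𝓞 E) => nv v))) ⟨n, x⟩ = LSeries.term (pita_c E) s n := by
      rw [Finset.sum_congr rfl (fun x _ => h3 x), Finset.sum_const, nsmul_eq_mul,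
        Finset.card_univ, ← Nat.card_eq_fintype_card, pita_card n hn.ne',
        LSeries.term_of_ne_zero hn.ne']
      unfold pita_c
      split_ifs
      · rw [Complex.cpow_neg, div_eq_mul_inv]
      · rw [mul_zero, zero_div]
    rw [← h4]
    exact h2

theorem pita_exp {s : ℂ} (hs : 1 < s.re) :
    Complex.exp (pita_G E s + LSeries (pita_c E) s) = dedekindZeta E s := by
  have hs2 : 3 / 4 < s.re := by linarith
  have h1 : Summable (fun v : HeightOneSpectrum (𝓞 E) => pita_g v s) :=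
    Summable.of_norm_bounded ((pita_summable E).mul_left 3) (fun v => pita_le v hs2)
  have h2 := h1.hasSum.add (pita_a_summable (E := E) hs).hasSum
  have h3 := h2.cexp
  rw [(pita_series (E := E) hs).LSeries_eq]
  have h4 : (Complex.exp ∘ fun v : HeightOneSpectrum (𝓞 E) => pita_g v s + pita_a s v) =
      fun v => (1 - (nv v : ℂ) ^ (-s))⁻¹ := by
    funext v
    obtain ⟨h5, h6⟩ := pita_norm v hs2
    have h7 : 1 - (nv v : ℂ) ^ (-s) ≠ 0 := by
      intro h8
      have h9 : (nv v : ℂ) ^ (-s) = 1 := by linear_combination -h8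
      rw [h9, norm_one] at h5
      linarith
    show Complex.exp (pita_g v s + pita_a s v) = _
    unfold pita_g
    rw [sub_add_cancel, Complex.exp_neg, Complex.exp_log h7]
  rw [h4] at h3
  exact h3.unique (Pool.Agent.RSK.eb_hasProd (k := E) hs)

theorem pita_absc : LSeries.abscissaOfAbsConv (pita_c E) ≤ 1 := by
  apply LSeries.abscissaOfAbsConv_le_of_forall_lt_LSeriesSummable
  intro y hy
  exact (pita_series (E := E) (s := y) (by rw [Complex.ofReal_re]; exact hy)).LSeriesSummable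

end pita

/-- (PITA) the Dirichlet series of `fE` minus the pole is continuous up to the line `Re s = 1` -/
theorem pitA (E : Type) [Field E] [NumberField E] : ∃ F : ℂ → ℂ,
    ContinuousOn F {s : ℂ | 1 ≤ s.re} ∧ ∀ s : ℂ, 1 < s.re →
      F s = LSeries (fun n => (fE E n : ℂ)) s - 1 / (s - 1) := by
  obtain ⟨W, hW, hWz, hW1⟩ := Pool.Agent.OZ.zw E
  have hopen : IsOpen {s : ℂ | 0 < s.re} := isOpen_lt continuous_const Complex.continuous_re
  have hopen1 : IsOpen {s : ℂ | 1 < s.re} := isOpen_lt continuous_const Complex.continuous_re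
  have hsub : {s : ℂ | 1 ≤ s.re} ⊆ {s : ℂ | 0 < s.re} := fun s hs => by
    have h : (1 : ℝ) ≤ s.re := hs
    show 0 < s.re
    linarith
  have hsub2 : {s : ℂ | 1 ≤ s.re} ⊆ {s : ℂ | 3 / 4 < s.re} := fun s hs => by
    have h : (1 : ℝ) ≤ s.re := hs
    show 3 / 4 < s.re
    linarith
  have hWne : ∀ s ∈ {s : ℂ | 1 ≤ s.re}, W s ≠ 0 := by
    intro s hs
    rcases eq_or_lt_of_le (show (1 : ℝ) ≤ s.re from hs) with h | h
    · have h1 := pitN E W hW hWz hW1 s.im
      have h2 : (1 : ℂ) + s.im * Complex.I = s := by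
        apply Complex.ext
        · simp [h]
        · simp
      rwa [h2] at h1
    · rw [hWz s h]
      refine mul_ne_zero ?_ (Pool.Agent.OZ.nzl_zeta_ne E h)
      intro h1
      have h2 : s = 1 := by linear_combination h1
      rw [h2] at h
      simp at h
  refine ⟨fun s => deriv (pita_G E) s - deriv W s / W s, ?_, ?_⟩
  · have h1 : ContinuousOn (deriv (pita_G E)) {s : ℂ | 1 ≤ s.re} :=
      ((pita_G_diff (E := E)).deriv pita_open).continuousOn.mono hsub2
    have h2 : ContinuousOn (deriv W) {s : ℂ | 1 ≤ s.re} :=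
      (hW.deriv hopen).continuousOn.mono hsub
    exact h1.sub (h2.div (hW.continuousOn.mono hsub) hWne)
  · intro s hs
    have hs0 : s - 1 ≠ 0 := by
      intro h1
      have h2 : s = 1 := by linear_combination h1
      rw [h2] at hs
      simp at hs
    have h1 : HasDerivAt (pita_G E) (deriv (pita_G E) s) s :=
      ((pita_G_diff (E := E)).differentiableAt (pita_open.mem_nhds (by
        show 3 / 4 < s.re
        linarith))).hasDerivAt
    have habs : LSeries.abscissaOfAbsConv (pita_c E) < s.re :=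
      lt_of_le_of_lt pita_absc (by exact_mod_cast hs)
    have h2 := LSeries_hasDerivAt habs
    have h3 := (h1.add h2).cexp
    have h4 := ((hasDerivAt_id s).sub_const 1).mul h3
    have h5 : HasDerivAt W ((1 : ℂ) * Complex.exp (pita_G E s + LSeries (pita_c E) s) +
        (s - 1) * (Complex.exp (pita_G E s + LSeries (pita_c E) s) *
          (deriv (pita_G E) s + -LSeries (LSeries.logMul (pita_c E)) s))) s := by
      refine h4.congr_of_eventuallyEq ?_
      filter_upwards [hopen1.mem_nhds hs] with z hz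
      rw [hWz z hz, ← pita_exp (E := E) hz]
      rfl
    have h6 : LSeries (fun n => (fE E n : ℂ)) s = LSeries (LSeries.logMul (pita_c E)) s := by
      apply LSeries_congr
      intro n _
      unfold fE LSeries.logMul pita_c
      split_ifs
      · push_cast
        ring
      · simp
    have h7 := hWz s hs
    rw [← pita_exp (E := E) hs] at h7
    have h8 := Complex.exp_ne_zero (pita_G E s + LSeries (pita_c E) s)
    show deriv (pita_G E) s - deriv W s / W s = _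
    rw [h5.deriv, h7, h6]
    field_simp
    ring

end Pool.Agent.CUB

end

section

namespace Pool.Agent.CUB

open Polynomial Pool.Agent.CF

open NumberField in
/-- primes which are the norm of a prime ideal (of degree one) -/
def DegOne (E : Type) [Field E] [NumberField E] : Set ℕ :=
  {p | p.Prime ∧ ∃ P : Ideal (𝓞 E), P.IsPrime ∧ Ideal.absNorm P = p}

open NumberField in
/-- at most `[E : ℚ]` prime ideals have the norm `p` -/
theorem pit_n1_le (E : Type) [Field E] [NumberField E] {p : ℕ} (hp : p.Prime) :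
    n1 E p ≤ Module.finrank ℚ E := by
  unfold n1
  have hfin : {P : Ideal (𝓞 E) | P.IsPrime ∧ Ideal.absNorm P = p}.Finite :=
    (Ideal.finite_setOfPred_absNorm_eq p).subset fun P hP => hP.2
  rw [Set.ncard_eq_toFinset_card _ hfin]
  set s := hfin.toFinset with hs
  have hmem : ∀ P ∈ s, P.IsPrime ∧ Ideal.absNorm P = p := fun P hP => by
    rw [hs, Set.Finite.mem_toFinset] at hP
    exact hP
  have hne : ∀ P ∈ s, P ≠ ⊥ := by
    intro P hP h
    have h1 := (hmem P hP).2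
    rw [h, Ideal.absNorm_bot] at h1
    exact hp.ne_zero h1.symm
  have hdvd : ∏ P ∈ s, P ∣ Ideal.span {((p : ℕ) : 𝓞 E)} := by
    apply Finset.prod_primes_dvd
    · intro P hP
      exact (Ideal.prime_iff_isPrime (hne P hP)).2 (hmem P hP).1
    · intro P hP
      rw [Ideal.dvd_span_singleton]
      have := Ideal.absNorm_mem P
      rwa [(hmem P hP).2] at this
  have h2 : Ideal.absNorm (∏ P ∈ s, P) ∣ Ideal.absNorm (Ideal.span {((p : ℕ) : 𝓞 E)}) :=
    Ideal.absNorm_dvd_absNorm_of_le (Ideal.le_of_dvd hdvd)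
  rw [map_prod, Finset.prod_congr rfl (fun P hP => (hmem P hP).2), Finset.prod_const,
    Ideal.absNorm_span_natCast] at h2
  have h3 : Module.finrank ℤ (𝓞 E) = Module.finrank ℚ E := RingOfIntegers.rank E
  rw [h3] at h2
  exact (Nat.pow_dvd_pow_iff_le_right hp.one_lt).1 h2

theorem pit_fE_nonneg (E : Type) [Field E] [NumberField E] (n : ℕ) : 0 ≤ fE E n := by
  unfold fE
  split_ifs with h
  · exact mul_nonneg (Nat.cast_nonneg _) (Real.log_nonneg (by exact_mod_cast h.one_lt.le))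
  · exact le_rfl

open NumberField in
theorem pit_fE_le (E : Type) [Field E] [NumberField E] (n : ℕ) :
    fE E n ≤ Module.finrank ℚ E * (if n.Prime then Real.log n else 0) := by
  unfold fE
  split_ifs with h
  · apply mul_le_mul_of_nonneg_right _ (Real.log_nonneg (by exact_mod_cast h.one_lt.le))
    exact_mod_cast pit_n1_le E h
  · simp

open NumberField in
theorem pit_fE_ne (E : Type) [Field E] [NumberField E] (n : ℕ) (h : fE E n ≠ 0) :
    n ∈ DegOne E := by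
  unfold fE at h
  split_ifs at h with h1
  · refine ⟨h1, ?_⟩
    have h2 : n1 E n ≠ 0 := by
      intro h0
      apply h
      rw [h0, Nat.cast_zero, zero_mul]
    unfold n1 at h2
    obtain ⟨P, hP⟩ := Set.nonempty_of_ncard_ne_zero h2
    exact ⟨P, hP⟩
  · exact absurd rfl h

open Filter Topology in
theorem pit_tendsto (E : Type) [Field E] [NumberField E] :
    Tendsto (fun x : ℝ => (∑ k ∈ Finset.Icc 1 ⌊x⌋₊, fE E k) / x) atTop (𝓝 1) := by
  obtain ⟨F, hF1, hF2⟩ := pitA E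
  apply Pool.Agent.Lib_helper90.PNT.wiener_ikehara (C := Module.finrank ℚ E * Real.log 4)
    (A := 1) (F := F) (pit_fE_nonneg E)
  · intro n
    have h1 : ∑ k ∈ Finset.Icc 1 n, fE E k ≤
        ∑ k ∈ Finset.Icc 1 n, (Module.finrank ℚ E : ℝ) * (if k.Prime then Real.log k else 0) :=
      Finset.sum_le_sum fun k _ => pit_fE_le E k
    have h2 := Chebyshev.theta_le_log4_mul_x (x := (n : ℝ)) (Nat.cast_nonneg n)
    rw [Chebyshev.theta, Nat.floor_natCast, Finset.sum_filter] at h2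
    rw [← Finset.mul_sum] at h1
    refine h1.trans ?_
    rw [mul_assoc]
    apply mul_le_mul_of_nonneg_left _ (Nat.cast_nonneg _)
    exact h2
  · exact hF1
  · intro s hs
    rw [hF2 s hs]
    push_cast
    rfl

/-- (PIT) the prime ideal theorem in short multiplicative windows -/
theorem pit (E : Type) [Field E] [NumberField E] : Win (DegOne E) := by
  intro η hη
  set d : ℝ := (Module.finrank ℚ E : ℝ) with hd
  have hd0 : 0 < d := by
    rw [hd]
    exact_mod_cast Module.finrank_pos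
  set S : ℝ → ℝ := fun x => ∑ k ∈ Finset.Icc 1 ⌊x⌋₊, fE E k with hS
  have hT := pit_tendsto E
  set δ : ℝ := η / (2 * (2 + η)) with hδ
  have hδ0 : 0 < δ := by positivity
  obtain ⟨X₁, hX₁⟩ := (Metric.tendsto_atTop.1 hT) δ hδ0
  refine ⟨η / (4 * d * (1 + η)), by positivity, max (max X₁ (1 + η)) 2, by
    exact lt_of_lt_of_le (by norm_num) (le_max_right _ _), fun X hX => ?_⟩
  have hX1 : X₁ ≤ X := (le_max_left _ _).trans ((le_max_left _ _).trans hX)
  have hXη : 1 + η ≤ X := (le_max_right _ _).trans ((le_max_left _ _).trans hX)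
  have hX2 : 2 ≤ X := (le_max_right _ _).trans hX
  have hX0 : 0 < X := by linarith
  have hXX : X ≤ (1 + η) * X := by nlinarith
  have hY0 : 0 < (1 + η) * X := by positivity
  have hlogX : 0 < Real.log X := Real.log_pos (by linarith)
  have a1 := hX₁ X hX1
  have a2 := hX₁ ((1 + η) * X) (hX1.trans hXX)
  rw [Real.dist_eq, abs_lt] at a1 a2
  have b1 : S X ≤ (1 + δ) * X := by
    have : S X / X < 1 + δ := by linarith [a1.2]
    rw [div_lt_iff₀ hX0] at this
    exact this.le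
  have b2 : (1 - δ) * ((1 + η) * X) ≤ S ((1 + η) * X) := by
    have : 1 - δ < S ((1 + η) * X) / ((1 + η) * X) := by linarith [a2.1]
    rw [lt_div_iff₀ hY0] at this
    exact this.le
  have hfl : ⌊X⌋₊ ≤ ⌊(1 + η) * X⌋₊ := Nat.floor_mono hXX
  -- the sum over the window
  have hw : S ((1 + η) * X) = S X + ∑ k ∈ Finset.Ioc ⌊X⌋₊ ⌊(1 + η) * X⌋₊, fE E k := by
    simp only [hS]
    have e1 : ∀ m : ℕ, Finset.Icc 1 m = Finset.Ioc 0 m := fun m => by
      ext x; simp only [Finset.mem_Icc, Finset.mem_Ioc]; omega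
    rw [e1, e1, Finset.sum_Ioc_consecutive _ (Nat.zero_le _) hfl]
  have hlow : η / 2 * X ≤ ∑ k ∈ Finset.Ioc ⌊X⌋₊ ⌊(1 + η) * X⌋₊, fE E k := by
    have h1 : (1 - δ) * ((1 + η) * X) - (1 + δ) * X ≤
        ∑ k ∈ Finset.Ioc ⌊X⌋₊ ⌊(1 + η) * X⌋₊, fE E k := by linarith
    have h2 : (1 - δ) * ((1 + η) * X) - (1 + δ) * X = (η - δ * (2 + η)) * X := by ring
    have h3 : δ * (2 + η) = η / 2 := by
      rw [hδ]
      field_simp
    rw [h2, h3] at h1
    have h4 : (η - η / 2) * X = η / 2 * X := by ring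
    rwa [h4] at h1
  classical
  have hup : ∑ k ∈ Finset.Ioc ⌊X⌋₊ ⌊(1 + η) * X⌋₊, fE E k ≤
      (d * (2 * Real.log X) * ((1 + η) * X)) *
        ∑ p ∈ (Finset.Ioc ⌊X⌋₊ ⌊(1 + η) * X⌋₊).filter (fun p => p ∈ DegOne E), (1 / p : ℝ) := by
    rw [Finset.mul_sum, Finset.sum_filter]
    apply Finset.sum_le_sum
    intro k hk
    rw [Finset.mem_Ioc] at hk
    have hk0 : 0 < k := by omega
    have hkr : (0 : ℝ) < k := by exact_mod_cast hk0
    have hk1 : (1 : ℝ) ≤ k := by exact_mod_cast hk0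
    have hkY : (k : ℝ) ≤ (1 + η) * X :=
      (Nat.cast_le.2 hk.2).trans (Nat.floor_le hY0.le)
    split_ifs with h
    · have h1 : fE E k ≤ d * Real.log k := by
        refine (pit_fE_le E k).trans ?_
        rw [if_pos h.1]
      have h2 : Real.log k ≤ 2 * Real.log X := by
        have h3 : Real.log k ≤ Real.log ((1 + η) * X) := Real.log_le_log hkr hkY
        rw [Real.log_mul (by positivity) hX0.ne'] at h3
        have h4 : Real.log (1 + η) ≤ Real.log X := Real.log_le_log (by positivity) hXη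
        linarith
      have h5 : 1 ≤ ((1 + η) * X) * (1 / k) := by
        rw [mul_one_div, le_div_iff₀ hkr, one_mul]
        exact hkY
      calc fE E k ≤ d * Real.log k := h1
        _ ≤ d * (2 * Real.log X) := mul_le_mul_of_nonneg_left h2 hd0.le
        _ = d * (2 * Real.log X) * 1 := (mul_one _).symm
        _ ≤ d * (2 * Real.log X) * (((1 + η) * X) * (1 / k)) :=
            mul_le_mul_of_nonneg_left h5 (by positivity)
        _ = (d * (2 * Real.log X) * ((1 + η) * X)) * (1 / k) := by ring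
    · by_contra hcon
      exact h (pit_fE_ne E k (by
        intro h0
        rw [h0] at hcon
        exact hcon le_rfl))
  have hfin := hlow.trans hup
  have hconst : 0 < d * (2 * Real.log X) * ((1 + η) * X) := by positivity
  have e2 : η / (4 * d * (1 + η)) / Real.log X =
      (η / 2 * X) / (d * (2 * Real.log X) * ((1 + η) * X)) := by
    field_simp
    ring
  rw [e2, div_le_iff₀ hconst]
  refine hfin.trans (le_of_eq ?_)
  rw [mul_comm]

end Pool.Agent.CUB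

end

section

namespace Pool.Agent.CUB

open Polynomial Pool.Agent.CF

/-- a root in the ring of integers gives a root modulo every prime of degree one -/
theorem pri_root {O : Type*} [CommRing O] (P : Ideal O) (p : ℕ) (hp : p.Prime)
    (hP : Nat.card (O ⧸ P) = p) (f : ℤ[X]) (x : O) (hx : aeval x f = 0) :
    ∃ c : ℤ, (p : ℤ) ∣ f.eval c := by
  have : Fact p.Prime := ⟨hp⟩
  have h1 : (1 : O ⧸ P) ≠ 0 := by
    intro h
    have h2 : Nat.card (O ⧸ P) = 1 := by
      have : Subsingleton (O ⧸ P) := ⟨fun a b => by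
        rw [← mul_one a, ← mul_one b, h, mul_zero, mul_zero]⟩
      exact Nat.card_unique
    rw [hP] at h2
    exact hp.one_lt.ne' h2
  obtain ⟨c, hc⟩ := AddSubgroup.mem_zmultiples_iff.1
    (mem_zmultiples_of_prime_card (g' := Ideal.Quotient.mk P x) hP h1)
  have hc' : ((c : ℤ) : O ⧸ P) = Ideal.Quotient.mk P x := by
    rw [← hc]
    simp
  refine ⟨c, ?_⟩
  have h3 : ((f.eval c : ℤ) : O ⧸ P) = 0 := by
    have h4 : ((f.eval c : ℤ) : O ⧸ P) = aeval ((c : ℤ) : O ⧸ P) f := by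
      rw [Polynomial.aeval_def, Polynomial.eval₂_at_intCast]
      simp
    rw [h4, hc']
    have h5 := Polynomial.aeval_algebraMap_apply (A := O) (O ⧸ P) x f
    rw [Ideal.Quotient.algebraMap_eq] at h5
    rw [h5, hx, map_zero]
  have h6 : addOrderOf (1 : O ⧸ P) = p := by
    have h7 : addOrderOf (1 : O ⧸ P) ∣ p := by
      rw [← hP]
      exact addOrderOf_dvd_natCard _
    rcases (Nat.dvd_prime hp).1 h7 with h8 | h8
    · exact absurd (AddMonoid.addOrderOf_eq_one_iff.1 h8) h1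
    · exact h8
  have h9 : (f.eval c) • (1 : O ⧸ P) = 0 := by
    rw [zsmul_eq_mul, mul_one, h3]
  have h10 := addOrderOf_dvd_iff_zsmul_eq_zero.2 h9
  rwa [h6] at h10

/-- (PRI) degree one primes of a suitable number field -/
theorem pri1 (f : ℤ[X]) (hf : f.Monic) (hf0 : 0 < f.natDegree) (N : ℕ) (hN : 0 < N) :
    ∃ (E : Type) (_ : Field E) (_ : NumberField E) (P₀ : ℕ), ∀ p ∈ DegOne E, P₀ < p →
      p ≡ 1 [MOD N] ∧ ∃ c : ℤ, (p : ℤ) ∣ f.eval c := by
  obtain ⟨x, hx⟩ : ∃ x : ℂ, aeval x f = 0 := by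
    apply IsAlgClosed.exists_aeval_eq_zero
    intro h
    have := Polynomial.natDegree_eq_zero_iff_degree_le_zero.2 h.le
    omega
  obtain ⟨z, hz⟩ : ∃ z : ℂ, IsPrimitiveRoot z N := ⟨_, Complex.isPrimitiveRoot_exp N hN.ne'⟩
  have hxi : IsIntegral ℤ x := ⟨f, hf, by rwa [Polynomial.aeval_def] at hx⟩
  have hzi : IsIntegral ℤ z := hz.isIntegral hN
  let K : IntermediateField ℚ ℂ := IntermediateField.adjoin ℚ {x, z}
  have hK : NumberField K := {
    to_charZero := K.charZero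
    to_finiteDimensional := IntermediateField.finiteDimensional_adjoin_pair
      (hxi.tower_top) (hzi.tower_top) }
  have hxK : x ∈ K := IntermediateField.subset_adjoin ℚ _ (by simp)
  have hzK : z ∈ K := IntermediateField.subset_adjoin ℚ _ (by simp)
  have hinj : Function.Injective (algebraMap (NumberField.RingOfIntegers K) ℂ) :=
    (algebraMap K ℂ).injective.comp (NumberField.RingOfIntegers.coe_injective)
  have hx1 : IsIntegral ℤ (⟨x, hxK⟩ : K) := by
    have := (isIntegral_algebraMap_iff (R := ℤ) (A := K) (B := ℂ)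
      (algebraMap K ℂ).injective (x := ⟨x, hxK⟩)).1
    exact this hxi
  have hz1 : IsIntegral ℤ (⟨z, hzK⟩ : K) := by
    have := (isIntegral_algebraMap_iff (R := ℤ) (A := K) (B := ℂ)
      (algebraMap K ℂ).injective (x := ⟨z, hzK⟩)).1
    exact this hzi
  let X0 : NumberField.RingOfIntegers K := ⟨⟨x, hxK⟩, hx1⟩
  let Z0 : NumberField.RingOfIntegers K := ⟨⟨z, hzK⟩, hz1⟩
  have hX0 : aeval X0 f = 0 := by
    apply hinj
    rw [map_zero, ← Polynomial.aeval_algebraMap_apply]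
    exact hx
  have hZ0 : aeval Z0 (Polynomial.cyclotomic N ℤ) = 0 := by
    apply hinj
    rw [map_zero, ← Polynomial.aeval_algebraMap_apply]
    have h1 : algebraMap (NumberField.RingOfIntegers K) ℂ Z0 = z := rfl
    rw [h1, Polynomial.aeval_def, Polynomial.eval₂_eq_eval_map, Polynomial.map_cyclotomic]
    exact hz.isRoot_cyclotomic hN
  refine ⟨K, inferInstance, hK, N, ?_⟩
  rintro p ⟨hp, P, hP, hPn⟩ hNp
  have : Fact p.Prime := ⟨hp⟩
  have hcard : Nat.card (NumberField.RingOfIntegers K ⧸ P) = p := by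
    rw [← hPn, Ideal.absNorm_apply, Submodule.cardQuot_apply]
  refine ⟨?_, pri_root P p hp hcard f X0 hX0⟩
  obtain ⟨c, hc⟩ := pri_root P p hp hcard _ Z0 hZ0
  have hNz : ((N : ℕ) : ZMod p) ≠ 0 := by
    rw [Ne, ZMod.natCast_eq_zero_iff]
    intro h
    exact absurd (Nat.le_of_dvd hN h) (by omega)
  have : NeZero ((N : ℕ) : ZMod p) := ⟨hNz⟩
  have h2 : IsPrimitiveRoot ((c : ℤ) : ZMod p) N := by
    rw [← Polynomial.isRoot_cyclotomic_iff, Polynomial.IsRoot.def]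
    have h3 : (Polynomial.cyclotomic N (ZMod p)).eval ((c : ℤ) : ZMod p) =
        (((Polynomial.cyclotomic N ℤ).eval c : ℤ) : ZMod p) := by
      rw [← Polynomial.map_cyclotomic_int N (ZMod p), Polynomial.eval_map,
        Polynomial.eval₂_at_intCast]
      simp
    rw [h3, ZMod.intCast_zmod_eq_zero_iff_dvd]
    exact hc
  have hc0 : ((c : ℤ) : ZMod p) ≠ 0 := by
    intro h
    have := h2.pow_eq_one
    rw [h, zero_pow hN.ne'] at this
    exact zero_ne_one this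
  have h4 : N ∣ p - 1 := h2.dvd_of_pow_eq_one _ (ZMod.pow_card_sub_one_eq_one hc0)
  exact ((Nat.modEq_iff_dvd' hp.one_lt.le).2 h4).symm

/-- (PRI) a root modulo `p` gives an element whose index form is divisible by `p` -/
theorem pri2 {R : Type*} [CommRing R] [IsDomain R] {b : Module.Basis (Fin 3) ℤ R}
    (hb : b 0 = 1) : ∃ f : ℤ[X], f.Monic ∧ 0 < f.natDegree ∧ ∃ P₀ : ℕ, ∀ p : ℕ, p.Prime →
      P₀ < p → (∃ c : ℤ, (p : ℤ) ∣ f.eval c) →
      ∃ g : ℤ × ℤ, ¬ ((p : ℤ) ∣ g.1 ∧ (p : ℤ) ∣ g.2) ∧ (p : ℤ) ∣ Phi b g.1 g.2 := by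
  obtain ⟨I, hI⟩ : ∃ I : ℤ, I = Phi b 1 0 := ⟨_, rfl⟩
  have hI0 : I ≠ 0 := by
    rw [hI]
    exact Phi_ne hb (x := 1) (y := 0) (z := 0) (w := 1) (by norm_num)
  obtain ⟨α, hα⟩ : ∃ α : R, α = b 1 := ⟨_, rfl⟩
  have hel : el b 1 0 = α := by
    unfold el
    rw [hα]
    simp
  obtain ⟨f, hf⟩ : ∃ f : ℤ[X], f = (Algebra.leftMulMatrix b α).charpoly := ⟨_, rfl⟩
  have hmon : f.Monic := by rw [hf]; exact Matrix.charpoly_monic _
  have hdeg : f.natDegree = 3 := by
    rw [hf, Matrix.charpoly_natDegree_eq_dim]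
    simp
  have hroot : aeval α f = 0 := by rw [hf]; exact aeval_charpoly_leftMul α
  obtain ⟨f0, hf0⟩ : ∃ a : ℤ, a = f.coeff 0 := ⟨_, rfl⟩
  obtain ⟨f1, hf1⟩ : ∃ a : ℤ, a = f.coeff 1 := ⟨_, rfl⟩
  obtain ⟨f2, hf2⟩ : ∃ a : ℤ, a = f.coeff 2 := ⟨_, rfl⟩
  have hf3 : f.coeff 3 = 1 := by
    have := hmon.coeff_natDegree
    rwa [hdeg] at this
  have heq : α ^ 3 + (f2 : R) * α ^ 2 + (f1 : R) * α + (f0 : R) = 0 := by
    rw [Polynomial.aeval_eq_sum_range, hdeg, Finset.sum_range_succ, Finset.sum_range_succ,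
      Finset.sum_range_succ, Finset.sum_range_succ, Finset.sum_range_zero, hf3, ← hf0, ← hf1,
      ← hf2] at hroot
    simp only [zsmul_eq_mul, pow_zero, pow_one] at hroot
    push_cast at hroot
    linear_combination hroot
  have hev : ∀ c : ℤ, f.eval c = c ^ 3 + f2 * c ^ 2 + f1 * c + f0 := by
    intro c
    rw [Polynomial.eval_eq_sum_range, hdeg, Finset.sum_range_succ, Finset.sum_range_succ,
      Finset.sum_range_succ, Finset.sum_range_succ, Finset.sum_range_zero, hf3, ← hf0, ← hf1,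
      ← hf2]
    ring
  refine ⟨f, hmon, by omega, I.natAbs, ?_⟩
  rintro p hp hpI ⟨c, hc⟩
  -- the square of the generator
  obtain ⟨a, ha⟩ : ∃ a : ℤ, a = b.repr (α ^ 2) 1 := ⟨_, rfl⟩
  obtain ⟨e, he⟩ : ∃ e : ℤ, e = b.repr (α ^ 2) 0 := ⟨_, rfl⟩
  have hI2 : b.repr (α ^ 2) 2 = I := by
    rw [hI, Phi_eq, hel]
    ring
  have hsq : α ^ 2 = (e : R) + (a : R) * α + (I : R) * b 2 := by
    have := decomp hb (α ^ 2)
    rw [← ha, ← he, hI2, ← hα] at this
    exact this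
  obtain ⟨u, hu⟩ : ∃ u : ℤ, u = c + f2 := ⟨_, rfl⟩
  obtain ⟨w, hw⟩ : ∃ w : ℤ, w = c ^ 2 + f2 * c + f1 := ⟨_, rfl⟩
  obtain ⟨s, hs⟩ : ∃ s : ℤ, s = c ^ 2 + u * c + w := ⟨_, rfl⟩
  refine ⟨(a + u, I), ?_, ?_⟩
  · rintro ⟨-, h2⟩
    have h3 := Int.natAbs_dvd_natAbs.2 h2
    simp only [Int.natAbs_natCast] at h3
    exact absurd (Nat.le_of_dvd (Int.natAbs_pos.2 hI0) h3) (by omega)
  · have hγ : el b (a + u) I = α ^ 2 + (u : R) * α - (e : R) := by
      unfold el
      rw [hsq, ← hα]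
      push_cast
      ring
    have hkey : el b (a + u) I ^ 2 =
        (((s - 2 * (w + e)) * 0 + (-(f.eval c) * (u + c) + s * (w + e) - (w + e) ^ 2 * 1) : ℤ) : R)
        + (((s - 2 * (w + e)) * (a + u) - f.eval c : ℤ) : R) * b 1
        + (((s - 2 * (w + e)) * I : ℤ) : R) * b 2 := by
      have h1 : el b (a + u) I ^ 2 =
          (((s - 2 * (w + e) : ℤ)) : R) * el b (a + u) I - ((f.eval c : ℤ) : R) * α
          + (((-(f.eval c) * (u + c) + s * (w + e) - (w + e) ^ 2 : ℤ)) : R) := by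
        rw [hγ, hev, hs, hw, hu]
        push_cast
        linear_combination (α + (f2 : R) + 2 * (c : R)) * heq
      rw [h1]
      unfold el
      rw [← hα]
      push_cast
      ring
    rw [Phi_eq, hkey, repr_lin1 hb, repr_lin2 hb]
    have h5 : (a + u) * ((s - 2 * (w + e)) * I) - I * ((s - 2 * (w + e)) * (a + u) - f.eval c) =
        I * f.eval c := by ring
    rw [h5]
    exact Dvd.dvd.mul_left hc I

/-- (PRI) the set of primes -/
theorem win {R : Type*} [CommRing R] [IsDomain R] {b : Module.Basis (Fin 3) ℤ R}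
    (hb : b 0 = 1) (N : ℕ) (hN : 0 < N) : ∃ Q : Set ℕ, Win Q ∧ ∀ p ∈ Q, p.Prime ∧
      p ≡ 1 [MOD N] ∧ ∃ g : ℤ × ℤ, ¬ ((p : ℤ) ∣ g.1 ∧ (p : ℤ) ∣ g.2) ∧
        (p : ℤ) ∣ Phi b g.1 g.2 := by
  obtain ⟨f, hf, hf0, P₁, h1⟩ := pri2 hb
  obtain ⟨E, _, _, P₂, h2⟩ := pri1 f hf hf0 N hN
  refine ⟨{p | p ∈ DegOne E ∧ P₁ < p ∧ P₂ < p}, ?_, ?_⟩
  · intro η hη
    obtain ⟨c, hc, X₀, hX₀, h3⟩ := pit E η hη
    refine ⟨c, hc, max X₀ (max (P₁ + 1) (P₂ + 1)), lt_of_lt_of_le hX₀ (le_max_left _ _), ?_⟩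
    intro X hX
    have hX1 : X₀ ≤ X := le_trans (le_max_left _ _) hX
    have hX2 : (P₁ : ℝ) + 1 ≤ X := le_trans (le_trans (le_max_left _ _) (le_max_right _ _)) hX
    have hX3 : (P₂ : ℝ) + 1 ≤ X := le_trans (le_trans (le_max_right _ _) (le_max_right _ _)) hX
    refine le_trans (h3 X hX1) (le_of_eq ?_)
    have hX0 : 0 ≤ X := by linarith
    refine Finset.sum_congr ?_ (fun _ _ => rfl)
    ext p
    simp only [Finset.mem_filter, Finset.mem_Ioc]
    have h4 : P₁ + 1 ≤ ⌊X⌋₊ := Nat.le_floor (by push_cast; exact hX2)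
    have h5 : P₂ + 1 ≤ ⌊X⌋₊ := Nat.le_floor (by push_cast; exact hX3)
    constructor
    · rintro ⟨hp, h⟩
      exact ⟨hp, h, by omega, by omega⟩
    · rintro ⟨hp, h⟩
      exact ⟨hp, h.1⟩
  · rintro p ⟨hp, hp1, hp2⟩
    obtain ⟨h3, h4⟩ := h2 p hp hp2
    exact ⟨hp.1, h3, h1 p hp.1 hp1 h4⟩

end Pool.Agent.CUB

end
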