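import Pool.Agent.Lib_helper43.CU.F1
import Pool.Agent.Lib_helper43.CU.F2
import Pool.Agent.Lib_helper43.CU.F3
import Pool.Agent.Lib_helper43.CU.F4

/-!
# part 5: the core
-/

set_option autoImplicit false

section

namespace Pool.Agent.CUB

open Polynomial Pool.Agent.CF

theorem co_vl (p q : ℤ × ℤ) (T Y J n₀ : ℤ) (u₀ : ℤ × ℤ) (w : ℤ × ℤ × ℤ) :
    vl T Y J n₀ u₀ + fam p q T Y J w =
      vl T Y J (n₀ + w.1) (u₀ + pt 0 p q w.2.1 w.2.2) := by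
  ext
  · simp [vl, fam, pt]; ring
  · simp [vl, fam, pt]; ring

theorem co_dens_eq (l : ℕ) (P : ℤ × ℤ × ℤ → Prop) : dens l P = {w | w ∈ box3 l ∧ P w}.ncard := by
  classical
  unfold dens
  rw [← Set.ncard_coe_finset]
  congr 1
  ext w
  simp

theorem co_dens_mono {l : ℕ} {P Q : ℤ × ℤ × ℤ → Prop} (h : ∀ w ∈ box3 l, P w → Q w) :
    dens l P ≤ dens l Q := by
  classical
  unfold dens
  apply Finset.card_le_card
  intro w hw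
  rw [Finset.mem_filter] at hw ⊢
  exact ⟨hw.1, h w hw.1 hw.2⟩

theorem co_dens_or {l : ℕ} (P Q : ℤ × ℤ × ℤ → Prop) :
    dens l (fun w => P w ∨ Q w) ≤ dens l P + dens l Q := by
  rw [co_dens_eq, co_dens_eq, co_dens_eq]
  refine (Set.ncard_le_ncard ?_ ?_).trans (Set.ncard_union_le _ _)
  · rintro w ⟨h1, h2 | h2⟩
    · exact Or.inl ⟨h1, h2⟩
    · exact Or.inr ⟨h1, h2⟩
  · exact ((box3 l).finite_toSet.subset fun w h => h.1).union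
      ((box3 l).finite_toSet.subset fun w h => h.1)

theorem co_dens_ex {l : ℕ} {P : ℤ × ℤ × ℤ → Prop} (h : 0 < dens l P) : ∃ w ∈ box3 l, P w := by
  classical
  unfold dens at h
  obtain ⟨w, hw⟩ := Finset.card_pos.mp h
  rw [Finset.mem_filter] at hw
  exact ⟨w, hw.1, hw.2⟩

/-- picking a point outside of two small sets -/
theorem co_pick {l : ℕ} {P Q₁ Q₂ : ℤ × ℤ × ℤ → Prop}
    (h : (dens l Q₁ : ℝ) + dens l Q₂ < dens l P) : ∃ w ∈ box3 l, P w ∧ ¬ Q₁ w ∧ ¬ Q₂ w := by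
  have h1 : dens l P ≤ dens l (fun w => P w ∧ ¬ Q₁ w ∧ ¬ Q₂ w) + (dens l Q₁ + dens l Q₂) := by
    refine (co_dens_mono (Q := fun w => (P w ∧ ¬ Q₁ w ∧ ¬ Q₂ w) ∨ (Q₁ w ∨ Q₂ w)) ?_).trans ?_
    · intro w _ hP
      by_cases a : Q₁ w
      · exact Or.inr (Or.inl a)
      by_cases c : Q₂ w
      · exact Or.inr (Or.inr c)
      exact Or.inl ⟨hP, a, c⟩
    · exact (co_dens_or _ _).trans (Nat.add_le_add_left (co_dens_or _ _) _)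
  have h2 : ((dens l P : ℕ) : ℝ) ≤ dens l (fun w => P w ∧ ¬ Q₁ w ∧ ¬ Q₂ w) +
      (dens l Q₁ + dens l Q₂) := by exact_mod_cast h1
  apply co_dens_ex
  have : (0 : ℝ) < dens l (fun w => P w ∧ ¬ Q₁ w ∧ ¬ Q₂ w) := by linarith
  exact_mod_cast this

theorem co_mem {l : ℕ} {w : ℤ × ℤ × ℤ} : w ∈ box3 l ↔
    (0 ≤ w.1 ∧ w.1 < l) ∧ (0 ≤ w.2.1 ∧ w.2.1 < l) ∧ (0 ≤ w.2.2 ∧ w.2.2 < l) := by
  unfold box3
  rw [Finset.mem_product, Finset.mem_product, Finset.mem_Ico, Finset.mem_Ico, Finset.mem_Ico]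

theorem co_cop {N p : ℕ} (h : p ≡ 1 [MOD N]) : IsCoprime (p : ℤ) (N : ℤ) := by
  rw [Nat.isCoprime_iff_coprime]
  have h1 := h.gcd_eq
  rw [Nat.gcd_one_left] at h1
  exact h1

theorem co_one_add (M a : ℤ) : IsCoprime (1 + M * a) M := ⟨1, -a, by ring⟩

end Pool.Agent.CUB

end

section

namespace Pool.Agent.CUB

open Polynomial Pool.Agent.CF

/-- the data of a node `x = N r + D t` -/
structure Node (N : ℕ) (I : ℤ) (P X τ D P' : ℕ) (t I' : ℤ) : Prop where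
  D0 : 0 < D
  hP : P = D * P'
  hI : I = D * I'
  PI : (P : ℤ) ∣ I
  ct : IsCoprime t (N * I)
  cD : IsCoprime (D : ℤ) N
  lo : (X : ℤ) ≤ D * t
  hi : (D : ℤ) * t ≤ X + τ
  N1 : (N : ℤ) ∣ D * t - 1
  N2 : (N : ℤ) ∣ t - 1

section
variable {N : ℕ} {I : ℤ} {P X τ D P' : ℕ} {t I' : ℤ}

theorem Node.t0 (h : Node N I P X τ D P' t I') (hX : 1 ≤ X) : 0 < t := by
  have h1 := h.lo
  have h2 : (1 : ℤ) ≤ X := by exact_mod_cast hX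
  have h3 : (0 : ℤ) < D * t := by linarith
  have h4 : (0 : ℤ) < D := by exact_mod_cast h.D0
  exact (mul_pos_iff_of_pos_left h4).mp h3

theorem Node.c1 (h : Node N I P X τ D P' t I') : IsCoprime t (N * I') := by
  have h1 := h.ct
  rw [h.hI] at h1
  have : (N : ℤ) * (D * I') = (N * I') * D := by ring
  rw [this] at h1
  exact h1.of_mul_right_left

theorem Node.c2 (h : Node N I P X τ D P' t I') : IsCoprime ((D : ℤ) * t) (N * 1) := by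
  rw [mul_one]
  exact IsCoprime.mul_left h.cD h.ct.of_mul_right_left

theorem Node.c3 (h : Node N I P X τ D P' t I') : IsCoprime (1 * t) (N * (P' : ℤ)) := by
  rw [one_mul]
  have h1 := h.ct
  obtain ⟨k, hk⟩ := h.PI
  rw [h.hP] at hk
  have : (N : ℤ) * I = (N * P') * (D * k) := by rw [hk]; push_cast; ring
  rw [this] at h1
  exact h1.of_mul_right_left

theorem co_abs (h : Node N I P X τ D P' t I') : |(D : ℤ) * t - X| ≤ τ := by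
  rw [abs_le]
  constructor
  · have := h.lo
    have h2 : (0 : ℤ) ≤ τ := by positivity
    linarith
  · have := h.hi
    linarith

/-- the mean along the `a`-family -/
theorem co_meanA (h : Node N I P X τ D P' t I') (hX : 1 ≤ X) {p q : ℤ × ℤ} {e : ℤ}
    (hd : dt p q ≠ 0) (hN : dt p q = e * N) (he : e * e = 1)
    (hπ : ∀ π : ℕ, π.Prime → π ∣ D → ¬ (π : ℤ) ∣ dt p q) {δ : ℝ} (hδ : 0 < δ)
    (hδ1 : δ ≤ 1 / 4) : ∃ l₀ : ℕ, ∀ l : ℕ, l₀ ≤ l → ∀ L : ℕ, X * l ≤ L → L < X * (l + 1) →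
      ∀ (S : Set (ℤ × ℤ)) (z : ℤ × ℤ) (n₀ : ℤ) (u₀ : ℤ × ℤ) (μ : ℝ), 0 ≤ μ → μ ≤ 1 →
        (∀ w ∈ box3 l, ∀ F : ℤ × ℤ,
          F = vl (D * t) N (N * I) n₀ u₀ + fam p q (D * t) N (N * I) w →
          dt p q ∣ dt (F - z) q ∧ dt p q ∣ dt p (F - z) ∧
            |(dt (F - z) q : ℝ) - X * w.2.1 * dt p q| ≤ δ * L ∧
            |(dt p (F - z) : ℝ) - X * w.2.2 * dt p q| ≤ δ * L) →
        μ * ((L : ℝ) ^ 2 / D) ≤ cnt (S ∩ {y | (D : ℤ) ∣ y.2}) z p q L →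
        (μ - 12 * δ) * (l : ℝ) ^ 3 ≤
          dens l (fun w => vl (D * t) N (N * I) n₀ u₀ + fam p q (D * t) N (N * I) w ∈ S) := by
  have hXr : (1 : ℝ) ≤ X := by exact_mod_cast hX
  obtain ⟨l₀, hl₀⟩ := mean p q hd D h.D0 (θ := X) hXr hδ hδ1
  refine ⟨l₀, fun l hl L hL1 hL2 S z n₀ u₀ μ hμ0 hμ1 hF hμ => ?_⟩
  have hN0 : (N : ℤ) ≠ 0 := by
    intro h0
    rw [h0, mul_zero] at hN
    exact hd hN
  have hD0 : (0 : ℤ) < D := by exact_mod_cast h.D0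
  have ht := h.t0 hX
  refine hl₀ l hl L (by exact_mod_cast hL1) (by exact_mod_cast hL2) S z
    (fun w => vl (D * t) N (N * I) n₀ u₀ + fam p q (D * t) N (N * I) w)
    (kap p q N D t 1 I' e) μ hμ0 hμ1 ?_ ?_ ?_ ?_ ?_ ?_ hμ
  · intro w hw
    obtain ⟨h1, h2, -, -⟩ := hF w hw _ rfl
    exact ⟨h1, h2⟩
  · intro w _
    show (D : ℤ) ∣ (vl (D * t) N (N * I) n₀ u₀ + fam p q (D * t) N (N * I) w).2
    rw [co_vl, h.hI]
    refine ⟨t * (u₀ + pt 0 p q w.2.1 w.2.2).2 - N * I' * (u₀ + pt 0 p q w.2.1 w.2.2).1, ?_⟩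
    simp only [vl]
    ring
  · intro w _ w' _ hww
    have h1 : fam p q (D * t) (N * 1) (N * (D * I')) (w - w') = 0 := by
      rw [map_sub, sub_eq_zero, mul_one, ← h.hI]
      exact add_left_cancel hww
    exact ker2 hN he hN0 hD0.ne' ht.ne' h.c1 h.c2 h1
  · have hlo : (X : ℝ) ≤ D * t := by exact_mod_cast h.lo
    have hDr : (0 : ℝ) < D := by exact_mod_cast h.D0
    have hX0 : (0 : ℝ) < X := by linarith
    show (1 - δ) * (X : ℝ) ^ 2 / D ≤ (((D : ℤ) * t ^ 2 : ℤ) : ℝ)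
    rw [div_le_iff₀ hDr]
    push_cast
    have h1 : (X : ℝ) ^ 2 ≤ (D * t) ^ 2 := by
      exact pow_le_pow_left₀ hX0.le hlo 2
    have h2 : (0 : ℝ) ≤ δ * (X : ℝ) ^ 2 := by positivity
    nlinarith
  · intro w hw
    obtain ⟨-, -, h1, h2⟩ := hF w hw _ rfl
    exact ⟨h1, h2⟩
  · exact lat_snd D h.D0 hπ z L

/-- the mean along the `c`-family -/
theorem co_meanC (h : Node N I P X τ D P' t I') {p₁ : ℕ} (hp₁ : 0 < p₁) (hX : p₁ ≤ X)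
    {p q : ℤ × ℤ} {e : ℤ}
    (hd : dt p q ≠ 0) (hN : dt p q = e * N) (he : e * e = 1) {δ : ℝ} (hδ : 0 < δ)
    (hδ1 : δ ≤ 1 / 4) (hDp : (D : ℝ) ≤ (1 + δ / 2) * p₁) :
    ∃ l₀ : ℕ, ∀ l : ℕ, l₀ ≤ l → ∀ L : ℕ, X * l ≤ p₁ * L → p₁ * L < X * (l + 1) →
      ∀ (S : Set (ℤ × ℤ)) (z : ℤ × ℤ) (n₀ : ℤ) (u₀ : ℤ × ℤ) (μ : ℝ), 0 ≤ μ → μ ≤ 1 →
        (∀ w ∈ box3 l, ∀ F : ℤ × ℤ,
          F = vl t (N * P') (N * I') n₀ u₀ + fam p q t (N * P') (N * I') w →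
          dt p q ∣ dt (F - z) q ∧ dt p q ∣ dt p (F - z) ∧
            |(dt (F - z) q : ℝ) - X / p₁ * w.2.1 * dt p q| ≤ δ * L ∧
            |(dt p (F - z) : ℝ) - X / p₁ * w.2.2 * dt p q| ≤ δ * L) →
        μ * (L : ℝ) ^ 2 ≤ cnt S z p q L →
        (μ - 12 * δ) * (l : ℝ) ^ 3 ≤
          dens l (fun w => vl t (N * P') (N * I') n₀ u₀ + fam p q t (N * P') (N * I') w ∈ S) := by
  have hp₁r : (0 : ℝ) < p₁ := by exact_mod_cast hp₁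
  have hX1 : 1 ≤ X := le_trans hp₁ hX
  have hXr : (1 : ℝ) ≤ X / p₁ := by
    rw [le_div_iff₀ hp₁r, one_mul]
    exact_mod_cast hX
  obtain ⟨l₀, hl₀⟩ := mean p q hd 1 one_pos (θ := X / p₁) hXr hδ hδ1
  refine ⟨l₀, fun l hl L hL1 hL2 S z n₀ u₀ μ hμ0 hμ1 hF hμ => ?_⟩
  have hN0 : (N : ℤ) ≠ 0 := by
    intro h0
    rw [h0, mul_zero] at hN
    exact hd hN
  have ht := h.t0 hX1
  have hL1' : (X : ℝ) * l ≤ p₁ * L := by exact_mod_cast hL1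
  have hL2' : (p₁ : ℝ) * L < X * (l + 1) := by exact_mod_cast hL2
  have hset : S ∩ {y : ℤ × ℤ | ((1 : ℕ) : ℤ) ∣ y.2} = S := by
    ext y
    simp
  refine hl₀ l hl L ?_ ?_ S z
    (fun w => vl t (N * P') (N * I') n₀ u₀ + fam p q t (N * P') (N * I') w)
    (kap p q N 1 t P' I' e) μ hμ0 hμ1 ?_ ?_ ?_ ?_ ?_ ?_ ?_
  · rw [div_mul_eq_mul_div, div_le_iff₀ hp₁r]
    linarith
  · rw [div_mul_eq_mul_div, lt_div_iff₀ hp₁r]
    linarith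
  · intro w hw
    obtain ⟨h1, h2, -, -⟩ := hF w hw _ rfl
    exact ⟨h1, h2⟩
  · intro w _
    simp
  · intro w _ w' _ hww
    have h1 : fam p q (1 * t) (N * P') (N * (1 * I')) (w - w') = 0 := by
      rw [map_sub, sub_eq_zero, one_mul, one_mul]
      exact add_left_cancel hww
    exact ker2 hN he hN0 one_ne_zero ht.ne' h.c1 h.c3 h1
  · have hlo : (X : ℝ) ≤ D * t := by exact_mod_cast h.lo
    have htr : (0 : ℝ) < t := by exact_mod_cast ht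
    show (1 - δ) * ((X : ℝ) / p₁) ^ 2 / ((1 : ℕ) : ℝ) ≤ ((1 * t ^ 2 : ℤ) : ℝ)
    push_cast
    rw [div_one, one_mul]
    have h1 : (X : ℝ) / p₁ ≤ (1 + δ / 2) * t := by
      rw [div_le_iff₀ hp₁r]
      calc (X : ℝ) ≤ D * t := hlo
        _ ≤ ((1 + δ / 2) * p₁) * t := mul_le_mul_of_nonneg_right hDp htr.le
        _ = (1 + δ / 2) * t * p₁ := by ring
    have h2 : ((X : ℝ) / p₁) ^ 2 ≤ ((1 + δ / 2) * t) ^ 2 := pow_le_pow_left₀ (by positivity) h1 2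
    have h3 : (1 - δ) * (1 + δ / 2) ^ 2 ≤ 1 := by nlinarith [sq_nonneg δ, mul_pos hδ hδ]
    have h4 : (0 : ℝ) ≤ 1 - δ := by linarith
    calc (1 - δ) * ((X : ℝ) / p₁) ^ 2 ≤ (1 - δ) * ((1 + δ / 2) * t) ^ 2 :=
          mul_le_mul_of_nonneg_left h2 h4
      _ = ((1 - δ) * (1 + δ / 2) ^ 2) * (t : ℝ) ^ 2 := by ring
      _ ≤ 1 * (t : ℝ) ^ 2 := mul_le_mul_of_nonneg_right h3 (by positivity)
      _ = (t : ℝ) ^ 2 := by ring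
  · intro w hw
    obtain ⟨-, -, h1, h2⟩ := hF w hw _ rfl
    exact ⟨h1, h2⟩
  · refine lat_snd 1 one_pos ?_ z L
    intro π hπ hπ1
    exact absurd (Nat.dvd_one.mp hπ1) hπ.ne_one
  · rw [hset, Nat.cast_one, div_one]
    exact hμ

end

end Pool.Agent.CUB

end

section

namespace Pool.Agent.CUB

open Polynomial Pool.Agent.CF

/-! ### the nodes -/

def nD (p₁ m₂ j : ℕ) : ℕ := if j = 0 then p₁ else m₂
def nP (p₁ m₂ j : ℕ) : ℕ := if j = 0 then m₂ else p₁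
def nt (p₁ m₂ M m j : ℕ) : ℤ := if j = 0 then 1 + M * (m₂ * m) else 1 + M * (p₁ * m + j)

theorem co_node {N : ℕ} {I : ℤ} {p₁ m₂ m k : ℕ} (hp₁ : 0 < p₁) (hm₂ : 0 < m₂)
    (h₁ : p₁ ≡ 1 [MOD N]) (h₂ : m₂ ≡ 1 [MOD N]) (hI : ((p₁ * m₂ : ℕ) : ℤ) ∣ I) {j : ℕ}
    (hj : j ≤ k) :
    Node N I (p₁ * m₂) (p₁ * m₂ * (N * I.natAbs) * m) (p₁ + m₂ * (1 + N * I.natAbs * k))
      (nD p₁ m₂ j) (nP p₁ m₂ j) (nt p₁ m₂ (N * I.natAbs) m j) (I / (nD p₁ m₂ j : ℕ)) := by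
  have hdvd : ((nD p₁ m₂ j : ℕ) : ℤ) ∣ I := by
    refine dvd_trans ?_ hI
    unfold nD
    push_cast
    split_ifs
    · exact dvd_mul_right _ _
    · exact dvd_mul_left _ _
  have hMN : ((N * I.natAbs : ℕ) : ℤ) = N * |I| := by
    push_cast
    rfl
  have hNM : (N : ℤ) ∣ ((N * I.natAbs : ℕ) : ℤ) := by rw [hMN]; exact dvd_mul_right _ _
  have hct : ∀ a : ℤ, IsCoprime (1 + ((N * I.natAbs : ℕ) : ℤ) * a) (N * I) := by
    intro a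
    have h3 := co_one_add ((N * I.natAbs : ℕ) : ℤ) a
    have h4 : ((N : ℤ) * I) ∣ ((N * I.natAbs : ℕ) : ℤ) := by
      rw [hMN]
      exact mul_dvd_mul_left _ ((dvd_abs _ _).mpr dvd_rfl)
    exact h3.of_isCoprime_of_dvd_right h4
  have q₁ : (N : ℤ) ∣ (p₁ : ℤ) - 1 := by
    have := (Nat.modEq_iff_dvd.mp h₁.symm)
    exact_mod_cast this
  have q₂ : (N : ℤ) ∣ (m₂ : ℤ) - 1 := by
    have := (Nat.modEq_iff_dvd.mp h₂.symm)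
    exact_mod_cast this
  have ht1 : (N : ℤ) ∣ nt p₁ m₂ (N * I.natAbs) m j - 1 := by
    unfold nt
    split_ifs
    · rw [add_sub_cancel_left]
      exact hNM.mul_right _
    · rw [add_sub_cancel_left]
      exact hNM.mul_right _
  have hD1 : (N : ℤ) ∣ ((nD p₁ m₂ j : ℕ) : ℤ) - 1 := by
    unfold nD
    split_ifs
    · exact q₁
    · exact q₂
  refine ⟨?_, ?_, ?_, hI, ?_, ?_, ?_, ?_, ?_, ht1⟩
  · unfold nD
    split_ifs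
    · exact hp₁
    · exact hm₂
  · unfold nD nP
    split_ifs
    · rfl
    · exact mul_comm _ _
  · rw [Int.mul_ediv_cancel' hdvd]
  · unfold nt
    split_ifs
    · exact hct _
    · exact hct _
  · unfold nD
    split_ifs
    · exact co_cop h₁
    · exact co_cop h₂
  · unfold nD nt
    split_ifs with h0
    · push_cast
      have : (0 : ℤ) ≤ p₁ := by positivity
      nlinarith
    · push_cast
      have h5 : (0 : ℤ) ≤ m₂ := by positivity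
      have h6 : (0 : ℤ) ≤ (m₂ : ℤ) * (N * |I| * j) := by positivity
      nlinarith
  · unfold nD nt
    split_ifs with h0
    · push_cast
      have h6 : (0 : ℤ) ≤ (m₂ : ℤ) * (1 + N * |I| * k) := by positivity
      nlinarith
    · push_cast
      have h5 : (0 : ℤ) ≤ p₁ := by positivity
      have h6 : (j : ℤ) ≤ k := by exact_mod_cast hj
      have h7 : (m₂ : ℤ) * (N * |I|) * j ≤ (m₂ : ℤ) * (N * |I|) * k :=
        mul_le_mul_of_nonneg_left h6 (by positivity)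
      nlinarith
  · obtain ⟨x, hx⟩ := ht1
    obtain ⟨y, hy⟩ := hD1
    refine ⟨x * (nD p₁ m₂ j : ℕ) + y, ?_⟩
    linear_combination ((nD p₁ m₂ j : ℕ) : ℤ) * hx + hy

/-- one node serves both families -/
theorem co_two {β : ℝ} (hβ : 0 < β) (hβ1 : β ≤ 1) : ∃ k : ℕ, 0 < k ∧ ∃ η : ℝ, 0 < η ∧
    ∀ F : ℕ → Set (Set (ℤ × ℤ)), Antitone F → UBG F β →
      ∀ (N : ℕ) (I : ℤ) (P X τ : ℕ) (D P' : ℕ → ℕ) (t I' : ℕ → ℤ),
      (∀ j, j ≤ k → Node N I P X τ (D j) (P' j) (t j) (I' j)) →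
      (∀ j, 1 ≤ j → j ≤ k → D j = D 1) → (∀ j, 1 ≤ j → j ≤ k → I' j = I' 1) →
      (∀ j, 1 ≤ j → j ≤ k → (D 0 : ℤ) * t 0 ≠ D j * t j) →
      (∀ i j, 1 ≤ i → i < j → j ≤ k → t i ≠ t j) → P ≠ 0 → I ≠ 0 →
      ∀ (p q : ℤ × ℤ) (e : ℤ), dt p q ≠ 0 → dt p q = e * N → e * e = 1 →
      ∀ Ka : ℝ, ∃ l₀ : ℕ, ∀ l l' : ℕ, l₀ ≤ l → l₀ ≤ l' → ∀ S ∈ F l₀, ∀ A A' : ℕ → ℤ × ℤ,
        |((A 0).1 : ℝ)| ≤ Ka * l → |((A 0).2 : ℝ)| ≤ Ka * l →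
        |((A' 0).1 : ℝ)| ≤ Ka * l' → |((A' 0).2 : ℝ)| ≤ Ka * l' →
        (∀ j, j ≤ k → (β - η) * (l : ℝ) ^ 3 ≤
          dens l (fun w => A j + fam p q (D j * t j) N (N * I) w ∈ S)) →
        (∀ j, j ≤ k → (β - η) * (l' : ℝ) ^ 3 ≤
          dens l' (fun w => A' j + fam p q (t j) (N * P' j) (N * I' j) w ∈ S)) →
        ∃ j, 1 ≤ j ∧ j ≤ k ∧
          β ^ 2 / 2 * (l : ℝ) ^ 3 ≤ dens l (fun w => A 0 + fam p q (D 0 * t 0) N (N * I) w ∈ S ∧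
            A j + fam p q (D j * t j) N (N * I) w ∈ S) ∧
          β ^ 2 / 2 * (l' : ℝ) ^ 3 ≤
            dens l' (fun w => A' 0 + fam p q (t 0) (N * P' 0) (N * I' 0) w ∈ S ∧
              A' j + fam p q (t j) (N * P' j) (N * I' j) w ∈ S) := by
  obtain ⟨k, hk, η, hη, hB⟩ := bes3 β hβ hβ1
  refine ⟨k, hk, η, hη, ?_⟩
  intro F hFa hF N I P X τ D P' t I' hn hD1 hI1 hT ht hP hI p q e hd hN he Ka
  have hN0 : (N : ℤ) ≠ 0 := by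
    intro h0
    rw [h0, mul_zero] at hN
    exact hd hN
  have hPz : (P : ℤ) ≠ 0 := by exact_mod_cast hP
  have hI1' : ∀ j, j ≤ k → I' j ≠ 0 := by
    intro j hj h0
    apply hI
    rw [(hn j hj).hI, h0, mul_zero]
  have hNI : ∀ j, 1 ≤ j → j ≤ k → (N : ℤ) ^ 3 * I' j ≠ 0 := fun j _ hj =>
    mul_ne_zero (pow_ne_zero 3 hN0) (hI1' j hj)
  have hDz : ∀ j, j ≤ k → (D j : ℤ) ≠ 0 := fun j hj => by
    have := (hn j hj).D0
    exact_mod_cast this.ne'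
  -- the a-family
  obtain ⟨l₁, hl₁⟩ := hB F hFa hF (fun j => fam p q (D j * t j) N (N * I))
    (fun j => kap p q N (D j) (t j) 1 (I' j) e)
    (fun j hj1 hjk => by
      have h1 := ker1 hN he (D j) (t j) 1 (I' j)
      rw [mul_one, ← (hn j hjk).hI] at h1
      exact h1)
    (fun i j hi hij hjk => by
      have hik : i ≤ k := (le_of_lt hij).trans hjk
      have hj1 : 1 ≤ j := hi.trans hij.le
      have h1 := ker3a (D₀ := (D 0 : ℤ)) (t₀ := t 0) (t := t i) hN he (hn i hik).hI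
      have h2 := ker3a (D₀ := (D 0 : ℤ)) (t₀ := t 0) (t := t j) hN he (hn j hjk).hI
      rw [mul_one] at h1 h2
      show dt (fam p q (D 0 * t 0) N (N * I) _) (fam p q (D 0 * t 0) N (N * I) _) ≠ 0
      rw [h1, h2]
      have h3 : dt (((D 0 : ℤ) * t 0 - D i * t i) • (((N : ℤ) * t i, (N : ℤ) ^ 2 * I' i) : ℤ × ℤ))
          (((D 0 : ℤ) * t 0 - D j * t j) • (((N : ℤ) * t j, (N : ℤ) ^ 2 * I' j) : ℤ × ℤ)) =
          ((D 0 : ℤ) * t 0 - D i * t i) * ((D 0 : ℤ) * t 0 - D j * t j) *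
            ((N : ℤ) ^ 3 * I' j * (t i - t j)) := by
        rw [hI1 i hi hik, hI1 j hj1 hjk]
        simp only [dt, Prod.smul_mk, smul_eq_mul]
        ring
      rw [h3]
      exact mul_ne_zero (mul_ne_zero (sub_ne_zero.mpr (hT i hi hik))
        (sub_ne_zero.mpr (hT j hj1 hjk)))
        (mul_ne_zero (hNI j hj1 hjk) (sub_ne_zero.mpr (ht i j hi hij hjk)))) Ka
  -- the c-family
  obtain ⟨l₂, hl₂⟩ := hB F hFa hF (fun j => fam p q (t j) (N * P' j) (N * I' j))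
    (fun j => kap p q N 1 (t j) (P' j) (I' j) e)
    (fun j hj1 hjk => by
      have h1 := ker1 hN he 1 (t j) (P' j) (I' j)
      rw [one_mul, one_mul] at h1
      exact h1)
    (fun i j hi hij hjk => by
      have hik : i ≤ k := (le_of_lt hij).trans hjk
      have hj1 : 1 ≤ j := hi.trans hij.le
      have n0 := hn 0 (Nat.zero_le _)
      have hPi : (P : ℤ) = D i * P' i := by rw [(hn i hik).hP]; push_cast; ring
      have hPj : (P : ℤ) = D j * P' j := by rw [(hn j hjk).hP]; push_cast; ring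
      have hP0 : (P : ℤ) = D 0 * P' 0 := by rw [n0.hP]; push_cast; ring
      have h1 := ker3c (t₀ := t 0) (t := t i) hN he hP0 n0.hI hPi (hn i hik).hI
      have h2 := ker3c (t₀ := t 0) (t := t j) hN he hP0 n0.hI hPj (hn j hjk).hI
      show dt (fam p q (t 0) (N * P' 0) (N * I' 0) _) (fam p q (t 0) (N * P' 0) (N * I' 0) _) ≠ 0
      generalize fam p q (t 0) (N * P' 0) (N * I' 0) (kap p q N 1 (t i) (P' i) (I' i) e) = y at *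
      generalize fam p q (t 0) (N * P' 0) (N * I' 0) (kap p q N 1 (t j) (P' j) (I' j) e) = y' at *
      intro h0
      have a1 := congrArg Prod.fst h1
      have a2 := congrArg Prod.snd h1
      have a3 := congrArg Prod.fst h2
      have a4 := congrArg Prod.snd h2
      simp only [Prod.smul_fst, Prod.smul_snd, smul_eq_mul] at a1 a2 a3 a4
      have hII : I' i = I' j := by rw [hI1 i hi hik, hI1 j hj1 hjk]
      rw [hII] at a2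
      have h3 : ((D 0 : ℤ) * D i) * ((D 0 : ℤ) * D j) * dt y y' =
          (P : ℤ) ^ 2 * (((D 0 : ℤ) * t 0 - D i * t i) * ((D 0 : ℤ) * t 0 - D j * t j) *
            ((N : ℤ) ^ 3 * I' j * (t i - t j))) := by
        unfold dt
        linear_combination ((D 0 : ℤ) * D j * y'.2) * a1 +
          ((P : ℤ) * ((D 0 : ℤ) * t 0 - D i * t i) * (N * t i)) * a4 -
          ((D 0 : ℤ) * D j * y'.1) * a2 -
          ((P : ℤ) * ((D 0 : ℤ) * t 0 - D i * t i) * (N ^ 2 * I' j)) * a3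
      rw [h0, mul_zero] at h3
      exact (mul_ne_zero (pow_ne_zero 2 hPz)
        (mul_ne_zero (mul_ne_zero (sub_ne_zero.mpr (hT i hi hik))
        (sub_ne_zero.mpr (hT j hj1 hjk)))
        (mul_ne_zero (hNI j hj1 hjk) (sub_ne_zero.mpr (ht i j hi hij hjk))))) h3.symm) Ka
  refine ⟨max l₁ l₂, fun l l' hl hl' S hS A A' hA1 hA2 hA'1 hA'2 hm hm' => ?_⟩
  have c1 := hl₁ l ((le_max_left _ _).trans hl) S (hFa (le_max_left _ _) hS) A hA1 hA2 hm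
  have c2 := hl₂ l' ((le_max_right _ _).trans hl') S (hFa (le_max_right _ _) hS) A' hA'1 hA'2 hm'
  by_contra hcon
  push Not at hcon
  obtain ⟨U, hU⟩ : ∃ U : Set ℕ, U = {j : ℕ | 1 ≤ j ∧ j ≤ k ∧
    (dens l (fun w => A 0 + fam p q (D 0 * t 0) N (N * I) w ∈ S ∧
      A j + fam p q (D j * t j) N (N * I) w ∈ S) : ℝ) < β ^ 2 / 2 * (l : ℝ) ^ 3} := ⟨_, rfl⟩
  obtain ⟨V, hV⟩ : ∃ V : Set ℕ, V = {j : ℕ | 1 ≤ j ∧ j ≤ k ∧
    (dens l' (fun w => A' 0 + fam p q (t 0) (N * P' 0) (N * I' 0) w ∈ S ∧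
      A' j + fam p q (t j) (N * P' j) (N * I' j) w ∈ S) : ℝ) < β ^ 2 / 2 * (l' : ℝ) ^ 3} :=
    ⟨_, rfl⟩
  have hUf : U.Finite := (Set.finite_Icc 1 k).subset (fun j hj => by
    rw [hU] at hj
    exact ⟨hj.1, hj.2.1⟩)
  have hVf : V.Finite := (Set.finite_Icc 1 k).subset (fun j hj => by
    rw [hV] at hj
    exact ⟨hj.1, hj.2.1⟩)
  have c1' : 2 * U.ncard < k := by rw [hU]; exact c1
  have c2' : 2 * V.ncard < k := by rw [hV]; exact c2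
  have hsub : Set.Icc 1 k ⊆ U ∪ V := by
    intro j hj
    rcases lt_or_ge ((dens l (fun w => A 0 + fam p q (D 0 * t 0) N (N * I) w ∈ S ∧
      A j + fam p q (D j * t j) N (N * I) w ∈ S) : ℝ)) (β ^ 2 / 2 * (l : ℝ) ^ 3) with h5 | h5
    · left
      rw [hU]
      exact ⟨hj.1, hj.2, h5⟩
    · right
      rw [hV]
      exact ⟨hj.1, hj.2, hcon j hj.1 hj.2 h5⟩
  have h6 := (Set.ncard_le_ncard hsub (hUf.union hVf)).trans (Set.ncard_union_le _ _)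
  have h7 : (Set.Icc 1 k).ncard = k := by
    rw [← Finset.coe_Icc, Set.ncard_coe_finset, Nat.card_Icc]
    omega
  omega

end Pool.Agent.CUB

end

section

namespace Pool.Agent.CUB

open Polynomial Pool.Agent.CF Matrix

/-! ### the last step: one pair `(a, c)` gives a contradiction -/

theorem co_mv {M : Matrix (Fin 3) (Fin 3) ℤ} {a : Fin 3 → ℤ} {μ A B : ℕ}
    (hM : ∀ i j, |M i j| ≤ (μ : ℤ)) (ha : ∀ i, |a i| ≤ (A : ℤ)) (hB : (3 * μ + 1) * A ≤ B)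
    (i : Fin 3) : |(M *ᵥ a) i| ≤ (B : ℤ) := by
  have h1 : (M *ᵥ a) i = M i 0 * a 0 + M i 1 * a 1 + M i 2 * a 2 := by
    simp only [Matrix.mulVec, dotProduct, Fin.sum_univ_three]
  have h2 : ∀ j, |M i j * a j| ≤ (μ : ℤ) * A := by
    intro j
    rw [abs_mul]
    exact mul_le_mul (hM i j) (ha j) (abs_nonneg _) (by positivity)
  have hB' : ((3 * μ + 1 : ℕ) : ℤ) * A ≤ B := by exact_mod_cast hB
  push_cast at hB'
  have hA : (0 : ℤ) ≤ A := by positivity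
  rw [h1]
  have h3 := abs_add_le (M i 0 * a 0 + M i 1 * a 1) (M i 2 * a 2)
  have h4 := abs_add_le (M i 0 * a 0) (M i 1 * a 1)
  have h5 := h2 0
  have h6 := h2 1
  have h7 := h2 2
  linarith

section
variable {R : Type*} [CommRing R] {b : Module.Basis (Fin 3) ℤ R}

theorem co_last (hb : b 0 = 1) {s : ℤ} (hs : s = 1 ∨ s = -1) {A₀ E₀ A' r E' I : ℤ}
    (hSC : SC b A₀ E₀ A' r E' I) {N : ℕ} (hN : 0 < N) {p₁ m₂ : ℕ} (hp₁ : 0 < p₁) (hm₂ : 0 < m₂)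
    {t₀ t₁ I₀ I₁ : ℤ} (hI0 : I = p₁ * I₀) (hI1 : I = m₂ * I₁) {n₁ n₂ : ℤ} {u w : ℤ × ℤ}
    {S : Set (ℤ × ℤ)} {NN BB₀ BB AA μ : ℕ} (hBB₀ : 2 ≤ BB₀) (hBB : BB₀ ≤ BB) (hNN : 1 ≤ NN)
    (hS : ∀ z ∈ S, z ∈ SW b s NN ((BB₀ : ℝ) ^ 100 * (BB : ℝ) ^ 9))
    (hμ : ∀ i j, |Algebra.leftMulMatrix b ((N : R) * b 1) i j| ≤ (μ : ℤ))
    (hAB : (3 * μ + 1) * AA ≤ BB) (hpB : p₁ ≤ BB₀) (hmB : m₂ ≤ BB₀)
    (hxB : |N * r + p₁ * t₀| ≤ (BB₀ : ℤ)) (hxB' : |N * r + m₂ * t₁| ≤ (BB₀ : ℤ))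
    (s1 : vl (p₁ * t₀) N (N * I) n₁ u ∈ S) (s2 : vl (m₂ * t₁) N (N * I) n₁ u ∈ S)
    (s3 : vl t₀ (N * m₂) (N * I₀) n₂ w ∈ S) (s4 : vl t₁ (N * p₁) (N * I₁) n₂ w ∈ S)
    {ε X₀ C κ l : ℝ}
    (hpos : ∀ l : ℝ, 0 < l → ∀ (a c : Fin 3 → ℤ) (x x' : ℤ),
      (∀ i, |(a i : ℝ)| ≤ C * l) →
      κ * l ^ 3 ≤ ((br a (Algebra.leftMulMatrix b ((N : R) * b 1) *ᵥ a) *
        br a (Algebra.leftMulMatrix b ((N : R) * b 1) *ᵥ Pi.single 0 1) : ℤ) : ℝ) →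
      0 < c 0 → |(c 1 : ℝ)| ≤ ε * c 0 → |(c 2 : ℝ)| ≤ ε * c 0 → X₀ ≤ x → X₀ ≤ x' →
      0 < DD a (Algebra.leftMulMatrix b ((N : R) * b 1) *ᵥ a) c
        (Algebra.leftMulMatrix b ((N : R) * b 1) *ᵥ c) ∧
        (∀ j, 0 < ff a (Algebra.leftMulMatrix b ((N : R) * b 1) *ᵥ a) c
          (Algebra.leftMulMatrix b ((N : R) * b 1) *ᵥ c) x x' j) ∧
        ((∀ j, 0 ≤ ee a (Algebra.leftMulMatrix b ((N : R) * b 1) *ᵥ a) c
          (Algebra.leftMulMatrix b ((N : R) * b 1) *ᵥ c) x x' j) ∨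
          (∀ j, ee a (Algebra.leftMulMatrix b ((N : R) * b 1) *ᵥ a) c
            (Algebra.leftMulMatrix b ((N : R) * b 1) *ᵥ c) x x' j ≤ 0)))
    (hl : 0 < l)
    (ha : |((n₁ * 1 - (A₀ - r) * u.1 - A' * u.2 : ℤ) : ℝ)| ≤ C * l ∧ |(u.1 : ℝ)| ≤ C * l ∧
      |(u.2 : ℝ)| ≤ C * l)
    (hκ : κ * l ^ 3 ≤ (((N : ℤ) ^ 2 * (n₁ * u.2 ^ 2 - I * u.1 ^ 2 * u.2) : ℤ) : ℝ))
    (hc0 : 0 < n₂ * (p₁ * m₂) - (A₀ - r) * w.1 - A' * w.2)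
    (hc1 : |(w.1 : ℝ)| ≤ ε * ((n₂ * (p₁ * m₂) - (A₀ - r) * w.1 - A' * w.2 : ℤ) : ℝ))
    (hc2 : |(w.2 : ℝ)| ≤ ε * ((n₂ * (p₁ * m₂) - (A₀ - r) * w.1 - A' * w.2 : ℤ) : ℝ))
    (hx : X₀ ≤ ((N * r + p₁ * t₀ : ℤ) : ℝ)) (hx' : X₀ ≤ ((N * r + m₂ * t₁ : ℤ) : ℝ))
    (hsq : ¬ IsSquare (Dq I n₁ u (n₂ * (p₁ * m₂)) w)) (hClA : C * l ≤ AA)
    (hcA : n₂ * (p₁ * m₂) - (A₀ - r) * w.1 - A' * w.2 ≤ AA) (hw1 : |w.1| ≤ (AA : ℤ))
    (hw2 : |w.2| ≤ (AA : ℤ)) :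
    liouville (m₂ : ℤ) = liouville (p₁ : ℤ) := by
  have hmul : ∀ y : R, rv b (((N : R) * b 1) * y) =
      Algebra.leftMulMatrix b ((N : R) * b 1) *ᵥ rv b y := by
    intro y
    exact (Algebra.leftMulMatrix_mulVec_repr b _ y).symm
  obtain ⟨a, hadef⟩ : ∃ a : R, a = elc b A₀ A' r 1 n₁ u := ⟨_, rfl⟩
  obtain ⟨c, hcdef⟩ : ∃ c : R, c = elc b A₀ A' r (p₁ * m₂) n₂ w := ⟨_, rfl⟩
  have hra : rv b a = ![n₁ * 1 - (A₀ - r) * u.1 - A' * u.2, u.1, u.2] := by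
    rw [hadef, rv_elc hb]
  have hrc : rv b c = ![n₂ * (p₁ * m₂) - (A₀ - r) * w.1 - A' * w.2, w.1, w.2] := by
    rw [hcdef, rv_elc hb]
  have hNz : ((N : ℤ) : R) = (N : R) := by push_cast; rfl
  have hDD := DD_elc hb hSC (N : ℤ) (p₁ * m₂) n₁ n₂ u w
  rw [hNz, ← hadef, ← hcdef] at hDD
  have hbr := br_elc hb hSC (N : ℤ) n₁ u
  rw [hNz, ← hadef] at hbr
  have hv1 : rv b ((N : R) * b 1) =
      Algebra.leftMulMatrix b ((N : R) * b 1) *ᵥ Pi.single 0 1 := by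
    have h1 := hmul 1
    rw [mul_one] at h1
    have h2 : rv b (1 : R) = Pi.single 0 1 := by
      ext i
      unfold rv
      rw [← hb, b.repr_self]
      simp [Finsupp.single_apply, Pi.single_apply, eq_comm]
    rw [h1, h2]
  rw [hmul a, hv1] at hbr
  have key := hpos l hl (rv b a) (rv b c) (N * r + p₁ * t₀) (N * r + m₂ * t₁)
    (by
      rw [hra]
      intro i
      fin_cases i
      · exact ha.1
      · exact ha.2.1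
      · exact ha.2.2)
    (by rw [hbr]; exact hκ)
    (by rw [hrc]; exact hc0)
    (by rw [hrc]; exact hc1)
    (by rw [hrc]; exact hc2)
    hx hx'
  rw [← hmul, ← hmul] at key
  obtain ⟨k1, k2, k3⟩ := key
  -- the four classes
  obtain ⟨V₁, hV1, cV1⟩ := alg hb hSC (P := 1) (D := 1) (P' := 1) (I' := I) (N := N)
    (t := p₁ * t₀) (x := N * r + p₁ * t₀) (by ring) (by ring) (by ring) n₁ u
  obtain ⟨V₂, hV2, cV2⟩ := alg hb hSC (P := 1) (D := 1) (P' := 1) (I' := I) (N := N)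
    (t := m₂ * t₁) (x := N * r + m₂ * t₁) (by ring) (by ring) (by ring) n₁ u
  obtain ⟨V₃, hV3, cV3⟩ := alg hb hSC (P := p₁ * m₂) (D := p₁) (P' := m₂) (I' := I₀) (N := N)
    (t := t₀) (x := N * r + p₁ * t₀) rfl hI0 rfl n₂ w
  obtain ⟨V₄, hV4, cV4⟩ := alg hb hSC (P := p₁ * m₂) (D := m₂) (P' := p₁) (I' := I₁) (N := N)
    (t := t₁) (x := N * r + m₂ * t₁) (mul_comm _ _) hI1 rfl n₂ w
  rw [← hadef, hNz, Int.cast_one, one_mul] at hV1 hV2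
  rw [← hcdef, hNz] at hV3 hV4
  rw [mul_one] at cV1 cV2
  by_contra hm
  have hAB1 : AA ≤ BB := le_trans (Nat.le_mul_of_pos_left _ (by omega)) hAB
  have baA : ∀ i, |rv b a i| ≤ (AA : ℤ) := by
    rw [hra]
    intro i
    fin_cases i
    · exact_mod_cast ha.1.trans hClA
    · exact_mod_cast ha.2.1.trans hClA
    · exact_mod_cast ha.2.2.trans hClA
  have bcA : ∀ i, |rv b c i| ≤ (AA : ℤ) := by
    rw [hrc]
    intro i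
    fin_cases i
    · show |n₂ * (p₁ * m₂) - (A₀ - r) * w.1 - A' * w.2| ≤ (AA : ℤ)
      rw [abs_of_pos hc0]
      exact hcA
    · exact hw1
    · exact hw2
  have hAB2 : (AA : ℤ) ≤ BB := by exact_mod_cast hAB1
  refine pe6 hb hs (v := (N : R) * b 1) (a := a) (c := c) (V := V₄)
    (W := V₃) (x := N * r + p₁ * t₀) (x' := N * r + m₂ * t₁) hm₂ hp₁ ?_ ?_ k1 ?_ k2 k3 hm hBB₀ hBB
    (fun i => (baA i).trans hAB2) (fun i => by rw [hmul]; exact co_mv hμ baA hAB i)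
    (fun i => (bcA i).trans hAB2) (fun i => by rw [hmul]; exact co_mv hμ bcA hAB i)
    hxB hxB' hmB hpB hNN ⟨?_, ?_, ?_, ?_⟩
  rotate_left 3
  · rw [hV1, cV1]
    exact hS _ s1
  · rw [hV2, cV2]
    exact hS _ s2
  · rw [cV4]
    exact hS _ s4
  · rw [cV3]
    exact hS _ s3
  · rw [hV4]
    push_cast
    rfl
  · rw [hV3]
    push_cast
    rfl
  · rw [hDD]
    rintro ⟨y, hy⟩
    apply hsq
    have hNz' : (N : ℤ) ≠ 0 := by exact_mod_cast hN.ne'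
    have h1 : (N : ℤ) ^ 2 ∣ y ^ 2 := ⟨Dq I n₁ u (n₂ * (p₁ * m₂)) w, by rw [sq y, ← hy]⟩
    rw [Int.pow_dvd_pow_iff two_ne_zero] at h1
    obtain ⟨y', rfl⟩ := h1
    refine ⟨y', ?_⟩
    have h2 : (N : ℤ) ^ 2 * Dq I n₁ u (n₂ * (p₁ * m₂)) w = (N : ℤ) ^ 2 * (y' * y') := by
      rw [hy]; ring
    exact mul_left_cancel₀ (pow_ne_zero 2 hNz') h2

end

end Pool.Agent.CUB

end

section

namespace Pool.Agent.CUB

open Polynomial Pool.Agent.CF Matrix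

theorem dens_pick_aux {l : ℕ} {P Q₁ Q₂ : ℤ × ℤ × ℤ → Prop} {x y z : ℝ} (h1 : x ≤ dens l P)
    (h2 : (dens l Q₁ : ℝ) ≤ y) (h3 : (dens l Q₂ : ℝ) ≤ z) (h : y + z < x) :
    ∃ w ∈ box3 l, P w ∧ ¬ Q₁ w ∧ ¬ Q₂ w := co_pick (by linarith)

theorem dens_pick_one {l : ℕ} {P Q : ℤ × ℤ × ℤ → Prop} {x y : ℝ} (h1 : x ≤ dens l P)
    (h2 : (dens l Q : ℝ) ≤ y) (h : y < x) : ∃ w ∈ box3 l, P w ∧ ¬ Q w := by
  have h0 : (dens l (fun _ => False) : ℝ) ≤ 0 := by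
    unfold dens
    simp
  obtain ⟨w, h3, h4, h5, -⟩ := dens_pick_aux h1 h2 h0 (by linarith)
  exact ⟨w, h3, h4, h5⟩

section
variable {R : Type*} [CommRing R] {b : Module.Basis (Fin 3) ℤ R}

theorem co_end (hb : b 0 = 1) {s : ℤ} (hs : s = 1 ∨ s = -1) {A₀ E₀ A' r E' I : ℤ}
    (hSC : SC b A₀ E₀ A' r E' I) {d : ℕ} (hd : 0 < d) {p₁ m₂ : ℕ} (hp₁ : 0 < p₁) (hm₂ : 0 < m₂)
    {t₀ t₁ I₀ I₁ : ℤ} (hI0 : I = p₁ * I₀) (hI1 : I = m₂ * I₁) {β : ℝ} (hβ : 0 < β)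
    {Ku c₁ C B ε₂ ε₃ X₂ : ℝ} {Ca : ℕ} (hKu : 0 < Ku) (hc₁ : 0 < c₁) (hc₁' : 3 * c₁ = β ^ 2 / 8)
    (hCa : (1 + |(I : ℝ)| * Ku ^ 3) / c₁ ^ 2 ≤ Ca)
    (hB : B = |((A₀ - r : ℤ) : ℝ)| + |(A' : ℝ)|) (hC : C = Ca + 1 + (B + 1) * Ku)
    (hpos : ∀ l : ℝ, 0 < l → ∀ (a c : Fin 3 → ℤ) (x x' : ℤ),
      (∀ i, |(a i : ℝ)| ≤ C * l) →
      1 * l ^ 3 ≤ ((br a (Algebra.leftMulMatrix b ((d : R) * b 1) *ᵥ a) *
        br a (Algebra.leftMulMatrix b ((d : R) * b 1) *ᵥ Pi.single 0 1) : ℤ) : ℝ) →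
      0 < c 0 → |(c 1 : ℝ)| ≤ ε₂ * c 0 → |(c 2 : ℝ)| ≤ ε₂ * c 0 → X₂ ≤ x → X₂ ≤ x' →
      0 < DD a (Algebra.leftMulMatrix b ((d : R) * b 1) *ᵥ a) c
        (Algebra.leftMulMatrix b ((d : R) * b 1) *ᵥ c) ∧
        (∀ j, 0 < ff a (Algebra.leftMulMatrix b ((d : R) * b 1) *ᵥ a) c
          (Algebra.leftMulMatrix b ((d : R) * b 1) *ᵥ c) x x' j) ∧
        ((∀ j, 0 ≤ ee a (Algebra.leftMulMatrix b ((d : R) * b 1) *ᵥ a) c
          (Algebra.leftMulMatrix b ((d : R) * b 1) *ᵥ c) x x' j) ∨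
          (∀ j, ee a (Algebra.leftMulMatrix b ((d : R) * b 1) *ᵥ a) c
            (Algebra.leftMulMatrix b ((d : R) * b 1) *ᵥ c) x x' j ≤ 0)))
    (hε₃ : 0 < ε₃) (hε₃2 : ε₃ ≤ ε₂ / 2) (hε₃B : ε₃ * (2 * (B + 1)) ≤ 1) {p q : ℤ × ℤ}
    {l l' L : ℕ} (hl : 0 < l) (hl' : 0 < l') (hL : 0 < L) {u₀ w₀ : ℤ × ℤ}
    (hu₀ : ∀ w ∈ box3 l, |((u₀ + pt 0 p q w.2.1 w.2.2).1 : ℝ)| ≤ Ku * l ∧
            |((u₀ + pt 0 p q w.2.1 w.2.2).2 : ℝ)| ≤ Ku * l)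
    (hw₀ : ∀ w ∈ box3 l', |((w₀ + pt 0 p q w.2.1 w.2.2).1 : ℝ)| ≤ ε₃ * L ∧
            |((w₀ + pt 0 p q w.2.1 w.2.2).2 : ℝ)| ≤ ε₃ * L)
    {S : Set (ℤ × ℤ)} {NN BB₀ BB AA μ : ℕ} (hBB₀ : 2 ≤ BB₀) (hBB : BB₀ ≤ BB) (hNN : 1 ≤ NN)
    (hS : ∀ z ∈ S, z ∈ SW b s NN ((BB₀ : ℝ) ^ 100 * (BB : ℝ) ^ 9))
    (hμ : ∀ i j, |Algebra.leftMulMatrix b ((d : R) * b 1) i j| ≤ (μ : ℤ))
    (hAB : (3 * μ + 1) * AA ≤ BB) (hpB : p₁ ≤ BB₀) (hmB : m₂ ≤ BB₀)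
    (hxB : |d * r + p₁ * t₀| ≤ (BB₀ : ℤ)) (hxB' : |d * r + m₂ * t₁| ≤ (BB₀ : ℤ))
    (hClA : C * l ≤ AA) (hLA : 2 * (p₁ * m₂) * L + L ≤ AA) (hl'L : l' ≤ L)
    (dA : β ^ 2 / 2 * (l : ℝ) ^ 3 ≤ dens l (fun w =>
      vl (p₁ * t₀) d (d * I) (Ca * l) u₀ + fam p q (p₁ * t₀) d (d * I) w ∈ S ∧
      vl (m₂ * t₁) d (d * I) (Ca * l) u₀ + fam p q (m₂ * t₁) d (d * I) w ∈ S))
    (dC : β ^ 2 / 2 * (l' : ℝ) ^ 3 ≤ dens l' (fun w =>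
      vl t₀ (d * m₂) (d * I₀) L w₀ + fam p q t₀ (d * m₂) (d * I₀) w ∈ S ∧
      vl t₁ (d * p₁) (d * I₁) L w₀ + fam p q t₁ (d * p₁) (d * I₁) w ∈ S))
    (hSa : (dens l (fun w => |((u₀ + pt 0 p q w.2.1 w.2.2).2 : ℝ)| < c₁ * l) : ℝ) ≤
      3 * c₁ * (l : ℝ) ^ 3) {Q : Finset ℕ}
    (hNa : (dens l (fun w => ∃ π ∈ Q,
        (π : ℤ) ∣ (u₀ + pt 0 p q w.2.1 w.2.2).2 * (I * (u₀ + pt 0 p q w.2.1 w.2.2).1 ^ 2 -
          (u₀ + pt 0 p q w.2.1 w.2.2).2 * (Ca * l + w.1))) : ℝ) ≤ β ^ 2 / 8 * (l : ℝ) ^ 3)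
    (hNc : ∀ (n : ℤ) (u : ℤ × ℤ), (∀ π ∈ Q, ¬ (π : ℤ) ∣ u.2 * (I * u.1 ^ 2 - u.2 * n)) →
        ∀ (m₀ : ℤ) (w₀ : ℤ × ℤ), (dens l' (fun w =>
          IsSquare (Dq I n u ((m₀ + w.1) * ((p₁ * m₂ : ℕ) : ℤ))
            (w₀ + pt 0 p q w.2.1 w.2.2))) : ℝ) ≤ β ^ 2 / 8 * (l' : ℝ) ^ 3)
    (hx : X₂ ≤ ((d * r + p₁ * t₀ : ℤ) : ℝ)) (hx' : X₂ ≤ ((d * r + m₂ * t₁ : ℤ) : ℝ)) :
    liouville (m₂ : ℤ) = liouville (p₁ : ℤ) := by
  have hlr : (0 : ℝ) < l := by exact_mod_cast hl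
  have hl'r : (0 : ℝ) < l' := by exact_mod_cast hl'
  have hLr : (0 : ℝ) < L := by exact_mod_cast hL
  have hl3 : (0 : ℝ) < (l : ℝ) ^ 3 := by positivity
  have hl'3 : (0 : ℝ) < (l' : ℝ) ^ 3 := by positivity
  have hβ2 : 0 < β ^ 2 := by positivity
  have hB0 : 0 ≤ B := by rw [hB]; positivity
  obtain ⟨wa, hwa, ⟨sa1, sa2⟩, na1, na2⟩ := dens_pick_aux dA hSa hNa (by
    rw [hc₁']
    nlinarith)
  rw [co_vl] at sa1 sa2
  obtain ⟨u, hu⟩ : ∃ u : ℤ × ℤ, u = u₀ + pt 0 p q wa.2.1 wa.2.2 := ⟨_, rfl⟩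
  obtain ⟨n₁, hn₁⟩ : ∃ n₁ : ℤ, n₁ = Ca * l + wa.1 := ⟨_, rfl⟩
  have hua := hu₀ wa hwa
  rw [← hu, ← hn₁] at sa1 sa2
  rw [← hu] at na1 hua
  simp only [← hu, ← hn₁] at na2
  push Not at na1 na2
  obtain ⟨wc, hwc, ⟨sc1, sc2⟩, nc⟩ := dens_pick_one dC (hNc n₁ u na2 L w₀) (by nlinarith)
  rw [co_vl] at sc1 sc2
  obtain ⟨w, hw⟩ : ∃ w : ℤ × ℤ, w = w₀ + pt 0 p q wc.2.1 wc.2.2 := ⟨_, rfl⟩
  obtain ⟨n₂, hn₂⟩ : ∃ n₂ : ℤ, n₂ = L + wc.1 := ⟨_, rfl⟩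
  have hwcb := hw₀ wc hwc
  rw [← hw, ← hn₂] at sc1 sc2
  rw [← hw] at hwcb
  rw [← hw, ← hn₂] at nc
  have ba := co_mem.mp hwa
  have bc := co_mem.mp hwc
  -- bounds for `n₁`, `n₂`
  have n1lo : (Ca : ℝ) * l ≤ n₁ := by
    rw [hn₁]
    push_cast
    have : (0 : ℝ) ≤ wa.1 := by exact_mod_cast ba.1.1
    linarith
  have n1hi : (n₁ : ℝ) ≤ (Ca + 1) * l := by
    rw [hn₁]
    push_cast
    have : (wa.1 : ℝ) ≤ l := by exact_mod_cast ba.1.2.le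
    linarith
  have n2lo : (L : ℤ) ≤ n₂ := by
    rw [hn₂]
    linarith [bc.1.1]
  have e1 : |(((A₀ - r) * u.1 : ℤ) : ℝ)| ≤ |((A₀ - r : ℤ) : ℝ)| * (Ku * l) := by
    rw [Int.cast_mul, abs_mul]
    exact mul_le_mul_of_nonneg_left hua.1 (abs_nonneg _)
  have e2 : |((A' * u.2 : ℤ) : ℝ)| ≤ |(A' : ℝ)| * (Ku * l) := by
    rw [Int.cast_mul, abs_mul]
    exact mul_le_mul_of_nonneg_left hua.2 (abs_nonneg _)
  have e3 : |(((A₀ - r) * w.1 : ℤ) : ℝ)| ≤ |((A₀ - r : ℤ) : ℝ)| * (ε₃ * L) := by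
    rw [Int.cast_mul, abs_mul]
    exact mul_le_mul_of_nonneg_left hwcb.1 (abs_nonneg _)
  have e4 : |((A' * w.2 : ℤ) : ℝ)| ≤ |(A' : ℝ)| * (ε₃ * L) := by
    rw [Int.cast_mul, abs_mul]
    exact mul_le_mul_of_nonneg_left hwcb.2 (abs_nonneg _)
  have hc0r : (L : ℝ) / 2 ≤ ((n₂ * (p₁ * m₂) - (A₀ - r) * w.1 - A' * w.2 : ℤ) : ℝ) := by
    have f1 : (L : ℝ) ≤ ((n₂ * (p₁ * m₂) : ℤ) : ℝ) := by
      have g1 : (L : ℤ) ≤ n₂ * (p₁ * m₂) := by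
        have g2 : (1 : ℤ) ≤ p₁ * m₂ := by exact_mod_cast Nat.mul_pos hp₁ hm₂
        have g3 : (0 : ℤ) ≤ L := by positivity
        nlinarith
      exact_mod_cast g1
    have f2 := (abs_le.mp e3).2
    have f3 := (abs_le.mp e4).2
    have f4 : B * (ε₃ * L) ≤ L / 2 := by
      have : ε₃ * (2 * (B + 1)) * L ≤ 1 * L := mul_le_mul_of_nonneg_right hε₃B hLr.le
      have h5 : 0 ≤ ε₃ * L := by positivity
      nlinarith
    have f5 : |((A₀ - r : ℤ) : ℝ)| * (ε₃ * L) + |(A' : ℝ)| * (ε₃ * L) = B * (ε₃ * L) := by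
      rw [hB]; ring
    have f6 : ((n₂ * (p₁ * m₂) - (A₀ - r) * w.1 - A' * w.2 : ℤ) : ℝ) =
      ((n₂ * (p₁ * m₂) : ℤ) : ℝ) - (((A₀ - r) * w.1 : ℤ) : ℝ) - ((A' * w.2 : ℤ) : ℝ) := by
      push_cast
      ring
    rw [f6]
    linarith
  have hε₂0 : 0 < ε₂ := by linarith
  have hcc : ε₃ * L ≤ ε₂ * ((n₂ * (p₁ * m₂) - (A₀ - r) * w.1 - A' * w.2 : ℤ) : ℝ) := by
    calc ε₃ * L ≤ (ε₂ / 2) * L := mul_le_mul_of_nonneg_right hε₃2 hLr.le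
      _ = ε₂ * (L / 2) := by ring
      _ ≤ _ := mul_le_mul_of_nonneg_left hc0r hε₂0.le
  have hε₃h : ε₃ ≤ 1 / 2 := by
    have g0 := mul_nonneg hε₃.le hB0
    linarith
  have hLAr : 2 * ((p₁ : ℝ) * m₂) * L + L ≤ AA := by exact_mod_cast hLA
  have hpm0 : (0 : ℝ) ≤ (p₁ : ℝ) * m₂ := by positivity
  have hLA1 : ε₃ * (L : ℝ) ≤ AA := by
    have g1 : ε₃ * (L : ℝ) ≤ 1 / 2 * L := mul_le_mul_of_nonneg_right hε₃h hLr.le
    have g2 : (0 : ℝ) ≤ 2 * ((p₁ : ℝ) * m₂) * L := by positivity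
    linarith
  have hw1A : |w.1| ≤ (AA : ℤ) := by exact_mod_cast hwcb.1.trans hLA1
  have hw2A : |w.2| ≤ (AA : ℤ) := by exact_mod_cast hwcb.2.trans hLA1
  have hcA : n₂ * (p₁ * m₂) - (A₀ - r) * w.1 - A' * w.2 ≤ (AA : ℤ) := by
    have g1 : (n₂ : ℝ) ≤ 2 * L := by
      rw [hn₂]
      push_cast
      have g2 : (wc.1 : ℝ) ≤ l' := by exact_mod_cast bc.1.2.le
      have g3 : (l' : ℝ) ≤ L := by exact_mod_cast hl'L
      linarith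
    have g4 : ((n₂ * (p₁ * m₂) - (A₀ - r) * w.1 - A' * w.2 : ℤ) : ℝ) ≤ AA := by
      have f1 : ((n₂ * (p₁ * m₂) : ℤ) : ℝ) ≤ 2 * ((p₁ : ℝ) * m₂) * L := by
        push_cast
        have g5 := mul_le_mul_of_nonneg_right g1 hpm0
        linarith
      have f2 := (abs_le.mp e3).1
      have f3 := (abs_le.mp e4).1
      have f4 : B * (ε₃ * L) ≤ L / 2 := by
        have g6 : ε₃ * (2 * (B + 1)) * L ≤ 1 * L := mul_le_mul_of_nonneg_right hε₃B hLr.le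
        have h5 : 0 ≤ ε₃ * L := by positivity
        linarith
      have f5 : |((A₀ - r : ℤ) : ℝ)| * (ε₃ * L) + |(A' : ℝ)| * (ε₃ * L) = B * (ε₃ * L) := by
        rw [hB]; ring
      have f6 : ((n₂ * (p₁ * m₂) - (A₀ - r) * w.1 - A' * w.2 : ℤ) : ℝ) =
        ((n₂ * (p₁ * m₂) : ℤ) : ℝ) - (((A₀ - r) * w.1 : ℤ) : ℝ) - ((A' * w.2 : ℤ) : ℝ) := by
        push_cast
        ring
      rw [f6]
      linarith
    exact_mod_cast g4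
  refine co_last hb hs hSC hd hp₁ hm₂ hI0 hI1 (n₁ := n₁) (n₂ := n₂) (u := u) (w := w) hBB₀ hBB hNN hS
    hμ hAB hpB hmB hxB hxB' sa1 sa2
    sc1 sc2 (C := C) (l := l) hpos hlr ?_ ?_ ?_ ?_ ?_ hx hx' ?_ hClA hcA hw1A hw2A
  · have hCl : C * l = (Ca + 1) * l + B * (Ku * l) + Ku * l := by rw [hC]; ring
    have hCl0 : 0 ≤ (Ca + 1 : ℝ) * l := by positivity
    have hKl : 0 ≤ Ku * l := by positivity
    have hBK : 0 ≤ B * (Ku * l) := by positivity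
    have f5 : |((A₀ - r : ℤ) : ℝ)| * (Ku * l) + |(A' : ℝ)| * (Ku * l) = B * (Ku * l) := by
      rw [hB]; ring
    refine ⟨?_, ?_, ?_⟩
    · have f6 : ((n₁ * 1 - (A₀ - r) * u.1 - A' * u.2 : ℤ) : ℝ) =
        (n₁ : ℝ) - (((A₀ - r) * u.1 : ℤ) : ℝ) - ((A' * u.2 : ℤ) : ℝ) := by
        push_cast
        ring
      have f7 : (0 : ℝ) ≤ n₁ := le_trans (by positivity) n1lo
      rw [f6, abs_le]
      have g1 := abs_le.mp e1
      have g2 := abs_le.mp e2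
      constructor <;> linarith
    · exact hua.1.trans (by rw [hCl]; linarith)
    · exact hua.2.trans (by rw [hCl]; linarith)
  · -- the lower bound
    have hd1 : (1 : ℝ) ≤ (d : ℝ) ^ 2 := by
      have : (1 : ℝ) ≤ d := by exact_mod_cast hd
      nlinarith
    have f1 : c₁ ^ 2 * (l : ℝ) ^ 2 ≤ (u.2 : ℝ) ^ 2 := by
      have := pow_le_pow_left₀ (by positivity : (0 : ℝ) ≤ c₁ * l) na1 2
      rw [sq_abs] at this
      linarith [mul_pow c₁ (l : ℝ) 2]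
    have f2 : |(I : ℝ) * (u.1 : ℝ) ^ 2 * u.2| ≤ |(I : ℝ)| * Ku ^ 3 * (l : ℝ) ^ 3 := by
      rw [abs_mul, abs_mul, abs_pow]
      have g1 := pow_le_pow_left₀ (abs_nonneg _) hua.1 2
      have g2 := mul_le_mul g1 hua.2 (abs_nonneg _) (by positivity)
      calc |(I : ℝ)| * |(u.1 : ℝ)| ^ 2 * |(u.2 : ℝ)| = |(I : ℝ)| * (|(u.1 : ℝ)| ^ 2 * |(u.2 : ℝ)|) :=
            by ring
        _ ≤ |(I : ℝ)| * ((Ku * l) ^ 2 * (Ku * l)) := mul_le_mul_of_nonneg_left g2 (abs_nonneg _)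
        _ = |(I : ℝ)| * Ku ^ 3 * (l : ℝ) ^ 3 := by ring
    have f3 : (1 + |(I : ℝ)| * Ku ^ 3) * (l : ℝ) ^ 3 ≤ (n₁ : ℝ) * (u.2 : ℝ) ^ 2 := by
      rw [div_le_iff₀ (by positivity)] at hCa
      have hCl0 : (0 : ℝ) ≤ Ca * l := by positivity
      calc (1 + |(I : ℝ)| * Ku ^ 3) * (l : ℝ) ^ 3 ≤ (Ca * c₁ ^ 2) * (l : ℝ) ^ 3 :=
            mul_le_mul_of_nonneg_right hCa hl3.le
        _ = (Ca * l) * (c₁ ^ 2 * (l : ℝ) ^ 2) := by ring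
        _ ≤ (Ca * l) * (u.2 : ℝ) ^ 2 := mul_le_mul_of_nonneg_left f1 hCl0
        _ ≤ (n₁ : ℝ) * (u.2 : ℝ) ^ 2 := mul_le_mul_of_nonneg_right n1lo (by positivity)
    have f4 := (abs_le.mp f2).2
    have f5 : (l : ℝ) ^ 3 ≤ (n₁ : ℝ) * (u.2 : ℝ) ^ 2 - (I : ℝ) * (u.1 : ℝ) ^ 2 * u.2 := by
      nlinarith
    push_cast
    rw [one_mul]
    calc (l : ℝ) ^ 3 ≤ 1 * ((n₁ : ℝ) * (u.2 : ℝ) ^ 2 - (I : ℝ) * (u.1 : ℝ) ^ 2 * u.2) := by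
          rw [one_mul]; exact f5
      _ ≤ (d : ℝ) ^ 2 * ((n₁ : ℝ) * (u.2 : ℝ) ^ 2 - (I : ℝ) * (u.1 : ℝ) ^ 2 * u.2) :=
          mul_le_mul_of_nonneg_right hd1 (hl3.le.trans f5)
  · have : (0 : ℝ) < ((n₂ * (p₁ * m₂) - (A₀ - r) * w.1 - A' * w.2 : ℤ) : ℝ) := by linarith
    exact_mod_cast this
  · exact hwcb.1.trans hcc
  · exact hwcb.2.trans hcc
  · intro h0
    apply nc
    push_cast
    exact h0

end

end Pool.Agent.CUB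

end

section

namespace Pool.Agent.CUB

open Polynomial Pool.Agent.CF Matrix

theorem co_unif {k : ℕ} {Q : ℕ → ℕ → Prop} (h : ∀ j, j ≤ k → ∃ l₀, ∀ l, l₀ ≤ l → Q j l) :
    ∃ l₀, ∀ j, j ≤ k → ∀ l, l₀ ≤ l → Q j l := by
  induction k with
  | zero =>
    obtain ⟨l₀, hl⟩ := h 0 le_rfl
    refine ⟨l₀, fun j hj l hll => ?_⟩
    obtain rfl : j = 0 := by omega
    exact hl l hll
  | succ k ih =>
    obtain ⟨l₁, h1⟩ := ih (fun j hj => h j (by omega))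
    obtain ⟨l₂, h2⟩ := h (k + 1) le_rfl
    refine ⟨max l₁ l₂, fun j hj l hll => ?_⟩
    rcases Nat.lt_or_ge j (k + 1) with h3 | h3
    · exact h1 j (by omega) l ((le_max_left _ _).trans hll)
    · obtain rfl : j = k + 1 := by omega
      exact h2 l ((le_max_right _ _).trans hll)

/-- a vector is bounded by its coordinates in a basis -/
theorem co_bd {p q F z : ℤ × ℤ} (hd : dt p q ≠ 0) {K δ L : ℝ}
    (h1 : |(dt z q : ℝ)| ≤ K * L) (h2 : |(dt p z : ℝ)| ≤ K * L)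
    (h3 : |(dt (F - z) q : ℝ)| ≤ δ * L) (h4 : |(dt p (F - z) : ℝ)| ≤ δ * L) :
    |(F.1 : ℝ)| ≤ (K + δ) * (|(p.1 : ℝ)| + |(q.1 : ℝ)| + |(p.2 : ℝ)| + |(q.2 : ℝ)|) * L ∧
      |(F.2 : ℝ)| ≤ (K + δ) * (|(p.1 : ℝ)| + |(q.1 : ℝ)| + |(p.2 : ℝ)| + |(q.2 : ℝ)|) * L := by
  have e1 : (dt F q : ℝ) = dt z q + dt (F - z) q := by
    simp only [dt, Prod.fst_sub, Prod.snd_sub]
    push_cast
    ring
  have e2 : (dt p F : ℝ) = dt p z + dt p (F - z) := by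
    simp only [dt, Prod.fst_sub, Prod.snd_sub]
    push_cast
    ring
  have a1 : |(dt F q : ℝ)| ≤ (K + δ) * L := by
    rw [e1]
    exact (abs_add_le _ _).trans (by linarith)
  have a2 : |(dt p F : ℝ)| ≤ (K + δ) * L := by
    rw [e2]
    exact (abs_add_le _ _).trans (by linarith)
  have hd1 : (1 : ℝ) ≤ |(dt p q : ℝ)| := by
    have := Int.one_le_abs hd
    exact_mod_cast this
  have f1 : (dt p q : ℝ) * F.1 = dt F q * p.1 + dt p F * q.1 := by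
    simp only [dt]
    push_cast
    ring
  have f2 : (dt p q : ℝ) * F.2 = dt F q * p.2 + dt p F * q.2 := by
    simp only [dt]
    push_cast
    ring
  have hKL : 0 ≤ (K + δ) * L := (abs_nonneg _).trans a1
  constructor
  · have g1 : |(F.1 : ℝ)| ≤ |(dt p q : ℝ)| * |(F.1 : ℝ)| :=
      le_mul_of_one_le_left (abs_nonneg _) hd1
    rw [← abs_mul, f1] at g1
    refine g1.trans ((abs_add_le _ _).trans ?_)
    rw [abs_mul, abs_mul]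
    have k1 := mul_le_mul_of_nonneg_right a1 (abs_nonneg (p.1 : ℝ))
    have k2 := mul_le_mul_of_nonneg_right a2 (abs_nonneg (q.1 : ℝ))
    have k3 := mul_nonneg hKL (abs_nonneg (p.2 : ℝ))
    have k4 := mul_nonneg hKL (abs_nonneg (q.2 : ℝ))
    nlinarith
  · have g1 : |(F.2 : ℝ)| ≤ |(dt p q : ℝ)| * |(F.2 : ℝ)| :=
      le_mul_of_one_le_left (abs_nonneg _) hd1
    rw [← abs_mul, f2] at g1
    refine g1.trans ((abs_add_le _ _).trans ?_)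
    rw [abs_mul, abs_mul]
    have k1 := mul_le_mul_of_nonneg_right a1 (abs_nonneg (p.2 : ℝ))
    have k2 := mul_le_mul_of_nonneg_right a2 (abs_nonneg (q.2 : ℝ))
    have k3 := mul_nonneg hKL (abs_nonneg (p.1 : ℝ))
    have k4 := mul_nonneg hKL (abs_nonneg (q.1 : ℝ))
    nlinarith

theorem zero_mem_box3 {l : ℕ} (hl : 0 < l) : (0 : ℤ × ℤ × ℤ) ∈ box3 l := by
  rw [co_mem]
  have : (0 : ℤ) < l := by exact_mod_cast hl
  exact ⟨⟨le_rfl, this⟩, ⟨le_rfl, this⟩, ⟨le_rfl, this⟩⟩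

/-- a bounded set has few points in a box -/
theorem co_cnt_le {S : Set (ℤ × ℤ)} {z p q : ℤ × ℤ} (hd : dt p q ≠ 0) {L : ℕ} {A : ℝ} (hA : 0 ≤ A)
    (hS : ∀ y ∈ S, |(y.1 : ℝ)| ≤ A ∧ |(y.2 : ℝ)| ≤ A) :
    (cnt S z p q L : ℝ) ≤ (2 * A + 1) ^ 2 := by
  classical
  obtain ⟨n, hn⟩ : ∃ n : ℕ, n = ⌊A⌋₊ := ⟨_, rfl⟩
  have hnA : (n : ℝ) ≤ A := by rw [hn]; exact Nat.floor_le hA
  have h1 : cnt S z p q L ≤ (Finset.Icc (-(n : ℤ)) n ×ˢ Finset.Icc (-(n : ℤ)) n).card := by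
    unfold cnt
    refine Finset.card_le_card_of_injOn (fun w : ℕ × ℕ => pt z p q (w.1 : ℤ) (w.2 : ℤ)) ?_ ?_
    · intro w hw
      simp only [Finset.coe_filter, Set.mem_setOf_eq] at hw
      have h2 := hS _ hw.2
      have h3 : ∀ y : ℤ, |(y : ℝ)| ≤ A → |y| ≤ (n : ℤ) := by
        intro y hy
        have h4 : ((y.natAbs : ℕ) : ℝ) ≤ A := by
          rw [Nat.cast_natAbs]
          push_cast
          exact hy
        have h5 : y.natAbs ≤ n := by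
          rw [hn]
          exact Nat.le_floor h4
        rw [← Int.natCast_natAbs]
        exact_mod_cast h5
      simp only [Finset.coe_product, Set.mem_prod, Finset.mem_coe, Finset.mem_Icc]
      exact ⟨abs_le.mp (h3 _ h2.1), abs_le.mp (h3 _ h2.2)⟩
    · rintro ⟨s, t⟩ _ ⟨s', t'⟩ _ h
      simp only [pt, Prod.mk.injEq] at h
      obtain ⟨h1, h2⟩ := h
      have e1 : dt p q * ((s : ℤ) - s') = 0 := by
        unfold dt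
        linear_combination q.2 * h1 - q.1 * h2
      have e2 : dt p q * ((t : ℤ) - t') = 0 := by
        unfold dt
        linear_combination p.1 * h2 - p.2 * h1
      have e3 := sub_eq_zero.mp ((mul_eq_zero.mp e1).resolve_left hd)
      have e4 := sub_eq_zero.mp ((mul_eq_zero.mp e2).resolve_left hd)
      rw [Prod.mk.injEq]
      exact ⟨by exact_mod_cast e3, by exact_mod_cast e4⟩
  have h2 : (Finset.Icc (-(n : ℤ)) n ×ˢ Finset.Icc (-(n : ℤ)) n).card = (2 * n + 1) ^ 2 := by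
    rw [Finset.card_product, Int.card_Icc]
    have : ((n : ℤ) + 1 - -(n : ℤ)).toNat = 2 * n + 1 := by omega
    rw [this, sq]
  rw [h2] at h1
  have h3 : (cnt S z p q L : ℝ) ≤ (2 * n + 1) ^ 2 := by exact_mod_cast h1
  refine h3.trans (pow_le_pow_left₀ (by positivity) (by linarith) 2)

theorem SW_mono {R : Type*} [CommRing R] {b : Module.Basis (Fin 3) ℤ R} {s : ℤ} {N : ℕ}
    {T T' : ℝ} (h : T ≤ T') : SW b s N T' ⊆ SW b s N T := by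
  intro z hz n h1 h2
  exact hz n h1 (h2.trans (mul_le_mul_of_nonneg_left (Real.exp_le_exp.mpr h) (by positivity)))

theorem co_mat_bd (M : Matrix (Fin 3) (Fin 3) ℤ) : ∃ μ : ℕ, ∀ i j, |M i j| ≤ (μ : ℤ) := by
  refine ⟨∑ i, ∑ j, (M i j).natAbs, fun i j => ?_⟩
  rw [← Int.natCast_natAbs]
  have h1 : (M i j).natAbs ≤ ∑ j, (M i j).natAbs :=
    Finset.single_le_sum (f := fun j => (M i j).natAbs) (fun _ _ => Nat.zero_le _)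
      (Finset.mem_univ j)
  have h2 : ∑ j, (M i j).natAbs ≤ ∑ i, ∑ j, (M i j).natAbs :=
    Finset.single_le_sum (f := fun i => ∑ j, (M i j).natAbs) (fun _ _ => Nat.zero_le _)
      (Finset.mem_univ i)
  exact_mod_cast h1.trans h2

/-- the size of the data compared with the height -/
theorem co_size {β κ : ℝ} (hβ : 0 < β) (hβ1 : β ≤ 1) (CB₀ CB : ℕ) : ∃ M₀ : ℕ, ∀ H L : ℕ,
    M₀ ≤ H → 1 ≤ H → β / 2 * (L : ℝ) ^ 2 ≤ (2 * (|κ| * H) + 1) ^ 2 →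
    (CB₀ : ℝ) ^ 100 * (((CB * L : ℕ) : ℝ)) ^ 9 ≤ (H : ℝ) ^ 10 := by
  obtain ⟨c, hc⟩ : ∃ c : ℝ, c = 2 / β * (2 * |κ| + 1) := ⟨_, rfl⟩
  have hc0 : 0 < c := by rw [hc]; positivity
  refine ⟨⌈(CB₀ : ℝ) ^ 100 * (CB * c) ^ 9⌉₊, fun H L hH hH1 h => ?_⟩
  have hHr : (1 : ℝ) ≤ H := by exact_mod_cast hH1
  have h1 : (2 * (|κ| * H) + 1) ^ 2 ≤ ((2 * |κ| + 1) * (H : ℝ)) ^ 2 := by
    apply pow_le_pow_left₀ (by positivity)
    nlinarith [abs_nonneg κ]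
  have h2 : (L : ℝ) ^ 2 ≤ (c * H) ^ 2 := by
    have h3 : (L : ℝ) ^ 2 = 2 / β * (β / 2 * (L : ℝ) ^ 2) := by field_simp
    have hb2 : (1 : ℝ) ≤ 2 / β := by
      rw [le_div_iff₀ hβ]
      linarith
    have h4 : 2 / β * (((2 * |κ| + 1) * (H : ℝ)) ^ 2) ≤
        (2 / β) ^ 2 * (((2 * |κ| + 1) * (H : ℝ)) ^ 2) := by
      apply mul_le_mul_of_nonneg_right _ (by positivity)
      nlinarith
    calc (L : ℝ) ^ 2 = 2 / β * (β / 2 * (L : ℝ) ^ 2) := h3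
      _ ≤ 2 / β * (((2 * |κ| + 1) * (H : ℝ)) ^ 2) :=
          mul_le_mul_of_nonneg_left (h.trans h1) (by positivity)
      _ ≤ _ := h4
      _ = (c * H) ^ 2 := by rw [hc]; ring
  have h3 : (L : ℝ) ≤ c * H := by
    exact (pow_le_pow_iff_left₀ (by positivity) (by positivity) two_ne_zero).mp h2
  have h4 : ((CB * L : ℕ) : ℝ) ≤ (CB * c) * H := by
    push_cast
    calc (CB : ℝ) * L ≤ CB * (c * H) := mul_le_mul_of_nonneg_left h3 (by positivity)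
      _ = (CB * c) * H := by ring
  have h5 : (CB₀ : ℝ) ^ 100 * (CB * c) ^ 9 ≤ (H : ℝ) :=
    (Nat.le_ceil _).trans (by exact_mod_cast hH)
  calc (CB₀ : ℝ) ^ 100 * (((CB * L : ℕ) : ℝ)) ^ 9 ≤ (CB₀ : ℝ) ^ 100 * ((CB * c) * H) ^ 9 :=
        mul_le_mul_of_nonneg_left (pow_le_pow_left₀ (by positivity) h4 9) (by positivity)
    _ = ((CB₀ : ℝ) ^ 100 * (CB * c) ^ 9) * (H : ℝ) ^ 9 := by ring
    _ ≤ H * (H : ℝ) ^ 9 := mul_le_mul_of_nonneg_right h5 (by positivity)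
    _ = (H : ℝ) ^ 10 := by ring

universe v

theorem core {β : ℝ} (hβ : 0 < β) (hβ1 : β ≤ 1) : ∃ ε : ℝ, 0 < ε ∧ ε ≤ β ∧ ∀ K : ℝ, 0 < K →
    ∀ d : ℕ, 0 < d → ∃ η : ℝ, 0 < η ∧ ∀ (R : Type v) [CommRing R] [IsDomain R]
      (b : Module.Basis (Fin 3) ℤ R), b 0 = 1 → ∀ s : ℤ, s = 1 ∨ s = -1 →
      ∀ F : ℕ → Set (Set (ℤ × ℤ)), Antitone F → UBG F β → ∀ κ : ℝ,
      (∀ M : ℕ, ∀ S ∈ F M, ∃ H NN : ℕ, M ≤ H ∧ 1 ≤ H ∧ 1 ≤ NN ∧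
        ∀ z ∈ S, z ∈ SW b s NN ((H : ℝ) ^ 10) ∧ |(z.1 : ℝ)| ≤ κ * H ∧ |(z.2 : ℝ)| ≤ κ * H) →
      ∀ p q : ℤ × ℤ, |dt p q| = d → ∀ p₁ p₂ p₃ : ℕ, p₁.Prime → p₂.Prime → p₃.Prime → p₁ ≠ p₂ →
      p₁ ≠ p₃ → p₂ ≠ p₃ → p₁ ≡ 1 [MOD d] → p₂ ≡ 1 [MOD d] → p₃ ≡ 1 [MOD d] →
      (p₁ : ℤ) ∣ Phi b 1 0 → (p₂ : ℤ) ∣ Phi b 1 0 → (p₃ : ℤ) ∣ Phi b 1 0 →
      |(p₁ : ℝ) - p₂ * p₃| ≤ η * p₁ →
      (∀ M : ℕ, ∃ L : ℕ, M ≤ L ∧ ∃ S ∈ F M, ∃ z : ℤ × ℤ, NMx S β ε K p q p₁ (p₂ * p₃) L z) →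
      False := by
  obtain ⟨k, hk, η₁, hη₁, hB⟩ := co_two hβ hβ1
  obtain ⟨δ, hδdef⟩ : ∃ δ : ℝ, δ = min (1 / 4) (η₁ / 24) := ⟨_, rfl⟩
  have hδ : 0 < δ := by rw [hδdef]; positivity
  have hδ1 : δ ≤ 1 / 4 := by rw [hδdef]; exact min_le_left _ _
  have hδ2 : δ ≤ η₁ / 24 := by rw [hδdef]; exact min_le_right _ _
  obtain ⟨ε, hεdef⟩ : ∃ ε : ℝ, ε = min (η₁ / 2) (β / 2) := ⟨_, rfl⟩
  have hε : 0 < ε := by rw [hεdef]; positivity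
  have hε1 : ε ≤ η₁ / 2 := by rw [hεdef]; exact min_le_left _ _
  have hε2' : ε ≤ β / 2 := by rw [hεdef]; exact min_le_right _ _
  have hε2 : ε ≤ β := by linarith
  refine ⟨ε, hε, hε2, fun K hK d hd0 => ?_⟩
  have hd0r : (1 : ℝ) ≤ d := by exact_mod_cast hd0
  obtain ⟨η, hηdef⟩ : ∃ η : ℝ, η = min (1 / 2) (δ / (8 * (K + d))) := ⟨_, rfl⟩
  have hKd : 0 < K + d := by linarith
  have hη : 0 < η := by rw [hηdef]; positivity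
  have hη1 : η ≤ 1 / 2 := by rw [hηdef]; exact min_le_left _ _
  have hη2 : η * (8 * (K + d)) ≤ δ := by
    have : η ≤ δ / (8 * (K + d)) := by rw [hηdef]; exact min_le_right _ _
    rwa [le_div_iff₀ (by positivity)] at this
  refine ⟨η, hη, ?_⟩
  intro R _ _ b hb s hs F hFa hU κ hFS p q hN p₁ p₂ p₃ hp₁ hp₂ hp₃ h12 h13 h23 e₁ e₂ e₃ i₁ i₂ i₃ hηp hfreq
  obtain ⟨m₂, hm₂⟩ : ∃ m₂ : ℕ, m₂ = p₂ * p₃ := ⟨_, rfl⟩
  rw [← hm₂] at hfreq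
  have hηp' : |(p₁ : ℝ) - m₂| ≤ η * p₁ := by
    rw [hm₂]
    push_cast
    exact hηp
  have hm₂0 : 0 < m₂ := by rw [hm₂]; exact Nat.mul_pos hp₂.pos hp₃.pos
  have hm₂1 : m₂ ≡ 1 [MOD d] := by
    rw [hm₂]
    exact (e₂.mul e₃)
  have hdne : dt p q ≠ 0 := by
    intro h0
    rw [h0, abs_zero] at hN
    have : d = 0 := by exact_mod_cast hN.symm
    omega
  obtain ⟨e, he, hNe⟩ : ∃ e : ℤ, e * e = 1 ∧ dt p q = e * d := by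
    rcases le_or_gt 0 (dt p q) with h0 | h0
    · exact ⟨1, by norm_num, by rw [← hN, abs_of_nonneg h0, one_mul]⟩
    · exact ⟨-1, by norm_num, by rw [← hN, abs_of_neg h0]; ring⟩
  have hNr : |(dt p q : ℝ)| = d := by
    have : ((|dt p q| : ℤ) : ℝ) = ((d : ℤ) : ℝ) := by rw [hN]
    push_cast at this
    exact this
  obtain ⟨I, hIdef⟩ : ∃ I : ℤ, I = Phi b 1 0 := ⟨_, rfl⟩
  have hI0 : I ≠ 0 := by
    rw [hIdef]
    exact phi_ne0 hb (q := (1, 0)) (by simp)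
  rw [← hIdef] at i₁ i₂ i₃
  have hdvd : ((p₁ * m₂ : ℕ) : ℤ) ∣ I := by
    have c23 : IsCoprime (p₂ : ℤ) (p₃ : ℤ) :=
      Nat.isCoprime_iff_coprime.mpr ((Nat.coprime_primes hp₂ hp₃).mpr h23)
    have c12 : IsCoprime (p₁ : ℤ) (p₂ : ℤ) :=
      Nat.isCoprime_iff_coprime.mpr ((Nat.coprime_primes hp₁ hp₂).mpr h12)
    have c13 : IsCoprime (p₁ : ℤ) (p₃ : ℤ) :=
      Nat.isCoprime_iff_coprime.mpr ((Nat.coprime_primes hp₁ hp₃).mpr h13)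
    rw [hm₂]
    push_cast
    exact (c12.mul_right c13).mul_dvd i₁ (c23.mul_dvd i₂ i₃)
  obtain ⟨A₀, E₀, A', r, E', hSC⟩ := str hb
  rw [← hIdef] at hSC
  obtain ⟨Ku, hKu, hfA⟩ := famA p q hdne K hK
  obtain ⟨c₁, hc₁def⟩ : ∃ c₁ : ℝ, c₁ = β ^ 2 / 24 := ⟨_, rfl⟩
  have hc₁ : 0 < c₁ := by rw [hc₁def]; positivity
  obtain ⟨Ca, hCa⟩ := exists_nat_ge ((1 + |(I : ℝ)| * Ku ^ 3) / c₁ ^ 2)
  obtain ⟨B, hBdef⟩ : ∃ B : ℝ, B = |((A₀ - r : ℤ) : ℝ)| + |(A' : ℝ)| := ⟨_, rfl⟩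
  have hB0 : 0 ≤ B := by rw [hBdef]; positivity
  obtain ⟨C, hCdef⟩ : ∃ C : ℝ, C = Ca + 1 + (B + 1) * Ku := ⟨_, rfl⟩
  have hC : 0 < C := by rw [hCdef]; positivity
  obtain ⟨ε₂, hε₂, X₂, hpos⟩ := pos (Algebra.leftMulMatrix b (((d : ℕ) : R) * b 1)) hC one_pos
  obtain ⟨τ, hτ⟩ : ∃ τ : ℕ, τ = p₁ + m₂ * (1 + d * I.natAbs * k) := ⟨_, rfl⟩
  obtain ⟨Xa, hXa⟩ := hfA d hN.symm I Ca τ δ hδ
  obtain ⟨ε₃, hε₃def⟩ : ∃ ε₃ : ℝ, ε₃ = min (ε₂ / 2) (1 / (2 * (B + 1))) := ⟨_, rfl⟩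
  have hε₃ : 0 < ε₃ := by rw [hε₃def]; positivity
  obtain ⟨Xc, hXc⟩ := famC p q hdne K hK d hN.symm I (p₁ * m₂) p₁ τ hp₁.pos hδ hε₃
  obtain ⟨m, hm⟩ : ∃ m : ℕ, m = Xa + Xc + ⌈|X₂|⌉₊ + d * r.natAbs + p₁ + 1 := ⟨_, rfl⟩
  obtain ⟨X, hX⟩ : ∃ X : ℕ, X = p₁ * m₂ * (d * I.natAbs) * m := ⟨_, rfl⟩
  have hXm : m ≤ X := by
    rw [hX]
    apply Nat.le_mul_of_pos_left
    have : 0 < I.natAbs := Int.natAbs_pos.mpr hI0
    exact Nat.mul_pos (Nat.mul_pos hp₁.pos hm₂0) (Nat.mul_pos hd0 this)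
  have hn : ∀ j, j ≤ k → Node d I (p₁ * m₂) X τ (nD p₁ m₂ j) (nP p₁ m₂ j)
      (nt p₁ m₂ (d * I.natAbs) m j) (I / (nD p₁ m₂ j : ℕ)) := by
    intro j hj
    rw [hX, hτ]
    exact co_node hp₁.pos hm₂0 e₁ hm₂1 hdvd hj
  have hX1 : 1 ≤ X := by omega
  have hXr : (1 : ℝ) ≤ X := by exact_mod_cast hX1
  have hpX : p₁ ≤ X := by omega
  have hnD0 : nD p₁ m₂ 0 = p₁ := rfl
  have hnD1 : ∀ j, 1 ≤ j → nD p₁ m₂ j = m₂ := by
    intro j hj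
    unfold nD
    rw [if_neg (by omega)]
  have hnP0 : nP p₁ m₂ 0 = m₂ := rfl
  have hnP1 : ∀ j, 1 ≤ j → nP p₁ m₂ j = p₁ := by
    intro j hj
    unfold nP
    rw [if_neg (by omega)]
  have hM0 : (0 : ℤ) < ((d * I.natAbs : ℕ) : ℤ) := by
    have : 0 < d * I.natAbs := Nat.mul_pos hd0 (Int.natAbs_pos.mpr hI0)
    exact_mod_cast this
  -- the values `D t` are different
  have hT : ∀ j, 1 ≤ j → j ≤ k → ((nD p₁ m₂ 0 : ℕ) : ℤ) * nt p₁ m₂ (d * I.natAbs) m 0 ≠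
      (nD p₁ m₂ j : ℕ) * nt p₁ m₂ (d * I.natAbs) m j := by
    intro j hj _ h0
    rw [hnD0, hnD1 j hj] at h0
    unfold nt at h0
    rw [if_pos rfl, if_neg (by omega)] at h0
    have h1 : (p₁ : ℤ) = m₂ * (1 + ((d * I.natAbs : ℕ) : ℤ) * j) := by linear_combination h0
    have h2 : (p₂ : ℤ) ∣ (p₁ : ℤ) := by
      rw [h1, hm₂]
      exact ⟨p₃ * (1 + ((d * I.natAbs : ℕ) : ℤ) * j), by push_cast; ring⟩
    have h3 : p₂ ∣ p₁ := by exact_mod_cast h2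
    exact h12 ((Nat.prime_dvd_prime_iff_eq hp₂ hp₁).mp h3).symm
  have ht : ∀ i j, 1 ≤ i → i < j → j ≤ k → nt p₁ m₂ (d * I.natAbs) m i ≠
      nt p₁ m₂ (d * I.natAbs) m j := by
    intro i j hi hij _ h0
    unfold nt at h0
    rw [if_neg (by omega), if_neg (by omega)] at h0
    have h1 : ((d * I.natAbs : ℕ) : ℤ) * i = ((d * I.natAbs : ℕ) : ℤ) * j := by
      linear_combination h0
    have h2 := mul_left_cancel₀ hM0.ne' h1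
    have h3 : i = j := by exact_mod_cast h2
    omega
  -- the constant in Bessel
  obtain ⟨W, hW⟩ : ∃ W : ℝ, W = |(p.1 : ℝ)| + |(q.1 : ℝ)| + |(p.2 : ℝ)| + |(q.2 : ℝ)| := ⟨_, rfl⟩
  have hW0 : 0 ≤ W := by rw [hW]; positivity
  obtain ⟨Ka, hKa⟩ : ∃ Ka : ℝ, Ka = (K + δ) * W * (2 * X) := ⟨_, rfl⟩
  obtain ⟨lB, hlB⟩ := hB F hFa hU d I (p₁ * m₂) X τ (nD p₁ m₂) (nP p₁ m₂)
    (nt p₁ m₂ (d * I.natAbs) m) (fun j => I / (nD p₁ m₂ j : ℕ)) hn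
    (fun j hj _ => by rw [hnD1 j hj, hnD1 1 le_rfl])
    (fun j hj _ => by
      show I / ((nD p₁ m₂ j : ℕ) : ℤ) = I / ((nD p₁ m₂ 1 : ℕ) : ℤ)
      rw [hnD1 j hj, hnD1 1 le_rfl])
    hT ht (Nat.mul_pos hp₁.pos hm₂0).ne' hI0 p q e hdne hNe he Ka
  -- the means
  have hcopD : ∀ j, j ≤ k → ∀ π : ℕ, π.Prime → π ∣ nD p₁ m₂ j → ¬ (π : ℤ) ∣ dt p q := by
    intro j hj π hπ h1 h2
    have h3 := (hn j hj).cD
    have h4 : (π : ℤ) ∣ (nD p₁ m₂ j : ℕ) := by exact_mod_cast h1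
    have h5 : (π : ℤ) ∣ (d : ℤ) := by
      rw [← hN]
      exact (dvd_abs _ _).mpr h2
    have h6 := h3.isUnit_of_dvd' h4 h5
    exact (Nat.prime_iff_prime_int.mp hπ).not_isUnit h6
  have hmA : ∀ j, j ≤ k → ∃ l₀, ∀ l, l₀ ≤ l → ∀ L : ℕ, X * l ≤ L → L < X * (l + 1) →
      ∀ (S : Set (ℤ × ℤ)) (z : ℤ × ℤ) (n₀ : ℤ) (u₀ : ℤ × ℤ) (μ : ℝ), 0 ≤ μ → μ ≤ 1 →
        (∀ w ∈ box3 l, ∀ F : ℤ × ℤ,
          F = vl ((nD p₁ m₂ j : ℕ) * nt p₁ m₂ (d * I.natAbs) m j) d (d * I) n₀ u₀ +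
            fam p q ((nD p₁ m₂ j : ℕ) * nt p₁ m₂ (d * I.natAbs) m j) d (d * I) w →
          dt p q ∣ dt (F - z) q ∧ dt p q ∣ dt p (F - z) ∧
            |(dt (F - z) q : ℝ) - X * w.2.1 * dt p q| ≤ δ * L ∧
            |(dt p (F - z) : ℝ) - X * w.2.2 * dt p q| ≤ δ * L) →
        μ * ((L : ℝ) ^ 2 / (nD p₁ m₂ j : ℕ)) ≤
          cnt (S ∩ {y | ((nD p₁ m₂ j : ℕ) : ℤ) ∣ y.2}) z p q L →
        (μ - 12 * δ) * (l : ℝ) ^ 3 ≤
          dens l (fun w => vl ((nD p₁ m₂ j : ℕ) * nt p₁ m₂ (d * I.natAbs) m j) d (d * I) n₀ u₀ +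
            fam p q ((nD p₁ m₂ j : ℕ) * nt p₁ m₂ (d * I.natAbs) m j) d (d * I) w ∈ S) := by
    intro j hj
    exact co_meanA (hn j hj) hX1 hdne hNe he (hcopD j hj) hδ hδ1
  have hDη : ∀ j, |(p₁ : ℝ) - (nD p₁ m₂ j : ℕ)| ≤ η * p₁ := by
    intro j
    unfold nD
    split_ifs
    · rw [sub_self, abs_zero]
      positivity
    · exact hηp'
  have hp₁r : (0 : ℝ) < p₁ := by exact_mod_cast hp₁.pos
  have hηδ : η ≤ δ / 2 := by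
    have h1 : (8 : ℝ) * 1 ≤ 8 * (K + d) := by linarith
    have h2 := mul_le_mul_of_nonneg_left h1 hη.le
    linarith
  have hmC : ∀ j, j ≤ k → ∃ l₀, ∀ l, l₀ ≤ l → ∀ L : ℕ, X * l ≤ p₁ * L → p₁ * L < X * (l + 1) →
      ∀ (S : Set (ℤ × ℤ)) (z : ℤ × ℤ) (n₀ : ℤ) (u₀ : ℤ × ℤ) (μ : ℝ), 0 ≤ μ → μ ≤ 1 →
        (∀ w ∈ box3 l, ∀ F : ℤ × ℤ,
          F = vl (nt p₁ m₂ (d * I.natAbs) m j) (d * (nP p₁ m₂ j : ℕ))
              (d * (I / (nD p₁ m₂ j : ℕ))) n₀ u₀ +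
            fam p q (nt p₁ m₂ (d * I.natAbs) m j) (d * (nP p₁ m₂ j : ℕ))
              (d * (I / (nD p₁ m₂ j : ℕ))) w →
          dt p q ∣ dt (F - z) q ∧ dt p q ∣ dt p (F - z) ∧
            |(dt (F - z) q : ℝ) - X / p₁ * w.2.1 * dt p q| ≤ δ * L ∧
            |(dt p (F - z) : ℝ) - X / p₁ * w.2.2 * dt p q| ≤ δ * L) →
        μ * (L : ℝ) ^ 2 ≤ cnt S z p q L →
        (μ - 12 * δ) * (l : ℝ) ^ 3 ≤
          dens l (fun w => vl (nt p₁ m₂ (d * I.natAbs) m j) (d * (nP p₁ m₂ j : ℕ))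
              (d * (I / (nD p₁ m₂ j : ℕ))) n₀ u₀ +
            fam p q (nt p₁ m₂ (d * I.natAbs) m j) (d * (nP p₁ m₂ j : ℕ))
              (d * (I / (nD p₁ m₂ j : ℕ))) w ∈ S) := by
    intro j hj
    refine co_meanC (hn j hj) hp₁.pos hpX hdne hNe he hδ hδ1 ?_
    have h1 := (abs_le.mp (hDη j)).1
    have h2 := mul_le_mul_of_nonneg_right hηδ hp₁r.le
    linarith
  obtain ⟨lA, hlA⟩ := co_unif hmA
  obtain ⟨lC, hlC⟩ := co_unif hmC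
  obtain ⟨lFa, hlFa⟩ := hXa X (by omega)
  obtain ⟨lFc, hlFc⟩ := hXc X (by omega)
  obtain ⟨lS, hlS⟩ := sml p q hdne hc₁
  have hβ8 : (0 : ℝ) < β ^ 2 / 8 := by positivity
  obtain ⟨Q, lN, hlN⟩ := nsq p q hdne I hI0 ((p₁ * m₂ : ℕ) : ℤ)
    (by exact_mod_cast (Nat.mul_pos hp₁.pos hm₂0).ne') hβ8
  -- the size of the data
  obtain ⟨μ, hμ⟩ := co_mat_bd (Algebra.leftMulMatrix b (((d : ℕ) : R) * b 1))
  obtain ⟨CA, hCA⟩ : ∃ CA : ℕ, CA = ⌈C⌉₊ + (2 * (p₁ * m₂) + 1) := ⟨_, rfl⟩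
  obtain ⟨CB₀, hCB₀⟩ : ∃ CB₀ : ℕ, CB₀ = p₁ + (m₂ + (d * r.natAbs + (X + τ) + 2)) := ⟨_, rfl⟩
  obtain ⟨CB, hCB⟩ : ∃ CB : ℕ, CB = (3 * μ + 1) * CA + CB₀ := ⟨_, rfl⟩
  obtain ⟨M₀, hM₀⟩ := co_size (κ := κ) hβ hβ1 CB₀ CB
  -- choice of `L`
  obtain ⟨lM, hlM⟩ : ∃ lM : ℕ, lM = lB + lA + lC + lFa + lFc + lS + lN + M₀ + 1 := ⟨_, rfl⟩
  obtain ⟨L, hL, S, hSF, z, hz⟩ := hfreq (X * lM)
  have hXlM : lM ≤ X * lM := Nat.le_mul_of_pos_left _ (by omega)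
  obtain ⟨H, NN, hHM, hH1, hHN, hSS⟩ := hFS (X * lM) S hSF
  have hSB : S ∈ F lB := hFa (by omega) hSF
  obtain ⟨l, hl⟩ : ∃ l : ℕ, l = L / X := ⟨_, rfl⟩
  obtain ⟨l', hl'⟩ : ∃ l' : ℕ, l' = p₁ * L / X := ⟨_, rfl⟩
  have hX0 : 0 < X := hX1
  have a1 : X * l ≤ L := by rw [hl]; exact Nat.mul_div_le _ _
  have a2 : L < X * (l + 1) := by rw [hl]; exact Nat.lt_mul_div_succ _ hX0
  have a3 : X * l' ≤ p₁ * L := by rw [hl']; exact Nat.mul_div_le _ _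
  have a4 : p₁ * L < X * (l' + 1) := by rw [hl']; exact Nat.lt_mul_div_succ _ hX0
  have a5 : lM ≤ l := by
    rw [hl, Nat.le_div_iff_mul_le hX0]
    linarith [mul_comm lM X]
  have a6 : l ≤ l' := by
    rw [hl, hl']
    exact Nat.div_le_div_right (Nat.le_mul_of_pos_left _ hp₁.pos)
  have hl0 : 0 < l := by omega
  have hl'0 : 0 < l' := by omega
  obtain ⟨u₀, hu₀, hFa⟩ := hlFa l (by omega) L a1 a2 z hz.hz1 hz.hz2
  obtain ⟨w₀, hw₀, hFc⟩ := hlFc l' (by omega) L a3 a4 z hz.hz1 hz.hz2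
  have hμ0 : 0 ≤ β - ε := by linarith
  have hμ1 : β - ε ≤ 1 := by linarith
  -- closeness for the two families
  have hFa' : ∀ j, j ≤ k → ∀ w ∈ box3 l, ∀ F : ℤ × ℤ,
      F = vl ((nD p₁ m₂ j : ℕ) * nt p₁ m₂ (d * I.natAbs) m j) d (d * I) (Ca * l) u₀ +
        fam p q ((nD p₁ m₂ j : ℕ) * nt p₁ m₂ (d * I.natAbs) m j) d (d * I) w →
      dt p q ∣ dt (F - z) q ∧ dt p q ∣ dt p (F - z) ∧
        |(dt (F - z) q : ℝ) - X * w.2.1 * dt p q| ≤ δ * L ∧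
        |(dt p (F - z) : ℝ) - X * w.2.2 * dt p q| ≤ δ * L := by
    intro j hj w hw F hF
    exact hFa _ (co_abs (hn j hj)) (hn j hj).N1 w hw F hF
  have hFc' : ∀ j, j ≤ k → ∀ w ∈ box3 l', ∀ F : ℤ × ℤ,
      F = vl (nt p₁ m₂ (d * I.natAbs) m j) (d * (nP p₁ m₂ j : ℕ))
          (d * (I / (nD p₁ m₂ j : ℕ))) L w₀ +
        fam p q (nt p₁ m₂ (d * I.natAbs) m j) (d * (nP p₁ m₂ j : ℕ))
          (d * (I / (nD p₁ m₂ j : ℕ))) w →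
      dt p q ∣ dt (F - z) q ∧ dt p q ∣ dt p (F - z) ∧
        |(dt (F - z) q : ℝ) - X / p₁ * w.2.1 * dt p q| ≤ δ * L ∧
        |(dt p (F - z) : ℝ) - X / p₁ * w.2.2 * dt p q| ≤ δ * L := by
    intro j hj w hw F hF
    refine hFc _ _ _ _ (hn j hj).D0 (hn j hj).hP (hn j hj).hI (co_abs (hn j hj)) (hn j hj).N2 ?_
      w hw F hF
    rw [hNr]
    have h1 := hDη j
    have h2 := (abs_le.mp h1).2
    have h3 : (p₁ : ℝ) ≤ 2 * (nD p₁ m₂ j : ℕ) := by nlinarith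
    calc |(p₁ : ℝ) - (nD p₁ m₂ j : ℕ)| * (4 * (K + d)) ≤ (η * p₁) * (4 * (K + d)) :=
          mul_le_mul_of_nonneg_right h1 (by positivity)
      _ ≤ (η * (2 * (nD p₁ m₂ j : ℕ))) * (4 * (K + d)) := by
          apply mul_le_mul_of_nonneg_right _ (by positivity)
          exact mul_le_mul_of_nonneg_left h3 hη.le
      _ = (η * (8 * (K + d))) * (nD p₁ m₂ j : ℕ) := by ring
      _ ≤ δ * (nD p₁ m₂ j : ℕ) := mul_le_mul_of_nonneg_right hη2 (by positivity)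
  have hηε : β - η₁ ≤ β - ε - 12 * δ := by linarith
  -- the means of the `a`-family
  have hMA : ∀ j, j ≤ k → (β - η₁) * (l : ℝ) ^ 3 ≤ dens l (fun w =>
      vl ((nD p₁ m₂ j : ℕ) * nt p₁ m₂ (d * I.natAbs) m j) d (d * I) (Ca * l) u₀ +
        fam p q ((nD p₁ m₂ j : ℕ) * nt p₁ m₂ (d * I.natAbs) m j) d (d * I) w ∈ S) := by
    intro j hj
    refine le_trans (mul_le_mul_of_nonneg_right hηε (by positivity)) ?_
    refine hlA j hj l (by omega) L a1 a2 S z (Ca * l) u₀ (β - ε) hμ0 hμ1 (hFa' j hj) ?_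
    rcases Nat.eq_zero_or_pos j with h0 | h0
    · subst h0
      rw [hnD0]
      exact hz.n1
    · rw [hnD1 j h0]
      exact hz.n2
  have hMC : ∀ j, j ≤ k → (β - η₁) * (l' : ℝ) ^ 3 ≤ dens l' (fun w =>
      vl (nt p₁ m₂ (d * I.natAbs) m j) (d * (nP p₁ m₂ j : ℕ))
          (d * (I / (nD p₁ m₂ j : ℕ))) L w₀ +
        fam p q (nt p₁ m₂ (d * I.natAbs) m j) (d * (nP p₁ m₂ j : ℕ))
          (d * (I / (nD p₁ m₂ j : ℕ))) w ∈ S) := by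
    intro j hj
    refine le_trans (mul_le_mul_of_nonneg_right hηε (by positivity)) ?_
    exact hlC j hj l' (by omega) L a3 a4 S z L w₀ (β - ε) hμ0 hμ1 (hFc' j hj) hz.n0
  -- bounds for the offsets
  have hLl : (L : ℝ) ≤ 2 * X * l := by
    have h1 : L ≤ 2 * X * l := by nlinarith
    exact_mod_cast h1
  have hLl' : (L : ℝ) ≤ 2 * X * l' := by
    have h1 : p₁ * L ≤ 2 * X * l' := by nlinarith
    have h2 : L ≤ p₁ * L := Nat.le_mul_of_pos_left _ hp₁.pos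
    exact_mod_cast h2.trans h1
  have hKδ : 0 ≤ (K + δ) * W := by positivity
  have bA : |((vl ((nD p₁ m₂ 0 : ℕ) * nt p₁ m₂ (d * I.natAbs) m 0) d (d * I) (Ca * l) u₀).1 : ℝ)| ≤
        Ka * l ∧
      |((vl ((nD p₁ m₂ 0 : ℕ) * nt p₁ m₂ (d * I.natAbs) m 0) d (d * I) (Ca * l) u₀).2 : ℝ)| ≤
        Ka * l := by
    obtain ⟨-, -, h1, h2⟩ := hFa' 0 (Nat.zero_le _) 0 (zero_mem_box3 hl0) _ rfl
    rw [map_zero, add_zero] at h1 h2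
    simp only [Prod.snd_zero, Prod.fst_zero, Int.cast_zero, mul_zero, zero_mul, sub_zero] at h1 h2
    obtain ⟨g1, g2⟩ := co_bd hdne hz.hz1 hz.hz2 h1 h2
    rw [← hW] at g1 g2
    rw [hKa]
    constructor
    · refine g1.trans ?_
      calc (K + δ) * W * L ≤ (K + δ) * W * (2 * X * l) := mul_le_mul_of_nonneg_left hLl hKδ
        _ = (K + δ) * W * (2 * X) * l := by ring
    · refine g2.trans ?_
      calc (K + δ) * W * L ≤ (K + δ) * W * (2 * X * l) := mul_le_mul_of_nonneg_left hLl hKδ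
        _ = (K + δ) * W * (2 * X) * l := by ring
  have bC : |((vl (nt p₁ m₂ (d * I.natAbs) m 0) (d * (nP p₁ m₂ 0 : ℕ))
          (d * (I / (nD p₁ m₂ 0 : ℕ))) L w₀).1 : ℝ)| ≤ Ka * l' ∧
      |((vl (nt p₁ m₂ (d * I.natAbs) m 0) (d * (nP p₁ m₂ 0 : ℕ))
          (d * (I / (nD p₁ m₂ 0 : ℕ))) L w₀).2 : ℝ)| ≤ Ka * l' := by
    obtain ⟨-, -, h1, h2⟩ := hFc' 0 (Nat.zero_le _) 0 (zero_mem_box3 hl'0) _ rfl
    rw [map_zero, add_zero] at h1 h2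
    simp only [Prod.snd_zero, Prod.fst_zero, Int.cast_zero, mul_zero, zero_mul, sub_zero] at h1 h2
    obtain ⟨g1, g2⟩ := co_bd hdne hz.hz1 hz.hz2 h1 h2
    rw [← hW] at g1 g2
    rw [hKa]
    constructor
    · refine g1.trans ?_
      calc (K + δ) * W * L ≤ (K + δ) * W * (2 * X * l') := mul_le_mul_of_nonneg_left hLl' hKδ
        _ = (K + δ) * W * (2 * X) * l' := by ring
    · refine g2.trans ?_
      calc (K + δ) * W * L ≤ (K + δ) * W * (2 * X * l') := mul_le_mul_of_nonneg_left hLl' hKδ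
        _ = (K + δ) * W * (2 * X) * l' := by ring
  obtain ⟨j, hj1, hjk, dA, dC⟩ := hlB l l' (by omega) (by omega) S hSB
    (fun j => vl ((nD p₁ m₂ j : ℕ) * nt p₁ m₂ (d * I.natAbs) m j) d (d * I) (Ca * l) u₀)
    (fun j => vl (nt p₁ m₂ (d * I.natAbs) m j) (d * (nP p₁ m₂ j : ℕ))
          (d * (I / (nD p₁ m₂ j : ℕ))) L w₀) bA.1 bA.2 bC.1 bC.2 hMA hMC
  rw [hnD0, hnP0] at dC
  rw [hnD0] at dA
  rw [hnD1 j hj1] at dA
  rw [hnD1 j hj1, hnP1 j hj1] at dC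
  have hI0' : I = p₁ * (I / (p₁ : ℤ)) := (Int.mul_ediv_cancel' i₁).symm
  have hm₂I : (m₂ : ℤ) ∣ I := by
    refine dvd_trans ?_ hdvd
    push_cast
    exact dvd_mul_left _ _
  have hI1' : I = m₂ * (I / (m₂ : ℤ)) := (Int.mul_ediv_cancel' hm₂I).symm
  have hL0 : 0 < L := by
    have : 0 < X * l := Nat.mul_pos hX0 hl0
    omega
  have hXX₂ : X₂ ≤ ((d * r : ℤ) : ℝ) + X := by
    have g1 : (m : ℝ) ≤ X := by exact_mod_cast hXm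
    have g2 : (m : ℝ) = Xa + Xc + ⌈|X₂|⌉₊ + d * (r.natAbs : ℝ) + p₁ + 1 := by
      rw [hm]
      simp only [Nat.cast_add, Nat.cast_mul, Nat.cast_one]
    have g3 : X₂ ≤ ⌈|X₂|⌉₊ := (le_abs_self _).trans (Nat.le_ceil _)
    have g4 : -((d : ℝ) * (r.natAbs : ℝ)) ≤ ((d * r : ℤ) : ℝ) := by
      have h1 : -(r.natAbs : ℤ) ≤ r := by
        have := neg_abs_le r
        rwa [← Int.natCast_natAbs] at this
      have h2 : -((d : ℤ) * (r.natAbs : ℤ)) ≤ d * r := by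
        have : (0 : ℤ) ≤ d := by positivity
        nlinarith
      have h3 : ((-((d : ℤ) * (r.natAbs : ℤ)) : ℤ) : ℝ) ≤ ((d * r : ℤ) : ℝ) := by exact_mod_cast h2
      have h4 : ((-((d : ℤ) * (r.natAbs : ℤ)) : ℤ) : ℝ) = -((d : ℝ) * (r.natAbs : ℝ)) := by
        simp only [Int.cast_neg, Int.cast_mul, Int.cast_natCast]
      rw [← h4]
      exact h3
    have g5 : (0 : ℝ) ≤ Xa + Xc + p₁ + 1 := by positivity
    linarith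
  have hxx : ∀ j', j' ≤ k → X₂ ≤ ((d * r + (nD p₁ m₂ j' : ℕ) *
      nt p₁ m₂ (d * I.natAbs) m j' : ℤ) : ℝ) := by
    intro j' hj'
    have g1 : ((X : ℤ) : ℝ) ≤ (((nD p₁ m₂ j' : ℕ) * nt p₁ m₂ (d * I.natAbs) m j' : ℤ) : ℝ) := by
      exact_mod_cast (hn j' hj').lo
    rw [Int.cast_add]
    have g2 : ((X : ℤ) : ℝ) = X := by push_cast; rfl
    linarith
  have hx0 := hxx 0 (Nat.zero_le _)
  have hxj := hxx j hjk
  rw [hnD0] at hx0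
  rw [hnD1 j hj1] at hxj
  -- the bounds
  have hcnt := co_cnt_le (z := z) (L := L) hdne (A := |κ| * H) (by positivity) (S := S)
    (fun y hy => by
      have h1 := (hSS y hy).2
      have h2 : κ * (H : ℝ) ≤ |κ| * H := mul_le_mul_of_nonneg_right (le_abs_self κ) (by positivity)
      exact ⟨h1.1.trans h2, h1.2.trans h2⟩)
  have hsize := hM₀ H L (by omega) hH1 (by
    refine le_trans ?_ hcnt
    refine le_trans ?_ hz.n0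
    exact mul_le_mul_of_nonneg_right (by linarith) (by positivity))
  have hBB2 : 2 ≤ CB₀ := by rw [hCB₀]; omega
  have hBBle : CB₀ ≤ CB * L := by
    have h1 : CB₀ ≤ CB := by rw [hCB]; omega
    exact h1.trans (Nat.le_mul_of_pos_right _ hL0)
  have hSB' : ∀ z ∈ S, z ∈ SW b s NN ((CB₀ : ℝ) ^ 100 * ((CB * L : ℕ) : ℝ) ^ 9) := by
    intro y hy
    exact SW_mono hsize (hSS y hy).1
  have hxb : ∀ j', j' ≤ k → |(d : ℤ) * r + (nD p₁ m₂ j' : ℕ) * nt p₁ m₂ (d * I.natAbs) m j'| ≤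
      (CB₀ : ℤ) := by
    intro j' hj'
    have g1 := (hn j' hj').lo
    have g2 := (hn j' hj').hi
    have g3 : |(d : ℤ) * r| ≤ ((d * r.natAbs : ℕ) : ℤ) := by
      rw [abs_mul]
      push_cast
      rw [abs_of_nonneg (by positivity : (0 : ℤ) ≤ d)]
    have g4 : ((d * r.natAbs + (X + τ) : ℕ) : ℤ) ≤ (CB₀ : ℤ) := by
      have : d * r.natAbs + (X + τ) ≤ CB₀ := by rw [hCB₀]; omega
      exact_mod_cast this
    refine le_trans ?_ g4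
    refine (abs_add_le _ _).trans ?_
    have g5 : |((nD p₁ m₂ j' : ℕ) : ℤ) * nt p₁ m₂ (d * I.natAbs) m j'| ≤ ((X + τ : ℕ) : ℤ) := by
      rw [abs_of_nonneg (le_trans (by positivity) g1)]
      push_cast
      exact g2
    push_cast at g3 g5 ⊢
    linarith
  have hxb0 := hxb 0 (Nat.zero_le _)
  have hxbj := hxb j hjk
  rw [hnD0] at hxb0
  rw [hnD1 j hj1] at hxbj
  have hl'L : l' ≤ L := by
    rw [hl']
    exact Nat.div_le_of_le_mul (Nat.mul_le_mul_right _ hpX)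
  have hlL : l ≤ L := a6.trans hl'L
  have hClA : C * l ≤ ((CA * L : ℕ) : ℝ) := by
    have g1 : C ≤ CA := by
      refine (Nat.le_ceil C).trans ?_
      have : ⌈C⌉₊ ≤ CA := by rw [hCA]; omega
      exact_mod_cast this
    have g2 : (l : ℝ) ≤ L := by exact_mod_cast hlL
    push_cast
    exact mul_le_mul g1 g2 (by positivity) (by positivity)
  have hLA : 2 * (p₁ * m₂) * L + L ≤ CA * L := by
    have g1 : 2 * (p₁ * m₂) + 1 ≤ CA := by rw [hCA]; omega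
    calc 2 * (p₁ * m₂) * L + L = (2 * (p₁ * m₂) + 1) * L := by ring
      _ ≤ CA * L := Nat.mul_le_mul_right _ g1
  have hABB : (3 * μ + 1) * (CA * L) ≤ CB * L := by
    have g1 : (3 * μ + 1) * CA ≤ CB := by rw [hCB]; omega
    calc (3 * μ + 1) * (CA * L) = ((3 * μ + 1) * CA) * L := by ring
      _ ≤ CB * L := Nat.mul_le_mul_right _ g1
  have hfin := co_end hb hs hSC hd0 hp₁.pos hm₂0 hI0' hI1' hβ hKu hc₁
    (by rw [hc₁def]; ring) hCa hBdef hCdef hpos hε₃ (by rw [hε₃def]; exact min_le_left _ _)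
    (by
      have g1 : ε₃ ≤ 1 / (2 * (B + 1)) := by rw [hε₃def]; exact min_le_right _ _
      rwa [le_div_iff₀ (by positivity)] at g1)
    hl0 hl'0 hL0 hu₀ hw₀ hBB2 hBBle hHN hSB' hμ hABB (by rw [hCB₀]; omega)
    (by rw [hCB₀]; omega) hxb0 hxbj hClA hLA hl'L dA dC (hlS l (by omega) u₀)
    ((hlN l (by omega)).1 (Ca * l) u₀) (hlN l' (by omega)).2 hx0 hxj
  rw [hm₂, Nat.cast_mul, liou_mul, liou_prime hp₂, liou_prime hp₃, liou_prime hp₁] at hfin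
  norm_num at hfin

end Pool.Agent.CUB

end
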