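import Pool.Agent.Lib_helper43.CU.F1
import Pool.Agent.Lib_helper43.CU.F2
import Pool.Agent.Lib_helper43.CU.F4
import Pool.Agent.Lib_helper43.CU.F5

/-!
# part 6: the theorem
-/

set_option autoImplicit false

section

namespace Pool.Agent.CUB

open Polynomial Pool.Agent.CF Filter

theorem co_pigeon {α : Type*} (T : Finset α) {Q : α → ℕ → Prop}
    (hQ : ∀ t M M', M ≤ M' → Q t M' → Q t M) (h : ∀ M : ℕ, ∃ t ∈ T, Q t M) :
    ∃ t ∈ T, ∀ M : ℕ, Q t M := by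
  by_contra hcon
  push Not at hcon
  have h1 : ∀ t ∈ T, ∀ᶠ L in atTop, ¬ Q t L := by
    intro t ht
    obtain ⟨M, hM⟩ := hcon t ht
    exact eventually_atTop.mpr ⟨M, fun M' hM' hq => hM (hQ t M M' hM' hq)⟩
  have h2 : ∀ᶠ L in atTop, ∀ t ∈ T, ¬ Q t L := (eventually_all_finset T).mpr h1
  obtain ⟨M, hM⟩ := eventually_atTop.mp h2
  obtain ⟨t, ht, hq⟩ := h M
  exact hM M le_rfl t ht hq

theorem co_phi {R : Type*} [CommRing R] (b : Module.Basis (Fin 3) ℤ R) {p : ℕ} {G g : ℤ × ℤ}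
    (h1 : (p : ℤ) ∣ G.1 - g.1) (h2 : (p : ℤ) ∣ G.2 - g.2) (h : (p : ℤ) ∣ Phi b g.1 g.2) :
    (p : ℤ) ∣ Phi b G.1 G.2 := by
  have e1 : ((G.1 : ℤ) : ZMod p) = (g.1 : ℤ) := by
    rw [← sub_eq_zero, ← Int.cast_sub]
    exact (ZMod.intCast_zmod_eq_zero_iff_dvd _ _).mpr h1
  have e2 : ((G.2 : ℤ) : ZMod p) = (g.2 : ℤ) := by
    rw [← sub_eq_zero, ← Int.cast_sub]
    exact (ZMod.intCast_zmod_eq_zero_iff_dvd _ _).mpr h2
  rw [← ZMod.intCast_zmod_eq_zero_iff_dvd] at h ⊢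
  unfold Phi at h ⊢
  push_cast at h ⊢
  rw [e1, e2]
  exact h

theorem co_line {p : ℕ} {G g y : ℤ × ℤ} (h1 : (p : ℤ) ∣ G.1 - g.1) (h2 : (p : ℤ) ∣ G.2 - g.2) :
    (p : ℤ) ∣ dt G y ↔ (p : ℤ) ∣ dt y g := by
  obtain ⟨a, ha⟩ := h1
  obtain ⟨c, hc⟩ := h2
  have e : dt G y = -dt y g + p * (a * y.2 - c * y.1) := by
    unfold dt
    linear_combination y.2 * ha - y.1 * hc
  rw [e, dvd_add_left (dvd_mul_right _ _), dvd_neg]

universe v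

/-- the sets with constant sign have density zero -/
theorem out {R : Type v} [CommRing R] [IsDomain R] {b : Module.Basis (Fin 3) ℤ R}
    (hb : b 0 = 1) {s : ℤ} (hs : s = 1 ∨ s = -1) : DZG (Fm b s) := by
  classical
  by_contra hS
  obtain ⟨β, hβ, hβ1, hU, hmax⟩ := de3 hS
  obtain ⟨ε, hε, hεβ, hcore⟩ := core.{v} hβ hβ1
  obtain ⟨p, q, hd, K, hK, hL⟩ := hmax (ε / 4) (by positivity)
  obtain ⟨d, hddef⟩ : ∃ d : ℕ, d = (dt p q).natAbs := ⟨_, rfl⟩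
  have hd0 : 0 < d := by rw [hddef]; exact Int.natAbs_pos.mpr hd
  have hdabs : |dt p q| = d := by rw [hddef, Int.natCast_natAbs]
  obtain ⟨η, hη, hcore2⟩ := hcore K hK d hd0
  obtain ⟨Q, hW, hQ⟩ := win hb d hd0
  obtain ⟨P, hP, hsel⟩ := sel hW hη (4 / (ε / 4) ^ 2 + 1) d
  have hex : ∃ g : ℕ → ℤ × ℤ, ∀ π ∈ Q, ¬ ((π : ℤ) ∣ (g π).1 ∧ (π : ℤ) ∣ (g π).2) ∧
      (π : ℤ) ∣ Phi b (g π).1 (g π).2 := by
    refine ⟨fun π => if h : π ∈ Q then (hQ π h).2.2.choose else 0, fun π hπ => ?_⟩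
    simp only [dif_pos hπ]
    exact (hQ π hπ).2.2.choose_spec
  obtain ⟨g, hg⟩ := hex
  have hPd : ∀ π ∈ P, π.Prime ∧ ¬ (π : ℤ) ∣ dt p q := by
    intro π hπ
    obtain ⟨h1, h2⟩ := hP π hπ
    refine ⟨(hQ π h1).1, fun h3 => ?_⟩
    have h4 : π ∣ d := by
      rw [hddef]
      exact Int.natCast_dvd.mp h3
    have := Nat.le_of_dvd hd0 h4
    omega
  have hPg : ∀ π ∈ P, ¬ ((π : ℤ) ∣ (g π).1 ∧ (π : ℤ) ∣ (g π).2) := fun π hπ =>
    (hg π (hP π hπ).1).1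
  obtain ⟨L₁, hL1⟩ := nm p q P hPd g hPg (μ := β - ε / 4) (ε := ε / 4) (by linarith)
    (by linarith) (by positivity)
  obtain ⟨L₂, hL2⟩ := nm p q P hPd g hPg (μ := β - ε / 2) (ε := ε / 4) (by linarith)
    (by linarith) (by positivity)
  -- a triple for every large near-maximal box
  have key : ∀ M : ℕ, ∃ t ∈ P ×ˢ (P ×ˢ P), ∃ L, M ≤ L ∧ t.1 ≠ t.2.1 ∧ t.1 ≠ t.2.2 ∧
      t.2.1 ≠ t.2.2 ∧ |(t.1 : ℝ) - t.2.1 * t.2.2| ≤ η * t.1 ∧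
      ∃ S ∈ Fm b s M, ∃ z : ℤ × ℤ, |(dt z q : ℝ)| ≤ K * L ∧ |(dt p z : ℝ)| ≤ K * L ∧
        (β - ε) * (L : ℝ) ^ 2 ≤ cnt S z p q L ∧
        (β - ε) * ((L : ℝ) ^ 2 / t.1) ≤ cnt (S ∩ Lam t.1 (g t.1)) z p q L ∧
        (β - ε) * ((L : ℝ) ^ 2 / (t.2.2 * t.2.1)) ≤
          cnt (S ∩ Lam t.2.2 (g t.2.2) ∩ Lam t.2.1 (g t.2.1)) z p q L := by
    intro M
    obtain ⟨L, hML, S, hSF', z, hz1, hz2, hz3⟩ := hL (M + L₁ + L₂)
    have hSF : S ∈ Fm b s M := Fm_anti b s (by omega) hSF'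
    have n1 := (hL1 L (by omega) S z).1 hz3
    have n2 := (hL2 L (by omega) S z).2
    obtain ⟨B₁, hB₁⟩ : ∃ B₁ : Finset ℕ, B₁ = P.filter (fun π : ℕ =>
      (cnt (S ∩ Lam π (g π)) z p q L : ℝ) < (β - ε / 4 - ε / 4) * ((L : ℝ) ^ 2 / π)) :=
      ⟨_, rfl⟩
    obtain ⟨B₂, hB₂⟩ : ∃ B₂ : ℕ → Finset ℕ, B₂ = fun ρ => (P.erase ρ).filter (fun π : ℕ =>
          (cnt (S ∩ Lam ρ (g ρ) ∩ Lam π (g π)) z p q L : ℝ) <
            (β - ε / 2 - ε / 4) * ((L : ℝ) ^ 2 / (ρ * π))) := ⟨_, rfl⟩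
    have hL0 : (0 : ℝ) ≤ (L : ℝ) ^ 2 := by positivity
    have notB : ∀ π ∈ P, π ∉ B₁ →
        (β - ε / 2) * ((L : ℝ) ^ 2 / π) ≤ cnt (S ∩ Lam π (g π)) z p q L := by
      intro π hπ h1
      rw [hB₁, Finset.mem_filter] at h1
      push Not at h1
      have h2 := h1 hπ
      have h3 : β - ε / 4 - ε / 4 = β - ε / 2 := by ring
      rwa [h3] at h2
    obtain ⟨p₁, hp₁, p₂, hp₂, p₃, hp₃, h12, h13, h23, k1, k3, k2, kη⟩ := hsel B₁ B₂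
      (by
        have : P ∩ B₁ = B₁ := by
          rw [Finset.inter_eq_right, hB₁]
          exact Finset.filter_subset _ _
        rw [this, hB₁]
        exact n1)
      (by
        intro ρ hρ
        rw [Finset.mem_sdiff] at hρ
        have h1 := n2 ρ hρ.1 (notB ρ hρ.1 hρ.2)
        have : P.erase ρ ∩ B₂ ρ = B₂ ρ := by
          rw [Finset.inter_eq_right, hB₂]
          exact Finset.filter_subset _ _
        rw [this, hB₂]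
        exact h1)
    refine ⟨(p₁, p₂, p₃), ?_, L, by omega, h12, h13, h23, kη, S, hSF, z, hz1, hz2, ?_, ?_, ?_⟩
    · rw [Finset.mem_product, Finset.mem_product]
      exact ⟨hp₁, hp₂, hp₃⟩
    · refine le_trans (mul_le_mul_of_nonneg_right (by linarith) hL0) hz3
    · refine le_trans (mul_le_mul_of_nonneg_right (by linarith) (by positivity)) (notB p₁ hp₁ k1)
    · have h1 : p₂ ∈ P.erase p₃ := Finset.mem_erase.mpr ⟨h23, hp₂⟩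
      rw [hB₂] at k2
      simp only [Finset.mem_filter, not_and, not_lt] at k2
      refine le_trans (mul_le_mul_of_nonneg_right (by linarith) (by positivity)) (k2 h1)
  obtain ⟨⟨p₁, p₂, p₃⟩, hmem, hfreq⟩ := co_pigeon _ (by
    rintro t M M' hMM ⟨L, k1, k2, k3, k4, k5, S, k6, k7⟩
    exact ⟨L, hMM.trans k1, k2, k3, k4, k5, S, Fm_anti b s hMM k6, k7⟩) key
  rw [Finset.mem_product, Finset.mem_product] at hmem
  obtain ⟨m1, m2, m3⟩ := hmem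
  simp only at m1 m2 m3 hfreq
  obtain ⟨-, -, h12, h13, h23, kη, -⟩ := hfreq 0
  obtain ⟨pr1, co1, -⟩ := hQ p₁ (hP p₁ m1).1
  obtain ⟨pr2, co2, -⟩ := hQ p₂ (hP p₂ m2).1
  obtain ⟨pr3, co3, -⟩ := hQ p₃ (hP p₃ m3).1
  obtain ⟨ng1, ph1⟩ := hg p₁ (hP p₁ m1).1
  obtain ⟨ng2, ph2⟩ := hg p₂ (hP p₂ m2).1
  obtain ⟨ng3, ph3⟩ := hg p₃ (hP p₃ m3).1
  obtain ⟨G, H, hGH, ⟨g11, g12⟩, ⟨g21, g22⟩, ⟨g31, g32⟩⟩ :=
    tr1 pr1 pr2 pr3 h12 h13 h23 ng1 ng2 ng3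
  obtain ⟨b', hb', hPhi, hel, -⟩ := tr2 hb hGH
  have c23 : IsCoprime (p₂ : ℤ) (p₃ : ℤ) :=
    Nat.isCoprime_iff_coprime.mpr ((Nat.coprime_primes pr2 pr3).mpr h23)
  refine hcore2 R b' hb' s hs (tG G H (Fm b s)) (tG_anti (Fm_anti b s) G H) (tr3G hGH hU) _
    (tr_Fm hGH hel rfl) (tc G H p) (tc G H q)
    (by rw [dt_tc hGH, hdabs]) p₁ p₂ p₃ pr1 pr2 pr3 h12 h13 h23 co1 co2 co3
    (by rw [hPhi]; exact co_phi b g11 g12 ph1) (by rw [hPhi]; exact co_phi b g21 g22 ph2)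
    (by rw [hPhi]; exact co_phi b g31 g32 ph3) kη ?_
  intro M
  obtain ⟨L, hML, -, -, -, -, S, hSF, z, hz1, hz2, z0, z1, z2⟩ := hfreq M
  refine ⟨L, hML, {y | tci G H y ∈ S}, ⟨S, hSF, rfl⟩, tc G H z, ⟨by rw [dt_tc hGH]; exact hz1, by rw [dt_tc hGH]; exact hz2, ?_, ?_, ?_⟩⟩
  · rw [tr4 hGH]
    exact z0
  · have hset : {y | tci G H y ∈ S} ∩ {y : ℤ × ℤ | (p₁ : ℤ) ∣ y.2} =
        {y | tci G H y ∈ S ∩ Lam p₁ (g p₁)} := by
      ext y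
      have h5 : (p₁ : ℤ) ∣ y.2 ↔ (p₁ : ℤ) ∣ dt (tci G H y) (g p₁) := by
        rw [← co_line g11 g12]
        have h6 : dt G (tci G H y) = y.2 := congrArg Prod.snd (tc_tci hGH y)
        rw [h6]
      exact and_congr Iff.rfl h5
    rw [hset, tr4 hGH]
    exact z1
  · have hset : {y | tci G H y ∈ S} ∩ {y : ℤ × ℤ | ((p₂ * p₃ : ℕ) : ℤ) ∣ y.2} =
        {y | tci G H y ∈ S ∩ Lam p₃ (g p₃) ∩ Lam p₂ (g p₂)} := by
      ext y
      have h5 : ((p₂ * p₃ : ℕ) : ℤ) ∣ y.2 ↔ ((p₃ : ℤ) ∣ dt (tci G H y) (g p₃) ∧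
          (p₂ : ℤ) ∣ dt (tci G H y) (g p₂)) := by
        rw [← co_line g31 g32, ← co_line g21 g22]
        have h6 : dt G (tci G H y) = y.2 := congrArg Prod.snd (tc_tci hGH y)
        rw [h6]
        push_cast
        constructor
        · intro h7
          exact ⟨(dvd_mul_left _ _).trans h7, (dvd_mul_right _ _).trans h7⟩
        · rintro ⟨h7, h8⟩
          exact c23.mul_dvd h8 h7
      constructor
      · rintro ⟨h7, h8⟩
        exact ⟨⟨h7, (h5.mp h8).1⟩, (h5.mp h8).2⟩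
      · rintro ⟨⟨h7, h8⟩, h9⟩
        exact ⟨h7, h5.mpr ⟨h8, h9⟩⟩
    rw [hset, tr4 hGH]
    have h6 : ((p₂ * p₃ : ℕ) : ℝ) = (p₃ : ℝ) * p₂ := by push_cast; ring
    rw [h6]
    exact z2

end Pool.Agent.CUB

end

section

namespace Pool.Agent.CUB

open Polynomial Pool.Agent.CF

/-- the square -/
noncomputable def sq2 (H : ℕ) : Finset (ℤ × ℤ) := Finset.Icc (-(H : ℤ)) H ×ˢ Finset.Icc (-(H : ℤ)) H

theorem mem_sq2 {H : ℕ} {q : ℤ × ℤ} : q ∈ sq2 H ↔ |q.1| ≤ (H : ℤ) ∧ |q.2| ≤ (H : ℤ) := by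
  unfold sq2
  rw [Finset.mem_product, Finset.mem_Icc, Finset.mem_Icc, abs_le, abs_le]

theorem neg_mem_sq2 {H : ℕ} {q : ℤ × ℤ} (h : q ∈ sq2 H) : -q ∈ sq2 H := by
  rw [mem_sq2] at h ⊢
  rw [Prod.fst_neg, Prod.snd_neg, abs_neg, abs_neg]
  exact h

/-- the sign `s` is taken by `λ(f(n))` for some `A ≤ n ≤ B` -/
def Has (f : ℤ[X]) (s : ℤ) (A B : ℕ) : Prop :=
  ∃ n : ℕ, A ≤ n ∧ n ≤ B ∧ liouville (f.eval (n : ℤ)) = s

section
variable {R : Type*} [CommRing R] [IsDomain R] {b : Module.Basis (Fin 3) ℤ R}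

/-- one sign, one square -/
theorem one_sign (hb : b 0 = 1) {s : ℤ} (hs : s = 1 ∨ s = -1) {ε : ℝ} (hε : 0 < ε) :
    ∃ H₀ : ℕ, ∀ H : ℕ, H₀ ≤ H → 1 ≤ H → ∀ N : ℕ, 1 ≤ N →
      ({z : ℤ × ℤ | z ∈ sq2 H ∧ z ∈ SW b s N ((H : ℝ) ^ 10)}.ncard : ℝ) ≤ ε * (H : ℝ) ^ 2 := by
  classical
  obtain ⟨H₀, hH⟩ := out hb hs ε hε
  refine ⟨H₀, fun H hHH hH1 N hN => ?_⟩
  have hF : {z : ℤ × ℤ | z ∈ sq2 H ∧ z ∈ SW b s N ((H : ℝ) ^ 10)} ∈ Fm b s H₀ := by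
    refine ⟨H, N, hHH, hH1, hN, ?_⟩
    rintro z ⟨h1, h2⟩
    exact ⟨h2, (mem_sq2.mp h1).1, (mem_sq2.mp h1).2⟩
  refine le_of_eq_of_le ?_ (hH H hHH _ hF)
  rw [← Set.ncard_coe_finset]
  congr 2
  ext z
  simp only [Finset.coe_filter, Set.mem_ofPred_eq]
  constructor
  · rintro ⟨h1, h2⟩
    exact ⟨h1, h1, h2⟩
  · rintro ⟨h1, h2⟩
    exact h2

theorem mem_SW (hb : b 0 = 1) {q : ℤ × ℤ} (hq : q ≠ 0) {s : ℤ} (hs : s = 1 ∨ s = -1) {N B : ℕ}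
    {T : ℝ} (hB : ∀ n : ℕ, (n : ℝ) ≤ N * Real.exp T → n ≤ B)
    (h : ¬ Has (minpoly ℤ (el b q.1 q.2)) (-s) N B) : -q ∈ SW b s N T := by
  have hmp := gb_minpoly hb hq
  intro n hn1 hn2
  have h1 : ((n : ℕ) : R) + el b (-q).1 (-q).2 = (((n : ℕ) : ℤ) : R) - el b q.1 q.2 := by
    rw [Prod.fst_neg, Prod.snd_neg, el_neg]
    push_cast
    ring
  have hne : Algebra.norm ℤ ((((n : ℕ) : ℤ) : R) - el b q.1 q.2) ≠ 0 := by
    intro h0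
    rw [Algebra.norm_eq_zero_iff_of_basis b] at h0
    have hxy := el_eq_int hb (sub_eq_zero.mp h0).symm
    exact hq (Prod.ext hxy.1 hxy.2)
  rw [h1]
  have h2 : liouville (Algebra.norm ℤ ((((n : ℕ) : ℤ) : R) - el b q.1 q.2)) ≠ -s := by
    intro h3
    apply h
    refine ⟨n, hn1, hB n hn2, ?_⟩
    rw [hmp, charpoly_eval]
    exact h3
  rcases liou_ne hne with h3 | h3 <;> rcases hs with h' | h' <;> rw [h3, h'] <;>
    rw [h3, h'] at h2 <;> norm_num at h2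

/-- the window theorem -/
theorem window (hb : b 0 = 1) {ε : ℝ} (hε : 0 < ε) :
    ∃ H₀ : ℕ, ∀ H K : ℕ, H₀ ≤ H → Real.exp ((H : ℝ) ^ 10) ≤ K → ∀ N : ℕ, 1 ≤ N →
      ({q : ℤ × ℤ | |q.1| ≤ (H : ℤ) ∧ |q.2| ≤ (H : ℤ) ∧
        ¬ ((minpoly ℤ (el b q.1 q.2)).natDegree = 3 ∧
          Has (minpoly ℤ (el b q.1 q.2)) 1 N (K * N) ∧
          Has (minpoly ℤ (el b q.1 q.2)) (-1) N (K * N))}.ncard : ℝ) ≤ ε * (H : ℝ) ^ 2 := by
  have hε4 : 0 < ε / 4 := by positivity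
  obtain ⟨H₁, h1⟩ := one_sign hb (s := 1) (Or.inl rfl) hε4
  obtain ⟨H₂, h2⟩ := one_sign hb (s := -1) (Or.inr rfl) hε4
  obtain ⟨H₃, h3⟩ := exists_nat_ge (2 / ε + 1)
  refine ⟨H₁ + H₂ + H₃ + 1, fun H K hH hK N hN => ?_⟩
  have l1 := h1 H (by omega) (by omega) N hN
  have l2 := h2 H (by omega) (by omega) N hN
  have hB : ∀ n : ℕ, (n : ℝ) ≤ N * Real.exp ((H : ℝ) ^ 10) → n ≤ K * N := by
    intro n hn
    have h4 : (n : ℝ) ≤ N * K := hn.trans (mul_le_mul_of_nonneg_left hK (by positivity))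
    have h5 : n ≤ N * K := by exact_mod_cast h4
    rwa [mul_comm] at h5
  obtain ⟨A, hA⟩ : ∃ A : Set (ℤ × ℤ), A = {z : ℤ × ℤ | z ∈ sq2 H ∧ z ∈ SW b 1 N ((H : ℝ) ^ 10)} :=
    ⟨_, rfl⟩
  obtain ⟨B, hB'⟩ : ∃ B : Set (ℤ × ℤ), B = {z : ℤ × ℤ | z ∈ sq2 H ∧ z ∈ SW b (-1) N ((H : ℝ) ^ 10)} :=
    ⟨_, rfl⟩
  rw [← hA] at l1
  rw [← hB'] at l2
  have fA : A.Finite := by
    rw [hA]
    exact (sq2 H).finite_toSet.subset fun z hz => hz.1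
  have fB : B.Finite := by
    rw [hB']
    exact (sq2 H).finite_toSet.subset fun z hz => hz.1
  have hsub : {q : ℤ × ℤ | |q.1| ≤ (H : ℤ) ∧ |q.2| ≤ (H : ℤ) ∧
        ¬ ((minpoly ℤ (el b q.1 q.2)).natDegree = 3 ∧
          Has (minpoly ℤ (el b q.1 q.2)) 1 N (K * N) ∧
          Has (minpoly ℤ (el b q.1 q.2)) (-1) N (K * N))} ⊆
      {0} ∪ ((fun z => -z) '' A ∪ (fun z => -z) '' B) := by
    rintro q ⟨q1, q2, q3⟩
    by_cases hq : q = 0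
    · exact Or.inl hq
    right
    have hdeg : (minpoly ℤ (el b q.1 q.2)).natDegree = 3 := by
      rw [gb_minpoly hb hq, Matrix.charpoly_natDegree_eq_dim]
      simp
    have hsq : -q ∈ sq2 H := neg_mem_sq2 (mem_sq2.mpr ⟨q1, q2⟩)
    by_cases hp : Has (minpoly ℤ (el b q.1 q.2)) 1 N (K * N)
    · have hm : ¬ Has (minpoly ℤ (el b q.1 q.2)) (-1) N (K * N) := fun h => q3 ⟨hdeg, hp, h⟩
      left
      refine ⟨-q, ?_, neg_neg q⟩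
      rw [hA]
      exact ⟨hsq, mem_SW hb hq (Or.inl rfl) hB hm⟩
    · right
      refine ⟨-q, ?_, neg_neg q⟩
      rw [hB']
      exact ⟨hsq, mem_SW hb hq (Or.inr rfl) hB (by rw [neg_neg]; exact hp)⟩
  have fin1 : ((fun z : ℤ × ℤ => -z) '' A).Finite := fA.image _
  have fin2 : ((fun z : ℤ × ℤ => -z) '' B).Finite := fB.image _
  have c1 := (Set.ncard_le_ncard hsub ((Set.finite_singleton _).union (fin1.union fin2))).trans
    ((Set.ncard_union_le _ _).trans (Nat.add_le_add_left (Set.ncard_union_le _ _) _))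
  have c2 : ((fun z : ℤ × ℤ => -z) '' A).ncard ≤ A.ncard := Set.ncard_image_le fA
  have c3 : ((fun z : ℤ × ℤ => -z) '' B).ncard ≤ B.ncard := Set.ncard_image_le fB
  rw [Set.ncard_singleton] at c1
  have c4 : ({q : ℤ × ℤ | |q.1| ≤ (H : ℤ) ∧ |q.2| ≤ (H : ℤ) ∧
        ¬ ((minpoly ℤ (el b q.1 q.2)).natDegree = 3 ∧
          Has (minpoly ℤ (el b q.1 q.2)) 1 N (K * N) ∧
          Has (minpoly ℤ (el b q.1 q.2)) (-1) N (K * N))}.ncard : ℝ) ≤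
      1 + (A.ncard + B.ncard) := by
    exact_mod_cast c1.trans (by omega)
  refine c4.trans ?_
  have hHr : (2 / ε + 1 : ℝ) ≤ H := h3.trans (by exact_mod_cast (by omega : H₃ ≤ H))
  have hH1 : (1 : ℝ) ≤ H := by
    have : 0 < 2 / ε := by positivity
    linarith
  have hH2 : 2 / ε ≤ (H : ℝ) ^ 2 := by nlinarith
  have hH3 : 1 ≤ ε / 2 * (H : ℝ) ^ 2 := by
    have := mul_le_mul_of_nonneg_left hH2 (by positivity : 0 ≤ ε / 2)
    have e : ε / 2 * (2 / ε) = 1 := by field_simp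
    linarith
  nlinarith

end

/-- double counting: if every window is bad for few of the elements of a finite set, then few
elements are bad in many windows, eventually -/
theorem co_double {α : Type*} [DecidableEq α] (S : Finset α) (G : α → ℕ → Prop) {ε X : ℝ}
    (hε : 0 < ε) (hG : ∀ j : ℕ, ({q : α | q ∈ S ∧ ¬ G q j}.ncard : ℝ) ≤ ε * X) :
    ({q : α | q ∈ S ∧ ¬ ∀ J₀ : ℕ, ∃ J : ℕ, J₀ ≤ J ∧
      (1 - ε) * J ≤ ({j : ℕ | j < J ∧ G q j}.ncard : ℝ)}.ncard : ℝ) ≤ X := by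
  classical
  obtain ⟨E, hE⟩ : ∃ E : Finset α, E = S.filter (fun q => ¬ ∀ J₀ : ℕ, ∃ J : ℕ, J₀ ≤ J ∧
      (1 - ε) * J ≤ ({j : ℕ | j < J ∧ G q j}.ncard : ℝ)) := ⟨_, rfl⟩
  have hE' : {q : α | q ∈ S ∧ ¬ ∀ J₀ : ℕ, ∃ J : ℕ, J₀ ≤ J ∧
      (1 - ε) * J ≤ ({j : ℕ | j < J ∧ G q j}.ncard : ℝ)} = (E : Set α) := by
    rw [hE]
    ext q
    simp only [Set.mem_ofPred_eq, Finset.coe_filter]
  rw [hE', Set.ncard_coe_finset]
  have key : ∀ q ∈ E, ∃ J₀ : ℕ, ∀ J : ℕ, J₀ ≤ J →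
      ({j : ℕ | j < J ∧ G q j}.ncard : ℝ) < (1 - ε) * J := by
    intro q hq
    rw [hE, Finset.mem_filter] at hq
    have h1 := hq.2
    push Not at h1
    exact h1
  choose! J₀ hJ₀ using key
  obtain ⟨M, hM⟩ : ∃ M : ℕ, ∀ q ∈ E, J₀ q ≤ M := by
    obtain ⟨M, hM⟩ := ((E.finite_toSet).image J₀).bddAbove
    exact ⟨M, fun q hq => hM (Set.mem_image_of_mem _ hq)⟩
  obtain ⟨J, hJ⟩ : ∃ J : ℕ, J = M + 1 := ⟨_, rfl⟩
  have hJ0 : (0 : ℝ) < J := by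
    rw [hJ]
    positivity
  -- the number of bad windows of an element
  have hbad : ∀ q ∈ E, ε * J ≤ (((Finset.range J).filter (fun j => ¬ G q j)).card : ℝ) := by
    intro q hq
    have h1 := hJ₀ q hq J ((hM q hq).trans (by omega))
    have h2 : {j : ℕ | j < J ∧ G q j}.ncard = ((Finset.range J).filter (fun j => G q j)).card := by
      rw [← Set.ncard_coe_finset]
      congr 1
      ext j
      simp only [Set.mem_ofPred_eq, Finset.coe_filter, Finset.mem_range]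
    have h3 := Finset.card_filter_add_card_filter_not (s := Finset.range J) (fun j => G q j)
    rw [Finset.card_range] at h3
    have h4 : (((Finset.range J).filter (fun j => G q j)).card : ℝ) +
        ((Finset.range J).filter (fun j => ¬ G q j)).card = J := by exact_mod_cast h3
    rw [h2] at h1
    linarith
  have h5 : (E.card : ℝ) * (ε * J) ≤
      ∑ q ∈ E, (((Finset.range J).filter (fun j => ¬ G q j)).card : ℝ) := by
    have := Finset.card_nsmul_le_sum E (fun q => (((Finset.range J).filter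
      (fun j => ¬ G q j)).card : ℝ)) (ε * J) hbad
    rwa [nsmul_eq_mul] at this
  have h6 : ∑ q ∈ E, (((Finset.range J).filter (fun j => ¬ G q j)).card : ℝ) =
      ∑ j ∈ Finset.range J, ((E.filter (fun q => ¬ G q j)).card : ℝ) := by
    simp only [Finset.card_filter, Nat.cast_sum]
    exact Finset.sum_comm
  have h7 : ∀ j ∈ Finset.range J, ((E.filter (fun q => ¬ G q j)).card : ℝ) ≤ ε * X := by
    intro j _
    refine le_trans ?_ (hG j)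
    have h8 : (E.filter (fun q => ¬ G q j)).card = ((E.filter (fun q => ¬ G q j) :
      Finset α) : Set α).ncard := (Set.ncard_coe_finset _).symm
    rw [h8]
    have h9 : {q : α | q ∈ S ∧ ¬ G q j}.Finite := S.finite_toSet.subset fun q hq => hq.1
    refine Nat.cast_le.mpr (Set.ncard_le_ncard ?_ h9)
    intro q hq
    rw [Finset.coe_filter, Set.mem_ofPred_eq, hE, Finset.mem_filter] at hq
    exact ⟨hq.1.1, hq.2⟩
  have h8 := Finset.sum_le_card_nsmul (Finset.range J) _ _ h7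
  rw [Finset.card_range, nsmul_eq_mul, ← h6] at h8
  have h9 := h5.trans h8
  have h10 : (E.card : ℝ) * (ε * J) ≤ X * (ε * J) := by linarith
  exact le_of_mul_le_mul_right h10 (by positivity)

section
variable {R : Type*} [CommRing R] [IsDomain R] {b : Module.Basis (Fin 3) ℤ R}

/-- the theorem for fixed elements -/
theorem fixed (hb : b 0 = 1) {ε : ℝ} (hε : 0 < ε) :
    ∃ H₀ : ℕ, ∀ H K : ℕ, H₀ ≤ H → Real.exp ((H : ℝ) ^ 10) ≤ K →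
      ({q : ℤ × ℤ | |q.1| ≤ (H : ℤ) ∧ |q.2| ≤ (H : ℤ) ∧
        ¬ ((minpoly ℤ (el b q.1 q.2)).natDegree = 3 ∧
          ∀ J₀ : ℕ, ∃ J : ℕ, J₀ ≤ J ∧ (1 - ε) * J ≤ ({j : ℕ | j < J ∧
            Has (minpoly ℤ (el b q.1 q.2)) 1 (K ^ j) (K ^ (j + 1)) ∧
            Has (minpoly ℤ (el b q.1 q.2)) (-1) (K ^ j) (K ^ (j + 1))}.ncard : ℝ))}.ncard : ℝ) ≤
        ε * (H : ℝ) ^ 2 := by
  classical
  obtain ⟨H₀, h0⟩ := window hb (show 0 < ε * (ε / 2) by positivity)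
  obtain ⟨H₃, h3⟩ := exists_nat_ge (2 / ε + 1)
  refine ⟨H₀ + H₃, fun H K hH hK => ?_⟩
  have hK1 : 1 ≤ K := by
    have h1 : (0 : ℝ) < K := lt_of_lt_of_le (Real.exp_pos _) hK
    have h2 : 0 < K := by exact_mod_cast h1
    omega
  have hd := co_double (sq2 H) (fun q j => Has (minpoly ℤ (el b q.1 q.2)) 1 (K ^ j) (K ^ (j + 1)) ∧
    Has (minpoly ℤ (el b q.1 q.2)) (-1) (K ^ j) (K ^ (j + 1))) (X := ε / 2 * (H : ℝ) ^ 2) hε (by
      intro j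
      have h1 := h0 H K (by omega) hK (K ^ j) (Nat.one_le_pow _ _ hK1)
      have h2 : ε * (ε / 2) * (H : ℝ) ^ 2 = ε * (ε / 2 * (H : ℝ) ^ 2) := by ring
      rw [h2] at h1
      refine le_trans ?_ h1
      have h4 : {q : ℤ × ℤ | |q.1| ≤ (H : ℤ) ∧ |q.2| ≤ (H : ℤ) ∧
        ¬ ((minpoly ℤ (el b q.1 q.2)).natDegree = 3 ∧
          Has (minpoly ℤ (el b q.1 q.2)) 1 (K ^ j) (K * K ^ j) ∧
          Has (minpoly ℤ (el b q.1 q.2)) (-1) (K ^ j) (K * K ^ j))}.Finite :=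
        (sq2 H).finite_toSet.subset fun z hz => mem_sq2.mpr ⟨hz.1, hz.2.1⟩
      refine Nat.cast_le.mpr (Set.ncard_le_ncard ?_ h4)
      rintro q ⟨q1, q2⟩
      have q3 := mem_sq2.mp q1
      refine ⟨q3.1, q3.2, fun hq => q2 ?_⟩
      rw [pow_succ' K j]
      exact hq.2)
  have hHr : (2 / ε + 1 : ℝ) ≤ H := h3.trans (by exact_mod_cast (by omega : H₃ ≤ H))
  have hH1 : (1 : ℝ) ≤ H := by
    have : 0 < 2 / ε := by positivity
    linarith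
  have hH2 : 2 / ε ≤ (H : ℝ) ^ 2 := by nlinarith
  have hH3 : 1 ≤ ε / 2 * (H : ℝ) ^ 2 := by
    have := mul_le_mul_of_nonneg_left hH2 (by positivity : 0 ≤ ε / 2)
    have e : ε / 2 * (2 / ε) = 1 := by field_simp
    linarith
  obtain ⟨E, hE⟩ : ∃ E : Set (ℤ × ℤ), E = {q : ℤ × ℤ | q ∈ sq2 H ∧ ¬ ∀ J₀ : ℕ, ∃ J : ℕ, J₀ ≤ J ∧
      (1 - ε) * J ≤ ({j : ℕ | j < J ∧ (Has (minpoly ℤ (el b q.1 q.2)) 1 (K ^ j) (K ^ (j + 1)) ∧
    Has (minpoly ℤ (el b q.1 q.2)) (-1) (K ^ j) (K ^ (j + 1)))}.ncard : ℝ)} := ⟨_, rfl⟩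
  rw [← hE] at hd
  have fE : E.Finite := by
    rw [hE]
    exact (sq2 H).finite_toSet.subset fun z hz => hz.1
  have hsub : {q : ℤ × ℤ | |q.1| ≤ (H : ℤ) ∧ |q.2| ≤ (H : ℤ) ∧
        ¬ ((minpoly ℤ (el b q.1 q.2)).natDegree = 3 ∧
          ∀ J₀ : ℕ, ∃ J : ℕ, J₀ ≤ J ∧ (1 - ε) * J ≤ ({j : ℕ | j < J ∧
            Has (minpoly ℤ (el b q.1 q.2)) 1 (K ^ j) (K ^ (j + 1)) ∧
            Has (minpoly ℤ (el b q.1 q.2)) (-1) (K ^ j) (K ^ (j + 1))}.ncard : ℝ))} ⊆ {0} ∪ E := by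
    rintro q ⟨q1, q2, q3⟩
    by_cases hq : q = 0
    · exact Or.inl hq
    right
    have hdeg : (minpoly ℤ (el b q.1 q.2)).natDegree = 3 := by
      rw [gb_minpoly hb hq, Matrix.charpoly_natDegree_eq_dim]
      simp
    rw [hE]
    exact ⟨mem_sq2.mpr ⟨q1, q2⟩, fun h => q3 ⟨hdeg, h⟩⟩
  have c1 := (Set.ncard_le_ncard hsub ((Set.finite_singleton _).union fE)).trans
    (Set.ncard_union_le _ _)
  rw [Set.ncard_singleton] at c1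
  refine le_trans (Nat.cast_le.mpr c1) ?_
  push_cast
  linarith

end

end Pool.Agent.CUB

end
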