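import Pool.Agent.Lib_helper43.CU.F6

/-!
# part 7: many windows
-/

set_option autoImplicit false

open Polynomial Pool.Agent.CF

noncomputable section

namespace Pool.Agent.CUB

/-- double counting: if every window of every `W k` is bad for few of the elements of a finite set,
then few elements are bad in many windows of `W k` for all large `k` -/
theorem co_double' {α : Type*} [DecidableEq α] (S : Finset α) (W : ℕ → Finset ℕ)
    (hW : ∀ k, (W k).Nonempty) (G : α → ℕ → Prop) {ε X : ℝ}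
    (hε : 0 < ε) (hG : ∀ k : ℕ, ∀ j ∈ W k, ({q : α | q ∈ S ∧ ¬ G q j}.ncard : ℝ) ≤ ε * X) :
    ({q : α | q ∈ S ∧ ¬ ∀ k₀ : ℕ, ∃ k : ℕ, k₀ ≤ k ∧
      (1 - ε) * (W k).card ≤ ({j : ℕ | j ∈ W k ∧ G q j}.ncard : ℝ)}.ncard : ℝ) ≤ X := by
  classical
  obtain ⟨E, hE⟩ : ∃ E : Finset α, E = S.filter (fun q => ¬ ∀ k₀ : ℕ, ∃ k : ℕ, k₀ ≤ k ∧
      (1 - ε) * (W k).card ≤ ({j : ℕ | j ∈ W k ∧ G q j}.ncard : ℝ)) := ⟨_, rfl⟩
  have hE' : {q : α | q ∈ S ∧ ¬ ∀ k₀ : ℕ, ∃ k : ℕ, k₀ ≤ k ∧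
      (1 - ε) * (W k).card ≤ ({j : ℕ | j ∈ W k ∧ G q j}.ncard : ℝ)} = (E : Set α) := by
    rw [hE]
    ext q
    simp only [Set.mem_ofPred_eq, Finset.coe_filter]
  rw [hE', Set.ncard_coe_finset]
  have key : ∀ q ∈ E, ∃ k₀ : ℕ, ∀ k : ℕ, k₀ ≤ k →
      ({j : ℕ | j ∈ W k ∧ G q j}.ncard : ℝ) < (1 - ε) * (W k).card := by
    intro q hq
    rw [hE, Finset.mem_filter] at hq
    have h1 := hq.2
    push Not at h1
    exact h1
  choose! k₀ hk₀ using key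
  obtain ⟨M, hM⟩ : ∃ M : ℕ, ∀ q ∈ E, k₀ q ≤ M := by
    obtain ⟨M, hM⟩ := ((E.finite_toSet).image k₀).bddAbove
    exact ⟨M, fun q hq => hM (Set.mem_image_of_mem _ hq)⟩
  obtain ⟨V, hV⟩ : ∃ V : Finset ℕ, V = W M := ⟨_, rfl⟩
  have hV0 : (0 : ℝ) < V.card := by
    rw [hV]
    exact_mod_cast Finset.card_pos.mpr (hW M)
  -- the number of bad windows of an element
  have hbad : ∀ q ∈ E, ε * V.card ≤ ((V.filter (fun j => ¬ G q j)).card : ℝ) := by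
    intro q hq
    have h1 := hk₀ q hq M (hM q hq)
    rw [← hV] at h1
    have h2 : {j : ℕ | j ∈ V ∧ G q j}.ncard = (V.filter (fun j => G q j)).card := by
      rw [← Set.ncard_coe_finset]
      congr 1
      ext j
      simp only [Set.mem_ofPred_eq, Finset.coe_filter]
    have h3 := Finset.card_filter_add_card_filter_not (s := V) (fun j => G q j)
    have h4 : ((V.filter (fun j => G q j)).card : ℝ) +
        (V.filter (fun j => ¬ G q j)).card = V.card := by exact_mod_cast h3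
    rw [h2] at h1
    linarith
  have h5 : (E.card : ℝ) * (ε * V.card) ≤
      ∑ q ∈ E, ((V.filter (fun j => ¬ G q j)).card : ℝ) := by
    have := Finset.card_nsmul_le_sum E (fun q => ((V.filter
      (fun j => ¬ G q j)).card : ℝ)) (ε * V.card) hbad
    rwa [nsmul_eq_mul] at this
  have h6 : ∑ q ∈ E, ((V.filter (fun j => ¬ G q j)).card : ℝ) =
      ∑ j ∈ V, ((E.filter (fun q => ¬ G q j)).card : ℝ) := by
    simp only [Finset.card_filter, Nat.cast_sum]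
    exact Finset.sum_comm
  have h7 : ∀ j ∈ V, ((E.filter (fun q => ¬ G q j)).card : ℝ) ≤ ε * X := by
    intro j hj
    rw [hV] at hj
    refine le_trans ?_ (hG M j hj)
    have h8 : (E.filter (fun q => ¬ G q j)).card = ((E.filter (fun q => ¬ G q j) :
      Finset α) : Set α).ncard := (Set.ncard_coe_finset _).symm
    rw [h8]
    have h9 : {q : α | q ∈ S ∧ ¬ G q j}.Finite := S.finite_toSet.subset fun q hq => hq.1
    refine Nat.cast_le.mpr (Set.ncard_le_ncard ?_ h9)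
    intro q hq
    rw [Finset.coe_filter, Set.mem_ofPred_eq, hE, Finset.mem_filter] at hq
    exact ⟨hq.1.1, hq.2⟩
  have h8 := Finset.sum_le_card_nsmul V _ _ h7
  rw [nsmul_eq_mul, ← h6] at h8
  have h9 := h5.trans h8
  have h10 : (E.card : ℝ) * (ε * V.card) ≤ X * (ε * V.card) := by linarith
  exact le_of_mul_le_mul_right h10 (by positivity)

section
variable {R : Type*} [CommRing R] [IsDomain R] {b : Module.Basis (Fin 3) ℤ R}

/-- the theorem for fixed elements and arbitrary finite sets of windows -/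
theorem windows (hb : b 0 = 1) {ε : ℝ} (hε : 0 < ε) :
    ∃ H₀ : ℕ, ∀ H K : ℕ, H₀ ≤ H → Real.exp ((H : ℝ) ^ 10) ≤ K →
      ∀ W : ℕ → Finset ℕ, (∀ k, (W k).Nonempty) → (∀ k, ∀ N ∈ W k, 1 ≤ N) →
      ({q : ℤ × ℤ | |q.1| ≤ (H : ℤ) ∧ |q.2| ≤ (H : ℤ) ∧
        ¬ ((minpoly ℤ (el b q.1 q.2)).natDegree = 3 ∧
          ∀ k₀ : ℕ, ∃ k : ℕ, k₀ ≤ k ∧ (1 - ε) * (W k).card ≤ ({N : ℕ | N ∈ W k ∧
            Has (minpoly ℤ (el b q.1 q.2)) 1 N (K * N) ∧
            Has (minpoly ℤ (el b q.1 q.2)) (-1) N (K * N)}.ncard : ℝ))}.ncard : ℝ) ≤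
        ε * (H : ℝ) ^ 2 := by
  classical
  obtain ⟨H₀, h0⟩ := window hb (show 0 < ε * (ε / 2) by positivity)
  obtain ⟨H₃, h3⟩ := exists_nat_ge (2 / ε + 1)
  refine ⟨H₀ + H₃, fun H K hH hK W hW hW1 => ?_⟩
  have hd := co_double' (sq2 H) W hW (fun q N => Has (minpoly ℤ (el b q.1 q.2)) 1 N (K * N) ∧
    Has (minpoly ℤ (el b q.1 q.2)) (-1) N (K * N)) (X := ε / 2 * (H : ℝ) ^ 2) hε (by
      intro k N hN
      have h1 := h0 H K (by omega) hK N (hW1 k N hN)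
      have h2 : ε * (ε / 2) * (H : ℝ) ^ 2 = ε * (ε / 2 * (H : ℝ) ^ 2) := by ring
      rw [h2] at h1
      refine le_trans ?_ h1
      have h4 : {q : ℤ × ℤ | |q.1| ≤ (H : ℤ) ∧ |q.2| ≤ (H : ℤ) ∧
        ¬ ((minpoly ℤ (el b q.1 q.2)).natDegree = 3 ∧
          Has (minpoly ℤ (el b q.1 q.2)) 1 N (K * N) ∧
          Has (minpoly ℤ (el b q.1 q.2)) (-1) N (K * N))}.Finite :=
        (sq2 H).finite_toSet.subset fun z hz => mem_sq2.mpr ⟨hz.1, hz.2.1⟩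
      refine Nat.cast_le.mpr (Set.ncard_le_ncard ?_ h4)
      rintro q ⟨q1, q2⟩
      have q3 := mem_sq2.mp q1
      exact ⟨q3.1, q3.2, fun hq => q2 hq.2⟩)
  have hHr : (2 / ε + 1 : ℝ) ≤ H := h3.trans (by exact_mod_cast (by omega : H₃ ≤ H))
  have hH1 : (1 : ℝ) ≤ H := by
    have : 0 < 2 / ε := by positivity
    linarith
  have hH2 : 2 / ε ≤ (H : ℝ) ^ 2 := by nlinarith
  have hH3 : 1 ≤ ε / 2 * (H : ℝ) ^ 2 := by
    have := mul_le_mul_of_nonneg_left hH2 (by positivity : 0 ≤ ε / 2)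
    have e : ε / 2 * (2 / ε) = 1 := by field_simp
    linarith
  obtain ⟨E, hE⟩ : ∃ E : Set (ℤ × ℤ), E = {q : ℤ × ℤ | q ∈ sq2 H ∧ ¬ ∀ k₀ : ℕ, ∃ k : ℕ, k₀ ≤ k ∧
      (1 - ε) * (W k).card ≤ ({N : ℕ | N ∈ W k ∧ (Has (minpoly ℤ (el b q.1 q.2)) 1 N (K * N) ∧
    Has (minpoly ℤ (el b q.1 q.2)) (-1) N (K * N))}.ncard : ℝ)} := ⟨_, rfl⟩
  rw [← hE] at hd
  have fE : E.Finite := by
    rw [hE]
    exact (sq2 H).finite_toSet.subset fun z hz => hz.1
  have hsub : {q : ℤ × ℤ | |q.1| ≤ (H : ℤ) ∧ |q.2| ≤ (H : ℤ) ∧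
        ¬ ((minpoly ℤ (el b q.1 q.2)).natDegree = 3 ∧
          ∀ k₀ : ℕ, ∃ k : ℕ, k₀ ≤ k ∧ (1 - ε) * (W k).card ≤ ({N : ℕ | N ∈ W k ∧
            Has (minpoly ℤ (el b q.1 q.2)) 1 N (K * N) ∧
            Has (minpoly ℤ (el b q.1 q.2)) (-1) N (K * N)}.ncard : ℝ))} ⊆ {0} ∪ E := by
    rintro q ⟨q1, q2, q3⟩
    by_cases hq : q = 0
    · exact Or.inl hq
    right
    have hdeg : (minpoly ℤ (el b q.1 q.2)).natDegree = 3 := by
      rw [gb_minpoly hb hq, Matrix.charpoly_natDegree_eq_dim]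
      simp
    rw [hE]
    exact ⟨mem_sq2.mpr ⟨q1, q2⟩, fun h => q3 ⟨hdeg, h⟩⟩
  have c1 := (Set.ncard_le_ncard hsub ((Set.finite_singleton _).union fE)).trans
    (Set.ncard_union_le _ _)
  rw [Set.ncard_singleton] at c1
  refine le_trans (Nat.cast_le.mpr c1) ?_
  push_cast
  linarith

end

end Pool.Agent.CUB

end
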